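import Pool.Agent.K6.H83.QH.LeafQ

/-! The corank near the critical degree: three doublings of every class. -/

set_option autoImplicit false

namespace Pool.Agent.K6.H83.QH

open Finset Pool.Agent.TH176.Nag Pool.Agent.TH603.Sur Pool.Agent.TH641.UM Pool.Agent.TH2.NU
  Pool.Agent.Y205.MD Pool.Agent.Y205.FW

/-- the size of a leaf, three doublings -/
theorem leaf_linQ {N v a g0 g1 : ℕ} (hv : 1 ≤ v) (hlo : 8 * v ≤ a)
    (hcd : N * (a + 1).choose 2 + g0 = 64 * N * (v + 1).choose 2 + g1)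
    (hga : N * v * 64 ≤ 2 * (g0 + g1) + N * v * 8) :
    17 * (N * a) ≤ 136 * (N * v) + 4 * g1 := by
  obtain ⟨j, rfl⟩ : ∃ j, a = 8 * v + j := ⟨a - 8 * v, by omega⟩
  have e1 := Pool.Agent.TH2.NU.two_choose (8 * v + j)
  have e2 := Pool.Agent.TH2.NU.two_choose v
  obtain ⟨A, hA⟩ : ∃ A, A = (8 * v + j + 1).choose 2 := ⟨_, rfl⟩
  obtain ⟨B, hB⟩ : ∃ B, B = (v + 1).choose 2 := ⟨_, rfl⟩
  rw [← hA] at e1 hcd
  rw [← hB] at e2 hcd
  have h1 : 2 * (N * A) = 64 * (N * v * v) + 8 * (N * v) + N * (16 * v * j + j * j + j) := by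
    calc 2 * (N * A) = N * (2 * A) := by ring
      _ = N * ((8 * v + j) * (8 * v + j + 1)) := by rw [e1]
      _ = _ := by ring
  have h2 : 2 * (64 * N * B) = 64 * (N * v * v) + 64 * (N * v) := by
    calc 2 * (64 * N * B) = 64 * N * (2 * B) := by ring
      _ = 64 * N * (v * (v + 1)) := by rw [e2]
      _ = _ := by ring
  have h3 : 17 * (N * j) ≤ N * (16 * v * j + j * j + j) := by
    have h4 : 17 * j ≤ 16 * v * j + j * j + j := by
      have h5 : 16 * 1 * j ≤ 16 * v * j := Nat.mul_le_mul_right _ (Nat.mul_le_mul_left _ hv)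
      have h6 : 0 ≤ j * j := Nat.zero_le _
      omega
    calc 17 * (N * j) = N * (17 * j) := by ring
      _ ≤ _ := Nat.mul_le_mul_left _ h4
  have h7 : N * (8 * v + j) = 8 * (N * v) + N * j := by ring
  rw [h7]
  omega

theorem Lm_eq (L : List (ℕ × ℕ)) : Lm L = Ll L + (L.map Prod.fst).sum := by
  induction L with
  | nil => simp [Lm, Ll]
  | cons p L ih =>
    rw [Lm_cons, Ll_cons, List.map_cons, List.sum_cons, ih]
    ring

theorem cM_sumG (V : Finset ℕ) (n a : ℕ → ℕ) :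
    cM (∑ x ∈ V, n x • ({a x} : Multiset ℕ)) = ∑ x ∈ V, n x * (a x + 1).choose 2 := by
  rw [cM_sum]
  exact sum_congr rfl fun x _ => cM_smul _ _

theorem S2_smul (n a : ℕ) : S2 (n • {a}) = n * a ^ 2 := by
  unfold S2
  rw [Multiset.map_nsmul, Multiset.sum_nsmul]
  simp

theorem S2_sumG (V : Finset ℕ) (n a : ℕ → ℕ) :
    S2 (∑ x ∈ V, n x • ({a x} : Multiset ℕ)) = ∑ x ∈ V, n x * a x ^ 2 := by
  classical
  induction V using Finset.induction_on with
  | empty => simp [S2]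
  | insert b V hb ih => rw [sum_insert hb, sum_insert hb, S2_add, ih, S2_smul]

theorem sum_sumG (V : Finset ℕ) (n a : ℕ → ℕ) :
    (∑ x ∈ V, n x • ({a x} : Multiset ℕ)).sum = ∑ x ∈ V, n x * a x := by
  classical
  induction V using Finset.induction_on with
  | empty => simp
  | insert b V hb ih =>
    rw [sum_insert hb, sum_insert hb, Multiset.sum_add, ih, Multiset.sum_nsmul]
    simp

/-- **The corank near the critical degree.** -/
theorem coreQ {G : Multiset ℕ} {r m v d B : ℕ} (hr : 1 ≤ r) (hm : 1 ≤ m) (hB : v + B = d)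
    (hG : ∀ x ∈ G, 1 ≤ x ∧ x + 1 ≤ m) (hk : G.toFinset.card ≤ r) (hB1 : 1024 * m ≤ B)
    (hBd : 2 ^ 23 * (r * m ^ 2) ≤ B * d) (hT1 : (d + 1) * (d + 2) ≤ 2 * cM (G + {v}))
    (hT2 : 2 * cM (G + {v}) ≤ (d + 1) * (d + 2) + 2 * m) : crkM (TF d) ({v} + G) = 0 := by
  classical
  obtain ⟨V, hV⟩ : ∃ V : Finset ℕ, V = G.toFinset := ⟨_, rfl⟩
  rw [← hV] at hk
  have hVv : ∀ x ∈ V, 1 ≤ x ∧ x + 1 ≤ m := fun x hx => hG x (by
    rw [hV, Multiset.mem_toFinset] at hx
    exact hx)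
  obtain ⟨Nf, hNf⟩ : ∃ Nf : ℕ → ℕ, ∀ x, Nf x = G.count x / 64 := ⟨_, fun _ => rfl⟩
  obtain ⟨Rf, hRf⟩ : ∃ Rf : ℕ → ℕ, ∀ x, Rf x = G.count x % 64 := ⟨_, fun _ => rfl⟩
  have hNR : ∀ x, 64 * Nf x + Rf x = G.count x := fun x => by
    rw [hNf, hRf]
    exact Nat.div_add_mod _ _
  have hR63 : ∀ x, Rf x ≤ 63 := fun x => by
    rw [hRf]
    have := Nat.mod_lt (G.count x) (show 0 < 64 by norm_num)
    omega
  have hGsum : G = ∑ x ∈ V, G.count x • ({x} : Multiset ℕ) := by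
    rw [hV]
    exact (Multiset.toFinset_sum_count_nsmul_eq G).symm
  have hGsplit : {v} + G = ∑ x ∈ V, Multiset.replicate (4 ^ 3 * Nf x) x +
      (∑ x ∈ V, Rf x • ({x} : Multiset ℕ) + {v}) := by
    rw [← add_assoc, ← sum_add_distrib, add_comm]
    congr 1
    conv_lhs => rw [hGsum]
    refine sum_congr rfl fun x _ => ?_
    rw [← hNR x, add_smul, ← Multiset.nsmul_singleton]
    congr 1
  rw [hGsplit]
  have hposS : ∀ u ∈ TF d, 0 ≤ u.1 ∧ 0 ≤ u.2 := by
    intro u hu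
    have h1 : u ∈ TZ d := by rw [← coe_TF]; exact mem_coe.2 hu
    exact ⟨h1.1, h1.2.1⟩
  refine Nat.le_zero.1 (classes_acc hposS 3 Nf V fun a g0 g1 hleaf => ?_)
  have hlo : ∀ x ∈ V, 8 * x ≤ a x := fun x hx => by simpa using (hleaf x hx).lo
  have hhi : ∀ x ∈ V, a x + 1 ≤ 8 * (x + 1) := fun x hx => by simpa using (hleaf x hx).hi
  have hcd : ∀ x ∈ V, Nf x * (a x + 1).choose 2 + g0 x =
      64 * Nf x * (x + 1).choose 2 + g1 x := fun x hx => by simpa using (hleaf x hx).cd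
  have hga : ∀ x ∈ V, Nf x * x * 64 ≤ 2 * (g0 x + g1 x) + Nf x * x * 8 := fun x hx => by
    simpa using (hleaf x hx).gain
  obtain ⟨L, hL⟩ : ∃ L : List (ℕ × ℕ), L = V.toList.map (fun x => (Nf x, a x)) ++
      V.toList.map (fun x => (Rf x, x)) := ⟨_, rfl⟩
  have hlenL : L.length = 2 * V.card := by
    rw [hL, List.length_append, List.length_map, List.length_map, Finset.length_toList]
    ring
  have hGGL : GG L = ∑ x ∈ V, Nf x • ({a x} : Multiset ℕ) + ∑ x ∈ V, Rf x • ({x} : Multiset ℕ) := by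
    rw [hL, GG_append]
    unfold GG
    rw [List.map_map, List.map_map]
    rw [← Finset.sum_map_toList V (fun x => Nf x • ({a x} : Multiset ℕ)),
      ← Finset.sum_map_toList V (fun x => Rf x • ({x} : Multiset ℕ))]
    rfl
  have hgoal : ∑ x ∈ V, Multiset.replicate (Nf x) (a x) +
      (∑ x ∈ V, Rf x • ({x} : Multiset ℕ) + {v}) = {v} + GG L := by
    rw [hGGL]
    have e : ∑ x ∈ V, Multiset.replicate (Nf x) (a x) = ∑ x ∈ V, Nf x • ({a x} : Multiset ℕ) :=
      sum_congr rfl fun x _ => (Multiset.nsmul_singleton _ _).symm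
    rw [e]
    abel
  rw [hgoal, zero_add]
  -- the numbers
  have hcG : cM G = ∑ x ∈ V, G.count x * (x + 1).choose 2 := by
    conv_lhs => rw [hGsum]
    exact cM_sumG V (fun x => G.count x) fun x => x
  have hsG : G.sum = ∑ x ∈ V, G.count x * x := by
    conv_lhs => rw [hGsum]
    exact sum_sumG V (fun x => G.count x) fun x => x
  have hS2G : S2 G = ∑ x ∈ V, G.count x * x ^ 2 := by
    conv_lhs => rw [hGsum]
    exact S2_sumG V (fun x => G.count x) fun x => x
  obtain ⟨X, hX⟩ : ∃ X, X = ∑ x ∈ V, Nf x * x := ⟨_, rfl⟩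
  obtain ⟨e1, he1⟩ : ∃ e1, e1 = ∑ x ∈ V, Rf x * x := ⟨_, rfl⟩
  obtain ⟨e0, he0⟩ : ∃ e0, e0 = ∑ x ∈ V, Rf x := ⟨_, rfl⟩
  have hLX : G.sum = 64 * X + e1 := by
    rw [hsG, hX, he1, mul_sum, ← sum_add_distrib]
    refine sum_congr rfl fun x _ => ?_
    rw [← hNR x]
    ring
  have hcGv : cM (G + {v}) = cM G + (v + 1).choose 2 := by rw [cM_add, cM_single]
  have htv := Pool.Agent.TH2.NU.two_choose v
  have hreg : v * (v + 1) + B * d ≤ (d + 1) * (d + 2) := by
    have : (d + 1) * (d + 2) = v * (v + 1) + B * d + (B * v + 3 * B + 2 * v + 2) := by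
      rw [← hB]; ring
    omega
  have hcG2 : B * d ≤ 2 * cM G := by omega
  have htwo := two_cMS G
  have hGS : G.sum ≤ S2 G := by
    rw [hsG, hS2G]
    refine sum_le_sum fun x hx => Nat.mul_le_mul_left _ ?_
    have h1 := (hVv x hx).1
    calc x = x * 1 := (mul_one _).symm
      _ ≤ x * x := Nat.mul_le_mul_left _ h1
      _ = x ^ 2 := (sq x).symm
  have hGm : S2 G + G.sum ≤ m * G.sum := by
    rw [hsG, hS2G, mul_sum, ← sum_add_distrib]
    refine sum_le_sum fun x hx => ?_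
    have h1 := (hVv x hx).2
    calc G.count x * x ^ 2 + G.count x * x = G.count x * x * (x + 1) := by ring
      _ ≤ G.count x * x * m := Nat.mul_le_mul_left _ h1
      _ = m * (G.count x * x) := by ring
  have hLlL : Ll L = ∑ x ∈ V, (Nf x * a x + Rf x * x) := by
    rw [← sum_GG, hGGL, Multiset.sum_add, sum_sumG V Nf a, sum_sumG V Rf fun x => x,
      ← sum_add_distrib]
  have hS2L : S2 (GG L) = ∑ x ∈ V, (Nf x * a x ^ 2 + Rf x * x ^ 2) := by
    rw [hGGL, S2_add, S2_sumG V Nf a, S2_sumG V Rf fun x => x, ← sum_add_distrib]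
  have hcL : cM (GG L) = ∑ x ∈ V, (Nf x * (a x + 1).choose 2 + Rf x * (x + 1).choose 2) := by
    rw [hGGL, cM_add, cM_sumG V Nf a, cM_sumG V Rf fun x => x, ← sum_add_distrib]
  have hnL : (L.map Prod.fst).sum = ∑ x ∈ V, (Nf x + Rf x) := by
    rw [hL, List.map_append, List.sum_append, List.map_map, List.map_map,
      sum_add_distrib, ← Finset.sum_map_toList V Nf, ← Finset.sum_map_toList V Rf]
    rfl
  have hS2LG : S2 G ≤ S2 (GG L) := by
    rw [hS2G, hS2L]
    refine sum_le_sum fun x hx => ?_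
    have h1 := Nat.pow_le_pow_left (hlo x hx) 2
    have h2 : Nf x * (64 * x ^ 2) ≤ Nf x * a x ^ 2 := by
      refine Nat.mul_le_mul_left _ ?_
      have e : (8 * x) ^ 2 = 64 * x ^ 2 := by ring
      omega
    have e : G.count x * x ^ 2 = Nf x * (64 * x ^ 2) + Rf x * x ^ 2 := by
      rw [← hNR x]; ring
    omega
  refine leafQ (r := r) (m := m) (B := B) (T := cM (G + {v})) (G1 := ∑ x ∈ V, g1 x) (X := X)
    (e0 := e0) (e1 := e1) (n := ∑ x ∈ V, (Nf x + Rf x)) hr hm hB (by omega) ?_ hB1 hBd (by omega)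
    ?_ hT1 hT2 ?_ ?_ (by rw [Lm_eq, hnL]) ?_ ?_ ?_ (by rw [← hLX]; omega)
  · intro p hp
    rw [hL, List.mem_append] at hp
    rcases hp with hp | hp
    · obtain ⟨x, hx, rfl⟩ := List.mem_map.1 hp
      rw [Finset.mem_toList] at hx
      have h1 := hhi x hx
      have h2 := (hVv x hx).2
      simp only
      omega
    · obtain ⟨x, hx, rfl⟩ := List.mem_map.1 hp
      rw [Finset.mem_toList] at hx
      have h2 := (hVv x hx).2
      simp only
      omega
  · rw [hcGv, cM_add, cM_single, hcL, hcG]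
    have h1 : ∑ x ∈ V, (Nf x * (a x + 1).choose 2 + Rf x * (x + 1).choose 2) + ∑ x ∈ V, g0 x =
        ∑ x ∈ V, G.count x * (x + 1).choose 2 + ∑ x ∈ V, g1 x := by
      rw [← sum_add_distrib, ← sum_add_distrib]
      refine sum_congr rfl fun x hx => ?_
      have h4 := hcd x hx
      have e : G.count x * (x + 1).choose 2 = 64 * Nf x * (x + 1).choose 2 +
          Rf x * (x + 1).choose 2 := by
        rw [← hNR x]
        ring
      omega
    omega
  · have h1 : ∑ x ∈ V, Nf x * x * 64 ≤ ∑ x ∈ V, (2 * (g0 x + g1 x) + Nf x * x * 8) :=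
      sum_le_sum hga
    rw [sum_add_distrib, ← mul_sum, sum_add_distrib, ← sum_mul, ← sum_mul, ← hX] at h1
    omega
  · have h2 : ∑ x ∈ V, 17 * (Nf x * a x + Rf x * x) ≤
        ∑ x ∈ V, (136 * (Nf x * x) + 4 * g1 x + 17 * (Rf x * x)) := by
      refine sum_le_sum fun x hx => ?_
      have h3 := leaf_linQ (hVv x hx).1 (hlo x hx) (hcd x hx) (hga x hx)
      omega
    have h4 : ∑ x ∈ V, (136 * (Nf x * x) + 4 * g1 x + 17 * (Rf x * x)) =
        136 * X + 4 * ∑ x ∈ V, g1 x + 17 * e1 := by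
      rw [sum_add_distrib, sum_add_distrib, ← mul_sum, ← mul_sum, ← mul_sum, ← hX, ← he1]
    rw [← mul_sum] at h2
    rw [hLlL]
    omega
  · rw [sum_add_distrib, ← he0]
    refine Nat.add_le_add_right ?_ _
    rw [hX]
    refine sum_le_sum fun x hx => ?_
    calc Nf x = Nf x * 1 := (mul_one _).symm
      _ ≤ Nf x * x := Nat.mul_le_mul_left _ (hVv x hx).1
  · have h1 : e1 ≤ ∑ _x ∈ V, 63 * m := by
      rw [he1]
      refine sum_le_sum fun x hx => Nat.mul_le_mul (hR63 x) ?_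
      have := (hVv x hx).2
      omega
    rw [sum_const, smul_eq_mul] at h1
    have h2 : V.card * (63 * m) ≤ r * (63 * m) := Nat.mul_le_mul_right _ hk
    have e : r * (63 * m) = 63 * (r * m) := by ring
    omega
  · have h1 : e0 ≤ ∑ _x ∈ V, 63 := by
      rw [he0]
      exact sum_le_sum fun x _ => hR63 x
    rw [sum_const, smul_eq_mul] at h1
    omega

end Pool.Agent.K6.H83.QH
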