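import Pool.Agent.K6.H83.QH.Core
import Pool.Agent.TH641.UM.Ones
import Pool.Agent.TH745.MN.Main
import Pool.Agent.W609.Fin

/-! The expected dimension for quasi-homogeneous classes. -/

set_option autoImplicit false

namespace Pool.Agent.K6.H83.QH

open Finset Pool.Agent.TH176.Nag Pool.Agent.TH603.Sur Pool.Agent.TH641.UM Pool.Agent.TH2.NU
  Pool.Agent.H932R3

/-- the degrees which are not large -/
theorem sgn_mid {v d m : ℕ} (hm : 1 ≤ m) (hd : v + 64 * m + 32 ≤ d)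
    (hs : (d + 1) * (d + 2) < 27 * (m + 4) ^ 3 + v * (v + 1)) (n : ℕ) :
    ((d + 2).choose 2 ≤ cond (R v m n) → Emp (R v m n) (TZ d)) ∧
      (cond (R v m n) ≤ (d + 2).choose 2 → Sur (R v m n) (TZ d)) := by
  have hT : 2 * (d + 2).choose 2 = (d + 1) * (d + 2) := tchoose (d + 1)
  have hv := tchoose v
  obtain ⟨B, rfl⟩ : ∃ B, d = v + B := ⟨d - v, by omega⟩
  have hB : 64 * m + 32 ≤ B := by omega
  have e1 : (v + B + 1) * (v + B + 2) = v * (v + 1) + (B * B + 2 * (v * B) + 2 * v + 3 * B + 2) := by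
    ring
  -- `m` is not small
  have h1 : (64 * m + 32) * (64 * m + 32) ≤ B * B := Nat.mul_le_mul hB hB
  have hm3 : 3 ≤ m := by
    by_contra hcon
    have h2 : m = 1 ∨ m = 2 := by omega
    rcases h2 with rfl | rfl
    · norm_num at h1 hs
      nlinarith
    · norm_num at h1 hs
      nlinarith
  refine sgn hm ?_ (fun N l hl h2 h3 => near hl hd h2 h3 ?_) n
  · nlinarith
  · have hc := two_cond_Q v m N l
    by_contra hcon
    push Not at hcon
    have h4 : 448 * m * (m * (m + 1)) ≤ N * (m * (m + 1)) := Nat.mul_le_mul_right _ hcon.le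
    have h5 : 27 * (m + 4) ^ 3 + 2 * m ≤ 448 * m * (m * (m + 1)) := by
      obtain ⟨t, rfl⟩ : ∃ t, m = t + 3 := ⟨m - 3, by omega⟩
      ring_nf
      nlinarith [Nat.zero_le (t ^ 3), Nat.zero_le (t ^ 2), Nat.zero_le t]
    nlinarith

/-- a multiset of numbers `m` and numbers at most one -/
theorem split_ms {m : ℕ} (M : Multiset ℕ) (h : ∀ x ∈ M, x = m ∨ x ≤ 1) :
    ∃ N s t : ℕ, M = N • {m} + s • {1} + t • {0} := by
  induction M using Multiset.induction_on with
  | empty => exact ⟨0, 0, 0, by simp⟩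
  | cons a M ih =>
    obtain ⟨N, s, t, hM⟩ := ih fun x hx => h x (Multiset.mem_cons_of_mem hx)
    have ha := h a (Multiset.mem_cons_self a M)
    rw [← Multiset.singleton_add, hM]
    rcases ha with rfl | ha
    · exact ⟨N + 1, s, t, by rw [add_smul N 1, one_smul]; abel⟩
    · have h2 : a = 0 ∨ a = 1 := by omega
      rcases h2 with rfl | rfl
      · exact ⟨N, s, t + 1, by rw [add_smul t 1, one_smul]; abel⟩
      · exact ⟨N, s + 1, t, by rw [add_smul s 1, one_smul]; abel⟩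

theorem mem_ms {ι : Type} [Fintype ι] {w : ι → ℕ} {x : ℕ} (h : x ∈ ms w) : ∃ i, w i = x := by
  unfold ms at h
  rw [Multiset.mem_sum] at h
  obtain ⟨i, -, hi⟩ := h
  exact ⟨i, (Multiset.mem_singleton.1 hi).symm⟩

/-- simple points -/
theorem sgn_ones {d : ℕ} {ι κ : Type} [Fintype ι] [Fintype κ] {u : ι → ℕ} {w : κ → ℕ} {s t : ℕ}
    (hms : ms w = ms u + s • {1} + t • {0})
    (h : ((d + 2).choose 2 ≤ cond u → Emp u (TZ d)) ∧
      (cond u ≤ (d + 2).choose 2 → Sur u (TZ d))) :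
    ((d + 2).choose 2 ≤ cond w → Emp w (TZ d)) ∧
      (cond w ≤ (d + 2).choose 2 → Sur w (TZ d)) := by
  have hms2 : ms (Sum.elim (Sum.elim u (fun _ : Fin s => 1)) (fun _ : Fin t => 0)) = ms w := by
    rw [ms_sum, ms_sum, ms_fin, ms_fin, hms]
  have hc : cond w = cond u + s := by
    rw [← cond_of_ms hms2]
    unfold Pool.Agent.TH603.Sur.cond
    rw [Fintype.sum_sum_type, Fintype.sum_sum_type]
    simp
  have hle : ms (Sum.elim u (fun _ : Fin s => 1)) ≤ ms w := by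
    rw [ms_sum, ms_fin, hms]
    exact Multiset.le_add_right _ _
  constructor
  · intro h1
    refine Emp_of_ms hle ?_
    rcases le_total ((d + 2).choose 2) (cond u) with h2 | h2
    · refine Emp_of_ms ?_ (h.1 h2)
      rw [ms_sum]
      exact Multiset.le_add_right _ _
    · exact Emp_ones (h.2 h2) (by omega)
  · intro h1
    have h2 : cond u ≤ (d + 2).choose 2 := by omega
    refine Sur_of_ms hms2 ?_
    refine Pool.Agent.TH745.MN.Sur_emb (g := Sum.inl) Sum.inl_injective (fun i => rfl) ?_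
      (w := Sum.elim u (fun _ : Fin s => 1)) ?_
    · rintro (i | i) hi
      · exact ⟨i, rfl⟩
      · exact absurd rfl hi
    · obtain ⟨p, hp⟩ : ∃ p, (d + 2).choose 2 = cond u + s + p := ⟨_, (by omega :
        (d + 2).choose 2 = cond u + s + ((d + 2).choose 2 - (cond u + s)))⟩
      have hc2 : cond (Sum.elim u (fun _ : Fin s => 1)) = cond u + s := by
        unfold Pool.Agent.TH603.Sur.cond
        rw [Fintype.sum_sum_type]
        simp
      refine Sur_of_ones (p := p) ?_ (by rw [hc2]; omega)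
      refine Emp_of_ms (le_of_eq ?_) (Emp_ones (p := s + p) (h.2 h2) (by omega))
      rw [ms_sum, ms_sum, ms_sum, ms_fin, ms_fin, ms_fin, add_smul]
      abel

theorem ms_cons {n : ℕ} (M : ℕ) (w : Fin n → ℕ) :
    ms (Fin.cons M w : Fin (n + 1) → ℕ) = {M} + ms w := by
  unfold ms
  rw [Fin.sum_univ_succ]
  simp

/-- **Quasi-homogeneous classes.** -/
theorem main (n M m : ℕ) (hm : 1 ≤ m) (w : Fin n → ℕ) (hw : ∀ i, w i = m ∨ w i ≤ 1) :
    ∃ F : MvPolynomial (Fin (n + 1) × Fin 2) ℚ, F ≠ 0 ∧ ∀ P : Fin (n + 1) → Fin 2 → ℂ,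
      MvPolynomial.aeval (fun ij : Fin (n + 1) × Fin 2 => P ij.1 ij.2) F ≠ 0 →
        ∀ d : ℕ, M + 64 * m + 32 ≤ d →
          Pool.Agent.H932R3.ExpDim ℂ (Fin.cons M w : Fin (n + 1) → ℕ) P d := by
  obtain ⟨N, s, t, hN⟩ := split_ms (m := m) (ms w) fun x hx => by
    obtain ⟨i, rfl⟩ := mem_ms hx
    exact hw i
  have hms : ms (Fin.cons M w : Fin (n + 1) → ℕ) = ms (R M m N) + s • {1} + t • {0} := by
    rw [ms_cons, hN, ms_R]
    abel
  have key : ∀ d, M + 64 * m + 32 ≤ d → (d + 1) * (d + 2) < 27 * (m + 4) ^ 3 + M * (M + 1) →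
      ((d + 2).choose 2 ≤ cond (Fin.cons M w : Fin (n + 1) → ℕ) →
        Emp (Fin.cons M w : Fin (n + 1) → ℕ) (TZ d)) ∧
      (cond (Fin.cons M w : Fin (n + 1) → ℕ) ≤ (d + 2).choose 2 →
        Sur (Fin.cons M w : Fin (n + 1) → ℕ) (TZ d)) := fun d h1 h2 =>
    sgn_ones hms (sgn_mid hm h1 h2 N)
  obtain ⟨F1, hF1, h1⟩ := expDim_two (w := (Fin.cons M w : Fin (n + 1) → ℕ))
    (A := fun d => M + 64 * m + 32 ≤ d ∧ (d + 1) * (d + 2) < 27 * (m + 4) ^ 3 + M * (M + 1) ∧
      (d + 2).choose 2 ≤ cond (Fin.cons M w : Fin (n + 1) → ℕ))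
    (B := fun d => M + 64 * m + 32 ≤ d ∧ (d + 1) * (d + 2) < 27 * (m + 4) ^ 3 + M * (M + 1) ∧
      cond (Fin.cons M w : Fin (n + 1) → ℕ) ≤ (d + 2).choose 2)
    (27 * (m + 4) ^ 3 + M * (M + 1)) (fun d hd => by nlinarith [hd.2.1])
    (fun d hd => (key d hd.1 hd.2.1).1 hd.2.2) (fun d hd => (key d hd.1 hd.2.1).2 hd.2.2)
  obtain ⟨F2, hF2, h2⟩ := W609.one_big ℂ (M := M) (m := m) (k := m) (w := w) hm le_rfl
    (fun i => by rcases hw i with h | h <;> omega)
    (fun i hi => by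
      exfalso
      rcases hw i with h | h <;> omega)
  refine ⟨F1 * F2, mul_ne_zero hF1 hF2, fun P hP d hd => ?_⟩
  rw [map_mul] at hP
  rcases Nat.lt_or_ge ((d + 1) * (d + 2)) (27 * (m + 4) ^ 3 + M * (M + 1)) with h3 | h3
  · refine h1 P (left_ne_zero_of_mul hP) d ?_
    rcases le_total ((d + 2).choose 2) (cond (Fin.cons M w : Fin (n + 1) → ℕ)) with h4 | h4
    · exact Or.inl ⟨hd, h3, h4⟩
    · exact Or.inr ⟨hd, h3, h4⟩
  · exact h2 P (right_ne_zero_of_mul hP) d (by omega) (Or.inl h3)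
      (Or.inr (Or.inr fun i => by rcases hw i with h | h <;> omega))

end Pool.Agent.K6.H83.QH
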