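import Pool.Agent.K6.H83.QH.RecL
import Pool.Agent.K6.H83.QH.Main

/-! The expected dimension: one arbitrary multiplicity, an exceptional part, and equal
multiplicities. -/

set_option autoImplicit false

namespace Pool.Agent.K6.H83.QH

open Finset Pool.Agent.TH176.Nag Pool.Agent.TH603.Sur Pool.Agent.TH641.UM Pool.Agent.TH2.NU
  Pool.Agent.H932R3

/-- a multiset as a list of groups -/
theorem exists_groups (F : Multiset ℕ) : ∃ L : List (ℕ × ℕ), GG L = F ∧
    L.length = F.toFinset.card ∧ (∀ p ∈ L, 1 ≤ p.1) ∧ Lm L = (F.map (· + 1)).sum := by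
  classical
  refine ⟨F.toFinset.toList.map fun x => (F.count x, x), ?_, ?_, ?_, ?_⟩
  · unfold GG
    rw [List.map_map]
    have h := Finset.sum_map_toList F.toFinset fun x => F.count x • ({x} : Multiset ℕ)
    rw [Multiset.toFinset_sum_count_nsmul_eq] at h
    exact h
  · rw [List.length_map, Finset.length_toList]
  · intro p hp
    obtain ⟨x, hx, rfl⟩ := List.mem_map.1 hp
    rw [Finset.mem_toList, Multiset.mem_toFinset] at hx
    exact Multiset.count_pos.2 hx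
  · unfold Lm
    rw [List.map_map]
    have h := Finset.sum_map_toList F.toFinset fun x => F.count x * (x + 1)
    rw [Finset.sum_multiset_map_count]
    exact h

theorem light {F : Multiset ℕ} {k v d m : ℕ} (hm : 1 ≤ m) (hk : F.toFinset.card ≤ k)
    (hd : v + 2 ^ (k + 7) * (m + 1 + (F.map (· + 1)).sum) + 2 ^ (2 * k + 15) ≤ d) (n : ℕ) :
    XM (TF d) (n • {m} + ({v} + F)) := by
  obtain ⟨L, hG, hlen, hL, hLm⟩ := exists_groups F
  rw [← hLm] at hd
  have hvd : v ≤ d := le_trans (le_trans (Nat.le_add_right _ _) (Nat.le_add_right _ _)) hd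
  obtain ⟨B, hB⟩ : ∃ B, v + B = d := ⟨d - v, by omega⟩
  have h1 : 2 ^ (L.length + 7) ≤ 2 ^ (k + 7) := Nat.pow_le_pow_right (by norm_num) (by omega)
  have h2 : 2 ^ (2 * L.length + 15) ≤ 2 ^ (2 * k + 15) :=
    Nat.pow_le_pow_right (by norm_num) (by omega)
  have h3 : 2 ^ (k + 7) * (m + 1 + Lm L) = 2 ^ (k + 7) * (m + 1) + 2 ^ (k + 7) * Lm L := by ring
  have h4 : 2 ^ (L.length + 7) * (m + 1) ≤ 2 ^ (k + 7) * (m + 1) := Nat.mul_le_mul_right _ h1
  have h5 : 2 ^ (L.length + 7) * Lm L ≤ 2 ^ (k + 7) * Lm L := Nat.mul_le_mul_right _ h1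
  rw [h3] at hd
  have h7 : 2 ^ (L.length + 7) * Lm L ≤ B ∧ 2 ^ (2 * L.length + 15) ≤ B ∧ m ≤ B ∧
      2 ^ (L.length + 7) * (m + 1) ≤ B := by
    have h8 : m + 1 ≤ 2 ^ (k + 7) * (m + 1) := Nat.le_mul_of_pos_left _ (by positivity)
    generalize 2 ^ (L.length + 7) * Lm L = x1 at h5 ⊢
    generalize 2 ^ (L.length + 7) * (m + 1) = x2 at h4 ⊢
    generalize 2 ^ (k + 7) * Lm L = x3 at h5 hd
    generalize 2 ^ (k + 7) * (m + 1) = x4 at h4 hd h8
    generalize 2 ^ (2 * L.length + 15) = x5 at h2 ⊢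
    generalize 2 ^ (2 * k + 15) = x6 at h2 hd
    omega
  have h6 := main_rec rfl hL hB h7.1 h7.2.1 B m hm (by omega) h7.2.2.2 n
  rwa [hG] at h6

theorem ms_split {n : ℕ} (w : Fin n → ℕ) (S : Finset (Fin n)) :
    ms w = (∑ i ∈ S, ({w i} : Multiset ℕ)) + ∑ i ∈ Sᶜ, ({w i} : Multiset ℕ) := by
  unfold ms
  rw [Finset.sum_add_sum_compl]

/-- **An arbitrary multiplicity, an exceptional part, equal multiplicities.** -/
theorem mainL (n M m k : ℕ) (hm : 1 ≤ m) (w : Fin n → ℕ) (S : Finset (Fin n))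
    (hS : ∀ i ∉ S, w i = m ∨ w i ≤ 1) (hk : (S.image w).card ≤ k) :
    ∃ F : MvPolynomial (Fin (n + 1) × Fin 2) ℚ, F ≠ 0 ∧ ∀ P : Fin (n + 1) → Fin 2 → ℂ,
      MvPolynomial.aeval (fun ij : Fin (n + 1) × Fin 2 => P ij.1 ij.2) F ≠ 0 →
        ∀ d : ℕ, M + 2 ^ (k + 7) * (m + 1 + ∑ i ∈ S, (w i + 1)) + 2 ^ (2 * k + 15) ≤ d →
          Pool.Agent.H932R3.ExpDim ℂ (Fin.cons M w : Fin (n + 1) → ℕ) P d := by
  classical
  obtain ⟨N, s, t, hN⟩ := split_ms (m := m) (∑ i ∈ Sᶜ, ({w i} : Multiset ℕ)) fun x hx => by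
    rw [Multiset.mem_sum] at hx
    obtain ⟨i, hi, hx⟩ := hx
    rw [Multiset.mem_singleton.1 hx]
    exact hS i (Finset.mem_compl.1 hi)
  have hms : ms (Fin.cons M w : Fin (n + 1) → ℕ) =
      (N • {m} + ({M} + ∑ i ∈ S, ({w i} : Multiset ℕ))) + s • {1} + t • {0} := by
    rw [ms_cons, ms_split w S, hN]
    abel
  have hcard : (∑ i ∈ S, ({w i} : Multiset ℕ)).toFinset.card ≤ k := by
    refine le_trans (card_le_card ?_) hk
    intro x hx
    rw [Multiset.mem_toFinset, Multiset.mem_sum] at hx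
    obtain ⟨i, hi, hx⟩ := hx
    rw [Multiset.mem_singleton.1 hx]
    exact mem_image_of_mem _ hi
  have hsum : ((∑ i ∈ S, ({w i} : Multiset ℕ)).map (· + 1)).sum = ∑ i ∈ S, (w i + 1) := by
    have : ∀ S : Finset (Fin n),
        ((∑ i ∈ S, ({w i} : Multiset ℕ)).map (· + 1)).sum = ∑ i ∈ S, (w i + 1) := by
      intro S
      induction S using Finset.induction_on with
      | empty => simp
      | insert a s ha ih =>
        rw [sum_insert ha, sum_insert ha, Multiset.map_add, Multiset.sum_add, ih]; simp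
    exact this S
  have key : ∀ d, M + 2 ^ (k + 7) * (m + 1 + ∑ i ∈ S, (w i + 1)) + 2 ^ (2 * k + 15) ≤ d →
      ((d + 2).choose 2 ≤ cond (Fin.cons M w : Fin (n + 1) → ℕ) →
        Emp (Fin.cons M w : Fin (n + 1) → ℕ) (TZ d)) ∧
      (cond (Fin.cons M w : Fin (n + 1) → ℕ) ≤ (d + 2).choose 2 →
        Sur (Fin.cons M w : Fin (n + 1) → ℕ) (TZ d)) := by
    intro d hd
    have h1 : XM (TF d) ((N • {m} + ({M} + ∑ i ∈ S, ({w i} : Multiset ℕ))) + s • {1} + t • {0}) :=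
      XM_ones (light hm hcard (by rw [hsum]; exact hd) N)
    unfold XM at h1
    rw [coe_TF, card_TF, ← hms, ← cond_eq, EM_iff rfl, SM_iff rfl] at h1
    exact h1
  obtain ⟨F, hF, h⟩ := expDim_two (w := (Fin.cons M w : Fin (n + 1) → ℕ))
    (A := fun d => M + 2 ^ (k + 7) * (m + 1 + ∑ i ∈ S, (w i + 1)) + 2 ^ (2 * k + 15) ≤ d ∧
      (d + 2).choose 2 ≤ cond (Fin.cons M w : Fin (n + 1) → ℕ))
    (B := fun d => M + 2 ^ (k + 7) * (m + 1 + ∑ i ∈ S, (w i + 1)) + 2 ^ (2 * k + 15) ≤ d ∧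
      cond (Fin.cons M w : Fin (n + 1) → ℕ) ≤ (d + 2).choose 2)
    (cond (Fin.cons M w : Fin (n + 1) → ℕ)) (fun d hd => by
      have h1 : (d + 2).choose 2 = (d + 1) * (d + 2) / 2 := by
        rw [Nat.choose_two_right]
        congr 1
        rw [mul_comm]
        rfl
      have h2 : d ≤ (d + 1) * (d + 2) / 2 := by
        rw [Nat.le_div_iff_mul_le (by norm_num)]
        nlinarith
      have h3 := hd.2
      omega)
    (fun d hd => (key d hd.1).1 hd.2) (fun d hd => (key d hd.1).2 hd.2)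
  refine ⟨F, hF, fun P hP d hd => h P hP d ?_⟩
  rcases le_total ((d + 2).choose 2) (cond (Fin.cons M w : Fin (n + 1) → ℕ)) with h4 | h4
  · exact Or.inl ⟨hd, h4⟩
  · exact Or.inr ⟨hd, h4⟩

end Pool.Agent.K6.H83.QH
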