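import Pool.Agent.K6.H83.QH.CoreQ
import Pool.Agent.K6.H83.QH.MainL

/-! The expected dimension: one arbitrary multiplicity, the others bounded, measured by the number
of their different values. -/

set_option autoImplicit false

namespace Pool.Agent.K6.H83.QH

open Finset Pool.Agent.TH176.Nag Pool.Agent.TH603.Sur Pool.Agent.TH641.UM Pool.Agent.TH2.NU
  Pool.Agent.H932R3 Pool.Agent.Y205.FW

theorem cM_cons (a : ℕ) (M : Multiset ℕ) : cM (a ::ₘ M) = (a + 1).choose 2 + cM M := by
  unfold cM; rw [Multiset.map_cons, Multiset.sum_cons]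

/-- removing conditions above the critical number -/
theorem trimM {N : ℕ} {S : Set (ℤ × ℤ)} {E : Multiset ℕ} {μ : ℕ} (hE : cM E < N)
    (G : Multiset ℕ) : (∀ x ∈ G, x ≤ μ) → N ≤ cM (G + E) →
    ∃ G' x', G' ≤ G ∧ 1 ≤ x' ∧ x' ≤ μ ∧ N ≤ cM (G' + {x'} + E) ∧ cM (G' + {x'} + E) ≤ N + μ ∧
      (EM (G' + {x'} + E) S → EM (G + E) S) := by
  classical
  induction G using Multiset.induction_on with
  | empty =>
    intro _ h
    rw [zero_add] at h
    omega
  | cons a G ih =>
    intro hG h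
    rcases Nat.lt_or_ge (cM (G + E)) N with h1 | h1
    · have hex : ∃ x, N ≤ cM (G + {x} + E) := by
        refine ⟨a, ?_⟩
        have e : a ::ₘ G + E = G + {a} + E := by
          rw [← Multiset.singleton_add]; abel
        rw [← e]
        exact h
      obtain ⟨x', hx'⟩ : ∃ x', x' = Nat.find hex := ⟨_, rfl⟩
      have h2 : N ≤ cM (G + {x'} + E) := by rw [hx']; exact Nat.find_spec hex
      have h3 : x' ≤ a := by
        rw [hx']
        refine Nat.find_min' hex ?_
        have e : a ::ₘ G + E = G + {a} + E := by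
          rw [← Multiset.singleton_add]; abel
        rw [← e]
        exact h
      have hcx : ∀ x, cM (G + {x} + E) = cM (G + E) + (x + 1).choose 2 := by
        intro x
        rw [cM_add, cM_add, cM_add, cM_single]
        omega
      have h4 : 1 ≤ x' := by
        by_contra hcon
        have h0 : x' = 0 := by omega
        rw [h0, hcx] at h2
        simp at h2
        omega
      obtain ⟨y, hy⟩ : ∃ y, x' = y + 1 := ⟨x' - 1, by omega⟩
      have h5 : ¬ N ≤ cM (G + {y} + E) := Nat.find_min hex (by omega)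
      have h6 : (y + 1 + 1).choose 2 = (y + 1).choose 2 + (y + 1) := by
        rw [Nat.choose_succ_succ' (y + 1) 1, Nat.choose_one_right]
        ring
      have ha : a ≤ μ := hG a (Multiset.mem_cons_self a G)
      refine ⟨G, x', Multiset.le_cons_self G a, h4, h3.trans ha, h2, ?_, fun hEM => ?_⟩
      · rw [hcx] at h5 ⊢
        rw [hy, h6]
        omega
      · have e : a ::ₘ G + E = {a} + (G + E) := by
          rw [← Multiset.singleton_add]; abel
        rw [e]
        refine EM.raise h3 ?_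
        have e2 : {x'} + (G + E) = G + {x'} + E := by abel
        rw [e2]
        exact hEM
    · obtain ⟨G', x', g1, g2, g3, g4, g5, g6⟩ :=
        ih (fun x hx => hG x (Multiset.mem_cons_of_mem hx)) h1
      refine ⟨G', x', g1.trans (Multiset.le_cons_self G a), g2, g3, g4, g5, fun hEM => ?_⟩
      refine (g6 hEM).mono ?_
      exact Multiset.add_le_add_right (Multiset.le_cons_self G a)

/-- exactness for bounded multiplicities -/
theorem few_valuesQ {G : Multiset ℕ} {r v d μ : ℕ} (hr : 1 ≤ r) (hμ : 1 ≤ μ)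
    (hG1 : ∀ x ∈ G, 1 ≤ x) (hGμ : ∀ x ∈ G, x ≤ μ) (hk : G.toFinset.card ≤ r)
    (h1 : v + 2 ^ 10 * (μ + 1) ≤ d) (h2 : 2 ^ 24 * (r * (μ + 1) ^ 2) ≤ (d - v) * d) :
    XM (TF d) ({v} + G) := by
  classical
  have hT : 2 * (d + 2).choose 2 = (d + 1) * (d + 2) := Pool.Agent.TH2.NU.two_choose (d + 1)
  have htv := Pool.Agent.TH2.NU.two_choose v
  have e10 : (2 : ℕ) ^ 10 = 1024 := by norm_num
  rw [e10] at h1
  obtain ⟨B, hB'⟩ := Nat.exists_eq_add_of_le (le_trans (Nat.le_add_right _ _) h1)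
  have hB : v + B = d := hB'.symm
  have hdv : d - v = B := by rw [hB']; exact Nat.add_sub_cancel_left _ _
  rw [hdv] at h2
  have hB1 : 1024 * (μ + 1) ≤ B := by
    rw [← hB] at h1
    exact Nat.add_le_add_iff_left.1 h1
  have h2' : 2 ^ 23 * ((r + 1) * (μ + 1) ^ 2) ≤ B * d := by
    refine le_trans ?_ h2
    calc 2 ^ 23 * ((r + 1) * (μ + 1) ^ 2) ≤ 2 ^ 23 * ((2 * r) * (μ + 1) ^ 2) :=
          Nat.mul_le_mul_left _ (Nat.mul_le_mul_right _ (by omega))
      _ = 2 ^ 24 * (r * (μ + 1) ^ 2) := by ring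
  have hreg : v * (v + 1) + 2 ≤ (d + 1) * (d + 2) := by
    have : (d + 1) * (d + 2) = v * (v + 1) + (B * d + B * v + 3 * B + 2 * v + 2) := by
      rw [← hB]; ring
    clear h2 h2'
    omega
  clear h2
  rw [XM, card_TF]
  constructor
  · -- emptiness
    intro hc
    rw [add_comm {v} G] at hc
    obtain ⟨G', x', g1, g2, g3, g4, g5, g6⟩ := trimM (S := (↑(TF d) : Set (ℤ × ℤ)))
      (E := {v}) (N := (d + 2).choose 2) (μ := μ) (by rw [cM_single]; omega) G hGμ hc
    rw [add_comm {v} G]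
    apply g6
    have hG'm : ∀ x ∈ G' + {x'}, 1 ≤ x ∧ x + 1 ≤ μ + 1 := by
      intro x hx
      rcases Multiset.mem_add.1 hx with hx | hx
      · have h3 := Multiset.mem_of_le g1 hx
        exact ⟨hG1 x h3, by have := hGμ x h3; omega⟩
      · rw [Multiset.mem_singleton] at hx
        omega
    have hcard : (G' + {x'}).toFinset.card ≤ r + 1 := by
      rw [Multiset.toFinset_add]
      refine (card_union_le _ _).trans ?_
      have h3 : G'.toFinset.card ≤ G.toFinset.card :=
        card_le_card (Multiset.toFinset_subset.2 (Multiset.subset_of_le g1))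
      have h4 : ({x'} : Multiset ℕ).toFinset.card = 1 := by simp
      omega
    have h3 := coreQ (r := r + 1) (m := μ + 1) (by omega) (by omega) hB hG'm hcard hB1 h2'
      (by omega) (by omega)
    refine EM_of_crkM (d := d) ?_ (by rw [card_TF]; exact g4)
    rw [add_comm]
    exact h3
  · -- independence
    intro hc
    obtain ⟨k, hk'⟩ : ∃ k, cM ({v} + G) + k = (d + 2).choose 2 :=
      ⟨(d + 2).choose 2 - cM ({v} + G), by omega⟩
    have hcM : cM (G + k • {1} + {v}) = (d + 2).choose 2 := by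
      rw [cM_add, cM_add, cM_smul]
      rw [cM_add] at hk'
      simp
      omega
    have hGm : ∀ x ∈ G + k • {1}, 1 ≤ x ∧ x + 1 ≤ μ + 1 := by
      intro x hx
      rcases Multiset.mem_add.1 hx with hx | hx
      · exact ⟨hG1 x hx, by have := hGμ x hx; omega⟩
      · rw [Multiset.mem_nsmul] at hx
        have := Multiset.mem_singleton.1 hx.2
        omega
    have hcard : (G + k • {1}).toFinset.card ≤ r + 1 := by
      rw [Multiset.toFinset_add]
      refine (card_union_le _ _).trans ?_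
      have h4 : (k • ({1} : Multiset ℕ)).toFinset.card ≤ 1 := by
        refine (card_le_card (t := {1}) ?_).trans (by simp)
        intro x hx
        rw [Multiset.mem_toFinset, Multiset.mem_nsmul] at hx
        rw [Finset.mem_singleton]
        exact Multiset.mem_singleton.1 hx.2
      omega
    have h3 := coreQ (r := r + 1) (m := μ + 1) (by omega) (by omega) hB hGm hcard hB1 h2'
      (by omega) (by omega)
    have h4 : SM ({v} + (G + k • {1})) (↑(TF d) : Set (ℤ × ℤ)) := by
      refine SM_of_crkM (d := d) h3 ?_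
      rw [card_TF, add_comm]
      exact hcM.le
    rw [← add_assoc] at h4
    exact h4.sub

/-- **One arbitrary multiplicity, the others bounded.** -/
theorem mainQ (r n M μ D : ℕ) (hr : 1 ≤ r) (hμ : 1 ≤ μ) (h1 : M + 2 ^ 10 * (μ + 1) ≤ D)
    (h2 : 2 ^ 24 * (r * (μ + 1) ^ 2) ≤ (D - M) * D)
    (w : Fin n → ℕ) (hw : ∀ i, w i ≤ μ)
    (hk : ((univ.image w).filter fun x => 2 ≤ x).card ≤ r) :
    ∃ F : MvPolynomial (Fin (n + 1) × Fin 2) ℚ, F ≠ 0 ∧ ∀ P : Fin (n + 1) → Fin 2 → ℂ,
      MvPolynomial.aeval (fun ij : Fin (n + 1) × Fin 2 => P ij.1 ij.2) F ≠ 0 →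
        ∀ d : ℕ, (D ≤ d ∨ (D + 2).choose 2 ≤
              ∑ i : Fin (n + 1), Nat.choose ((Fin.cons M w : Fin (n + 1) → ℕ) i + 1) 2) →
          Pool.Agent.H932R3.ExpDim ℂ (Fin.cons M w : Fin (n + 1) → ℕ) P d := by
  classical
  obtain ⟨G, hG⟩ : ∃ G : Multiset ℕ, G = (ms w).filter fun x => 2 ≤ x := ⟨_, rfl⟩
  obtain ⟨N, s, t, hN⟩ := split_ms (m := 1) ((ms w).filter fun x => ¬ 2 ≤ x) fun x hx => by
    have := (Multiset.mem_filter.1 hx).2
    omega
  have hmw : ms w = G + ((N + s) • {1} + t • {0}) := by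
    rw [hG, add_smul, ← hN]
    exact (Multiset.filter_add_not _ _).symm
  have hms : ms (Fin.cons M w : Fin (n + 1) → ℕ) = ({M} + G) + (N + s) • {1} + t • {0} := by
    rw [ms_cons, hmw]
    abel
  have hG2 : ∀ x ∈ G, 2 ≤ x ∧ ∃ i, w i = x := by
    intro x hx
    rw [hG] at hx
    obtain ⟨h1, h2⟩ := Multiset.mem_filter.1 hx
    exact ⟨h2, mem_ms h1⟩
  have hcard : G.toFinset.card ≤ r := by
    refine le_trans (card_le_card ?_) hk
    intro x hx
    rw [Multiset.mem_toFinset] at hx
    obtain ⟨h1, i, hi⟩ := hG2 x hx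
    rw [mem_filter]
    exact ⟨by rw [← hi]; exact mem_image_of_mem _ (mem_univ _), h1⟩
  have key : ∀ d, D ≤ d →
      ((d + 2).choose 2 ≤ cond (Fin.cons M w : Fin (n + 1) → ℕ) →
        Emp (Fin.cons M w : Fin (n + 1) → ℕ) (TZ d)) ∧
      (cond (Fin.cons M w : Fin (n + 1) → ℕ) ≤ (d + 2).choose 2 →
        Sur (Fin.cons M w : Fin (n + 1) → ℕ) (TZ d)) := by
    intro d hd
    have h1 : XM (TF d) (({M} + G) + (N + s) • {1} + t • {0}) :=
      XM_ones (few_valuesQ hr hμ (fun x hx => by
        have := (hG2 x hx).1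
        clear h1 h2
        omega) (fun x hx => by
        obtain ⟨-, i, hi⟩ := hG2 x hx
        rw [← hi]
        exact hw i) hcard (h1.trans hd)
          (h2.trans (Nat.mul_le_mul (Nat.sub_le_sub_right hd M) hd)))
    unfold XM at h1
    rw [coe_TF, card_TF, ← hms, ← cond_eq, EM_iff rfl, SM_iff rfl] at h1
    exact h1
  obtain ⟨C, hC⟩ : ∃ C, C = cond (Fin.cons M w : Fin (n + 1) → ℕ) := ⟨_, rfl⟩
  have hC' : ∑ i : Fin (n + 1), Nat.choose ((Fin.cons M w : Fin (n + 1) → ℕ) i + 1) 2 = C := by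
    rw [hC]; rfl
  rw [hC']
  rw [← hC] at key
  obtain ⟨F, hF, h⟩ := expDim_two (w := (Fin.cons M w : Fin (n + 1) → ℕ))
    (A := fun d => (D ≤ d ∧ (d + 2).choose 2 ≤ C) ∨ (d ≤ D ∧ (D + 2).choose 2 ≤ C))
    (B := fun d => D ≤ d ∧ C ≤ (d + 2).choose 2) (C + D) (fun d hd => by
      rcases hd with hd | hd
      · have h1 : (d + 2).choose 2 = (d + 1) * (d + 2) / 2 := by
          rw [Nat.choose_two_right]
          congr 1
          rw [mul_comm]
          rfl
        have h2 : d ≤ (d + 1) * (d + 2) / 2 := by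
          rw [Nat.le_div_iff_mul_le (by norm_num)]
          nlinarith
        have h3 := hd.2
        omega
      · omega)
    (fun d hd => by
      rcases hd with hd | hd
      · exact (key d hd.1).1 hd.2
      · exact Emp.mono ((key D le_rfl).1 hd.2) (Pool.Agent.TH745.MN.TZ_mono hd.1))
    (fun d hd => (key d hd.1).2 hd.2)
  refine ⟨F, hF, fun P hP d hd => h P hP d ?_⟩
  rcases Nat.lt_or_ge d D with h5 | h5
  · rcases hd with hd | hd
    · omega
    · exact Or.inl (Or.inr ⟨h5.le, hd⟩)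
  · rcases le_total ((d + 2).choose 2) C with h4 | h4
    · exact Or.inl (Or.inl ⟨h5, h4⟩)
    · exact Or.inr ⟨h5, h4⟩

end Pool.Agent.K6.H83.QH
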