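import Pool.Agent.K6.H83.QH.CoreD
import Pool.Agent.K6.H83.QH.MainQ

/-! The expected dimension: one arbitrary multiplicity, arbitrary bounded multiplicities. -/

set_option autoImplicit false

namespace Pool.Agent.K6.H83.QH

open Finset Pool.Agent.TH176.Nag Pool.Agent.TH603.Sur Pool.Agent.TH641.UM Pool.Agent.TH2.NU
  Pool.Agent.H932R3 Pool.Agent.Y205.FW

/-- exactness for bounded multiplicities -/
theorem XM_arb {G : Multiset ℕ} {v d μ : ℕ} (hG1 : ∀ x ∈ G, 1 ≤ x) (hGμ : ∀ x ∈ G, x ≤ μ)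
    (h1 : v + 2 ^ 11 * (μ + 1) ≤ d)
    (h2 : 2 ^ 21 * (μ + 1) ^ 2 ≤ G.sum + 2 * (((d + 2).choose 2 - cM ({v} + G)) +
      (cM ({v} + G) - (d + 2).choose 2))) : XM (TF d) ({v} + G) := by
  have e11 : (2 : ℕ) ^ 11 = 2048 := by norm_num
  rw [e11] at h1
  obtain ⟨B, hB'⟩ := Nat.exists_eq_add_of_le (le_trans (Nat.le_add_right _ _) h1)
  have hB : v + B = d := hB'.symm
  have hB1 : 2048 * (μ + 1) ≤ B := by
    rw [← hB] at h1
    exact Nat.add_le_add_iff_left.1 h1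
  have hcomm : cM ({v} + G) = cM (G + {v}) := by rw [add_comm]
  obtain ⟨C, hC⟩ : ∃ C, C = cM ({v} + G) := ⟨_, rfl⟩
  obtain ⟨N, hN⟩ : ∃ N, N = (d + 2).choose 2 := ⟨_, rfl⟩
  rw [← hC, ← hN] at h2
  have key := coreD (G := G) (m := μ + 1) (v := v) (d := d) (B := B)
    (δ := 2 * ((N - C) + (C - N))) (by omega) hB
    (fun x hx => ⟨hG1 x hx, by have := hGμ x hx; omega⟩) hB1
    (by rw [card_TF, ← hcomm, ← hC, ← hN]; omega) h2
  rw [← hcomm] at key
  have hEx : Ex (TF d) (fam ({v} + G)) := by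
    unfold Ex
    rw [cond_eq, ms_fam]
    exact key
  exact ⟨fun hc => Emp_of_Ex hEx (by rw [cond_eq, ms_fam]; exact hc),
    fun hc => Sur_of_Ex hEx (by rw [cond_eq, ms_fam]; exact hc)⟩

/-- **One arbitrary multiplicity, arbitrary bounded multiplicities.** -/
theorem mainD (n M μ : ℕ) (w : Fin n → ℕ) (hw : ∀ i, w i ≤ μ) :
    ∃ F : MvPolynomial (Fin (n + 1) × Fin 2) ℚ, F ≠ 0 ∧ ∀ P : Fin (n + 1) → Fin 2 → ℂ,
      MvPolynomial.aeval (fun ij : Fin (n + 1) × Fin 2 => P ij.1 ij.2) F ≠ 0 →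
        ∀ d : ℕ, ((M + 2 ^ 11 * (μ + 1) ≤ d ∧ 2 ^ 21 * (μ + 1) ^ 2 ≤ ∑ i, w i +
              2 * (((d + 2).choose 2 -
                ∑ i : Fin (n + 1), Nat.choose ((Fin.cons M w : Fin (n + 1) → ℕ) i + 1) 2) +
              ((∑ i : Fin (n + 1), Nat.choose ((Fin.cons M w : Fin (n + 1) → ℕ) i + 1) 2) -
                (d + 2).choose 2))) ∨
            (2 ^ 21 * (μ + 1) ^ 2 ≤ ∑ i, w i ∧ (M + 2 ^ 11 * (μ + 1) + 2).choose 2 ≤
              ∑ i : Fin (n + 1), Nat.choose ((Fin.cons M w : Fin (n + 1) → ℕ) i + 1) 2)) →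
          Pool.Agent.H932R3.ExpDim ℂ (Fin.cons M w : Fin (n + 1) → ℕ) P d := by
  classical
  obtain ⟨G, hG⟩ : ∃ G : Multiset ℕ, G = (ms w).filter fun x => 1 ≤ x := ⟨_, rfl⟩
  have hG1 : ∀ x ∈ G, 1 ≤ x ∧ ∃ i, w i = x := by
    intro x hx
    rw [hG] at hx
    obtain ⟨h1, h2⟩ := Multiset.mem_filter.1 hx
    exact ⟨h2, mem_ms h1⟩
  obtain ⟨t, ht⟩ : ∃ t : ℕ, (ms w).filter (fun x => ¬ 1 ≤ x) = t • ({0} : Multiset ℕ) := by
    refine ⟨((ms w).filter (fun x => ¬ 1 ≤ x)).card, ?_⟩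
    rw [Multiset.nsmul_singleton]
    refine Multiset.eq_replicate_card.2 fun x hx => ?_
    have := (Multiset.mem_filter.1 hx).2
    omega
  have hmw : ms w = G + t • {0} := by
    rw [hG, ← ht]
    exact (Multiset.filter_add_not _ _).symm
  have hms : ms (Fin.cons M w : Fin (n + 1) → ℕ) = ({M} + G) + 0 • {1} + t • {0} := by
    rw [ms_cons, hmw, zero_smul]
    abel
  have hsumG : ∑ i, w i = G.sum := by
    have h1 : (ms w).sum = ∑ i, w i := by
      unfold ms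
      rw [Multiset.sum_sum]
      simp
    rw [← h1, hmw, Multiset.sum_add, Multiset.sum_nsmul]
    simp
  obtain ⟨C, hC⟩ : ∃ C, C = cond (Fin.cons M w : Fin (n + 1) → ℕ) := ⟨_, rfl⟩
  have hC' : ∑ i : Fin (n + 1), Nat.choose ((Fin.cons M w : Fin (n + 1) → ℕ) i + 1) 2 = C := by
    rw [hC]; rfl
  have hCG : C = cM ({M} + G) := by
    rw [hC, cond_eq, hms, cM_add, cM_add, cM_smul, cM_smul]
    simp
  rw [hC', hsumG]
  obtain ⟨D, hD⟩ : ∃ D, D = M + 2 ^ 11 * (μ + 1) := ⟨_, rfl⟩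
  obtain ⟨Q, hQ⟩ : ∃ Q, Q = 2 ^ 21 * (μ + 1) ^ 2 := ⟨_, rfl⟩
  have key : ∀ d, D ≤ d → Q ≤ G.sum + 2 * (((d + 2).choose 2 - C) + (C - (d + 2).choose 2)) →
      ((d + 2).choose 2 ≤ C → Emp (Fin.cons M w : Fin (n + 1) → ℕ) (TZ d)) ∧
      (C ≤ (d + 2).choose 2 → Sur (Fin.cons M w : Fin (n + 1) → ℕ) (TZ d)) := by
    intro d hd hq
    have h1 : XM (TF d) (({M} + G) + 0 • {1} + t • {0}) :=
      XM_ones (XM_arb (μ := μ) (fun x hx => (hG1 x hx).1) (fun x hx => by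
        obtain ⟨-, i, hi⟩ := hG1 x hx
        rw [← hi]
        exact hw i) (by rw [← hD]; exact hd) (by rw [← hQ, ← hCG]; exact hq))
    unfold XM at h1
    rw [coe_TF, card_TF, ← hms, ← cond_eq, EM_iff rfl, SM_iff rfl, ← hC] at h1
    exact h1
  rw [← hD, ← hQ]
  obtain ⟨F, hF, h⟩ := expDim_two (w := (Fin.cons M w : Fin (n + 1) → ℕ))
    (A := fun d => (D ≤ d ∧ Q ≤ G.sum + 2 * (((d + 2).choose 2 - C) + (C - (d + 2).choose 2)) ∧
      (d + 2).choose 2 ≤ C) ∨ (d ≤ D ∧ Q ≤ G.sum ∧ (D + 2).choose 2 ≤ C))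
    (B := fun d => D ≤ d ∧ Q ≤ G.sum + 2 * (((d + 2).choose 2 - C) + (C - (d + 2).choose 2)) ∧
      C ≤ (d + 2).choose 2) (C + D) (fun d hd => by
      rcases hd with hd | hd
      · have h1 : (d + 2).choose 2 = (d + 1) * (d + 2) / 2 := by
          rw [Nat.choose_two_right]
          congr 1
          rw [mul_comm]
          rfl
        have h2 : d ≤ (d + 1) * (d + 2) / 2 := by
          rw [Nat.le_div_iff_mul_le (by norm_num)]
          nlinarith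
        have h3 := hd.2.2
        omega
      · omega)
    (fun d hd => by
      rcases hd with hd | hd
      · exact (key d hd.1 hd.2.1).1 hd.2.2
      · exact Emp.mono ((key D le_rfl (by omega)).1 hd.2.2)
          (Pool.Agent.TH745.MN.TZ_mono hd.1))
    (fun d hd => (key d hd.1 hd.2.1).2 hd.2.2)
  refine ⟨F, hF, fun P hP d hd => h P hP d ?_⟩
  rcases Nat.lt_or_ge d D with h5 | h5
  · rcases hd with hd | hd
    · omega
    · exact Or.inl (Or.inr ⟨h5.le, hd⟩)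
  · have h6 : Q ≤ G.sum + 2 * (((d + 2).choose 2 - C) + (C - (d + 2).choose 2)) := by
      rcases hd with hd | hd
      · exact hd.2
      · omega
    rcases le_total ((d + 2).choose 2) C with h4 | h4
    · exact Or.inl (Or.inl ⟨h5, h6, h4⟩)
    · exact Or.inr ⟨h5, h6, h4⟩

end Pool.Agent.K6.H83.QH
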