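import Pool.Agent.K6.H83.QH.CrkE
import Pool.Agent.Y205.AV.EmpArb

/-! Emptiness for a point of arbitrary multiplicity and arbitrary bounded further multiplicities. -/

set_option autoImplicit false

namespace Pool.Agent.K6.H83.QH

open Finset Pool.Agent.TH176.Nag Pool.Agent.TH603.Sur Pool.Agent.TH146.MN Pool.Agent.K6.H96
  Pool.Agent.TH641.UM

/-- positive multiplicities, each one at least sixteen times -/
theorem emp_rep_pos {ι : Type} [Fintype ι] {w : ι → ℕ} (hpos : ∀ x, 1 ≤ w x) {W : ℝ} {d v : ℕ}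
    (hW0 : 0 ≤ W) (hwW : ∀ x, (w x : ℝ) ≤ W) (hdv : v + 32 * W ≤ d)
    (h16 : ∀ i, 16 ≤ Fintype.card {j // w j = w i})
    (h3 : (d : ℝ) ^ 2 < v ^ 2 + ∑ x, (w x : ℝ) ^ 2) :
    Emp (fun o : Option ι => o.elim v w) (TZ d) := by
  classical
  have hv0 : (0 : ℝ) ≤ v := Nat.cast_nonneg v
  have hd0 : (0 : ℝ) ≤ d := Nat.cast_nonneg d
  have hne : Nonempty ι := by
    by_contra hcon
    rw [not_nonempty_iff] at hcon
    rw [Fintype.sum_empty] at h3
    have h4 : (v : ℝ) ^ 2 ≤ (d : ℝ) ^ 2 := pow_le_pow_left₀ hv0 (by linarith) 2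
    linarith
  obtain ⟨z0, -, hz0⟩ := exists_max_image (univ : Finset ι) w ⟨hne.some, mem_univ _⟩
  have hpos' : ∀ z, (0 : ℝ) < (w z : ℝ) := fun z => by exact_mod_cast hpos z
  have hU : UU' (fun i => (w i : ℝ)) (2 * (w z0 : ℝ)) := by
    refine U_rep (Fintype.card ι) (fun z => (w z : ℝ)) (w z0 : ℝ) le_rfl hpos'
      (fun z => by exact_mod_cast hz0 z (mem_univ z)) ⟨z0, rfl⟩ ?_
    intro z
    have h := h16 z
    have e : Fintype.card {j // (w j : ℝ) = (w z : ℝ)} = Fintype.card {j // w j = w z} :=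
      Fintype.card_congr (Equiv.subtypeEquivRight fun j => by
        constructor
        · intro h; exact_mod_cast h
        · intro h; exact_mod_cast h)
    rw [e]
    exact h
  have hz1 := hpos' z0
  have hzW := hwW z0
  obtain ⟨S, hS⟩ : ∃ S : ℝ, S = ∑ x, (w x : ℝ) ^ 2 := ⟨_, rfl⟩
  rw [← hS] at h3
  have hS0 : 0 ≤ (v : ℝ) ^ 2 + S := by
    have : (0 : ℝ) ≤ (d : ℝ) ^ 2 := sq_nonneg _
    linarith
  obtain ⟨c, hc⟩ : ∃ c : ℝ, c = √((v : ℝ) ^ 2 + S) := ⟨_, rfl⟩
  have hc2 : c ^ 2 = (v : ℝ) ^ 2 + S := by rw [hc]; exact Real.sq_sqrt hS0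
  have hc0 : 0 ≤ c := by rw [hc]; exact Real.sqrt_nonneg _
  have hdc : (d : ℝ) < c := by
    have h7 : (d : ℝ) ^ 2 < c ^ 2 := by rw [hc2]; exact h3
    exact lt_of_pow_lt_pow_left₀ 2 hc0 h7
  rcases Nat.eq_zero_or_pos v with hv | hv
  · subst hv
    have h := star_rep (x := fun z => (w z : ℝ)) (c := c) (W := (w z0 : ℝ)) hpos' ⟨z0, rfl⟩
      (by push_cast at hdv; linarith) (by rw [hc2, ← hS]; push_cast; ring) hU w d (fun z => by
        rw [mul_comm]
        exact mul_lt_mul_of_pos_right hdc (hpos' z))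
    exact Emp_emb some (Option.some_injective _) (fun i => le_rfl) h
  have hvp : (0 : ℝ) < v := by exact_mod_cast hv
  have hsq : ∑ i, (w i : ℝ) ^ 2 = c ^ 2 - (v : ℝ) ^ 2 := by rw [hc2, ← hS]; ring
  have hcp : 0 < c := by linarith
  have hMc : (v : ℝ) < c := by linarith
  have hd1 : (0 : ℝ) < d := by linarith
  obtain ⟨s, hs⟩ : ∃ s : ℝ, s = d / c := ⟨_, rfl⟩
  have hs0 : 0 < s := by rw [hs]; positivity
  have hs1 : s < 1 := by rw [hs, div_lt_one hcp]; exact hdc
  have hsc : s * c = d := by rw [hs]; field_simp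
  have hsw : ∀ i, s * (w i : ℝ) < w i := by
    intro i
    have h5 : (0 : ℝ) < w i := hpos' i
    nlinarith
  have hsv : s * (v : ℝ) ≤ v := by nlinarith
  have hdvs : (d : ℝ) - v ≤ s * (c - v) := by
    rw [mul_sub, hsc]
    linarith
  have hS' : c ^ 2 - (v : ℝ) ^ 2 = (c - v) * (c + v) := by ring
  have h1' : 32 * (w z0 : ℝ) ≤ c - v := by linarith
  have h2' : c - v ≤ c + v := by linarith
  have h3' : (c - v) * (c - v) ≤ (c - v) * (c + v) := mul_le_mul_of_nonneg_left h2' (by linarith)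
  rcases le_total c (2 * v) with h4 | h4
  · refine Emp_plane_Tz hsc.ge hdvs (Tz_of_UU' hMc h4 hsq
      (UU'.up (by positivity) (by linarith) ?_ hU) hs0 hsw)
    rw [hsq, hS']
    nlinarith
  · rcases le_total c (3 * v) with h5 | h5
    · refine Emp_plane_Tz hsc.ge hdvs (Tz_of_UU'8 hMc h5 hsq
        (UU'.up (by positivity) (by linarith) ?_ hU) hs0 hsw)
      rw [hsq, hS']
      nlinarith
    · refine Emp_plane_third hvp h5 hsq (UU'.up (by positivity) (by linarith) ?_ hU) hs0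
        hsc.ge hsv hsw
      rw [hsq]
      nlinarith

/-- groups of sixteen equal multiplicities -/
theorem EM_rep (xs : Multiset ℕ) {v B e : ℕ} (h1 : ∀ x ∈ xs, 1 ≤ x ∧ x ≤ B)
    (hdv : v + 32 * B ≤ e) (he : e ^ 2 < v ^ 2 + 16 * Pool.Agent.Y205.AV.sqs xs) :
    EM ((xs.bind fun x => Multiset.replicate 16 x) + {v}) (TZ e) := by
  classical
  have hmem : ∀ j : Fin xs.toList.length, xs.toList.get j ∈ xs := fun j => by
    rw [← Multiset.mem_toList]
    exact List.get_mem _ _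
  obtain ⟨w, hw⟩ : ∃ w : (Σ _ : Fin xs.toList.length, Fin 16) → ℕ, w = fun z =>
    xs.toList.get z.1 := ⟨_, rfl⟩
  have hwB : ∀ z, 1 ≤ w z ∧ w z ≤ B := fun z => by rw [hw]; exact h1 _ (hmem z.1)
  have hsum : ∑ z, w z ^ 2 = 16 * Pool.Agent.Y205.AV.sqs xs := by
    rw [hw, Fintype.sum_sigma]
    simp only [sum_const, card_univ, Fintype.card_fin, smul_eq_mul]
    rw [← mul_sum, Pool.Agent.Y205.AV.sum_get' xs fun x => x ^ 2]
    rfl
  have key := emp_rep_pos (w := w) (fun z => (hwB z).1) (W := (B : ℝ)) (d := e) (v := v)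
    (Nat.cast_nonneg _) (fun z => by exact_mod_cast (hwB z).2) (by exact_mod_cast hdv) (by
      intro z
      have hinj : Function.Injective (fun i : Fin 16 =>
          (⟨⟨z.1, i⟩, by rw [hw]⟩ : {y : (Σ _ : Fin xs.toList.length, Fin 16) //
            w y = w z})) := by
        intro i j hij
        have := congrArg Subtype.val hij
        simpa using this
      have := Fintype.card_le_of_injective _ hinj
      simpa using this) (by
      have h5 : ((e ^ 2 : ℕ) : ℝ) < ((v ^ 2 + 16 * Pool.Agent.Y205.AV.sqs xs : ℕ) : ℝ) := by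
        exact_mod_cast he
      rw [← hsum] at h5
      push_cast at h5
      exact h5)
  refine (EM_iff ?_).2 key
  have hopt : ms (fun o : Option (Σ _ : Fin xs.toList.length, Fin 16) => o.elim v w) =
      ms w + {v} := by
    unfold ms
    rw [Fintype.sum_option, add_comm]
    rfl
  rw [hopt]
  congr 1
  rw [hw]
  unfold ms
  rw [Fintype.sum_sigma]
  have e : ∀ j : Fin xs.toList.length, ∑ _i : Fin 16, ({xs.toList.get j} : Multiset ℕ) =
      Multiset.replicate 16 (xs.toList.get j) := fun j => by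
    rw [sum_const, card_univ, Fintype.card_fin, Multiset.nsmul_singleton]
  rw [sum_congr rfl fun j _ => e j,
    Pool.Agent.Y205.AV.sum_get' xs fun x => Multiset.replicate 16 x]
  rfl

/-- **Emptiness**: one arbitrary multiplicity and arbitrary bounded multiplicities. -/
theorem EM_arb {M : Multiset ℕ} {v B e : ℕ} (hB : ∀ x ∈ M, 1 ≤ x ∧ x ≤ B)
    (hdv : v + 32 * B ≤ e) (h : e ^ 2 + 16 * B ^ 2 < v ^ 2 + S2 M) : EM ({v} + M) (TZ e) := by
  obtain ⟨xs, a1, a2, a3⟩ := Pool.Agent.Y205.AV.group_down (g := 16) (by norm_num) M.card M B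
    le_rfl hB
  have h2 : S2 M = Pool.Agent.Y205.AV.sqs M := rfl
  rw [add_comm]
  exact a3 (TZ e) {v} (EM_rep xs a1 hdv (by omega))

end Pool.Agent.K6.H83.QH
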