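import Pool.Agent.K6.H83.QH.RegQ
import Pool.Agent.K6.H83.QH.EmpQ

/-! The corank of a leaf: one arbitrary multiplicity, arbitrary bounded multiplicities. -/

set_option autoImplicit false

namespace Pool.Agent.K6.H83.QH

open Finset Pool.Agent.TH176.Nag Pool.Agent.TH603.Sur Pool.Agent.TH641.UM Pool.Agent.TH2.NU
  Pool.Agent.Y205.MD Pool.Agent.Y205.FW

/-- the bound of the corank from emptiness -/
theorem crk_arb {M : Multiset ℕ} {v d B m Δ : ℕ} (hB : v + B = d) (hm : 1 ≤ m)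
    (hM : ∀ x ∈ M, 1 ≤ x ∧ x ≤ 8 * m) (hB1 : 2048 * m ≤ B)
    (hΔ : Δ = (B + 1) * (B + 2 * v + 2)) (hS : Δ ≤ 8 * S2 M) :
    crkM (TF d) ({v} + M) = 0 ∨
      2 * crkM (TF d) ({v} + M) + v * (v + 1) + S2 M + 1 ≤
        (d + 1) * (d + 2) + 1024 * m ^ 2 := by
  have hTF : ∀ e, 2 * (TF e).card = (e + 1) * (e + 2) := fun e => by
    rw [card_TF]
    exact Pool.Agent.TH2.NU.two_choose (e + 1)
  have e16 : 16 * (8 * m) ^ 2 = 1024 * m ^ 2 := by ring
  have hmm : m * 1 ≤ m * m := Nat.mul_le_mul_left _ hm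
  have hm2 : m ^ 2 = m * m := sq m
  have hBB : 2048 * m * (2048 * m) ≤ B * B := Nat.mul_le_mul hB1 hB1
  have hBv : v * (2048 * m) ≤ v * B := Nat.mul_le_mul_left _ hB1
  have e1 : 2048 * m * (2048 * m) = 4194304 * (m * m) := by ring
  have e2 : v * (2048 * m) = 2048 * (v * m) := by ring
  have e3 : (B + 1) * (B + 2 * v + 2) = B * B + 2 * (v * B) + 3 * B + 2 * v + 2 := by ring
  rw [e3] at hΔ
  rw [e1] at hBB
  rw [e2] at hBv
  rcases Nat.lt_or_ge (d ^ 2 + 1024 * m ^ 2) (v ^ 2 + S2 M) with hA | hA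
  · left
    apply crkM_of_EM
    exact EM_arb hM (by omega) (by rw [e16]; exact hA)
  · right
    obtain ⟨e, he⟩ : ∃ e, e = Nat.sqrt (v ^ 2 + S2 M - 1024 * m ^ 2 - 1) := ⟨_, rfl⟩
    have h1 : e ^ 2 ≤ v ^ 2 + S2 M - 1024 * m ^ 2 - 1 := by rw [he]; exact Nat.sqrt_le' _
    have h2 : v ^ 2 + S2 M - 1024 * m ^ 2 - 1 < (e + 1) ^ 2 := by
      rw [he]; exact Nat.lt_succ_sqrt' _
    have hS1 : 1024 * m ^ 2 + 1 ≤ S2 M := by
      rw [hm2]
      omega
    have h3 : e ^ 2 + 1024 * m ^ 2 < v ^ 2 + S2 M := by omega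
    have h4 : v ^ 2 + S2 M ≤ (e + 1) ^ 2 + 1024 * m ^ 2 := by omega
    have hed : e < d := by
      by_contra hcon
      push Not at hcon
      have : d ^ 2 ≤ e ^ 2 := Nat.pow_le_pow_left hcon 2
      omega
    have hc1 : v + 32 * (8 * m) ≤ e := by
      by_contra hcon
      push Not at hcon
      have h5 : (e + 1) ^ 2 ≤ (v + 256 * m) ^ 2 := Nat.pow_le_pow_left (by omega) 2
      have e5 : (v + 256 * m) ^ 2 = v ^ 2 + 512 * (v * m) + 65536 * (m * m) := by ring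
      rw [hm2] at h4
      rw [e5] at h5
      omega
    have hE : EM ({v} + M) (TZ e) := EM_arb hM hc1 (by rw [e16]; exact h3)
    have hsub : TF e ⊆ TF d := by
      rw [← coe_subset, coe_TF, coe_TF]
      exact Pool.Agent.TH745.MN.TZ_mono hed.le
    have hcard := card_le_card hsub
    have h5 : crkM (TF d) ({v} + M) ≤ (TF d).card - (TF e).card :=
      crk_le ⟨TF e, hsub, by omega, by rw [coe_TF]; exact hE⟩
    have h6 := hTF e
    have h7 := hTF d
    have h8 : (e + 1) * (e + 2) = (e + 1) ^ 2 + (e + 1) := by ring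
    have h10 : v * (v + 1) = v ^ 2 + v := by ring
    omega

theorem sq1_eqQ (M : Multiset ℕ) : Pool.Agent.Y205.AV.sq1 M = S2 M + 2 * M.sum + M.card := by
  induction M using Multiset.induction_on with
  | empty => simp [Pool.Agent.Y205.AV.sq1, S2]
  | cons a M ih =>
    have e2 : S2 (a ::ₘ M) = a ^ 2 + S2 M := by
      unfold S2; rw [Multiset.map_cons, Multiset.sum_cons]
    rw [Pool.Agent.Y205.AV.sq1_cons, e2, Multiset.sum_cons, Multiset.card_cons, ih]
    ring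

theorem sq1_le4 {M : Multiset ℕ} (h : ∀ x ∈ M, 1 ≤ x) :
    Pool.Agent.Y205.AV.sq1 M ≤ 4 * S2 M := by
  induction M using Multiset.induction_on with
  | empty => simp [Pool.Agent.Y205.AV.sq1, S2]
  | cons a M ih =>
    have e2 : S2 (a ::ₘ M) = a ^ 2 + S2 M := by
      unfold S2; rw [Multiset.map_cons, Multiset.sum_cons]
    rw [Pool.Agent.Y205.AV.sq1_cons, e2]
    have h1 := ih fun x hx => h x (Multiset.mem_cons_of_mem hx)
    have h2 : (a + 1) ^ 2 ≤ (2 * a) ^ 2 :=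
      Nat.pow_le_pow_left (by have := h a (Multiset.mem_cons_self a M); omega) 2
    have e : (2 * a) ^ 2 = 4 * a ^ 2 := by ring
    omega

/-- the corank of a leaf -/
theorem leafD {M : Multiset ℕ} {v B d m T G0 G1 X e0 e1 L δ Δ c : ℕ} (hm : 1 ≤ m)
    (hB : v + B = d) (hM : ∀ x ∈ M, 1 ≤ x ∧ x + 1 ≤ 8 * m) (hB1 : 2048 * m ≤ B)
    (hΔ : Δ = (B + 1) * (B + 2 * v + 2)) (hcd : cM (M + {v}) + G0 = T + G1)
    (hδ : 2 * (TF d).card = 2 * T + δ ∨ 2 * (TF d).card + δ = 2 * T)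
    (hc : (TF d).card ≤ c + T) (hgain : 56 * X ≤ 2 * (G0 + G1))
    (hLl : 17 * M.sum ≤ 136 * X + 4 * G1 + 17 * e1) (hn : M.card ≤ X + e0)
    (he1 : 2 * e1 ≤ 63 * m ^ 2) (he0 : e0 ≤ 63 * m) (hX : L = 64 * X + e1)
    (hTm : 2 * T ≤ v * (v + 1) + m * L) (h : 2 ^ 21 * m ^ 2 ≤ L + δ) :
    crkM (TF d) ({v} + M) ≤ c + G0 := by
  have hTF : 2 * (TF d).card = (d + 1) * (d + 2) := by
    rw [card_TF]
    exact Pool.Agent.TH2.NU.two_choose (d + 1)
  have hreg : (d + 1) * (d + 2) = v * (v + 1) + Δ := by rw [hΔ, ← hB]; ring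
  have hcv : cM (M + {v}) = cM M + (v + 1).choose 2 := by rw [cM_add, cM_single]
  have htv := Pool.Agent.TH2.NU.two_choose v
  have htw := two_cMS M
  have hsq := sq1_eqQ M
  obtain ⟨q, hq⟩ : ∃ q, q = Δ / (256 * m) := ⟨_, rfl⟩
  have hq1 : q * (256 * m) ≤ Δ := by rw [hq]; exact Nat.div_mul_le_self _ _
  have hm2 : m ^ 2 = m * m := sq m
  have hmm : m * 1 ≤ m * m := Nat.mul_le_mul_left _ hm
  obtain ⟨P, hP⟩ : ∃ P, P = m * m := ⟨_, rfl⟩
  rw [hm2, ← hP] at he1 h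
  rw [← hP] at hmm
  by_cases hsur : Pool.Agent.Y205.AV.sq1 M + 524672 * m ^ 2 + Δ / (256 * m) + 1 ≤ Δ
  · have h1 := crkM_of_SM (SM_arb hB hm (fun x hx => (hM x hx).2) (by omega) hΔ hsur)
    have h2 : cM ({v} + M) = cM (M + {v}) := by rw [add_comm]
    omega
  · push Not at hsur
    rw [← hq, hm2, ← hP] at hsur
    have hBB : 2048 * m * (2048 * m) ≤ B * B := Nat.mul_le_mul hB1 hB1
    have e1' : 2048 * m * (2048 * m) = 4194304 * P := by rw [hP]; ring
    have e3 : (B + 1) * (B + 2 * v + 2) = B * B + 2 * (v * B) + 3 * B + 2 * v + 2 := by ring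
    have hΔP : 4194304 * P ≤ Δ := by
      rw [hΔ, e3]
      have := Nat.zero_le (v * B)
      omega
    have hq2 : 256 * q ≤ Δ := by
      have h1 : q * (256 * 1) ≤ q * (256 * m) := Nat.mul_le_mul_left _ (by omega)
      omega
    have h4 := sq1_le4 fun x hx => (hM x hx).1
    have hP1 : 1 ≤ P := by omega
    have hS : Δ ≤ 8 * S2 M := by omega
    rcases crk_arb hB hm (fun x hx => ⟨(hM x hx).1, by have := (hM x hx).2; omega⟩) hB1 hΔ hS
      with h0 | h0
    · rw [h0]; exact Nat.zero_le _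
    · rw [hm2, ← hP] at h0
      have hq3 : 256 * q ≤ L + δ := by
        have h1 : Δ ≤ m * L + δ := by
          rcases hδ with hδ | hδ <;> omega
        have h2 : δ * 1 ≤ δ * m := Nat.mul_le_mul_left _ hm
        have h3 : m * (256 * q) ≤ m * (L + δ) := by
          have e4 : m * (256 * q) = q * (256 * m) := by ring
          have e5 : m * (L + δ) = m * L + δ * m := by ring
          rw [e4, e5]
          omega
        exact Nat.le_of_mul_le_mul_left h3 (by omega)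
      by_contra hcon
      push Not at hcon
      rcases hδ with hδ | hδ <;> omega

end Pool.Agent.K6.H83.QH
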