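import Pool.Agent.K6.H83.QH.LeafA

/-! Cells: groups with donors, all of the same height. -/

set_option autoImplicit false

namespace Pool.Agent.K6.H83.QH

open Finset Pool.Agent.TH176.Nag Pool.Agent.TH603.Sur Pool.Agent.TH745.MN Pool.Agent.Y205.FW
  Pool.Agent.TH641.UM Pool.Agent.TH2.NU Filter Topology

theorem RR.mono {κ : Type} [Fintype κ] {w : κ → ℕ} {ρ ρ' h : ℝ} (hw : RR w ρ h) (hρ0 : 0 ≤ ρ)
    (hρ : ρ ≤ ρ') : RR w ρ' h := by
  intro α μ ν hμν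
  refine (hw α μ (ρ - μ) (by ring)).mono ?_
  rintro ⟨a, b⟩ ⟨a1, a2, a3⟩
  simp only at a1 a2 a3
  have g3 : 0 < ρ * (h - b) := by linarith
  have g4 : 0 < h - b := by
    by_contra hcon
    push Not at hcon
    have := mul_nonpos_of_nonneg_of_nonpos hρ0 hcon
    linarith
  refine ⟨a1, a2, ?_⟩
  simp only
  have e : ν = ρ' - μ := by linarith
  have g5 : 0 ≤ (ρ' - ρ) * (h - b) := mul_nonneg (by linarith) g4.le
  rw [e]
  linarith

/-- `n` cells with the total area `c` -/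
def CellN (M : Multiset ℕ) (c : ℝ) (n : ℕ) (U : ℝ) : Prop :=
  ∀ h, U - 1 / 16 ≤ h → h ≤ U → RM M ((c + 2 * n * h) / h ^ 2) h

theorem CellN.zero {U : ℝ} : CellN 0 0 0 U := by
  intro h _ _ α μ ν _
  have : IsEmpty (Fin (0 : Multiset ℕ).toList.length) := by
    simp only [Multiset.toList_zero, List.length_nil]
    infer_instance
  exact Sur_of_isEmpty _ _

theorem CellN.add {M M' : Multiset ℕ} {c c' U : ℝ} {n n' : ℕ} (hU : 8 ≤ U) (h1 : CellN M c n U)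
    (h2 : CellN M' c' n' U) (hn : 1 ≤ n) (hc : 0 ≤ c) (hc' : 0 ≤ c') :
    CellN (M + M') (c + c') (n + n') U := by
  intro h g1 g2
  have hh0 : 0 < h := by linarith
  have hn0 : (0 : ℝ) < n := by exact_mod_cast hn
  have g3 := RR.add (h1 h g1 g2) (h2 h g1 g2) (by positivity) (by positivity)
  have e : (c + 2 * n * h) / h ^ 2 + (c' + 2 * n' * h) / h ^ 2 =
      (c + c' + 2 * ((n + n' : ℕ) : ℝ) * h) / h ^ 2 := by
    push_cast; ring
  rw [e] at g3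
  exact RM_of (by rw [ms_sum, ms_fam, ms_fam]) g3

theorem CellN.more {M : Multiset ℕ} {c U : ℝ} {n n' : ℕ} (hU : 8 ≤ U) (h1 : CellN M c n U)
    (hn : n ≤ n') (hc : 0 ≤ c) : CellN M c n' U := by
  intro h g1 g2
  have hh0 : 0 < h := by linarith
  refine RR.mono (h1 h g1 g2) (by positivity) ?_
  have hnn : (n : ℝ) ≤ n' := by exact_mod_cast hn
  apply div_le_div_of_nonneg_right _ (by positivity)
  have : 2 * (n : ℝ) * h ≤ 2 * n' * h := mul_le_mul_of_nonneg_right (by linarith) hh0.le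
  linarith

theorem CellN.block {p : ℕ × ℕ} {U : ℝ} (hU : 8 ≤ U) (hp : OKb U p) :
    CellN (p.1 • {p.2}) ((p.1 : ℝ) * (p.2 + 1) ^ 2) 1 U := by
  intro h g1 g2
  have hh0 : 0 < h := by linarith
  refine RM_of (ms_fin p.1 p.2) (RR.mono (blkA hU hp g1 g2) (by positivity) ?_)
  apply div_le_div_of_nonneg_right _ (by positivity)
  push_cast
  linarith

/-- a cell from a chain -/
theorem CellN.ofGD {M : Multiset ℕ} {D c g τ U' U : ℝ} (hU : 8 ≤ U) (h : GD M D c g τ U')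
    (hg : g ≤ 2) (hτ : τ ≤ U - 1 / 16) (hU' : U ≤ U') (hc16 : 16 * U ^ 2 ≤ c) (hD : D * U ≤ c) :
    CellN M c 1 U := by
  intro H g1 g2
  have hh0 : 0 < H := by linarith
  have e : (c + 2 * ((1 : ℕ) : ℝ) * H) = c + 2 * H := by push_cast; ring
  rw [e]
  apply RR_of_LJ
  have hHU : H ^ 2 ≤ U ^ 2 := pow_le_pow_left₀ hh0.le g2 2
  have hc0 : 0 ≤ c := by
    have : 0 ≤ 16 * U ^ 2 := by positivity
    linarith
  refine h H _ (by linarith) (by linarith) ?_ ?_ ?_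
  · rw [le_div_iff₀ (by positivity)]
    linarith
  · have e2 : (c + 2 * H) / H ^ 2 * H = c / H + 2 := by field_simp
    rw [e2]
    have g3 : D ≤ c / U := by
      rw [le_div_iff₀ (by linarith)]
      exact hD
    have g4 : c / U ≤ c / H := div_le_div_of_nonneg_left hc0 hh0 g2
    linarith
  · have e2 : (c + 2 * H) / H ^ 2 * H ^ 2 = c + 2 * H := by field_simp
    rw [e2]
    have : g * H ≤ 2 * H := mul_le_mul_of_nonneg_right hg hh0.le
    linarith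

/-- a light group with its donors -/
theorem CellN.light {k l n0 u0 : ℕ} {U : ℝ} (hU : 64 ≤ U) (hl : 8 * ((l : ℝ) + 1) ≤ U)
    (hu : 8 * ((u0 : ℝ) + 1) ≤ U)
    (hn : 16 * U ^ 2 + 2 * ((k : ℝ) * (l + 1)) * U ≤ (n0 : ℝ) * (u0 + 1) ^ 2) :
    CellN (k • {l} + n0 • {u0}) ((n0 : ℝ) * (u0 + 1) ^ 2 + k * (l + 1) ^ 2) 1 U := by
  have hu0 : (0 : ℝ) ≤ u0 := Nat.cast_nonneg u0
  have hl0 : (0 : ℝ) ≤ l := Nat.cast_nonneg l
  have hk0 : (0 : ℝ) ≤ k := Nat.cast_nonneg k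
  have hn0 : (0 : ℝ) ≤ n0 := Nat.cast_nonneg n0
  have h1 : Good (fun _ : Fin n0 => u0) (n0 * ((u0 : ℝ) + 1) ^ 2) 1
      (2 * ((u0 : ℝ) + 1) + 1 / 16) (2 * (n0 * ((u0 : ℝ) + 1))) := good_block le_rfl le_rfl
  have h2 : GD (n0 • {u0}) (8 + 2 * ((k : ℝ) * (l + 1))) (n0 * ((u0 : ℝ) + 1) ^ 2) 1
      (2 * ((u0 : ℝ) + 1) + 1 / 16) (2 * (n0 * ((u0 : ℝ) + 1))) :=
    (GM_of (ms_fin n0 u0) h1).toGD _
  have hkl0 : 0 ≤ (k : ℝ) * (l + 1) := by positivity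
  have hmass : U ≤ n0 * ((u0 : ℝ) + 1) := by
    have g1 : U * U ≤ n0 * ((u0 : ℝ) + 1) * U := by
      have g2 : (n0 : ℝ) * (u0 + 1) * (u0 + 1) ≤ n0 * (u0 + 1) * U :=
        mul_le_mul_of_nonneg_left (by linarith) (by positivity)
      have g3 : 0 ≤ 2 * ((k : ℝ) * (l + 1)) * U := by positivity
      nlinarith
    exact le_of_mul_le_mul_right g1 (by linarith)
  have h3 := h2.step (k := k) (l := l) (by norm_num) (τ' := U - 1 / 16)
    (U' := 2 * (2 * (n0 * ((u0 : ℝ) + 1)))) (by linarith) (by linarith) (by linarith)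
    (by linarith) le_rfl
  refine CellN.ofGD (by linarith) h3 (by norm_num) le_rfl (by linarith) ?_ ?_
  · have g3 : 0 ≤ 2 * ((k : ℝ) * (l + 1)) * U := by positivity
    have g4 : 0 ≤ (k : ℝ) * (l + 1) ^ 2 := by positivity
    linarith
  · have g4 : 0 ≤ (k : ℝ) * (l + 1) ^ 2 := by positivity
    have g5 : 8 * U ≤ 16 * U ^ 2 := by nlinarith
    have e : (8 + 2 * ((k : ℝ) * (l + 1))) * U = 8 * U + 2 * ((k : ℝ) * (l + 1)) * U := by ring
    rw [e]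
    linarith

/-- a block of medium area with its donors -/
theorem CellN.medium {N u n0 u0 : ℕ} {U : ℝ} (hU : 64 ≤ U) (hu1 : 16 * ((u : ℝ) + 1) ≤ U)
    (hu : 16 * ((u0 : ℝ) + 1) ≤ U) (hN : 2 * U ≤ (N : ℝ) * (u + 1))
    (hc : U ^ 2 / 4 ≤ (N : ℝ) * (u + 1) ^ 2) (hn : 16 * U ^ 2 ≤ (n0 : ℝ) * (u0 + 1) ^ 2) :
    CellN (N • {u} + n0 • {u0}) ((N : ℝ) * (u + 1) ^ 2 + (n0 : ℝ) * (u0 + 1) ^ 2) 1 U := by
  have hu0 : (0 : ℝ) ≤ u0 := Nat.cast_nonneg u0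
  have hn0 : (0 : ℝ) ≤ n0 := Nat.cast_nonneg n0
  have hN0 : (0 : ℝ) ≤ N := Nat.cast_nonneg N
  have hu10 : (0 : ℝ) ≤ u := Nat.cast_nonneg u
  obtain ⟨V, hV⟩ : ∃ V : ℝ, V = U / 4 := ⟨_, rfl⟩
  have hV2 : V ^ 2 = U ^ 2 / 16 := by rw [hV]; ring
  have hmass : U ≤ n0 * ((u0 : ℝ) + 1) := by
    have g1 : U * U ≤ n0 * ((u0 : ℝ) + 1) * U := by
      have g2 : (n0 : ℝ) * (u0 + 1) * (u0 + 1) ≤ n0 * (u0 + 1) * U :=
        mul_le_mul_of_nonneg_left (by linarith) (by positivity)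
      nlinarith
    exact le_of_mul_le_mul_right g1 (by linarith)
  have hU2 : 0 ≤ U ^ 2 := sq_nonneg U
  have hOK : ∀ p ∈ [(N, u), (n0, u0)], OKb V p := by
    intro p hp
    simp only [List.mem_cons, List.not_mem_nil, or_false] at hp
    rcases hp with rfl | rfl
    · refine ⟨Or.inl ?_, ?_, ?_⟩
      · simp only
        rw [hV2]; linarith
      · simp only
        rw [hV]; linarith
      · simp only
        rw [hV]; linarith
    · refine ⟨Or.inl ?_, ?_, ?_⟩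
      · simp only
        rw [hV2]; linarith
      · simp only
        rw [hV]; linarith
      · simp only
        rw [hV]; linarith
  have e1 : GG [(N, u), (n0, u0)] = N • {u} + n0 • {u0} := by simp [GG]
  have e2 : (Sq [(N, u), (n0, u0)] : ℝ) = (N : ℝ) * (u + 1) ^ 2 + (n0 : ℝ) * (u0 + 1) ^ 2 := by
    simp [Sq]
  have h1 : GM (GG [(N, u), (n0, u0)]) (Sq [(N, u), (n0, u0)]) (2 / 2 + 1)
      (2 * (V - 1 / 16) + 1 / 32) (2 * V) := by
    refine GM.ofRM (by rw [hV]; linarith) (Nat.cast_nonneg _) (by norm_num) fun h g1 g2 => ?_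
    have g3 := RM_list (by rw [hV]; linarith) g1 g2 _ hOK
    simpa using g3
  rw [e1, e2] at h1
  have h2 := (h1.lift (by rw [hV]; linarith) (by norm_num)).toGD 0
  refine CellN.ofGD (by linarith) h2 (by norm_num) (by rw [hV]; linarith) (by rw [hV]; linarith)
    ?_ ?_
  · have : 0 ≤ (N : ℝ) * (u + 1) ^ 2 := by positivity
    linarith
  · rw [zero_mul]
    positivity

/-- the number of donors -/
theorem donors {U U0 x : ℝ} (hU0 : 0 < U0) (hUU : U0 ≤ U) (hx : 0 ≤ x) :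
    ∃ n0 : ℕ, 16 * U ^ 2 + x ≤ (n0 : ℝ) * U0 ^ 2 ∧ (n0 : ℝ) * U0 ^ 2 ≤ 17 * U ^ 2 + x := by
  refine ⟨⌈(16 * U ^ 2 + x) / U0 ^ 2⌉₊, ?_, ?_⟩
  · have := Nat.le_ceil ((16 * U ^ 2 + x) / U0 ^ 2)
    rwa [div_le_iff₀ (by positivity)] at this
  · have g1 := Nat.ceil_lt_add_one (show 0 ≤ (16 * U ^ 2 + x) / U0 ^ 2 by positivity)
    have g2 : (⌈(16 * U ^ 2 + x) / U0 ^ 2⌉₊ : ℝ) * U0 ^ 2 ≤
        ((16 * U ^ 2 + x) / U0 ^ 2 + 1) * U0 ^ 2 := mul_le_mul_of_nonneg_right g1.le (by positivity)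
    have e : ((16 * U ^ 2 + x) / U0 ^ 2 + 1) * U0 ^ 2 = 16 * U ^ 2 + x + U0 ^ 2 := by field_simp
    rw [e] at g2
    have g3 : U0 ^ 2 ≤ U ^ 2 := pow_le_pow_left₀ hU0.le hUU 2
    linarith

/-- the heavy classes, with donors -/
theorem cells_heavy {u0 : ℕ} {U : ℝ} (hU : 64 ≤ U) (hu : 16 * ((u0 : ℝ) + 1) ≤ U)
    (L : List (ℕ × ℕ)) : (∀ p ∈ L, 16 * ((p.2 : ℝ) + 1) ≤ U ∧ 2 * U ≤ (p.1 : ℝ) * (p.2 + 1)) →
    ∃ n0 : ℕ, (n0 : ℝ) * (u0 + 1) ^ 2 ≤ L.length * (17 * U ^ 2) ∧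
      CellN (GG L + n0 • {u0}) (Sq L + (n0 : ℝ) * (u0 + 1) ^ 2) L.length U := by
  have hu00 : (0 : ℝ) ≤ u0 := Nat.cast_nonneg u0
  induction L with
  | nil =>
    intro _
    refine ⟨0, by simp, ?_⟩
    have h := CellN.zero (U := U)
    simpa [GG, Sq] using h
  | cons p L ih =>
    intro hL
    obtain ⟨n1, h1, h2⟩ := ih fun q hq => hL q (List.mem_cons_of_mem _ hq)
    obtain ⟨g1, g2⟩ := hL p List.mem_cons_self
    have hp0 : (0 : ℝ) ≤ p.2 := Nat.cast_nonneg _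
    have hU2 : 0 ≤ U ^ 2 := sq_nonneg U
    have key : ∀ n2 : ℕ, (n2 : ℝ) * (u0 + 1) ^ 2 ≤ 17 * U ^ 2 →
        CellN (p.1 • {p.2} + n2 • {u0})
          ((p.1 : ℝ) * (p.2 + 1) ^ 2 + (n2 : ℝ) * (u0 + 1) ^ 2) 1 U →
        ∃ n0 : ℕ, (n0 : ℝ) * (u0 + 1) ^ 2 ≤ (p :: L).length * (17 * U ^ 2) ∧
          CellN (GG (p :: L) + n0 • {u0}) (Sq (p :: L) + (n0 : ℝ) * (u0 + 1) ^ 2)
            (p :: L).length U := by
      intro n2 h3 h4
      refine ⟨n2 + n1, ?_, ?_⟩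
      · rw [List.length_cons]
        push_cast
        linarith
      · have h5 := CellN.add (by linarith) h4 h2 le_rfl (by positivity) (by positivity)
        have e1 : p.1 • ({p.2} : Multiset ℕ) + n2 • {u0} + (GG L + n1 • {u0}) =
            GG (p :: L) + (n2 + n1) • {u0} := by
          rw [GG_cons, add_smul]; abel
        have e2 : (p.1 : ℝ) * (p.2 + 1) ^ 2 + (n2 : ℝ) * (u0 + 1) ^ 2 +
            ((Sq L : ℝ) + (n1 : ℝ) * (u0 + 1) ^ 2) =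
            (Sq (p :: L) : ℝ) + ((n2 + n1 : ℕ) : ℝ) * (u0 + 1) ^ 2 := by
          rw [Sq_cons]; push_cast; ring
        rw [e1, e2, add_comm 1, ← List.length_cons (a := p)] at h5
        exact h5
    by_cases hOK : OKb U p
    · refine key 0 (by push_cast; linarith) ?_
      have h3 := CellN.block (by linarith) hOK
      simpa using h3
    · obtain ⟨n2, h3, h4⟩ := donors (U := U) (U0 := (u0 : ℝ) + 1) (x := 0) (by positivity)
        (by linarith) le_rfl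
      rw [add_zero] at h3 h4
      refine key n2 h4 (CellN.medium hU g1 hu g2 ?_ h3)
      unfold OKb at hOK
      by_contra hcon
      push Not at hcon
      exact hOK ⟨Or.inr hcon.le, by linarith, g2⟩

/-- the light groups, with donors -/
theorem cells_light {u0 : ℕ} {U : ℝ} (hU : 64 ≤ U) (hu : 16 * ((u0 : ℝ) + 1) ≤ U)
    (L : List (ℕ × ℕ)) : (∀ p ∈ L, 16 * ((p.2 : ℝ) + 1) ≤ U) →
    ∃ n0 : ℕ, (n0 : ℝ) * (u0 + 1) ^ 2 ≤ L.length * (17 * U ^ 2) + 2 * Lm L * U ∧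
      CellN (GG L + n0 • {u0}) (Sq L + (n0 : ℝ) * (u0 + 1) ^ 2) L.length U := by
  have hu00 : (0 : ℝ) ≤ u0 := Nat.cast_nonneg u0
  induction L with
  | nil =>
    intro _
    refine ⟨0, by simp [Lm], ?_⟩
    have h := CellN.zero (U := U)
    simpa [GG, Sq] using h
  | cons p L ih =>
    intro hL
    obtain ⟨n1, h1, h2⟩ := ih fun q hq => hL q (List.mem_cons_of_mem _ hq)
    have g1 := hL p List.mem_cons_self
    have hp0 : (0 : ℝ) ≤ p.2 := Nat.cast_nonneg _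
    have hU2 : 0 ≤ U ^ 2 := sq_nonneg U
    obtain ⟨n2, h3, h4⟩ := donors (U := U) (U0 := (u0 : ℝ) + 1)
      (x := 2 * ((p.1 : ℝ) * (p.2 + 1)) * U) (by positivity) (by linarith) (by positivity)
    have h5 := CellN.light (k := p.1) (l := p.2) (n0 := n2) (u0 := u0) hU (by linarith)
      (by linarith) h3
    refine ⟨n2 + n1, ?_, ?_⟩
    · rw [List.length_cons, Lm_cons]
      push_cast
      linarith
    · have h6 := CellN.add (by linarith) h5 h2 le_rfl (by positivity) (by positivity)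
      have e1 : p.1 • ({p.2} : Multiset ℕ) + n2 • {u0} + (GG L + n1 • {u0}) =
          GG (p :: L) + (n2 + n1) • {u0} := by
        rw [GG_cons, add_smul]; abel
      have e2 : (n2 : ℝ) * (u0 + 1) ^ 2 + (p.1 : ℝ) * (p.2 + 1) ^ 2 +
          ((Sq L : ℝ) + (n1 : ℝ) * (u0 + 1) ^ 2) =
          (Sq (p :: L) : ℝ) + ((n2 + n1 : ℕ) : ℝ) * (u0 + 1) ^ 2 := by
        rw [Sq_cons]; push_cast; ring
      rw [e1, e2, add_comm 1, ← List.length_cons (a := p)] at h6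
      exact h6

/-- **Independence**: all groups in cells of the same height; `(A0, u0)` is the class with the
donors. -/
theorem surP {Lh Ll : List (ℕ × ℕ)} {A0 u0 v B d J : ℕ} {U : ℝ} (hB : v + B = d) (hB3 : 64 ≤ B)
    (hJ : 2 ^ J * (2 * U) = ((B : ℝ) + 2) / 4) (hU : 64 ≤ U) (hu : 16 * ((u0 : ℝ) + 1) ≤ U)
    (hLh : ∀ p ∈ Lh, 16 * ((p.2 : ℝ) + 1) ≤ U ∧ 2 * U ≤ (p.1 : ℝ) * (p.2 + 1))
    (hLl : ∀ p ∈ Ll, 16 * ((p.2 : ℝ) + 1) ≤ U)
    (hA0 : Lh.length * (17 * U ^ 2) + (Ll.length * (17 * U ^ 2) + 2 * Lm Ll * U) + 2 * U ^ 2 ≤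
      (A0 : ℝ) * (u0 + 1) ^ 2)
    (hcost : (Sq Lh : ℝ) + Sq Ll + (A0 : ℝ) * (u0 + 1) ^ 2 +
      2 * ((Lh.length : ℝ) + Ll.length) * U + (B + 2) / 2 ≤ (d + v + 33 / 10) * (B + 2)) :
    SM ({v} + (GG Lh + GG Ll + A0 • {u0})) (TZ d) := by
  have hd : (d : ℝ) = v + B := by rw [← hB]; push_cast; ring
  have hv0 : (0 : ℝ) ≤ v := Nat.cast_nonneg v
  have hBR : (64 : ℝ) ≤ B := by exact_mod_cast hB3
  have hu00 : (0 : ℝ) ≤ u0 := Nat.cast_nonneg u0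
  obtain ⟨n1, a1, a2⟩ := cells_heavy hU hu Lh hLh
  obtain ⟨n2, b1, b2⟩ := cells_light hU hu Ll hLl
  have hn12 : ((n1 + n2 : ℕ) : ℝ) * (u0 + 1) ^ 2 + 2 * U ^ 2 ≤ (A0 : ℝ) * (u0 + 1) ^ 2 := by
    push_cast
    linarith
  have hle : n1 + n2 ≤ A0 := by
    have h1 : ((n1 + n2 : ℕ) : ℝ) * (u0 + 1) ^ 2 ≤ (A0 : ℝ) * (u0 + 1) ^ 2 := by
      have : 0 ≤ U ^ 2 := sq_nonneg U
      linarith
    have h2 := le_of_mul_le_mul_right h1 (by positivity)
    exact_mod_cast h2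
  obtain ⟨A1, hA1⟩ : ∃ A1, A0 = A1 + (n1 + n2) := ⟨A0 - (n1 + n2), by omega⟩
  have hA1R : (A0 : ℝ) = A1 + ((n1 + n2 : ℕ) : ℝ) := by rw [hA1]; push_cast; ring
  have hA1c : 2 * U ^ 2 ≤ (A1 : ℝ) * (u0 + 1) ^ 2 := by
    rw [hA1R, add_mul] at hn12
    linarith
  have hA1m : 2 * U ≤ (A1 : ℝ) * (u0 + 1) := by
    have g1 : 2 * U * U ≤ A1 * ((u0 : ℝ) + 1) * U := by
      have g2 : (A1 : ℝ) * (u0 + 1) * (u0 + 1) ≤ A1 * (u0 + 1) * U :=
        mul_le_mul_of_nonneg_left (by linarith) (by positivity)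
      nlinarith
    exact le_of_mul_le_mul_right g1 (by linarith)
  have c1 : CellN (A1 • {u0}) ((A1 : ℝ) * (u0 + 1) ^ 2) 1 U :=
    CellN.block (p := (A1, u0)) (by linarith) ⟨Or.inl hA1c, by simp only; linarith, hA1m⟩
  obtain ⟨M, hM⟩ : ∃ M, M = GG Lh + GG Ll + A0 • {u0} := ⟨_, rfl⟩
  obtain ⟨c, hc⟩ : ∃ c : ℝ, c = (Sq Lh : ℝ) + Sq Ll + (A0 : ℝ) * (u0 + 1) ^ 2 := ⟨_, rfl⟩
  obtain ⟨n, hn⟩ : ∃ n : ℕ, n = Lh.length + Ll.length := ⟨_, rfl⟩
  have hc0 : 0 ≤ c := by rw [hc]; positivity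
  have hall : CellN M c (1 + n) U := by
    have d1 : CellN (GG Lh + n1 • {u0} + (GG Ll + n2 • {u0}))
        ((Sq Lh : ℝ) + (n1 : ℝ) * (u0 + 1) ^ 2 + ((Sq Ll : ℝ) + (n2 : ℝ) * (u0 + 1) ^ 2)) n U := by
      rcases Nat.eq_zero_or_pos Lh.length with h0 | h0
      · intro h g1 g2
        have hL0 : Lh = [] := List.eq_nil_of_length_eq_zero h0
        have hn10 : (n1 : ℝ) * (u0 + 1) ^ 2 = 0 := by
          rw [hL0] at a1
          simp only [List.length_nil, Nat.cast_zero, zero_mul] at a1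
          exact le_antisymm a1 (by positivity)
        have hn1 : n1 = 0 := by
          have h1 : (n1 : ℝ) = 0 := by
            rcases mul_eq_zero.1 hn10 with h1 | h1
            · exact h1
            · exfalso
              have : 0 < ((u0 : ℝ) + 1) ^ 2 := by positivity
              linarith
          exact_mod_cast h1
        rw [hn, h0, hL0, hn1]
        have := b2 h g1 g2
        simpa [GG, Sq] using this
      · rw [hn]
        exact CellN.add (by linarith) a2 b2 h0 (by positivity) (by positivity)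
    have d2 := CellN.add (by linarith) c1 d1 le_rfl (by positivity) (by positivity)
    have e1 : A1 • ({u0} : Multiset ℕ) + (GG Lh + n1 • {u0} + (GG Ll + n2 • {u0})) = M := by
      rw [hM, hA1, add_smul, add_smul]; abel
    have e2 : (A1 : ℝ) * (u0 + 1) ^ 2 +
        ((Sq Lh : ℝ) + (n1 : ℝ) * (u0 + 1) ^ 2 + ((Sq Ll : ℝ) + (n2 : ℝ) * (u0 + 1) ^ 2)) = c := by
      rw [hc, hA1]; push_cast; ring
    rw [e1, e2] at d2
    exact d2
  have p1 : (1 : ℝ) ≤ 2 ^ J := one_le_pow₀ (by norm_num)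
  have g0 : GM M c (2 * ((1 + n : ℕ) : ℝ) / 2 + 1) (2 * (U - 1 / 16) + 1 / 32) (2 * U) :=
    GM.ofRM (by linarith) hc0 (by positivity) fun h h1 h2 => hall h h1 h2
  have g1 := g0.mono (g' := (n : ℝ) + 2) (τ' := 2 * U - 1 / 16) le_rfl (by
    push_cast
    linarith) (by linarith) (by linarith) le_rfl
  have g2 := g1.lifts (by linarith) (by positivity) J
  have e' : (2 : ℝ) ^ J * (2 * U - 1 / 16 + 1 / 16) - 1 / 16 = ((B : ℝ) + 2) / 4 - 1 / 16 := by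
    rw [← hJ]; ring
  rw [e', hJ] at g2
  obtain ⟨H, hH⟩ : ∃ H : ℝ, H = ((B : ℝ) + 2) / 4 := ⟨_, rfl⟩
  have hH0 : 0 < H := by rw [hH]; linarith
  obtain ⟨ρ, hρ⟩ : ∃ ρ : ℝ, ρ = (4 * (d : ℝ) + 4 * v + 14 - √2 / 2) / H := ⟨_, rfl⟩
  have hρH : ρ * H = 4 * (d : ℝ) + 4 * v + 14 - √2 / 2 := by rw [hρ]; field_simp
  have h20 : 0 < √(2 : ℝ) := Real.sqrt_pos.2 (by norm_num)
  have h21 : √(2 : ℝ) < 3 / 2 := by
    rw [Real.sqrt_lt' (by norm_num)]; norm_num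
  have g5 : SM M (LJ ρ (ρ * H)) := by
    refine g2 H ρ (by rw [hH]; linarith) (by rw [hH]) ?_ ?_
    · rw [hρ, le_div_iff₀ hH0, hH, hd]
      linarith
    · have e : ρ * H ^ 2 = (ρ * H) * H := by ring
      have e3 : ((n : ℝ) / 2 ^ J + 2) * H = 2 * n * U + 2 * H := by
        have : H = 2 ^ J * (2 * U) := by rw [hH, hJ]
        rw [add_mul]
        congr 1
        rw [this]
        field_simp
      rw [e, hρH, e3, hH]
      have h6 : ((d : ℝ) + v + 33 / 10) * (B + 2) ≤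
          (4 * (d : ℝ) + 4 * v + 14 - √2 / 2) * (((B : ℝ) + 2) / 4) := by
        have h3 : (0 : ℝ) ≤ (14 - √2 / 2 - 66 / 5) * ((B : ℝ) + 2) :=
          mul_nonneg (by linarith) (by linarith)
        have h4 : (4 * (d : ℝ) + 4 * v + 14 - √2 / 2) * (((B : ℝ) + 2) / 4) =
          (d + v + 33 / 10) * ((B : ℝ) + 2) +
            (14 - √2 / 2 - 66 / 5) * ((B : ℝ) + 2) / 4 := by ring
        rw [h4]
        linarith
      refine le_trans ?_ h6
      rw [← hc] at hcost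
      have hnR : (n : ℝ) = Lh.length + Ll.length := by rw [hn]; push_cast; ring
      rw [hnR]
      linarith
  exact sur_tzM hB (by omega) hH hρH (by rw [← hM]; exact g5)

end Pool.Agent.K6.H83.QH
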