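import Pool.Agent.Y205.FW.SurFew
import Pool.Agent.Y100.FW.Seq
import Pool.Agent.Y665.FW.Key
import Pool.Agent.Y839.FW.Corner

/-! Independence on right triangles with a real slope: a block of equal multiplicities, and groups of
points absorbed in the corners one after the other. -/

set_option autoImplicit false

namespace Pool.Agent.K6.H83.QH

open Finset Pool.Agent.TH176.Nag Pool.Agent.TH603.Sur Pool.Agent.TH745.MN Pool.Agent.Y205.FW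
  Filter Topology

theorem hSeq : StSeq := Pool.Agent.Y100.FW.seq Pool.Agent.Y665.FW.key

theorem hCor : StCorner := Pool.Agent.Y839.FW.corner

/-- interior exponents of the right triangle with the base `Δ` and the slope `ρ` -/
def LJ (ρ Δ : ℝ) : Set (ℤ × ℤ) :=
  {p : ℤ × ℤ | 0 ≤ p.1 ∧ 0 ≤ p.2 ∧ (p.1 : ℝ) + 1 + ρ * (p.2 + 1) < Δ}

/-- a group in the corner of the triangle at a node -/
theorem NOK_rare' {κ : Type} [Fintype κ] {w : κ → ℕ} {k l : ℕ} {H ρ : ℝ} (hk : 1 ≤ k)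
    (hl : (l : ℝ) + 1 < H) (hkl : (k : ℝ) * (l + 1) ≤ H) (hρ : 2 ≤ ρ)
    (h : Sur w (LJ ρ (ρ * H))) {τ : ℝ} (hτ : ρ + k * (l + 1) ^ 2 / H ^ 2 < τ) :
    NOK H (Sum.elim (fun _ : Fin k => l) w) τ := by
  have hl0 : (0 : ℝ) ≤ l := Nat.cast_nonneg l
  have hH0 : 0 < H := by linarith
  have hk0 : (0 : ℝ) < k := by exact_mod_cast (by omega : 0 < k)
  obtain ⟨V, hV⟩ : ∃ V : ℝ, V = l + 1 := ⟨_, rfl⟩
  have hV0 : 0 < V := by rw [hV]; positivity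
  obtain ⟨Z, hZ⟩ : ∃ Z : ℝ, Z = k * V * (H - V) / H ^ 2 := ⟨_, rfl⟩
  obtain ⟨Y0, hY0⟩ : ∃ Y0 : ℝ, Y0 = k * V / H := ⟨_, rfl⟩
  rw [← hV] at hl hkl hτ
  have hY0p : 0 < Y0 := by rw [hY0]; positivity
  have hY01 : Y0 ≤ 1 := by rw [hY0, div_le_one hH0]; exact hkl
  have hZY : Z = Y0 - k * V ^ 2 / H ^ 2 := by
    rw [hZ, hY0]; field_simp
  have hVV : 0 < k * V ^ 2 / H ^ 2 := by positivity
  have hX0 : 0 < ρ - Z := by linarith
  have hd : Sur w (RegO (-(Z * H)) (-(Z * H) + ρ * H) Z (ρ - Z)) :=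
    Sur_row (-(Z * H)) (by ring) h
  have e1 : -(Z * H) + ρ * H = (ρ - Z) * H := by ring
  rw [e1] at hd
  have hc := hCor (w := w) (k := k) (l := l) (H := H) (X := ρ - Z) hk
    (by rw [← hV]; exact hl) hX0 (by rw [← hV, ← hZ]; exact hd)
  rw [← hV, ← hY0] at hc
  have hnode : Sur (Sum.elim (fun _ : Fin k => l) w)
      {p : ℤ × ℤ | 0 ≤ p.2 ∧ -(Y0 * (H - 1 - p.2)) < (p.1 : ℝ) ∧
        (p.1 : ℝ) < (ρ - Z) * (H - 1 - p.2)} := by
    refine hc.shift 0 1 ?_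
    rintro ⟨p, q⟩ ⟨h1, h2, h3⟩
    simp only at h1 h2 h3
    refine ⟨by simp only; omega, ?_, ?_⟩
    · simp only; push_cast; linarith
    · simp only; push_cast; linarith
  have c4 : ∀ᶠ ε in 𝓝[>] (0 : ℝ), 0 < ε := eventually_mem_nhdsWithin
  unfold NOK
  filter_upwards [c4] with ε hε
  refine ⟨ρ - Z, ρ - Z + ε, Y0, Y0 + ε, hX0, by linarith, hY0p, by linarith, by linarith, ?_⟩
  intro X Y h1 h2 h3 h4
  refine hnode.mono ?_
  rintro ⟨p, q⟩ ⟨g1, g2, g3⟩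
  simp only at g1 g2 g3
  obtain ⟨t, ht⟩ : ∃ t : ℝ, t = H - 1 - q := ⟨_, rfl⟩
  rw [← ht] at g2 g3
  have ht0 : 0 < t := by
    by_contra hcon
    push Not at hcon
    have g4 : (ρ - Z) * t ≤ 0 := mul_nonpos_of_nonneg_of_nonpos hX0.le hcon
    have g5 : Y0 * t ≤ 0 := mul_nonpos_of_nonneg_of_nonpos hY0p.le hcon
    linarith
  have e2 : Y / (4 * ((1 : ℕ) : ℝ)) * (4 * H - 4 - 4 * ((1 : ℕ) : ℝ) * (q : ℝ)) = Y * t := by
    rw [ht]; push_cast; ring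
  have e3 : X / (4 * ((1 : ℕ) : ℝ)) * (4 * H - 4 - 4 * ((1 : ℕ) : ℝ) * (q : ℝ)) = X * t := by
    rw [ht]; push_cast; ring
  have g4 : Y0 * t ≤ Y * t := mul_le_mul_of_nonneg_right h3.le ht0.le
  have g5 : (ρ - Z) * t ≤ X * t := mul_le_mul_of_nonneg_right h1.le ht0.le
  refine ⟨g1, ?_, ?_⟩
  · simp only
    rw [e2]
    linarith
  · simp only
    rw [e3]
    linarith

/-- independence on all right triangles with height in `[τ, U]`, slope at least `16` and twice the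
area at least `c + g H` -/
def Good {κ : Type} [Fintype κ] (w : κ → ℕ) (c g τ U : ℝ) : Prop :=
  ∀ H ρ : ℝ, τ ≤ H → H ≤ U → 16 ≤ ρ → c + g * H ≤ ρ * H ^ 2 → Sur w (LJ ρ (ρ * H))

theorem half_eq {H ρ : ℝ} (hρ : 16 ≤ ρ) : (2 * (ρ * H) - 1) / (4 * ρ) = H / 2 - 1 / (4 * ρ) := by
  have : 0 < ρ := by linarith
  field_simp
  ring

theorem half_bd {ρ : ℝ} (hρ : 16 ≤ ρ) : 0 < 1 / (4 * ρ) ∧ 1 / (4 * ρ) ≤ 1 / 64 := by
  have : 0 < ρ := by linarith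
  refine ⟨by positivity, ?_⟩
  rw [div_le_div_iff₀ (by positivity) (by norm_num)]
  linarith

/-- one block -/
theorem good_block {N u : ℕ} {τ U : ℝ} (hτ : 2 * ((u : ℝ) + 1) + 1 / 16 ≤ τ)
    (hU : U ≤ 2 * (N * (u + 1))) :
    Good (fun _ : Fin N => u) (N * (u + 1) ^ 2) 1 τ U := by
  intro H ρ h1 h2 h3 h4
  have hu0 : (0 : ℝ) ≤ u := Nat.cast_nonneg u
  have hρ0 : 0 < ρ := by linarith
  obtain ⟨e2, e3⟩ := half_bd h3
  obtain ⟨h, hh⟩ : ∃ h : ℝ, h = (2 * (ρ * H) - 1) / (4 * ρ) := ⟨_, rfl⟩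
  have e1 : h = H / 2 - 1 / (4 * ρ) := by rw [hh]; exact half_eq h3
  have hh0 : 0 < h := by linarith
  have e4 : 4 * ρ * h ^ 2 = ρ * H ^ 2 - H + 1 / (4 * ρ) := by
    rw [hh]; field_simp; ring
  have hlt : (N : ℝ) * (u + 1) ^ 2 / h ^ 2 < 4 * ρ := by
    rw [div_lt_iff₀ (by positivity), e4]
    linarith
  obtain ⟨σ, g1, g2⟩ := exists_between hlt
  have hblk : NOK h (fun _ : Fin N => u) σ :=
    NOK_block (by linarith) (by linarith) (by linarith) g1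
  rw [hh] at hblk
  exact Sur_LJ hSeq (by linarith) g2 hblk

/-- one more group -/
theorem Good.step {κ : Type} [Fintype κ] {w : κ → ℕ} {c g τ U : ℝ} (hw : Good w c g τ U)
    {k l : ℕ} (hk : 1 ≤ k) (hg : 0 ≤ g) {τ' U' : ℝ} (hτ : 2 * τ + 1 / 32 ≤ τ')
    (hl : 2 * ((l : ℝ) + 1) + 1 / 16 ≤ τ') (hkl : 2 * ((k : ℝ) * (l + 1)) + 1 / 32 ≤ τ')
    (hU : U' ≤ 2 * U) :
    Good (Sum.elim (fun _ : Fin k => l) w) (c + k * (l + 1) ^ 2) (g / 2 + 1) τ' U' := by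
  intro H ρ h1 h2 h3 h4
  have hl0 : (0 : ℝ) ≤ l := Nat.cast_nonneg l
  have hk0 : (0 : ℝ) < k := by exact_mod_cast (by omega : 0 < k)
  have hρ0 : 0 < ρ := by linarith
  obtain ⟨e2, e3⟩ := half_bd h3
  obtain ⟨h, hh⟩ : ∃ h : ℝ, h = (2 * (ρ * H) - 1) / (4 * ρ) := ⟨_, rfl⟩
  have e1 : h = H / 2 - 1 / (4 * ρ) := by rw [hh]; exact half_eq h3
  have hh1 : 1 ≤ h := by linarith
  have hh0 : 0 < h := by linarith
  have hhl : (l : ℝ) + 1 < h := by linarith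
  have hhk : (k : ℝ) * (l + 1) ≤ h := by linarith
  have e4 : 4 * ρ * h ^ 2 = ρ * H ^ 2 - H + 1 / (4 * ρ) := by
    rw [hh]; field_simp; ring
  obtain ⟨x, hx⟩ : ∃ x : ℝ, x = k * (l + 1) ^ 2 / h ^ 2 := ⟨_, rfl⟩
  have hx1 : x < 1 := by
    rw [hx, div_lt_one (by positivity)]
    have g1 : (k : ℝ) * (l + 1) * (l + 1) ≤ h * (l + 1) :=
      mul_le_mul_of_nonneg_right hhk (by positivity)
    have g2 : h * (l + 1) < h * h := mul_lt_mul_of_pos_left hhl hh0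
    nlinarith
  have hxh : x * h ^ 2 = k * (l + 1) ^ 2 := by
    rw [hx]; field_simp
  obtain ⟨δ, hδ⟩ : ∃ δ : ℝ, δ = 1 / (4 * ρ) / h ^ 2 := ⟨_, rfl⟩
  have hδ0 : 0 < δ := by rw [hδ]; positivity
  have hδh : δ * h ^ 2 = 1 / (4 * ρ) := by
    rw [hδ]; field_simp
  have hδ1 : δ ≤ 1 := by
    rw [hδ, div_le_one (by positivity)]
    have : 1 ≤ h ^ 2 := one_le_pow₀ hh1
    linarith
  obtain ⟨ρ', hρ'⟩ : ∃ ρ' : ℝ, ρ' = 4 * ρ - x - δ := ⟨_, rfl⟩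
  have hρ16 : 16 ≤ ρ' := by linarith
  have hcost : c + g * h ≤ ρ' * h ^ 2 := by
    have g1 : ρ' * h ^ 2 = ρ * H ^ 2 - H - k * (l + 1) ^ 2 := by
      rw [hρ']
      have : (4 * ρ - x - δ) * h ^ 2 = 4 * ρ * h ^ 2 - x * h ^ 2 - δ * h ^ 2 := by ring
      rw [this, e4, hxh, hδh]
      ring
    have g2 : g * h ≤ g * (H / 2) := mul_le_mul_of_nonneg_left (by linarith) hg
    rw [g1]
    have g3 : (g / 2 + 1) * H = g * (H / 2) + H := by ring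
    rw [g3] at h4
    linarith
  have hin := hw h ρ' (by linarith) (by linarith) hρ16 hcost
  have hlt : ρ' + x < 4 * ρ := by linarith
  obtain ⟨σ, g1, g2⟩ := exists_between hlt
  rw [hx] at g1
  have hr : NOK h (Sum.elim (fun _ : Fin k => l) w) σ :=
    NOK_rare' hk hhl hhk (by linarith) hin g1
  rw [hh] at hr
  exact Sur_LJ hSeq (by linarith) g2 hr

/-- `a` points of multiplicity `2 m` and two further groups -/
theorem sur_chain {a b m m' : ℕ} {H ρ : ℝ} (hb1 : 1 ≤ b) (hb4 : b ≤ 4) (hm : m' ≤ m)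
    (hH : 16 * (m : ℝ) + 17 / 2 ≤ H) (hHa : H ≤ 8 * (a * (2 * m + 1))) (hρ : 16 ≤ ρ)
    (hc : (a : ℝ) * (2 * m + 1) ^ 2 + (m' + 1) ^ 2 + b * (m + 1) ^ 2 + 7 / 4 * H ≤ ρ * H ^ 2) :
    Sur (Sum.elim (fun _ : Fin b => m) (Sum.elim (fun _ : Fin 1 => m') (fun _ : Fin a => 2 * m)))
      (LJ ρ (ρ * H)) := by
  have hm' : (m' : ℝ) ≤ m := by exact_mod_cast hm
  have hm0 : (0 : ℝ) ≤ m := Nat.cast_nonneg m
  have hb : (b : ℝ) ≤ 4 := by exact_mod_cast hb4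
  have g1 : Good (fun _ : Fin a => 2 * m) (a * ((2 * m : ℕ) + 1) ^ 2) 1
      (2 * ((2 * m : ℕ) + 1) + 1 / 16) (2 * (a * ((2 * m : ℕ) + 1))) :=
    good_block le_rfl le_rfl
  push_cast at g1
  have g2 := g1.step (k := 1) (l := m') le_rfl (by norm_num)
    (τ' := 2 * (2 * (2 * (m : ℝ) + 1) + 1 / 16) + 1 / 32) (U' := 2 * (2 * (a * (2 * (m : ℝ) + 1))))
    le_rfl (by linarith) (by push_cast; linarith) le_rfl
  have g3 := g2.step (k := b) (l := m) hb1 (by norm_num) (τ' := 16 * (m : ℝ) + 17 / 2)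
    (U' := 2 * (2 * (2 * (a * (2 * (m : ℝ) + 1))))) (by linarith) (by linarith)
    (by
      have : (b : ℝ) * (m + 1) ≤ 4 * (m + 1) := mul_le_mul_of_nonneg_right hb (by positivity)
      linarith) le_rfl
  refine g3 H ρ hH (by linarith) hρ ?_
  push_cast
  linarith

end Pool.Agent.K6.H83.QH
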