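import Pool.Agent.K6.H96.NfOne
import Pool.Agent.Y205.FW.EmpFew

/-! Emptiness for a point of arbitrary multiplicity and few different further multiplicities. -/

set_option autoImplicit false

namespace Pool.Agent.K6.H83.QH

open Finset Pool.Agent.TH176.Nag Pool.Agent.TH603.Sur Pool.Agent.TH146.MN Pool.Agent.K6.H96

/-- positive further multiplicities -/
theorem emp_few_pos {ι : Type} [Fintype ι] {w : ι → ℕ} (hpos : ∀ x, 1 ≤ w x) {W : ℝ} {d v : ℕ}
    (hwW : ∀ x, (w x : ℝ) ≤ W) (hdv : v + 32 * W ≤ d)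
    (h2 : (16 * ((univ.image w).card : ℝ) + 8) * W ^ 2 ≤ (d : ℝ) ^ 2 - v ^ 2)
    (h3 : (d : ℝ) ^ 2 < v ^ 2 + ∑ x, (w x : ℝ) ^ 2) :
    Emp (fun o : Option ι => o.elim v w) (TZ d) := by
  classical
  have hv0 : (0 : ℝ) ≤ v := Nat.cast_nonneg v
  have hd0 : (0 : ℝ) ≤ d := Nat.cast_nonneg d
  have hne : Nonempty ι := by
    by_contra hcon
    rw [not_nonempty_iff] at hcon
    rw [Fintype.sum_empty] at h3
    have h4 : 0 ≤ (16 * ((univ.image w).card : ℝ) + 8) * W ^ 2 := by positivity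
    linarith
  obtain ⟨x0⟩ := hne
  have hW1 : 1 ≤ W := le_trans (by exact_mod_cast hpos x0) (hwW x0)
  rcases Nat.eq_zero_or_pos v with hv | hv
  · subst hv
    rw [Nat.cast_zero] at hdv h2 h3
    have h := Pool.Agent.Y205.FW.Emp_few hpos hwW (d := d) (by linarith) (by linarith) (by linarith)
    exact Emp_emb some (Option.some_injective _) (fun i => le_rfl) h
  have hvp : (0 : ℝ) < v := by exact_mod_cast hv
  obtain ⟨V, hV⟩ : ∃ V : Finset ℕ, V = univ.image w := ⟨_, rfl⟩
  rw [← hV] at h2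
  have hvV : ∀ x, w x ∈ V := fun x => by rw [hV]; exact mem_image_of_mem _ (mem_univ _)
  let gr : ι → Fin V.card := fun x => V.equivFin ⟨w x, hvV x⟩
  let y : Fin V.card → ℝ := fun l => ((V.equivFin.symm l : ℕ) : ℝ)
  have hy : ∀ x, y (gr x) = w x := by
    intro x
    simp only [y, gr, Equiv.symm_apply_apply]
  have hex : ∀ l, ∃ x, w x = (V.equivFin.symm l : ℕ) := by
    intro l
    have h := (V.equivFin.symm l).2
    nth_rw 1 [hV] at h
    obtain ⟨x, -, hx⟩ := mem_image.1 h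
    exact ⟨x, hx⟩
  have hsurj : Function.Surjective gr := by
    intro l
    obtain ⟨x, hx⟩ := hex l
    refine ⟨x, ?_⟩
    apply V.equivFin.symm.injective
    apply Subtype.ext
    simp only [gr, Equiv.symm_apply_apply]
    exact hx
  have hy1 : ∀ l, 0 < y l := by
    intro l
    obtain ⟨x, hx⟩ := hex l
    simp only [y]
    rw [← hx]
    exact_mod_cast hpos x
  have hyW : ∀ l, y l ≤ W := by
    intro l
    obtain ⟨x, hx⟩ := hex l
    simp only [y]
    rw [← hx]
    exact hwW x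
  have hr : 0 < V.card := Fin.pos (gr x0)
  obtain ⟨S, hS⟩ : ∃ S : ℝ, S = ∑ x, (w x : ℝ) ^ 2 := ⟨_, rfl⟩
  rw [← hS] at h3
  have hS0 : 0 ≤ (v : ℝ) ^ 2 + S := by
    have : (0 : ℝ) ≤ (d : ℝ) ^ 2 := sq_nonneg _
    linarith
  obtain ⟨c, hc⟩ : ∃ c : ℝ, c = √((v : ℝ) ^ 2 + S) := ⟨_, rfl⟩
  have hc2 : c ^ 2 = (v : ℝ) ^ 2 + S := by rw [hc]; exact Real.sq_sqrt hS0
  have hc0 : 0 ≤ c := by rw [hc]; exact Real.sqrt_nonneg _
  have hdc : (d : ℝ) < c := by
    have h7 : (d : ℝ) ^ 2 < c ^ 2 := by rw [hc2]; exact h3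
    exact lt_of_pow_lt_pow_left₀ 2 hc0 h7
  have hsq : ∑ i, (w i : ℝ) ^ 2 = c ^ 2 - (v : ℝ) ^ 2 := by rw [hc2, ← hS]; ring
  have hU : UU' (fun i => (w i : ℝ)) (4 * W) := by
    have h := U_few hr gr hsurj y (by linarith) hy1 hyW (by
      simp only [hy]
      rw [hsq, hc2]
      linarith)
    have e : (fun i => y (gr i)) = fun i => (w i : ℝ) := funext hy
    rw [e] at h
    exact h
  have hcp : 0 < c := by linarith
  have hMc : (v : ℝ) < c := by linarith
  have hd1 : (0 : ℝ) < d := by linarith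
  obtain ⟨s, hs⟩ : ∃ s : ℝ, s = d / c := ⟨_, rfl⟩
  have hs0 : 0 < s := by rw [hs]; positivity
  have hs1 : s < 1 := by rw [hs, div_lt_one hcp]; exact hdc
  have hsc : s * c = d := by rw [hs]; field_simp
  have hsw : ∀ i, s * (w i : ℝ) < w i := by
    intro i
    have h5 : (0 : ℝ) < w i := by exact_mod_cast hpos i
    nlinarith
  have hsv : s * (v : ℝ) ≤ v := by nlinarith
  have hdvs : (d : ℝ) - v ≤ s * (c - v) := by
    rw [mul_sub, hsc]
    linarith
  have hS' : c ^ 2 - (v : ℝ) ^ 2 = (c - v) * (c + v) := by ring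
  have h1' : 32 * W ≤ c - v := by linarith
  have h2' : c - v ≤ c + v := by linarith
  have h3' : (c - v) * (c - v) ≤ (c - v) * (c + v) := mul_le_mul_of_nonneg_left h2' (by linarith)
  rcases le_total c (2 * v) with h4 | h4
  · refine Emp_plane_Tz hsc.ge hdvs (Tz_of_UU' hMc h4 hsq
      (UU'.up (by positivity) (by linarith) ?_ hU) hs0 hsw)
    rw [hsq, hS']
    nlinarith
  · rcases le_total c (3 * v) with h5 | h5
    · refine Emp_plane_Tz hsc.ge hdvs (Tz_of_UU'8 hMc h5 hsq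
        (UU'.up (by positivity) (by linarith) ?_ hU) hs0 hsw)
      rw [hsq, hS']
      nlinarith
    · refine Emp_plane_third hvp h5 hsq (UU'.up (by positivity) (by linarith) ?_ hU) hs0
        hsc.ge hsv hsw
      rw [hsq]
      nlinarith

/-- further multiplicities which may be zero -/
theorem emp_few {ι : Type} [Fintype ι] {w : ι → ℕ} {W : ℝ} {d v r : ℕ}
    (hwW : ∀ x, (w x : ℝ) ≤ W) (hdv : v + 32 * W ≤ d) (hr : (univ.image w).card ≤ r)
    (h2 : (16 * (r : ℝ) + 8) * W ^ 2 ≤ (d : ℝ) ^ 2 - v ^ 2)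
    (h3 : (d : ℝ) ^ 2 < v ^ 2 + ∑ x, (w x : ℝ) ^ 2) :
    Emp (fun o : Option ι => o.elim v w) (TZ d) := by
  classical
  have hsum : ∑ x : {i // 1 ≤ w i}, (w x.1 : ℝ) ^ 2 = ∑ x, (w x : ℝ) ^ 2 := by
    rw [← Finset.sum_subtype (univ.filter fun i => 1 ≤ w i) (p := fun i => 1 ≤ w i) (by simp)
      (fun i => (w i : ℝ) ^ 2), Finset.sum_filter]
    refine sum_congr rfl fun i _ => ?_
    split_ifs with h
    · rfl
    · have : w i = 0 := by omega
      rw [this]; norm_num
  have hcard : ((univ.image fun x : {i // 1 ≤ w i} => w x.1).card : ℝ) ≤ r := by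
    have h1 : (univ.image fun x : {i // 1 ≤ w i} => w x.1) ⊆ univ.image w := by
      intro a ha
      obtain ⟨x, -, hx⟩ := mem_image.1 ha
      exact mem_image.2 ⟨x.1, mem_univ _, hx⟩
    exact_mod_cast (card_le_card h1).trans hr
  have h := emp_few_pos (w := fun x : {i // 1 ≤ w i} => w x.1) (W := W) (d := d) (v := v)
    (fun x => x.2) (fun x => hwW _) hdv (le_trans (by
      apply mul_le_mul_of_nonneg_right _ (sq_nonneg _)
      linarith) h2) (by rw [hsum]; exact h3)
  refine Emp_emb (Option.map Subtype.val) (Option.map_injective Subtype.val_injective) ?_ h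
  rintro (_ | x) <;> simp

/-- `a` points of multiplicity `2 m + 1` and two further groups -/
theorem emp_end {a b m m' d v : ℕ} (hd : v + 64 * m + 32 ≤ d) (hm : m' ≤ m)
    (hc : (d : ℝ) ^ 2 < v ^ 2 + (a * (2 * m + 1) ^ 2 + m' ^ 2 + b * m ^ 2)) :
    Emp (fun o : Option (Fin b ⊕ (Fin 1 ⊕ Fin a)) => o.elim v
      (Sum.elim (fun _ : Fin b => m)
        (Sum.elim (fun _ : Fin 1 => m') (fun _ : Fin a => 2 * m + 1)))) (TZ d) := by
  classical
  have hdR : (v : ℝ) + 64 * m + 32 ≤ d := by exact_mod_cast hd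
  have hv0 : (0 : ℝ) ≤ v := Nat.cast_nonneg v
  have hm0 : (0 : ℝ) ≤ m := Nat.cast_nonneg m
  refine emp_few (W := 2 * m + 1) (r := 3) ?_ (by linarith) ?_ ?_ ?_
  · rintro (i | i | i)
    · simp only [Sum.elim_inl]; linarith
    · have : (m' : ℝ) ≤ m := by exact_mod_cast hm
      simp only [Sum.elim_inr, Sum.elim_inl]; linarith
    · simp only [Sum.elim_inr]; push_cast; linarith
  · have h1 : (univ.image (Sum.elim (fun _ : Fin b => m)
        (Sum.elim (fun _ : Fin 1 => m') (fun _ : Fin a => 2 * m + 1)))) ⊆ {m, m', 2 * m + 1} := by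
      intro x hx
      obtain ⟨i, -, hi⟩ := mem_image.1 hx
      rcases i with i | i | i
      · simp only [Sum.elim_inl] at hi; subst hi; simp
      · simp only [Sum.elim_inr, Sum.elim_inl] at hi; subst hi; simp
      · simp only [Sum.elim_inr] at hi; subst hi; simp
    exact (card_le_card h1).trans Finset.card_le_three
  · have h1 : 64 * (m : ℝ) + 32 ≤ d - v := by linarith
    have h2 : (64 * (m : ℝ) + 32) * (64 * m + 32) ≤ (d - v) * (d + v) :=
      mul_le_mul h1 (by linarith) (by linarith) (by linarith)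
    have h3 : (d : ℝ) ^ 2 - v ^ 2 = (d - v) * (d + v) := by ring
    rw [h3]
    push_cast
    nlinarith
  · rw [Fintype.sum_sum_type, Fintype.sum_sum_type]
    simp only [Sum.elim_inl, Sum.elim_inr, sum_const, card_univ, Fintype.card_fin, nsmul_eq_mul]
    push_cast
    linarith

end Pool.Agent.K6.H83.QH
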