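import Pool.Agent.TH763.DB.Main
import Pool.Agent.TH2.NU.Anti
import Pool.Agent.TH745.MN.Dbl
import Pool.Agent.TH745.MN.Main
import Pool.Agent.TH641.UM.MS
import Pool.Agent.TH641.UM.Ones

/-! Emptiness and independence for multisets of multiplicities. -/

set_option autoImplicit false

namespace Pool.Agent.K6.H83.QH

open Finset Pool.Agent.TH176.Nag Pool.Agent.TH603.Sur Pool.Agent.TH641.UM Pool.Agent.TH2.NU

/-- the number of conditions -/
def cM (M : Multiset ℕ) : ℕ := (M.map fun a => (a + 1).choose 2).sum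

theorem cM_add (M N : Multiset ℕ) : cM (M + N) = cM M + cM N := by
  unfold cM; rw [Multiset.map_add, Multiset.sum_add]

theorem cM_single (a : ℕ) : cM {a} = (a + 1).choose 2 := by simp [cM]

theorem cM_smul (n a : ℕ) : cM (n • {a}) = n * (a + 1).choose 2 := by
  unfold cM; rw [Multiset.map_nsmul, Multiset.sum_nsmul]; simp

theorem cond_eq {ι : Type} [Fintype ι] (w : ι → ℕ) : cond w = cM (ms w) := cond_ms w

/-- a vector with the given values -/
noncomputable def fam (M : Multiset ℕ) : Fin M.toList.length → ℕ := fun i => M.toList.get i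

theorem ms_fam (M : Multiset ℕ) : ms (fam M) = M := exists_fam M

/-- emptiness -/
def EM (M : Multiset ℕ) (S : Set (ℤ × ℤ)) : Prop := Emp (fam M) S

/-- independence -/
def SM (M : Multiset ℕ) (S : Set (ℤ × ℤ)) : Prop := Sur (fam M) S

theorem EM_iff {ι : Type} [Fintype ι] {w : ι → ℕ} {M : Multiset ℕ} (h : ms w = M)
    {S : Set (ℤ × ℤ)} : EM M S ↔ Emp w S := by
  unfold EM
  exact ⟨fun hE => Emp_of_ms (by rw [ms_fam, h]) hE, fun hE => Emp_of_ms (by rw [ms_fam, h]) hE⟩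

theorem SM_iff {ι : Type} [Fintype ι] {w : ι → ℕ} {M : Multiset ℕ} (h : ms w = M)
    {S : Set (ℤ × ℤ)} : SM M S ↔ Sur w S := by
  unfold SM
  exact ⟨fun hE => Sur_of_ms (by rw [ms_fam, h]) hE, fun hE => Sur_of_ms (by rw [ms_fam, h]) hE⟩

theorem EM.mono {M N : Multiset ℕ} {S : Set (ℤ × ℤ)} (h : EM M S) (hMN : M ≤ N) : EM N S :=
  Emp_of_ms (by rw [ms_fam, ms_fam]; exact hMN) h

/-- zero multiplicities do not count -/
theorem EM.zero {M : Multiset ℕ} {t : ℕ} {S : Set (ℤ × ℤ)} (h : EM (M + t • {0}) S) : EM M S := by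
  have h1 : Emp (Sum.elim (fam M) (fun _ : Fin t => 0)) S :=
    (EM_iff (by rw [ms_sum, ms_fam, ms_fin])).1 h
  refine Pool.Agent.TH745.MN.Emp_drop Sum.inl ?_ h1
  rintro (i | i) hi
  · exact ⟨i, rfl, le_rfl⟩
  · exact absurd rfl hi

theorem SM.zero {M : Multiset ℕ} {t : ℕ} {S : Set (ℤ × ℤ)} (h : SM (M + t • {0}) S) : SM M S := by
  have h1 : Sur (Sum.elim (fam M) (fun _ : Fin t => 0)) S :=
    (SM_iff (by rw [ms_sum, ms_fam, ms_fin])).1 h
  refine Pool.Agent.TH745.MN.Sur_drop Sum.inl Sum.inl_injective (fun k => rfl) ?_ h1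
  rintro (i | i) hi
  · exact ⟨i, rfl⟩
  · exact absurd rfl hi

theorem SM.add_zero {M : Multiset ℕ} {S : Set (ℤ × ℤ)} (h : SM M S) (t : ℕ) :
    SM (M + t • {0}) S := by
  have h1 : Sur (fam M) S := h
  have h2 : Sur (Sum.elim (fam M) (fun _ : Fin t => 0)) S := by
    refine Pool.Agent.TH745.MN.Sur_emb Sum.inl Sum.inl_injective (fun i => rfl) ?_ h1
    rintro (i | i) hi
    · exact ⟨i, rfl⟩
    · exact absurd rfl hi
  exact (SM_iff (by rw [ms_sum, ms_fam, ms_fin])).2 h2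

/-- a point more -/
theorem EM.add {M : Multiset ℕ} {S : Set (ℤ × ℤ)} (h : EM M S) (N : Multiset ℕ) : EM (M + N) S :=
  h.mono (Multiset.le_add_right _ _)

/-- a larger multiplicity -/
theorem EM.raise {M : Multiset ℕ} {a b : ℕ} (hab : a ≤ b) {S : Set (ℤ × ℤ)} (h : EM ({a} + M) S) :
    EM ({b} + M) S := by
  have h1 : Emp (Sum.elim (fun _ : Fin 1 => a) (fam M)) S :=
    (EM_iff (by rw [ms_sum, ms_fam, ms_fin, one_smul])).1 h
  have h2 : Emp (Sum.elim (fun _ : Fin 1 => b) (fam M)) S := by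
    refine Emp_emb id Function.injective_id ?_ h1
    rintro (i | i)
    · exact hab
    · exact le_rfl
  exact (EM_iff (by rw [ms_sum, ms_fam, ms_fin, one_smul])).2 h2

/-- smaller multiplicities -/
theorem SM.lower {M : Multiset ℕ} {a b k : ℕ} (hab : a ≤ b) {S : Set (ℤ × ℤ)}
    (h : SM (k • {b} + M) S) : SM (k • {a} + M) S := by
  have h1 : Sur (Sum.elim (fun _ : Fin k => b) (fam M)) S :=
    (SM_iff (by rw [ms_sum, ms_fam, ms_fin])).1 h
  have h2 : Sur (Sum.elim (fun _ : Fin k => a) (fam M)) S := by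
    refine Sur_anti ?_ h1
    rintro (i | i)
    · exact hab
    · exact le_rfl
  exact (SM_iff (by rw [ms_sum, ms_fam, ms_fin])).2 h2

/-- fewer points -/
theorem SM.sub {M N : Multiset ℕ} {S : Set (ℤ × ℤ)} (h : SM (M + N) S) : SM M S := by
  have h1 : Sur (Sum.elim (fam N) (fam M)) S :=
    (SM_iff (by rw [ms_sum, ms_fam, ms_fam, add_comm])).1 h
  have h2 : Sur (Sum.elim (fun _ : Fin N.toList.length => 0) (fam M)) S := by
    refine Sur_anti ?_ h1
    rintro (i | i)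
    · exact Nat.zero_le _
    · exact le_rfl
  have h3 : SM (M + N.toList.length • {0}) S :=
    (SM_iff (by rw [ms_sum, ms_fam, ms_fin, add_comm])).2 h2
  exact h3.zero

/-- exactness: the expected behaviour on `S` -/
def XM (S : Finset (ℤ × ℤ)) (M : Multiset ℕ) : Prop :=
  (S.card ≤ cM M → EM M (↑S : Set (ℤ × ℤ))) ∧ (cM M ≤ S.card → SM M (↑S : Set (ℤ × ℤ)))

/-- **Doubling.** -/
theorem dblM {a m : ℕ} {E : Multiset ℕ} {S : Finset (ℤ × ℤ)} (ha : 0 < a)
    (hpos : ∀ u ∈ S, 0 ≤ u.1 ∧ 0 ≤ u.2) (h1 : SM (a • {2 * m} + E) (↑S : Set (ℤ × ℤ)))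
    (h2 : EM (a • {2 * m + 1} + E) (↑S : Set (ℤ × ℤ))) : XM S ((4 * a) • {m} + E) := by
  have h1' : Sur (Sum.elim (fun _ : Fin a => 2 * m) (fam E)) (↑S : Set (ℤ × ℤ)) :=
    (SM_iff (by rw [ms_sum, ms_fam, ms_fin])).1 h1
  have h2' : Emp (Sum.elim (fun _ : Fin a => 2 * m + 1) (fam E)) (↑S : Set (ℤ × ℤ)) :=
    (EM_iff (by rw [ms_sum, ms_fam, ms_fin])).1 h2
  have hms : ms (Sum.elim (fun _ : Fin a × (Fin 2 × Fin 2) => m) (fam E)) = (4 * a) • {m} + E := by
    rw [ms_sum, ms_const, ms_fam]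
    have e : Fintype.card (Fin a × (Fin 2 × Fin 2)) = 4 * a := by
      simp
      ring
    rw [e]
  obtain ⟨g1, g2⟩ := Pool.Agent.TH763.DB.doubling ha hpos h1' h2'
  rw [cond_eq, hms] at g1 g2
  exact ⟨fun h => (EM_iff hms).2 (g1 h), fun h => (SM_iff hms).2 (g2 h)⟩

/-- simple points -/
theorem XM_ones {d s t : ℕ} {M : Multiset ℕ} (h : XM (TF d) M) :
    XM (TF d) (M + s • {1} + t • {0}) := by
  have hc : cM (M + s • {1} + t • {0}) = cM M + s := by
    rw [cM_add, cM_add, cM_smul, cM_smul]; simp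
  unfold XM at h ⊢
  rw [hc, coe_TF]
  rw [coe_TF] at h
  rw [card_TF] at h ⊢
  have hone : ∀ p, (d + 2).choose 2 ≤ cM M + p → cM M ≤ (d + 2).choose 2 →
      EM (M + p • {1}) (TZ d) := by
    intro p hp h2
    have h3 := Emp_ones (w := fam M) (d := d) (p := p) (h.2 h2) (by
      rw [cond_eq, ms_fam]; exact hp)
    exact (EM_iff (by rw [ms_sum, ms_fam, ms_fin])).2 h3
  constructor
  · intro h1
    refine EM.add ?_ _
    rcases le_total ((d + 2).choose 2) (cM M) with h2 | h2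
    · exact (h.1 h2).add _
    · exact hone _ h1 h2
  · intro h1
    refine SM.add_zero ?_ t
    obtain ⟨p, hp⟩ : ∃ p, (d + 2).choose 2 = cM M + s + p := ⟨_, (by omega :
      (d + 2).choose 2 = cM M + s + ((d + 2).choose 2 - (cM M + s)))⟩
    have hc2 : cM (M + s • {1}) = cM M + s := by rw [cM_add, cM_smul]; simp
    have h3 := hone (s + p) (by omega) (by omega)
    have h4 : Emp (Sum.elim (fam (M + s • {1})) (fun _ : Fin p => 1)) (TZ d) := by
      refine (EM_iff (M := M + (s + p) • {1}) ?_).1 h3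
      rw [ms_sum, ms_fam, ms_fin, add_smul]
      abel
    exact Sur_of_ones (p := p) h4 (by rw [cond_eq, ms_fam, hc2]; omega)

end Pool.Agent.K6.H83.QH
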