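import Pool.Agent.K6.H83.QH.Tz
import Pool.Agent.K6.H83.QH.EmpOne
import Pool.Agent.K6.H83.QH.MsApi

/-! Chains of groups, for multisets. -/

set_option autoImplicit false

namespace Pool.Agent.K6.H83.QH

open Finset Pool.Agent.TH176.Nag Pool.Agent.TH603.Sur Pool.Agent.TH641.UM Pool.Agent.TH2.NU
  Pool.Agent.Y205.FW

theorem sum_ms {ι : Type} [Fintype ι] (w : ι → ℕ) (t : ℕ → ℕ) :
    ∑ i, t (w i) = ((ms w).map t).sum := by
  unfold ms
  have : ∀ s : Finset ι, ((∑ i ∈ s, ({w i} : Multiset ℕ)).map t).sum = ∑ i ∈ s, t (w i) := by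
    classical
    intro s
    induction s using Finset.induction_on with
    | empty => simp
    | insert a s ha ih =>
      rw [sum_insert ha, sum_insert ha, Multiset.map_add, Multiset.sum_add, ih]; simp
  exact (this univ).symm

theorem mem_ms' {ι : Type} [Fintype ι] {w : ι → ℕ} {x : ℕ} : x ∈ ms w ↔ ∃ i, w i = x := by
  unfold ms
  rw [Multiset.mem_sum]
  simp only [Finset.mem_univ, true_and, Multiset.mem_singleton]
  exact ⟨fun ⟨i, hi⟩ => ⟨i, hi.symm⟩, fun ⟨i, hi⟩ => ⟨i, hi.symm⟩⟩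

/-- emptiness for few values -/
theorem emp_fewM {M : Multiset ℕ} {W : ℝ} {d v r : ℕ} (hW : ∀ x ∈ M, (x : ℝ) ≤ W)
    (hdv : v + 32 * W ≤ d) (hr : M.toFinset.card ≤ r)
    (h2 : (16 * (r : ℝ) + 8) * W ^ 2 ≤ (d : ℝ) ^ 2 - v ^ 2)
    (h3 : (d : ℝ) ^ 2 < v ^ 2 + ((M.map fun x => x ^ 2).sum : ℕ)) : EM ({v} + M) (TZ d) := by
  classical
  have hfam : ∀ x, fam M x ∈ M := fun x => by
    have h : fam M x ∈ ms (fam M) := mem_ms'.2 ⟨x, rfl⟩
    rwa [ms_fam] at h
  have h := emp_few (w := fam M) (W := W) (d := d) (v := v) (r := r) (fun x => hW _ (hfam x)) hdv (by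
      refine le_trans (card_le_card ?_) hr
      intro x hx
      obtain ⟨i, -, hi⟩ := mem_image.1 hx
      rw [Multiset.mem_toFinset, ← hi]
      exact hfam i) h2 (by
      refine lt_of_lt_of_eq h3 ?_
      have e := sum_ms (fam M) fun x => x ^ 2
      rw [ms_fam] at e
      rw [← e]
      push_cast
      rfl)
  exact (EM_iff (by rw [ms_option, ms_fam])).2 h

/-- the property for multisets -/
def GM (M : Multiset ℕ) (c g τ U : ℝ) : Prop := Good (fam M) c g τ U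

theorem GM_of {κ : Type} [Fintype κ] {w : κ → ℕ} {M : Multiset ℕ} (h : ms w = M) {c g τ U : ℝ}
    (hw : Good w c g τ U) : GM M c g τ U := fun H ρ h1 h2 h3 h4 =>
  Sur_of_ms (by rw [ms_fam, h]) (hw H ρ h1 h2 h3 h4)

theorem GM.mono {M : Multiset ℕ} {c g τ U c' g' τ' U' : ℝ} (h : GM M c g τ U) (hc : c ≤ c')
    (hg : g ≤ g') (hτ : τ ≤ τ') (hτ0 : 0 ≤ τ') (hU : U' ≤ U) : GM M c' g' τ' U' := by
  intro H ρ h1 h2 h3 h4
  refine h H ρ (hτ.trans h1) (h2.trans hU) h3 ?_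
  have : g * H ≤ g' * H := mul_le_mul_of_nonneg_right hg (hτ0.trans h1)
  linarith

theorem GM.step {M : Multiset ℕ} {c g τ U : ℝ} (h : GM M c g τ U) {k l : ℕ} (hk : 1 ≤ k)
    (hg : 0 ≤ g) {τ' U' : ℝ} (hτ : 2 * τ + 1 / 32 ≤ τ') (hl : 2 * ((l : ℝ) + 1) + 1 / 16 ≤ τ')
    (hkl : 2 * ((k : ℝ) * (l + 1)) + 1 / 32 ≤ τ') (hU : U' ≤ 2 * U) :
    GM (k • {l} + M) (c + k * (l + 1) ^ 2) (g / 2 + 1) τ' U' :=
  GM_of (by rw [ms_sum, ms_fin, ms_fam]) (Good.step h hk hg hτ hl hkl hU)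

/-- the multiset of a list of groups -/
def GG (L : List (ℕ × ℕ)) : Multiset ℕ := (L.map fun p => p.1 • ({p.2} : Multiset ℕ)).sum

theorem GG_cons (p : ℕ × ℕ) (L : List (ℕ × ℕ)) : GG (p :: L) = p.1 • {p.2} + GG L := by
  simp [GG]

/-- `∑ k (l + 1)` -/
def Lm (L : List (ℕ × ℕ)) : ℕ := (L.map fun p => p.1 * (p.2 + 1)).sum

theorem Lm_cons (p : ℕ × ℕ) (L : List (ℕ × ℕ)) : Lm (p :: L) = p.1 * (p.2 + 1) + Lm L := by
  simp [Lm]

/-- `∑ k l` -/
def Ll (L : List (ℕ × ℕ)) : ℕ := (L.map fun p => p.1 * p.2).sum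

theorem Ll_cons (p : ℕ × ℕ) (L : List (ℕ × ℕ)) : Ll (p :: L) = p.1 * p.2 + Ll L := by
  simp [Ll]

theorem Ll_le (L : List (ℕ × ℕ)) : Ll L ≤ Lm L := by
  induction L with
  | nil => simp [Ll, Lm]
  | cons p L ih =>
    rw [Ll_cons, Lm_cons, mul_add, mul_one]
    omega

/-- `∑ k (l + 1) ^ 2` -/
def Sq (L : List (ℕ × ℕ)) : ℕ := (L.map fun p => p.1 * (p.2 + 1) ^ 2).sum

theorem Sq_cons (p : ℕ × ℕ) (L : List (ℕ × ℕ)) : Sq (p :: L) = p.1 * (p.2 + 1) ^ 2 + Sq L := by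
  simp [Sq]

theorem Sq_eq (L : List (ℕ × ℕ)) : Sq L = 2 * cM (GG L) + Lm L := by
  induction L with
  | nil => simp [Sq, GG, Lm, cM]
  | cons p L ih =>
    rw [Sq_cons, GG_cons, Lm_cons, cM_add, cM_smul, ih]
    have h1 : 2 * (p.2 + 1).choose 2 = p.2 * (p.2 + 1) := Pool.Agent.TH2.NU.two_choose p.2
    have h2 : 2 * (p.1 * (p.2 + 1).choose 2) = p.1 * (p.2 * (p.2 + 1)) := by
      rw [← h1]; ring
    rw [mul_add, h2]
    ring

theorem sq_GG (L : List (ℕ × ℕ)) : ((GG L).map fun x => x ^ 2).sum + Ll L = 2 * cM (GG L) := by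
  induction L with
  | nil => simp [GG, Ll, cM]
  | cons p L ih =>
    rw [GG_cons, Ll_cons, cM_add, cM_smul, Multiset.map_add, Multiset.sum_add, Multiset.map_nsmul,
      Multiset.sum_nsmul]
    have h1 : 2 * (p.2 + 1).choose 2 = p.2 * (p.2 + 1) := Pool.Agent.TH2.NU.two_choose p.2
    have h2 : 2 * (p.1 * (p.2 + 1).choose 2) = p.1 * (p.2 * (p.2 + 1)) := by
      rw [← h1]; ring
    simp only [Multiset.map_singleton, Multiset.sum_singleton, smul_eq_mul]
    rw [mul_add, h2, ← ih]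
    ring

theorem mem_GG {L : List (ℕ × ℕ)} {x : ℕ} (h : x ∈ GG L) : ∃ p ∈ L, 1 ≤ p.1 ∧ x = p.2 := by
  induction L with
  | nil => simp [GG] at h
  | cons p L ih =>
    rw [GG_cons, Multiset.mem_add] at h
    rcases h with h | h
    · have h1 : p.1 ≠ 0 := by
        rintro h0
        rw [h0, zero_smul] at h
        simp at h
      exact ⟨p, List.mem_cons_self, by omega, Multiset.mem_singleton.1
        (Multiset.mem_of_mem_nsmul h)⟩
    · obtain ⟨q, hq, h1⟩ := ih h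
      exact ⟨q, List.mem_cons_of_mem _ hq, h1⟩

theorem le_Lm {L : List (ℕ × ℕ)} {p : ℕ × ℕ} (hp : p ∈ L) : p.1 * (p.2 + 1) ≤ Lm L := by
  induction L with
  | nil => simp at hp
  | cons q L ih =>
    rw [Lm_cons]
    rcases List.mem_cons.1 hp with rfl | hp
    · omega
    · have := ih hp
      omega

theorem mem_GG_le {L : List (ℕ × ℕ)} {x : ℕ} (h : x ∈ GG L) : x ≤ Lm L := by
  obtain ⟨p, hp, h1, rfl⟩ := mem_GG h
  have h2 := le_Lm hp
  have h3 : 1 * (p.2 + 1) ≤ p.1 * (p.2 + 1) := Nat.mul_le_mul_right _ h1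
  omega

theorem card_GG (L : List (ℕ × ℕ)) : (GG L).toFinset.card ≤ L.length := by
  classical
  induction L with
  | nil => simp [GG]
  | cons p L ih =>
    rw [GG_cons, Multiset.toFinset_add, List.length_cons]
    refine (card_union_le _ _).trans ?_
    have h1 : (p.1 • ({p.2} : Multiset ℕ)).toFinset.card ≤ 1 := by
      refine (card_le_card (t := {p.2}) ?_).trans (by simp)
      intro x hx
      rw [Multiset.mem_toFinset] at hx
      exact Finset.mem_singleton.2 (Multiset.mem_singleton.1 (Multiset.mem_of_mem_nsmul hx))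
    omega

theorem cM_GG_le (L : List (ℕ × ℕ)) : 2 * cM (GG L) ≤ Lm L * Lm L := by
  have key : ∀ L : List (ℕ × ℕ), ∀ W, (∀ p ∈ L, 1 ≤ p.1 → p.2 ≤ W) → 2 * cM (GG L) ≤ W * Lm L := by
    intro L
    induction L with
    | nil => intro W _; simp [GG, cM, Lm]
    | cons p L ih =>
      intro W hW
      rw [GG_cons, Lm_cons, cM_add, cM_smul, mul_add]
      have h1 : 2 * (p.2 + 1).choose 2 = p.2 * (p.2 + 1) := Pool.Agent.TH2.NU.two_choose p.2
      have h2 : 2 * (p.1 * (p.2 + 1).choose 2) = p.2 * (p.1 * (p.2 + 1)) := by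
        calc 2 * (p.1 * (p.2 + 1).choose 2) = p.1 * (2 * (p.2 + 1).choose 2) := by ring
          _ = p.2 * (p.1 * (p.2 + 1)) := by rw [h1]; ring
      rw [h2]
      have h3 : p.2 * (p.1 * (p.2 + 1)) ≤ W * (p.1 * (p.2 + 1)) := by
        rcases Nat.eq_zero_or_pos p.1 with h0 | h0
        · rw [h0]; simp
        · exact Nat.mul_le_mul_right _ (hW p List.mem_cons_self h0)
      have h4 := ih W fun q hq => hW q (List.mem_cons_of_mem _ hq)
      nlinarith
  refine key L _ fun p hp h1 => ?_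
  have h2 := le_Lm hp
  have h3 : 1 * (p.2 + 1) ≤ p.1 * (p.2 + 1) := Nat.mul_le_mul_right _ h1
  omega

/-- several groups, one after the other -/
theorem GM_list {M : Multiset ℕ} {c τ U W : ℝ} (h : GM M c 2 τ U) (hW : 0 ≤ W)
    (hτ : 2 * (W + 1) + 1 / 16 ≤ τ) (L : List (ℕ × ℕ)) :
    (∀ p ∈ L, 1 ≤ p.1 ∧ (p.1 : ℝ) * (p.2 + 1) ≤ W + 1) →
    GM (GG L + M) (c + Sq L) 2 (2 ^ L.length * (τ + 1 / 16) - 1 / 16) (2 ^ L.length * U) := by
  induction L with
  | nil =>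
    intro _
    simpa [GG, Sq] using h
  | cons p L ih =>
    intro hL
    have h1 := ih fun q hq => hL q (List.mem_cons_of_mem _ hq)
    obtain ⟨hp1, hp2⟩ := hL p List.mem_cons_self
    have hpow : (1 : ℝ) ≤ 2 ^ L.length := one_le_pow₀ (by norm_num)
    have hp1' : (1 : ℝ) ≤ p.1 := by exact_mod_cast hp1
    have hp3 : (p.2 : ℝ) + 1 ≤ W + 1 := by
      have : 1 * ((p.2 : ℝ) + 1) ≤ p.1 * (p.2 + 1) :=
        mul_le_mul_of_nonneg_right hp1' (by positivity)
      linarith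
    have ht : 2 * (W + 1) + 1 / 16 ≤ 2 ^ (p :: L).length * (τ + 1 / 16) - 1 / 16 := by
      rw [List.length_cons, pow_succ]
      have h3 : 1 * (τ + 1 / 16) ≤ 2 ^ L.length * (τ + 1 / 16) :=
        mul_le_mul_of_nonneg_right hpow (by linarith)
      linarith
    have h2 := h1.step (k := p.1) (l := p.2) hp1 (by norm_num)
      (τ' := 2 ^ (p :: L).length * (τ + 1 / 16) - 1 / 16)
      (U' := 2 ^ (p :: L).length * U) (by
        rw [List.length_cons, pow_succ]; linarith) (by linarith) (by linarith) (by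
        rw [List.length_cons, pow_succ]; linarith)
    rw [GG_cons, Sq_cons, add_assoc]
    refine h2.mono ?_ (by norm_num) le_rfl (by linarith) le_rfl
    push_cast
    linarith

/-- independence for the plane with a point of multiplicity `v` -/
theorem sur_tzM {M : Multiset ℕ} {d v B : ℕ} (hB : v + B = d) (hB3 : 3 ≤ B)
    {ρ H : ℝ} (hH : H = ((B : ℝ) + 2) / 4) (hρ : ρ * H = 4 * d + 4 * v + 14 - √2 / 2)
    (h : SM M (LJ ρ (ρ * H))) : SM ({v} + M) (TZ d) :=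
  (SM_iff (by rw [ms_option, ms_fam])).2 (Sur_point (by omega) (sur_tz hB hB3 hH hρ h))

end Pool.Agent.K6.H83.QH
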