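import Pool.Agent.K6.H83.QH.Tz
import Pool.Agent.K6.H83.QH.EmpOne
import Pool.Agent.TH763.DB.Main
import Pool.Agent.TH2.NU.Anti
import Pool.Agent.TH745.MN.Dbl

/-! Near the critical degree: the doubling theorem. -/

set_option autoImplicit false

namespace Pool.Agent.K6.H83.QH

open Finset Pool.Agent.TH176.Nag Pool.Agent.TH603.Sur Pool.Agent.TH641.UM Pool.Agent.TH2.NU

/-- `v`, `N` times `m`, and `l` -/
def Q (v m N l : ℕ) : Option (Fin N ⊕ Fin 1) → ℕ :=
  fun o => o.elim v (Sum.elim (fun _ : Fin N => m) (fun _ : Fin 1 => l))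

theorem ms_Q (v m N l : ℕ) : ms (Q v m N l) = {v} + (N • {m} + {l}) := by
  unfold Q
  rw [ms_option, ms_sum, ms_fin, ms_fin, one_smul]

theorem tchoose (k : ℕ) : 2 * (k + 1).choose 2 = k * (k + 1) := by
  induction k with
  | zero => simp
  | succ k ih =>
    rw [Nat.choose_succ_succ' (k + 1) 1, Nat.choose_one_right, mul_add, ih]
    ring

theorem cond_Q (v m N l : ℕ) :
    cond (Q v m N l) = (v + 1).choose 2 + (N * (m + 1).choose 2 + (l + 1).choose 2) := by
  unfold Pool.Agent.TH603.Sur.cond Q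
  rw [Fintype.sum_option, Fintype.sum_sum_type]
  simp

theorem two_cond_Q (v m N l : ℕ) :
    2 * cond (Q v m N l) = v * (v + 1) + (N * (m * (m + 1)) + l * (l + 1)) := by
  rw [cond_Q, mul_add, mul_add, tchoose, tchoose l, ← tchoose m]
  ring

/-- near the critical degree -/
theorem near {v d m N l : ℕ} (hl : l ≤ m) (hd : v + 64 * m + 32 ≤ d)
    (h1 : cond (Q v m N l) ≤ (d + 2).choose 2 + m) (h2 : (d + 2).choose 2 ≤ cond (Q v m N l) + m)
    (hN : N ≤ 448 * m) :
    ((d + 2).choose 2 ≤ cond (Q v m N l) → Emp (Q v m N l) (TZ d)) ∧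
      (cond (Q v m N l) ≤ (d + 2).choose 2 → Sur (Q v m N l) (TZ d)) := by
  obtain ⟨B, rfl⟩ : ∃ B, d = v + B := ⟨d - v, by omega⟩
  have hB : 64 * m + 32 ≤ B := by omega
  have hT : 2 * (v + B + 2).choose 2 = (v + B + 1) * (v + B + 2) := tchoose (v + B + 1)
  have hc := two_cond_Q v m N l
  have f1 : (v : ℝ) * (v + 1) + (N * (m * (m + 1)) + l * (l + 1)) ≤
      (v + B + 1) * (v + B + 2) + 2 * m := by
    have : v * (v + 1) + (N * (m * (m + 1)) + l * (l + 1)) ≤
        (v + B + 1) * (v + B + 2) + 2 * m := by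
      rw [← hc, ← hT]; omega
    exact_mod_cast this
  have f2 : ((v : ℝ) + B + 1) * (v + B + 2) ≤
      v * (v + 1) + (N * (m * (m + 1)) + l * (l + 1)) + 2 * m := by
    have : (v + B + 1) * (v + B + 2) ≤
        v * (v + 1) + (N * (m * (m + 1)) + l * (l + 1)) + 2 * m := by
      rw [← hc, ← hT]; omega
    exact_mod_cast this
  have v0 : (0 : ℝ) ≤ v := Nat.cast_nonneg v
  have m0 : (0 : ℝ) ≤ m := Nat.cast_nonneg m
  have l0 : (0 : ℝ) ≤ l := Nat.cast_nonneg l
  have lm : (l : ℝ) ≤ m := by exact_mod_cast hl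
  have BR : 64 * (m : ℝ) + 32 ≤ B := by exact_mod_cast hB
  have ll : (l : ℝ) * (l + 1) ≤ m * (m + 1) := mul_le_mul lm (by linarith) (by linarith) m0
  have vB : 0 ≤ (v : ℝ) * B := by positivity
  have b1 : 32 * ((m : ℝ) + 1) ≤ B := by linarith
  have b2 : (32 * ((m : ℝ) + 1)) * (32 * (m + 1)) ≤ B * B := mul_le_mul b1 b1 (by positivity)
    (by linarith)
  have hN5 : 5 ≤ N := by
    by_contra hcon
    have h4 : N ≤ 4 := by omega
    have h4' : (N : ℝ) * (m * (m + 1)) ≤ 4 * (m * (m + 1)) :=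
      mul_le_mul_of_nonneg_right (by exact_mod_cast h4) (by positivity)
    nlinarith
  obtain ⟨a, b, hab, hb1, hb4⟩ : ∃ a b, N = 4 * a + b ∧ 1 ≤ b ∧ b ≤ 4 :=
    ⟨(N - 1) / 4, N - 4 * ((N - 1) / 4), by omega, by omega, by omega⟩
  have ha0 : 0 < a := by omega
  have ha1 : a ≤ 112 * m := by omega
  have haR : (a : ℝ) ≤ 112 * m := by exact_mod_cast ha1
  have ha0R : (0 : ℝ) ≤ a := Nat.cast_nonneg a
  have hb4R : (b : ℝ) ≤ 4 := by exact_mod_cast hb4
  have hb0R : (0 : ℝ) ≤ b := Nat.cast_nonneg b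
  have hbm : (b : ℝ) * m ≤ 4 * m := mul_le_mul_of_nonneg_right hb4R m0
  have hbmm : (b : ℝ) * (m * (m + 1)) ≤ 4 * (m * (m + 1)) :=
    mul_le_mul_of_nonneg_right hb4R (by positivity)
  have hNR : (N : ℝ) = 4 * a + b := by rw [hab]; push_cast; ring
  rw [hNR] at f1 f2
  -- independence
  have hSur := sur_end (a := a) (b := b) (m := m) (m' := l) (d := v + B) (v := v) (B := B) rfl hB
    hb1 hb4 hl (by
      by_contra hcon
      push Not at hcon
      have h3 : 32 * ((a : ℝ) * (2 * m + 1)) < B + 2 := by exact_mod_cast hcon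
      have h4 : 32 * ((a : ℝ) * (2 * m + 1)) * (m + 1) ≤ (B + 2) * (m + 1) :=
        mul_le_mul_of_nonneg_right h3.le (by linarith)
      have h5 : ((B : ℝ) + 2) * (32 * (m + 1)) ≤ (B + 2) * B :=
        mul_le_mul_of_nonneg_left b1 (by linarith)
      have h6 : 0 ≤ (a : ℝ) * m := by positivity
      nlinarith) (by
      push_cast
      nlinarith)
  -- emptiness
  have hEmp := emp_end (a := a) (b := b) (m := m) (m' := l) (d := v + B) (v := v) hd hl (by
      push_cast
      nlinarith)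
  have hms : ms (Sum.elim (fun _ : Fin a × (Fin 2 × Fin 2) => m) (Q v m b l)) =
      ms (Q v m N l) := by
    rw [ms_sum, ms_const, ms_Q, ms_Q]
    have e : Fintype.card (Fin a × (Fin 2 × Fin 2)) = 4 * a := by
      simp
      ring
    rw [e, hab, add_smul]
    abel
  have hS : Sur (Sum.elim (fun _ : Fin a => 2 * m) (Q v m b l))
      (↑(TF (v + B)) : Set (ℤ × ℤ)) := by
    rw [coe_TF]
    refine Sur_of_ms ?_ hSur
    rw [ms_option, ms_sum, ms_sum, ms_fin, ms_fin, ms_fin, ms_sum, ms_fin, ms_Q, one_smul]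
    abel
  have hE : Emp (Sum.elim (fun _ : Fin a => 2 * m + 1) (Q v m b l))
      (↑(TF (v + B)) : Set (ℤ × ℤ)) := by
    rw [coe_TF]
    refine Emp_of_ms (le_of_eq ?_) hEmp
    rw [ms_option, ms_sum, ms_sum, ms_fin, ms_fin, ms_fin, ms_sum, ms_fin, ms_Q, one_smul]
    abel
  obtain ⟨g1, g2⟩ := Pool.Agent.TH763.DB.doubling ha0 (fun u hu => by
    have h3 : u ∈ TZ (v + B) := by rw [← coe_TF]; exact hu
    exact ⟨h3.1, h3.2.1⟩) hS hE
  rw [card_TF, cond_of_ms hms, coe_TF] at g1 g2
  exact ⟨fun h => Emp_of_ms hms.le (g1 h), fun h => Sur_of_ms hms (g2 h)⟩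

/-- the vector `v, m, …, m` -/
def R (v m n : ℕ) : Option (Fin n) → ℕ := fun o => o.elim v (fun _ => m)

theorem ms_R (v m n : ℕ) : ms (R v m n) = {v} + n • {m} := by
  unfold R
  rw [ms_option, ms_fin]

theorem cond_R (v m n : ℕ) : cond (R v m n) = (v + 1).choose 2 + n * (m + 1).choose 2 := by
  unfold Pool.Agent.TH603.Sur.cond R
  rw [Fintype.sum_option]
  simp

theorem F_succ {v m : ℕ} (hm : 1 ≤ m) (k : ℕ) : cond (Q v m ((k + 1) / m) ((k + 1) % m)) ≤
    cond (Q v m (k / m) (k % m)) + m := by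
  have h1 := Nat.mod_lt k hm
  have h2 := Nat.div_add_mod k m
  rw [cond_Q, cond_Q]
  obtain ⟨q, hq⟩ : ∃ q, q = k / m := ⟨_, rfl⟩
  obtain ⟨r, hr⟩ : ∃ r, r = k % m := ⟨_, rfl⟩
  rw [← hq, ← hr] at h2 ⊢
  rw [← hr] at h1
  rcases Nat.lt_or_ge (r + 1) m with h3 | h3
  · have e1 : (k + 1) / m = q := by
      rw [← h2, add_assoc, Nat.mul_add_div (by omega), Nat.div_eq_of_lt h3, add_zero]
    have e2 : (k + 1) % m = r + 1 := by
      rw [← h2, add_assoc, Nat.mul_add_mod, Nat.mod_eq_of_lt h3]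
    rw [e1, e2, Nat.choose_succ_succ' (r + 1) 1, Nat.choose_one_right]
    have : (r + 1).choose (1 + 1) = (r + 1).choose 2 := rfl
    omega
  · have hrm : m = r + 1 := by omega
    have e0 : k + 1 = m * (q + 1) := by rw [← h2, mul_add, mul_one, hrm]; ring
    have e1 : (k + 1) / m = q + 1 := by rw [e0, Nat.mul_div_cancel_left _ (by omega)]
    have e2 : (k + 1) % m = 0 := by rw [e0, Nat.mul_mod_right]
    rw [e1, e2, add_mul, one_mul]
    have e3 : (m + 1).choose 2 = (r + 1) + (r + 1).choose 2 := by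
      rw [hrm, Nat.choose_succ_succ' (r + 1) 1, Nat.choose_one_right]
    have e4 : (0 + 1).choose 2 = 0 := rfl
    omega

/-- all numbers of points, from the neighbourhood of the critical number -/
theorem sgn {v d m : ℕ} (hm : 1 ≤ m)
    (h0 : (v + 1).choose 2 < (d + 2).choose 2)
    (hnear : ∀ N l : ℕ, l ≤ m → cond (Q v m N l) ≤ (d + 2).choose 2 + m →
      (d + 2).choose 2 ≤ cond (Q v m N l) + m →
      ((d + 2).choose 2 ≤ cond (Q v m N l) → Emp (Q v m N l) (TZ d)) ∧
        (cond (Q v m N l) ≤ (d + 2).choose 2 → Sur (Q v m N l) (TZ d))) (n : ℕ) :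
    ((d + 2).choose 2 ≤ cond (R v m n) → Emp (R v m n) (TZ d)) ∧
      (cond (R v m n) ≤ (d + 2).choose 2 → Sur (R v m n) (TZ d)) := by
  classical
  obtain ⟨T, hT⟩ : ∃ T, T = (d + 2).choose 2 := ⟨_, rfl⟩
  rw [← hT] at h0 hnear ⊢
  obtain ⟨F, hF⟩ : ∃ F : ℕ → ℕ, ∀ k, F k = cond (Q v m (k / m) (k % m)) := ⟨_, fun _ => rfl⟩
  have hstep : ∀ k, F (k + 1) ≤ F k + m := fun k => by
    rw [hF, hF]; exact F_succ hm k
  have hmod : ∀ k, k % m ≤ m := fun k => (Nat.mod_lt k hm).le
  have hFn : F (m * n) = cond (R v m n) := by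
    rw [hF, cond_Q, cond_R, Nat.mul_div_cancel_left _ (by omega), Nat.mul_mod_right]
    simp
  constructor
  · intro h
    rw [← hFn] at h
    have hex : ∃ k, T ≤ F k := ⟨_, h⟩
    obtain ⟨k, hk⟩ : ∃ k, k = Nat.find hex := ⟨_, rfl⟩
    have hk1 : T ≤ F k := by rw [hk]; exact Nat.find_spec hex
    have hk2 : k ≤ m * n := by rw [hk]; exact Nat.find_min' hex h
    have hk0 : k ≠ 0 := by
      rintro rfl
      rw [hF, cond_Q] at hk1
      simp at hk1
      omega
    obtain ⟨j, rfl⟩ : ∃ j, k = j + 1 := ⟨k - 1, by omega⟩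
    have hj : ¬ T ≤ F j := Nat.find_min hex (by omega)
    have hs := hstep j
    have hE : Emp (Q v m ((j + 1) / m) ((j + 1) % m)) (TZ d) :=
      (hnear _ _ (hmod _) (by rw [← hF]; omega) (by rw [← hF]; omega)).1 (by rw [← hF]; exact hk1)
    have hle : (j + 1) / m ≤ n := Nat.div_le_of_le_mul hk2
    rcases hle.eq_or_lt with he | hlt
    · have h0' : (j + 1) % m = 0 := by
        have h3 := Nat.div_add_mod (j + 1) m
        rw [he] at h3
        omega
      rw [he, h0'] at hE
      refine Pool.Agent.TH745.MN.Emp_drop (fun o : Option (Fin n) => o.map Sum.inl) ?_ hE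
      rintro (_ | i | i) hi
      · exact ⟨none, rfl, le_rfl⟩
      · exact ⟨some i, rfl, le_rfl⟩
      · exact absurd rfl hi
    · refine Emp_emb (fun o => o.map (Sum.elim (Fin.castLE hle) (fun _ : Fin 1 => ⟨_, hlt⟩)))
        ?_ ?_ hE
      · apply Option.map_injective
        rintro (x | x) (y | y) hxy
        · simp only [Sum.elim_inl] at hxy
          rw [Fin.castLE_injective hle hxy]
        · exfalso
          simp only [Sum.elim_inl, Sum.elim_inr] at hxy
          have h3 := congrArg Fin.val hxy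
          have h4 := x.2
          simp only [Fin.val_castLE] at h3
          omega
        · exfalso
          simp only [Sum.elim_inl, Sum.elim_inr] at hxy
          have h3 := congrArg Fin.val hxy
          have h4 := y.2
          simp only [Fin.val_castLE] at h3
          omega
        · rw [Subsingleton.elim x y]
      · rintro (_ | i | i)
        · exact le_rfl
        · exact le_rfl
        · exact hmod _
  · intro h
    rw [← hFn] at h
    have hex : ∃ j, T < F (m * n + j) := by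
      refine ⟨m * (T + 1), ?_⟩
      rw [hF, cond_Q, ← mul_add, Nat.mul_div_cancel_left _ (by omega), Nat.mul_mod_right]
      have h3 : 1 ≤ (m + 1).choose 2 := Nat.choose_pos (by omega)
      have h4 : (n + (T + 1)) * 1 ≤ (n + (T + 1)) * (m + 1).choose 2 := Nat.mul_le_mul_left _ h3
      omega
    obtain ⟨k, hk⟩ : ∃ k, k = Nat.find hex := ⟨_, rfl⟩
    have hk1 : T < F (m * n + k) := by rw [hk]; exact Nat.find_spec hex
    have hk0 : k ≠ 0 := by
      rintro rfl
      rw [add_zero] at hk1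
      omega
    obtain ⟨j, rfl⟩ : ∃ j, k = j + 1 := ⟨k - 1, by omega⟩
    have hj : ¬ T < F (m * n + j) := Nat.find_min hex (by omega)
    have hs := hstep (m * n + j)
    rw [← add_assoc] at hk1
    obtain ⟨q, hq⟩ : ∃ q, q = m * n + j := ⟨_, rfl⟩
    rw [← hq] at hk1 hj hs
    have hS : Sur (Q v m (q / m) (q % m)) (TZ d) :=
      (hnear _ _ (hmod _) (by rw [← hF]; omega) (by rw [← hF]; omega)).2 (by rw [← hF]; omega)
    have hle : n ≤ q / m := by
      rw [hq, Nat.le_div_iff_mul_le (by omega)]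
      rw [mul_comm n m]
      omega
    have hS2 : Sur (fun o : Option (Fin (q / m) ⊕ Fin 1) => o.elim v
        (Sum.elim (fun i : Fin (q / m) => if (i : ℕ) < n then m else 0) (fun _ : Fin 1 => 0)))
        (TZ d) := by
      refine Sur_anti ?_ hS
      rintro (_ | i | i)
      · exact le_rfl
      · simp only [Option.elim_some, Sum.elim_inl, Q]
        split_ifs <;> omega
      · simp
    refine Pool.Agent.TH745.MN.Sur_drop
      (fun o : Option (Fin n) => o.map fun i => Sum.inl (Fin.castLE hle i)) ?_ ?_ ?_ hS2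
    · apply Option.map_injective
      intro x y hxy
      exact Fin.castLE_injective hle (Sum.inl_injective hxy)
    · rintro (_ | i)
      · rfl
      · simp [R]
    · rintro (_ | i | i) hi
      · exact ⟨none, rfl⟩
      · simp only [Option.elim_some, Sum.elim_inl] at hi
        have h3 : (i : ℕ) < n := by
          by_contra hcon
          rw [if_neg hcon] at hi
          exact hi rfl
        exact ⟨some ⟨i, h3⟩, rfl⟩
      · simp at hi

end Pool.Agent.K6.H83.QH
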