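import Pool.Agent.K6.H83.QH.PoolD
import Pool.Agent.Y205.FW.Acc

/-! The corank of a system with one arbitrary multiplicity, from emptiness. -/

set_option autoImplicit false

namespace Pool.Agent.K6.H83.QH

open Finset Pool.Agent.TH176.Nag Pool.Agent.TH603.Sur Pool.Agent.TH641.UM Pool.Agent.TH2.NU
  Pool.Agent.Y205.MD Pool.Agent.Y205.FW

theorem crkM_of_EM {M : Multiset ℕ} {d : ℕ} (h : EM M (TZ d)) : crkM (TF d) M = 0 := by
  unfold crkM
  apply crk_zero_of_Emp
  rw [coe_TF]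
  exact h

theorem crkM_of_SM {M : Multiset ℕ} {d : ℕ} (h : SM M (TZ d)) :
    crkM (TF d) M + cM M ≤ (TF d).card := by
  have h1 : Sur (fam M) (↑(TF d) : Set (ℤ × ℤ)) := by rw [coe_TF]; exact h
  have h2 := crk_of_Sur h1
  rw [cond_eq, ms_fam] at h2
  exact h2

theorem EM_of_crkM {M : Multiset ℕ} {d : ℕ} (h : crkM (TF d) M = 0)
    (hc : (TF d).card ≤ cM M) : EM M (↑(TF d) : Set (ℤ × ℤ)) := by
  have h1 : Ex (TF d) (fam M) := by
    unfold Ex
    have : crk (TF d) (fam M) = 0 := h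
    omega
  exact Emp_of_Ex h1 (by rw [cond_eq, ms_fam]; exact hc)

theorem SM_of_crkM {M : Multiset ℕ} {d : ℕ} (h : crkM (TF d) M = 0)
    (hc : cM M ≤ (TF d).card) : SM M (↑(TF d) : Set (ℤ × ℤ)) := by
  have h1 : Ex (TF d) (fam M) := by
    unfold Ex
    have : crk (TF d) (fam M) = 0 := h
    omega
  exact Sur_of_Ex h1 (by rw [cond_eq, ms_fam]; exact hc)

/-- the sum of the squares -/
def S2 (M : Multiset ℕ) : ℕ := (M.map fun x => x ^ 2).sum

theorem S2_add (M N : Multiset ℕ) : S2 (M + N) = S2 M + S2 N := by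
  unfold S2; rw [Multiset.map_add, Multiset.sum_add]

theorem two_cMS (M : Multiset ℕ) : 2 * cM M = S2 M + M.sum := by
  induction M using Multiset.induction_on with
  | empty => simp [cM, S2]
  | cons a M ih =>
    have h1 := Pool.Agent.TH2.NU.two_choose a
    have e1 : cM (a ::ₘ M) = (a + 1).choose 2 + cM M := by
      unfold cM; rw [Multiset.map_cons, Multiset.sum_cons]
    have e2 : S2 (a ::ₘ M) = a ^ 2 + S2 M := by
      unfold S2; rw [Multiset.map_cons, Multiset.sum_cons]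
    rw [e1, e2, Multiset.sum_cons, mul_add, ih, h1]
    ring

/-- the bound of the corank from emptiness -/
theorem crk_empty {M : Multiset ℕ} {v d B q m : ℕ} (hB : v + B = d) (hm : 1 ≤ m)
    (hM : ∀ x ∈ M, x ≤ 8 * m) (hq : M.toFinset.card ≤ q) (hq1 : 1 ≤ q) (hB1 : 1024 * m ≤ B)
    (hBd : 2 ^ 13 * (q * m ^ 2) ≤ B * d) (hS : B * d ≤ 2 * S2 M) :
    crkM (TF d) ({v} + M) = 0 ∨
      2 * crkM (TF d) ({v} + M) + v * (v + 1) + S2 M + 1 ≤ (d + 1) * (d + 2) := by
  have hTF : ∀ e, 2 * (TF e).card = (e + 1) * (e + 2) := fun e => by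
    rw [card_TF]
    exact Pool.Agent.TH2.NU.two_choose (e + 1)
  have hdR : (d : ℝ) = v + B := by rw [← hB]; push_cast; ring
  have hmR : (1 : ℝ) ≤ m := by exact_mod_cast hm
  have hB1R : 1024 * (m : ℝ) ≤ B := by exact_mod_cast hB1
  have hBdR : (2 : ℝ) ^ 13 * (q * m ^ 2) ≤ B * d := by exact_mod_cast hBd
  have hSR : (B : ℝ) * d ≤ 2 * S2 M := by exact_mod_cast hS
  have hv0 : (0 : ℝ) ≤ v := Nat.cast_nonneg v
  have hq1R : (1 : ℝ) ≤ q := by exact_mod_cast hq1
  have hB0 : (0 : ℝ) < B := by linarith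
  have hvB : 0 ≤ (v : ℝ) * B := by positivity
  have hMR : ∀ x ∈ M, (x : ℝ) ≤ 8 * m := fun x hx => by exact_mod_cast hM x hx
  have hBdE : (B : ℝ) * d = B * B + v * B := by rw [hdR]; ring
  have hqm : 0 ≤ (q : ℝ) * m ^ 2 := by positivity
  have hqm1 : (16 * (q : ℝ) + 8) * (8 * m) ^ 2 ≤ 1536 * (q * m ^ 2) := by
    have e : (16 * (q : ℝ) + 8) * (8 * m) ^ 2 = 1024 * (q * m ^ 2) + 512 * (m ^ 2 * 1) := by ring
    have h1 : (m : ℝ) ^ 2 * 1 ≤ m ^ 2 * q := mul_le_mul_of_nonneg_left hq1R (by positivity)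
    rw [e]
    linarith
  rcases Nat.lt_or_ge (d ^ 2) (v ^ 2 + S2 M) with hA | hA
  · left
    apply crkM_of_EM
    refine emp_fewM (W := 8 * m) hMR (by rw [hdR]; linarith) hq ?_ ?_
    · have e : (d : ℝ) ^ 2 - v ^ 2 = B * B + 2 * (v * B) := by rw [hdR]; ring
      rw [e]
      norm_num at hBdR
      linarith
    · have : ((d ^ 2 : ℕ) : ℝ) < ((v ^ 2 + S2 M : ℕ) : ℝ) := by exact_mod_cast hA
      push_cast at this
      exact this
  · right
    have hS1 : 1 ≤ S2 M := by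
      by_contra hcon
      have h0 : S2 M = 0 := by omega
      rw [h0, hBdE] at hSR
      have : 0 < (B : ℝ) * B := by positivity
      push_cast at hSR
      linarith
    obtain ⟨e, he⟩ : ∃ e, e = Nat.sqrt (v ^ 2 + S2 M - 1) := ⟨_, rfl⟩
    have h1 : e ^ 2 ≤ v ^ 2 + S2 M - 1 := by rw [he]; exact Nat.sqrt_le' _
    have h2 : v ^ 2 + S2 M - 1 < (e + 1) ^ 2 := by rw [he]; exact Nat.lt_succ_sqrt' _
    have h3 : e ^ 2 < v ^ 2 + S2 M := by omega
    have h4 : v ^ 2 + S2 M ≤ (e + 1) ^ 2 := by omega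
    have hed : e < d := by
      by_contra hcon
      push Not at hcon
      have : d ^ 2 ≤ e ^ 2 := Nat.pow_le_pow_left hcon 2
      omega
    have h4R : (v : ℝ) ^ 2 + S2 M ≤ (e + 1) ^ 2 := by exact_mod_cast h4
    have h3R : (e : ℝ) ^ 2 < v ^ 2 + S2 M := by exact_mod_cast h3
    have hedR : (e : ℝ) + 1 ≤ d := by exact_mod_cast hed
    have he0 : (0 : ℝ) ≤ e := Nat.cast_nonneg e
    have hBB : 1024 * (m : ℝ) * B ≤ B * B := mul_le_mul_of_nonneg_right hB1R hB0.le
    have hc1 : (v : ℝ) + 32 * (8 * m) ≤ e := by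
      by_contra hcon
      push Not at hcon
      have hx : (v : ℝ) + 256 * m - e > 0 := by linarith
      have hev : e + 1 ≤ v + 256 * m := by
        have : (e : ℝ) < ((v + 256 * m : ℕ) : ℝ) := by push_cast; linarith
        have h5 : e < v + 256 * m := by exact_mod_cast this
        omega
      have hevR : (e : ℝ) + 1 ≤ v + 256 * m := by exact_mod_cast hev
      have h6 : ((e : ℝ) + 1) ^ 2 ≤ (v + 256 * m) ^ 2 := pow_le_pow_left₀ (by linarith) hevR 2
      have h7 : (1024 * (m : ℝ)) * (1024 * m) ≤ B * B :=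
        mul_le_mul hB1R hB1R (by positivity) (by positivity)
      have h8 : (v : ℝ) * (1024 * m) ≤ v * B := mul_le_mul_of_nonneg_left hB1R hv0
      have h9 : 0 < (m : ℝ) * m := by positivity
      rw [hBdE] at hSR
      nlinarith
    have hc2 : (16 * (q : ℝ) + 8) * (8 * m) ^ 2 ≤ (e : ℝ) ^ 2 - v ^ 2 := by
      refine hqm1.trans ?_
      have h5 : ((e : ℝ) + 1) ^ 2 = e ^ 2 + 2 * e + 1 := by ring
      rw [h5] at h4R
      have h6 : 2 * (d : ℝ) ≤ B * d / 4 := by
        have h7 : 1024 * (d : ℝ) ≤ B * d :=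
          mul_le_mul_of_nonneg_right (by linarith) (by linarith)
        linarith
      norm_num at hBdR
      linarith
    have hE : EM ({v} + M) (TZ e) := by
      refine emp_fewM (W := 8 * m) hMR hc1 hq hc2 ?_
      exact h3R
    have hsub : TF e ⊆ TF d := by
      rw [← coe_subset, coe_TF, coe_TF]
      exact Pool.Agent.TH745.MN.TZ_mono hed.le
    have hcard := card_le_card hsub
    have h5 : crkM (TF d) ({v} + M) ≤ (TF d).card - (TF e).card :=
      crk_le ⟨TF e, hsub, by omega, by rw [coe_TF]; exact hE⟩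
    have h6 := hTF e
    have h7 := hTF d
    have h8 : (e + 1) * (e + 2) = (e + 1) ^ 2 + (e + 1) := by ring
    have h9 : v < e + 1 := by
      have : (v : ℝ) < e + 1 := by linarith
      exact_mod_cast this
    have h10 : v * (v + 1) = v ^ 2 + v := by ring
    omega

end Pool.Agent.K6.H83.QH
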