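import Pool.Agent.K6.H83.QH.NearL

/-! Several levels of doubling, with an exceptional part. -/

set_option autoImplicit false

namespace Pool.Agent.K6.H83.QH

open Finset Pool.Agent.TH176.Nag Pool.Agent.TH603.Sur Pool.Agent.TH641.UM Pool.Agent.TH2.NU

theorem F_succM {m : ℕ} (hm : 1 ≤ m) (E : Multiset ℕ) (k : ℕ) :
    cM (((k + 1) / m) • {m} + {(k + 1) % m} + E) ≤ cM ((k / m) • {m} + {k % m} + E) + m := by
  have h1 := Nat.mod_lt k hm
  have h2 := Nat.div_add_mod k m
  rw [cM_add, cM_add, cM_add, cM_add, cM_smul, cM_smul, cM_single, cM_single]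
  obtain ⟨q, hq⟩ : ∃ q, q = k / m := ⟨_, rfl⟩
  obtain ⟨r, hr⟩ : ∃ r, r = k % m := ⟨_, rfl⟩
  rw [← hq, ← hr] at h2 ⊢
  rw [← hr] at h1
  rcases Nat.lt_or_ge (r + 1) m with h3 | h3
  · have e1 : (k + 1) / m = q := by
      rw [← h2, add_assoc, Nat.mul_add_div (by omega), Nat.div_eq_of_lt h3, add_zero]
    have e2 : (k + 1) % m = r + 1 := by
      rw [← h2, add_assoc, Nat.mul_add_mod, Nat.mod_eq_of_lt h3]
    rw [e1, e2, Nat.choose_succ_succ' (r + 1) 1, Nat.choose_one_right]
    have : (r + 1).choose (1 + 1) = (r + 1).choose 2 := rfl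
    omega
  · have hrm : m = r + 1 := by omega
    have e0 : k + 1 = m * (q + 1) := by rw [← h2, mul_add, mul_one, hrm]; ring
    have e1 : (k + 1) / m = q + 1 := by rw [e0, Nat.mul_div_cancel_left _ (by omega)]
    have e2 : (k + 1) % m = 0 := by rw [e0, Nat.mul_mod_right]
    rw [e1, e2, add_mul, one_mul]
    have e3 : (m + 1).choose 2 = (r + 1) + (r + 1).choose 2 := by
      rw [hrm, Nat.choose_succ_succ' (r + 1) 1, Nat.choose_one_right]
    have e4 : (0 + 1).choose 2 = 0 := rfl
    omega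

/-- all numbers of points, from the neighbourhood of the critical number -/
theorem sgnM {d m : ℕ} (hm : 1 ≤ m) {E : Multiset ℕ} (h0 : cM E < (d + 2).choose 2)
    (hnear : ∀ N l : ℕ, l ≤ m → cM (N • {m} + {l} + E) ≤ (d + 2).choose 2 + m →
      (d + 2).choose 2 ≤ cM (N • {m} + {l} + E) + m → XM (TF d) (N • {m} + {l} + E)) (n : ℕ) :
    XM (TF d) (n • {m} + E) := by
  classical
  unfold XM at hnear ⊢
  rw [card_TF] at hnear ⊢
  obtain ⟨T, hT⟩ : ∃ T, T = (d + 2).choose 2 := ⟨_, rfl⟩
  rw [← hT] at h0 hnear ⊢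
  obtain ⟨F, hF⟩ : ∃ F : ℕ → ℕ, ∀ k, F k = cM ((k / m) • {m} + {k % m} + E) := ⟨_, fun _ => rfl⟩
  have hstep : ∀ k, F (k + 1) ≤ F k + m := fun k => by
    rw [hF, hF]; exact F_succM hm E k
  have hmod : ∀ k, k % m ≤ m := fun k => (Nat.mod_lt k hm).le
  have hFn : F (m * n) = cM (n • {m} + E) := by
    rw [hF, Nat.mul_div_cancel_left _ (by omega), Nat.mul_mod_right, cM_add, cM_add, cM_add,
      cM_single]
    simp
  constructor
  · intro h
    rw [← hFn] at h
    have hex : ∃ k, T ≤ F k := ⟨_, h⟩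
    obtain ⟨k, hk⟩ : ∃ k, k = Nat.find hex := ⟨_, rfl⟩
    have hk1 : T ≤ F k := by rw [hk]; exact Nat.find_spec hex
    have hk2 : k ≤ m * n := by rw [hk]; exact Nat.find_min' hex h
    have hk0 : k ≠ 0 := by
      rintro rfl
      rw [hF, Nat.zero_div, Nat.zero_mod, zero_smul, zero_add, cM_add, cM_single] at hk1
      simp at hk1
      omega
    obtain ⟨j, rfl⟩ : ∃ j, k = j + 1 := ⟨k - 1, by omega⟩
    have hj : ¬ T ≤ F j := Nat.find_min hex (by omega)
    have hs := hstep j
    have hE := (hnear ((j + 1) / m) ((j + 1) % m) (hmod _) (by rw [← hF]; omega)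
      (by rw [← hF]; omega)).1 (by rw [← hF]; exact hk1)
    have hle : (j + 1) / m ≤ n := Nat.div_le_of_le_mul hk2
    rcases hle.eq_or_lt with he | hlt
    · have h0' : (j + 1) % m = 0 := by
        have h3 := Nat.div_add_mod (j + 1) m
        rw [he] at h3
        omega
      rw [he, h0'] at hE
      refine EM.zero (t := 1) ?_
      have e : n • {m} + E + 1 • {0} = (n • {m} + {0} + E : Multiset ℕ) := by
        rw [one_smul]; abel
      rw [e]
      exact hE
    · have h3 : EM ({m} + (((j + 1) / m) • {m} + E)) (↑(TF d) : Set (ℤ × ℤ)) := by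
        refine EM.raise (hmod (j + 1)) ?_
        have e : ({(j + 1) % m} + (((j + 1) / m) • {m} + E) : Multiset ℕ) =
            ((j + 1) / m) • {m} + {(j + 1) % m} + E := by abel
        rw [e]
        exact hE
      refine h3.mono ?_
      obtain ⟨q, hq⟩ : ∃ q, n = (j + 1) / m + 1 + q := ⟨n - ((j + 1) / m + 1), by omega⟩
      have e : (n • {m} + E : Multiset ℕ) = {m} + (((j + 1) / m) • {m} + E) + q • {m} := by
        conv_lhs => rw [hq, add_smul, add_smul, one_smul]
        abel
      rw [e]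
      exact Multiset.le_add_right _ _
  · intro h
    rw [← hFn] at h
    have hex : ∃ j, T < F (m * n + j) := by
      refine ⟨m * (T + 1), ?_⟩
      rw [hF, ← mul_add, Nat.mul_div_cancel_left _ (by omega), Nat.mul_mod_right, cM_add, cM_add,
        cM_smul]
      have h3 : 1 ≤ (m + 1).choose 2 := Nat.choose_pos (by omega)
      have h4 : (n + (T + 1)) * 1 ≤ (n + (T + 1)) * (m + 1).choose 2 := Nat.mul_le_mul_left _ h3
      omega
    obtain ⟨k, hk⟩ : ∃ k, k = Nat.find hex := ⟨_, rfl⟩
    have hk1 : T < F (m * n + k) := by rw [hk]; exact Nat.find_spec hex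
    have hk0 : k ≠ 0 := by
      rintro rfl
      rw [add_zero] at hk1
      omega
    obtain ⟨j, rfl⟩ : ∃ j, k = j + 1 := ⟨k - 1, by omega⟩
    have hj : ¬ T < F (m * n + j) := Nat.find_min hex (by omega)
    have hs := hstep (m * n + j)
    rw [← add_assoc] at hk1
    obtain ⟨q, hq⟩ : ∃ q, q = m * n + j := ⟨_, rfl⟩
    rw [← hq] at hk1 hj hs
    have hS := (hnear (q / m) (q % m) (hmod _) (by rw [← hF]; omega)
      (by rw [← hF]; omega)).2 (by rw [← hF]; omega)
    have hle : n ≤ q / m := by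
      rw [hq, Nat.le_div_iff_mul_le (by omega)]
      rw [mul_comm n m]
      omega
    obtain ⟨r, hr⟩ : ∃ r, q / m = n + r := ⟨q / m - n, by omega⟩
    refine SM.sub (N := r • {m} + {q % m}) ?_
    have e : (n • {m} + E + (r • {m} + {q % m}) : Multiset ℕ) = (q / m) • {m} + {q % m} + E := by
      rw [hr, add_smul]
      abel
    rw [e]
    exact hS

/-- one level of doubling -/
theorem recM {d m : ℕ} {E : Multiset ℕ} (h2m : ∀ n : ℕ, XM (TF d) (n • {2 * m} + E))
    (h2m1 : ∀ n : ℕ, XM (TF d) (n • {2 * m + 1} + E)) {N l : ℕ} (hl : l ≤ m)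
    (h1 : cM (N • {m} + {l} + E) ≤ (d + 2).choose 2 + m)
    (h2 : (d + 2).choose 2 ≤ cM (N • {m} + {l} + E) + m) (hN : 32 * m + 24 ≤ N) :
    XM (TF d) (N • {m} + {l} + E) := by
  classical
  obtain ⟨a, b, hab, hb3⟩ : ∃ a b, N = 4 * a + b ∧ b ≤ 3 :=
    ⟨N / 4, N % 4, by omega, by omega⟩
  have ha : 8 * m + 6 ≤ a := by omega
  have t := Pool.Agent.TH2.NU.two_choose
  have e1 : 2 * cM (N • {m} + {l} + E) = N * (m * (m + 1)) + l * (l + 1) + 2 * cM E := by
    rw [cM_add, cM_add, cM_smul, cM_single, ← t m, ← t l]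
    ring
  have e2 : 2 * cM ((a + b + 1) • {2 * m} + E) =
      (a + b + 1) * (2 * m * (2 * m + 1)) + 2 * cM E := by
    rw [cM_add, cM_smul, ← t (2 * m)]
    ring
  have e3 : 2 * cM (a • {2 * m + 1} + E) =
      a * ((2 * m + 1) * (2 * m + 1 + 1)) + 2 * cM E := by
    rw [cM_add, cM_smul, ← t (2 * m + 1)]
    ring
  have ll : l * (l + 1) ≤ m * (m + 1) := Nat.mul_le_mul hl (by omega)
  have am : (8 * m + 6) * m ≤ a * m := Nat.mul_le_mul_right _ ha
  have bm : b * m ≤ 3 * m := Nat.mul_le_mul_right _ hb3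
  have bmm : b * (m * m) ≤ 3 * (m * m) := Nat.mul_le_mul_right _ hb3
  have mm0 := Nat.zero_le (m * m)
  have ll0 := Nat.zero_le (l * (l + 1))
  rw [hab] at e1
  have hS : SM (a • {2 * m} + (b • {m} + {l} + E)) (↑(TF d) : Set (ℤ × ℤ)) := by
    have g1 := (h2m (a + b + 1)).2 (by
      rw [card_TF]
      rw [hab] at h1
      have : 2 * cM ((a + b + 1) • {2 * m} + E) ≤ 2 * (d + 2).choose 2 := by
        rw [e2]
        linarith
      omega)
    have g2 : SM (b • {2 * m} + (a • {2 * m} + {2 * m} + E)) (↑(TF d) : Set (ℤ × ℤ)) := by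
      have e : (b • {2 * m} + (a • {2 * m} + {2 * m} + E) : Multiset ℕ) =
          (a + b + 1) • {2 * m} + E := by
        rw [add_smul, add_smul, one_smul]
        abel
      rw [e]
      exact g1
    have g3 := SM.lower (a := m) (by omega) g2
    have g4 : SM (1 • {2 * m} + (a • {2 * m} + b • {m} + E)) (↑(TF d) : Set (ℤ × ℤ)) := by
      have e : (1 • {2 * m} + (a • {2 * m} + b • {m} + E) : Multiset ℕ) =
          b • {m} + (a • {2 * m} + {2 * m} + E) := by
        rw [one_smul]
        abel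
      rw [e]
      exact g3
    have g5 := SM.lower (a := l) (by omega) g4
    have e : (a • {2 * m} + (b • {m} + {l} + E) : Multiset ℕ) =
        1 • {l} + (a • {2 * m} + b • {m} + E) := by
      rw [one_smul]
      abel
    rw [e]
    exact g5
  have hE : EM (a • {2 * m + 1} + (b • {m} + {l} + E)) (↑(TF d) : Set (ℤ × ℤ)) := by
    have g1 := (h2m1 a).1 (by
      rw [card_TF]
      rw [hab] at h2
      have : 2 * (d + 2).choose 2 ≤ 2 * cM (a • {2 * m + 1} + E) := by
        rw [e3]
        linarith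
      omega)
    have g2 := g1.add (b • {m} + {l})
    have e : (a • {2 * m + 1} + (b • {m} + {l} + E) : Multiset ℕ) =
        a • {2 * m + 1} + E + (b • {m} + {l}) := by
      abel
    rw [e]
    exact g2
  have hX := dblM (by omega) tpos hS hE
  have e : ((4 * a) • {m} + (b • {m} + {l} + E) : Multiset ℕ) = N • {m} + {l} + E := by
    rw [hab, add_smul]
    abel
  rw [← e]
  exact hX

/-- **All levels.** -/
theorem main_rec {k v d B : ℕ} {L : List (ℕ × ℕ)} (hk : L.length = k) (hL : ∀ p ∈ L, 1 ≤ p.1)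
    (hB : v + B = d) (hLm : 2 ^ (k + 7) * Lm L ≤ B) (hB2 : 2 ^ (2 * k + 15) ≤ B) (j : ℕ) :
    ∀ m : ℕ, 1 ≤ m → B ≤ m + j → 2 ^ (k + 7) * (m + 1) ≤ B → ∀ n : ℕ,
      XM (TF d) (n • {m} + ({v} + GG L)) := by
  obtain ⟨P, hP⟩ : ∃ P, P = 2 ^ k := ⟨_, rfl⟩
  have hP1 : 1 ≤ P := by rw [hP]; exact Nat.one_le_two_pow
  have eP6 : 2 ^ (k + 6) = 64 * P := by rw [pow_add, ← hP]; ring
  have eP7 : 2 ^ (k + 7) = 128 * P := by rw [pow_add, ← hP]; ring
  have eP15 : 2 ^ (2 * k + 15) = 32768 * (P * P) := by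
    rw [pow_add, two_mul, pow_add, ← hP]; ring
  rw [eP7] at hLm
  rw [eP15] at hB2
  have t := Pool.Agent.TH2.NU.two_choose
  have hT : 2 * (d + 2).choose 2 = (d + 1) * (d + 2) := t (d + 1)
  have hPP : P ≤ P * P := Nat.le_mul_of_pos_left _ hP1
  have hP128 : 0 < 128 * P := by omega
  induction j with
  | zero =>
    intro m hm h1 h2
    rw [eP7] at h2
    exfalso
    have h3 := Nat.le_mul_of_pos_left (m + 1) hP128
    omega
  | succ j ih =>
    intro m hm h1 h2 n
    rw [eP7] at h2
    have hΛ : Lm L ≤ B := le_trans (Nat.le_mul_of_pos_left _ hP128) hLm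
    have hC := cM_GG_le L
    have hΛ2 : Lm L * Lm L ≤ B * B := Nat.mul_le_mul hΛ hΛ
    refine sgnM hm ?_ (fun N l hl g1 g2 => ?_) n
    · have e1 : 2 * cM ({v} + GG L) = v * (v + 1) + 2 * cM (GG L) := by
        rw [cM_add, cM_single, ← t v]; ring
      have e2 : (d + 1) * (d + 2) = v * (v + 1) + (B * B + 2 * (v * B) + 3 * B + 2 * v + 2) := by
        rw [← hB]; ring
      omega
    · rcases Nat.lt_or_ge (6 * d) N with hN | hN
      · -- the next level
        have hmB : 128 * (m + 1) ≤ B := le_trans (Nat.mul_le_mul_right _ (by omega)) h2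
        have key : 128 * P * (2 * m + 1 + 1) ≤ B := by
          by_contra hcon
          push Not at hcon
          have e1 := two_cM v m N l L
          have e2 : (d + 1) * (d + 2) = v * (v + 1) + (B + 1) * (B + 2 * v + 2) := by
            rw [← hB]; ring
          obtain ⟨X, hX⟩ : ∃ X, X = m * (m + 1) := ⟨_, rfl⟩
          obtain ⟨Y, hY⟩ : ∃ Y, Y = (B + 1) * (d + 1) := ⟨_, rfl⟩
          rw [← hX] at e1
          have g3 : (6 * d + 1) * X ≤ N * X := Nat.mul_le_mul_right _ hN
          have g4 : N * X ≤ (B + 1) * (B + 2 * v + 2) + 2 * m := by omega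
          have g5 : (B + 1) * (B + 2 * v + 2) ≤ (B + 1) * (2 * (d + 1)) :=
            Nat.mul_le_mul_left _ (by omega)
          have e3 : (B + 1) * (2 * (d + 1)) = 2 * Y := by rw [hY]; ring
          have g6 : 2 * m ≤ X := by
            rw [hX, mul_comm 2 m]
            exact Nat.mul_le_mul_left _ (by omega)
          have e4 : (6 * d + 1) * X = 2 * (3 * (d * X)) + X := by ring
          have g7 : 3 * (d * X) ≤ Y := by omega
          have e5 : 128 * P * (2 * m + 1 + 1) = 256 * P * (m + 1) := by ring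
          rw [e5] at hcon
          have g8 : Y ≤ 256 * P * (m + 1) * (d + 1) := by
            rw [hY]
            exact Nat.mul_le_mul_right _ hcon
          have g10 : (3 * d * m) * (m + 1) ≤ (256 * P * (d + 1)) * (m + 1) := by
            calc (3 * d * m) * (m + 1) = 3 * (d * X) := by rw [hX]; ring
              _ ≤ 256 * P * (m + 1) * (d + 1) := g7.trans g8
              _ = (256 * P * (d + 1)) * (m + 1) := by ring
          have g9 : 3 * d * m ≤ 256 * P * (d + 1) := Nat.le_of_mul_le_mul_right g10 (by omega)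
          have hd0 : 256 ≤ d := by omega
          have g11 : d * (3 * m) ≤ d * (257 * P) := by
            have h3 : P * 256 ≤ P * d := Nat.mul_le_mul_left _ hd0
            calc d * (3 * m) = 3 * d * m := by ring
              _ ≤ 256 * P * (d + 1) := g9
              _ = 256 * (P * d) + P * 256 := by ring
              _ ≤ 256 * (P * d) + P * d := by omega
              _ = d * (257 * P) := by ring
          have g12 : 3 * m ≤ 257 * P := Nat.le_of_mul_le_mul_left g11 (by omega)
          have g13 : 256 * P * (3 * m + 3) ≤ 256 * P * (257 * P + 3) :=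
            Nat.mul_le_mul_left _ (by omega)
          have e6 : 256 * P * (3 * m + 3) = 3 * (256 * P * (m + 1)) := by ring
          have e7 : 256 * P * (257 * P + 3) = 65792 * (P * P) + 768 * P := by ring
          omega
        refine recM (ih (2 * m) (by omega) (by omega) ?_)
          (ih (2 * m + 1) (by omega) (by omega) ?_) hl g1 g2 (by omega)
        · rw [eP7]
          refine le_trans (Nat.mul_le_mul_left _ (by omega)) key
        · rw [eP7]
          exact key
      · refine nearM hk hL hl ?_ g1 g2 hN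
        rw [eP6]
        have e8 : 2 * (64 * P * (m + Lm L + 1)) = 128 * P * (m + 1) + 128 * P * Lm L := by ring
        omega

end Pool.Agent.K6.H83.QH
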