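import Pool.Agent.K6.H83.QH.Raise
import Pool.Agent.K6.H83.QH.RecL

/-! Doubling of several classes, for multisets. -/

set_option autoImplicit false

namespace Pool.Agent.K6.H83.QH

open Finset Pool.Agent.TH176.Nag Pool.Agent.TH603.Sur Pool.Agent.TH641.UM Pool.Agent.TH2.NU
  Pool.Agent.TH763.DB

theorem ms_sigma {ι : Type} [Fintype ι] (A f : ι → ℕ) :
    ms (fun z : Σ i, Fin (A i) => f z.1) = ∑ i, A i • ({f i} : Multiset ℕ) := by
  unfold ms
  rw [Fintype.sum_sigma]
  refine sum_congr rfl fun i _ => ?_
  simp

theorem cM_sum {ι : Type} (s : Finset ι) (f : ι → Multiset ℕ) :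
    cM (∑ i ∈ s, f i) = ∑ i ∈ s, cM (f i) := by
  classical
  induction s using Finset.induction_on with
  | empty => simp [cM]
  | insert a s ha ih => rw [sum_insert ha, sum_insert ha, cM_add, ih]

/-- **Doubling of several classes.** -/
theorem dblN {ι : Type} [Fintype ι] [DecidableEq ι] [Nonempty ι] {A m : ι → ℕ} {v d : ℕ}
    {LL : Multiset ℕ} {W y t0 : ℝ} (hA : ∀ i, 1 ≤ A i) (hm : ∀ i, 1 ≤ m i)
    (hLW : ∀ x ∈ LL, (x : ℝ) ≤ W) (hdv : v + 32 * W ≤ d)
    (h2 : (16 * (2 * (Fintype.card ι : ℝ) + LL.toFinset.card) + 8) * W ^ 2 ≤ (d : ℝ) ^ 2 - v ^ 2)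
    (hT : (d : ℝ) ^ 2 + t0 < 2 * cM (∑ i, (4 * A i) • ({m i} : Multiset ℕ) + ({v} + LL)))
    (hy0 : 0 ≤ y) (hy : ∀ i, 4 * ∑ j, (m j : ℝ) * A j + A i ≤ A i * y ^ 2)
    (hB1 : ∀ i, 2 * (m i : ℝ) + y + 2 ≤ W)
    (he3 : ∀ i, ((v : ℝ) + (LL.sum : ℕ)) + 4 * m i + 2 * y + 2 ≤ t0)
    (hS : SM (∑ i, A i • ({2 * m i} : Multiset ℕ) + ({v} + LL)) (↑(TF d) : Set (ℤ × ℤ))) :
    XM (TF d) (∑ i, (4 * A i) • ({m i} : Multiset ℕ) + ({v} + LL)) := by
  classical
  obtain ⟨E, hE⟩ : ∃ E : Multiset ℕ, E = {v} + LL := ⟨_, rfl⟩
  rw [← hE] at hT hS ⊢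
  have hne : Nonempty (Σ i, Fin (A i)) := by
    obtain ⟨i⟩ := (inferInstance : Nonempty ι)
    exact ⟨⟨i, ⟨0, hA i⟩⟩⟩
  have t := Pool.Agent.TH2.NU.two_choose
  have hsumE : ∀ f : ℕ → ℝ, ∑ y, f (fam E y) = (E.map f).sum := by
    intro f
    have h1 := ms_fam E
    conv_rhs => rw [← h1]
    unfold ms
    have : ∀ s : Finset (Fin E.toList.length),
        ((∑ i ∈ s, ({fam E i} : Multiset ℕ)).map f).sum = ∑ i ∈ s, f (fam E i) := by
      intro s
      induction s using Finset.induction_on with
      | empty => simp
      | insert a s ha ih =>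
        rw [sum_insert ha, sum_insert ha, Multiset.map_add, Multiset.sum_add, ih]; simp
    exact (this univ).symm
  have h1 : Sur (Sum.elim (fun z : Σ i, Fin (A i) => 2 * m z.1) (fam E))
      (↑(TF d) : Set (ℤ × ℤ)) :=
    (SM_iff (by rw [ms_sum, ms_sigma A (fun i => 2 * m i), ms_fam])).1 hS
  have hms : ms (Sum.elim (fun p : (Σ i, Fin (A i)) × (Fin 2 × Fin 2) =>
      Pool.Agent.TH2.NU.qv (2 * m p.1.1) p.2) (fam E)) =
      ∑ i, (4 * A i) • ({m i} : Multiset ℕ) + E := by
    rw [ms_sum, ms_fam]
    congr 1
    have hq : (fun p : (Σ i, Fin (A i)) × (Fin 2 × Fin 2) =>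
        Pool.Agent.TH2.NU.qv (2 * m p.1.1) p.2) = fun p => m p.1.1 := by
      funext p
      unfold Pool.Agent.TH2.NU.qv
      have := p.2.1.2
      omega
    rw [hq]
    unfold ms
    rw [Fintype.sum_prod_type, Fintype.sum_sigma]
    refine sum_congr rfl fun i _ => ?_
    simp only [sum_const, card_univ, Fintype.card_prod, Fintype.card_fin, smul_smul]
    congr 1
    ring
  obtain ⟨g1, g2⟩ := Pool.Agent.Y205.MD.doubling' (I := Σ i, Fin (A i))
    (b := fun z => 2 * m z.1) (fun z => by have := hm z.1; omega) (e := fam E)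
    (S := TF d) tpos h1 (by
      intro J k hk
      rw [coe_TF]
      refine raise_abs (B := W) (y := y) (t0 := t0) hA hm ?_ ?_ hy0 hy hB1 ?_ J k hk
      · intro V f hf hV hd
        have e1 : ms V ≤ ms V := le_rfl
        rw [hsumE fun x => (x : ℝ) ^ 2] at hd
        have hg := emp_fewM (M := ms V + LL) (W := W) (d := d) (v := v)
          (r := 2 * Fintype.card ι + LL.toFinset.card) (by
            intro x hx
            rw [Multiset.mem_add] at hx
            rcases hx with hx | hx
            · obtain ⟨z, rfl⟩ := mem_ms'.1 hx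
              have := hf z.1
              rcases hV z with h | h
              · rw [h]; linarith
              · rw [h]; push_cast; linarith
            · exact hLW x hx) hdv (by
            rw [Multiset.toFinset_add]
            refine (card_union_le _ _).trans ?_
            have h3 : (ms V).toFinset ⊆ (univ : Finset ι).biUnion fun i => {f i, f i + 1} := by
              intro x hx
              rw [Multiset.mem_toFinset] at hx
              obtain ⟨z, rfl⟩ := mem_ms'.1 hx
              rw [mem_biUnion]
              refine ⟨z.1, mem_univ _, ?_⟩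
              rw [mem_insert, mem_singleton]
              exact hV z
            have h4 : ((univ : Finset ι).biUnion fun i => {f i, f i + 1}).card ≤
                2 * Fintype.card ι := by
              refine card_biUnion_le.trans ?_
              refine (sum_le_sum fun i _ => card_le_two).trans ?_
              rw [sum_const, card_univ, smul_eq_mul, Nat.mul_comm]
            have h5 := card_le_card h3
            omega) (by
            push_cast
            exact h2) (by
            rw [hE, Multiset.map_add, Multiset.sum_add] at hd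
            rw [Multiset.map_add, Multiset.sum_add, ← sum_ms V fun x => x ^ 2]
            have e2 : ((LL.map fun x : ℕ => (x : ℝ) ^ 2).sum) =
                (((LL.map fun x => x ^ 2).sum : ℕ) : ℝ) := by
              rw [Nat.cast_multiset_sum, Multiset.map_map]
              congr 1
              refine Multiset.map_congr rfl fun x _ => ?_
              simp
            rw [e2] at hd
            push_cast at hd ⊢
            simp only [Multiset.map_singleton, Multiset.sum_singleton] at hd
            linarith)
        refine (EM_iff (M := {v} + (ms V + LL)) ?_).1 hg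
        rw [ms_sum, ms_fam, hE]
        abel
      · have e1 : (2 * (cM (∑ i, (4 * A i) • ({m i} : Multiset ℕ) + E) : ℝ)) =
            ∑ i, 4 * (A i : ℝ) * (m i * (m i + 1)) + ∑ y, (fam E y : ℝ) * (fam E y + 1) := by
          rw [cM_add, cM_sum]
          have e2 : 2 * ∑ i, cM ((4 * A i) • ({m i} : Multiset ℕ)) =
              ∑ i, 4 * A i * (m i * (m i + 1)) := by
            rw [mul_sum]
            refine sum_congr rfl fun i _ => ?_
            rw [cM_smul, ← t (m i)]
            ring
          have e3 : 2 * cM E = ∑ y, fam E y * (fam E y + 1) := by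
            have h3 := cond_eq (fam E)
            rw [ms_fam] at h3
            rw [← h3]
            unfold Pool.Agent.TH603.Sur.cond
            rw [mul_sum]
            exact sum_congr rfl fun i _ => t _
          have e4 : 2 * (∑ i, cM ((4 * A i) • ({m i} : Multiset ℕ)) + cM E) =
              ∑ i, 4 * A i * (m i * (m i + 1)) + ∑ y, fam E y * (fam E y + 1) := by
            rw [mul_add, e2, e3]
          exact_mod_cast e4
        rw [← e1]
        exact hT
      · intro i
        have e1 : ∑ y, (fam E y : ℝ) = v + (LL.sum : ℕ) := by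
          rw [hsumE fun x => (x : ℝ), hE, Multiset.map_add, Multiset.sum_add]
          rw [Nat.cast_multiset_sum]
          simp
        rw [e1]
        exact he3 i)
  rw [cond_eq, hms] at g1 g2
  exact ⟨fun h => (EM_iff hms).2 (g1 h), fun h => (SM_iff hms).2 (g2 h)⟩

end Pool.Agent.K6.H83.QH
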