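import Pool.Agent.K6.H83.QH.ParD
import Pool.Agent.K6.H83.QH.DblN

/-! Splitting the classes into heavy and light ones. -/

set_option autoImplicit false

namespace Pool.Agent.K6.H83.QH

open Finset Pool.Agent.TH176.Nag Pool.Agent.TH603.Sur Pool.Agent.TH641.UM Pool.Agent.TH2.NU

/-- a good level -/
theorem pig {α : Type} (c : α → ℝ) {V : ℝ} (hV : 0 < V) (L : List α) :
    ∀ K : Finset ℕ, 2 * L.length < K.card →
      ∃ k ∈ K, ∀ p ∈ L, 2 * (V / 2 ^ k) ^ 2 ≤ c p ∨ c p ≤ (V / 2 ^ k) ^ 2 / 4 := by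
  classical
  induction L with
  | nil =>
    intro K hK
    obtain ⟨k, hk⟩ := card_pos.1 (by simpa using hK)
    exact ⟨k, hk, fun p hp => absurd hp (by simp)⟩
  | cons a L ih =>
    intro K hK
    have hbad : (K.filter fun k =>
        ¬ (2 * (V / 2 ^ k) ^ 2 ≤ c a ∨ c a ≤ (V / 2 ^ k) ^ 2 / 4)).card ≤ 2 := by
      obtain ⟨F, hF⟩ : ∃ F, F = K.filter fun k =>
        ¬ (2 * (V / 2 ^ k) ^ 2 ≤ c a ∨ c a ≤ (V / 2 ^ k) ^ 2 / 4) := ⟨_, rfl⟩
      rw [← hF]
      rcases F.eq_empty_or_nonempty with h0 | h0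
      · rw [h0]; simp
      · obtain ⟨k0, hk0⟩ : ∃ k0, k0 = F.min' h0 := ⟨_, rfl⟩
        have hmem : k0 ∈ F := by rw [hk0]; exact min'_mem _ _
        refine (card_le_card (t := {k0, k0 + 1}) ?_).trans card_le_two
        intro k hk
        have hle : k0 ≤ k := by rw [hk0]; exact min'_le _ _ hk
        rw [mem_insert, mem_singleton]
        by_contra hcon
        push Not at hcon
        have h2 : k0 + 2 ≤ k := by omega
        rw [hF] at hmem hk
        have g1 := (mem_filter.1 hmem).2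
        have g2 := (mem_filter.1 hk).2
        push Not at g1 g2
        have g3 : V / 2 ^ k ≤ V / 2 ^ (k0 + 2) :=
          div_le_div_of_nonneg_left hV.le (by positivity) (pow_le_pow_right₀ (by norm_num) h2)
        have e : V / 2 ^ (k0 + 2) = V / 2 ^ k0 / 4 := by
          rw [pow_add]
          field_simp
          norm_num
        rw [e] at g3
        have g4 : (V / 2 ^ k) ^ 2 ≤ (V / 2 ^ k0 / 4) ^ 2 :=
          pow_le_pow_left₀ (by positivity) g3 2
        have e2 : (V / 2 ^ k0 / 4) ^ 2 = (V / 2 ^ k0) ^ 2 / 16 := by ring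
        rw [e2] at g4
        have g5 : 0 < (V / 2 ^ k0) ^ 2 := by positivity
        linarith [g1.2, g2.1]
    have hsum := Finset.card_filter_add_card_filter_not (s := K)
      (fun k => 2 * (V / 2 ^ k) ^ 2 ≤ c a ∨ c a ≤ (V / 2 ^ k) ^ 2 / 4)
    rw [List.length_cons] at hK
    obtain ⟨k, hk, h⟩ := ih (K.filter fun k =>
      2 * (V / 2 ^ k) ^ 2 ≤ c a ∨ c a ≤ (V / 2 ^ k) ^ 2 / 4) (by omega)
    obtain ⟨hk1, hk2⟩ := mem_filter.1 hk
    refine ⟨k, hk1, fun p hp => ?_⟩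
    rcases List.mem_cons.1 hp with rfl | hp
    · exact hk2
    · exact h p hp

theorem sum_get {β : Type} [AddCommMonoid β] (L : List (ℕ × ℕ)) (F : ℕ × ℕ → β) :
    ∑ i : Fin L.length, F (L.get i) = (L.map F).sum := by
  have h := Fin.sum_univ_fun_getElem L F
  simpa using h

/-- the clusters -/
noncomputable def LAf (hv : ℕ × ℕ → Prop) [DecidablePred hv] (L : List (ℕ × ℕ)) : List (ℕ × ℕ) :=
  (L.filter fun p => hv p).map fun p => (p.1 / 4, p.2)

/-- the other points -/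
noncomputable def LSf (hv : ℕ × ℕ → Prop) [DecidablePred hv] (L : List (ℕ × ℕ)) : List (ℕ × ℕ) :=
  L.map fun p => if hv p then (p.1 % 4, p.2) else p

/-- four points from every cluster -/
def L4 (L : List (ℕ × ℕ)) : List (ℕ × ℕ) := L.map fun p => (4 * p.1, p.2)

/-- double multiplicities -/
def L2x (L : List (ℕ × ℕ)) : List (ℕ × ℕ) := L.map fun p => (p.1, 2 * p.2)

section
variable (hv : ℕ × ℕ → Prop) [DecidablePred hv]

theorem LAf_nil : LAf hv [] = [] := rfl

theorem LSf_nil : LSf hv [] = [] := rfl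

theorem LAf_pos {p : ℕ × ℕ} (hp : hv p) (L : List (ℕ × ℕ)) :
    LAf hv (p :: L) = (p.1 / 4, p.2) :: LAf hv L := by
  unfold LAf
  rw [List.filter_cons_of_pos (by simpa using hp), List.map_cons]

theorem LAf_neg {p : ℕ × ℕ} (hp : ¬ hv p) (L : List (ℕ × ℕ)) :
    LAf hv (p :: L) = LAf hv L := by
  unfold LAf
  rw [List.filter_cons_of_neg (by simpa using hp)]

theorem LSf_pos {p : ℕ × ℕ} (hp : hv p) (L : List (ℕ × ℕ)) :
    LSf hv (p :: L) = (p.1 % 4, p.2) :: LSf hv L := by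
  unfold LSf
  rw [List.map_cons, if_pos hp]

theorem LSf_neg {p : ℕ × ℕ} (hp : ¬ hv p) (L : List (ℕ × ℕ)) :
    LSf hv (p :: L) = p :: LSf hv L := by
  unfold LSf
  rw [List.map_cons, if_neg hp]

theorem split_GG (L : List (ℕ × ℕ)) : GG L = GG (L4 (LAf hv L)) + GG (LSf hv L) := by
  induction L with
  | nil => simp [LAf_nil, LSf_nil, L4, GG]
  | cons p L ih =>
    by_cases hp : hv p
    · rw [LAf_pos hv hp, LSf_pos hv hp, L4, List.map_cons, GG_cons, GG_cons, GG_cons, ih, L4]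
      have e : p.1 • ({p.2} : Multiset ℕ) = (4 * (p.1 / 4)) • {p.2} + (p.1 % 4) • {p.2} := by
        rw [← add_smul, Nat.div_add_mod]
      rw [e]
      abel
    · rw [LAf_neg hv hp, LSf_neg hv hp, GG_cons, GG_cons, ih]
      abel

theorem length_LSf (L : List (ℕ × ℕ)) : (LSf hv L).length = L.length := by
  unfold LSf; rw [List.length_map]

theorem length_LAf (L : List (ℕ × ℕ)) : (LAf hv L).length ≤ L.length := by
  unfold LAf; rw [List.length_map]; exact List.length_filter_le _ _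

theorem mem_LAf {L : List (ℕ × ℕ)} {q : ℕ × ℕ} (h : q ∈ LAf hv L) :
    ∃ p ∈ L, hv p ∧ q = (p.1 / 4, p.2) := by
  unfold LAf at h
  obtain ⟨p, hp, rfl⟩ := List.mem_map.1 h
  obtain ⟨h1, h2⟩ := List.mem_filter.1 hp
  exact ⟨p, h1, by simpa using h2, rfl⟩

theorem sum_LAf (L : List (ℕ × ℕ)) :
    4 * ((LAf hv L).map Prod.fst).sum ≤ (L.map Prod.fst).sum := by
  induction L with
  | nil => simp [LAf_nil]
  | cons p L ih =>
    by_cases hp : hv p
    · rw [LAf_pos hv hp, List.map_cons, List.sum_cons, List.map_cons, List.sum_cons]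
      simp only
      omega
    · rw [LAf_neg hv hp, List.map_cons, List.sum_cons]
      omega

end

theorem Sq_two (L : List (ℕ × ℕ)) :
    Sq (L2x L) = 2 * cM (GG (L4 L)) + (L.map Prod.fst).sum := by
  induction L with
  | nil => simp [Sq, GG, cM, L2x, L4]
  | cons p L ih =>
    unfold L2x L4 at ih ⊢
    rw [List.map_cons, List.map_cons, List.map_cons, List.sum_cons, Sq_cons, GG_cons, cM_add,
      cM_smul, ih]
    have h1 : 2 * (p.2 + 1).choose 2 = p.2 * (p.2 + 1) := Pool.Agent.TH2.NU.two_choose p.2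
    have h2 : 2 * (4 * p.1 * (p.2 + 1).choose 2) = 4 * p.1 * (p.2 * (p.2 + 1)) := by
      rw [← h1]; ring
    simp only
    rw [mul_add, h2]
    ring

theorem sum_GG (L : List (ℕ × ℕ)) : (GG L).sum = Ll L := by
  induction L with
  | nil => simp [GG, Ll]
  | cons p L ih =>
    rw [GG_cons, Ll_cons, Multiset.sum_add, Multiset.sum_nsmul, Multiset.sum_singleton, ih,
      smul_eq_mul]

theorem GG_append (L L' : List (ℕ × ℕ)) : GG (L ++ L') = GG L + GG L' := by
  simp [GG]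

theorem Lm_append (L L' : List (ℕ × ℕ)) : Lm (L ++ L') = Lm L + Lm L' := by
  simp [Lm]

theorem Lm_le {L : List (ℕ × ℕ)} {β : ℝ} (h : ∀ p ∈ L, (p.1 : ℝ) * (p.2 + 1) ≤ β) :
    (Lm L : ℝ) ≤ L.length * β := by
  induction L with
  | nil => simp [Lm]
  | cons p L ih =>
    rw [Lm_cons, List.length_cons]
    push_cast
    have h1 := h p List.mem_cons_self
    have h2 := ih fun q hq => h q (List.mem_cons_of_mem _ hq)
    linarith

theorem cM_GG_W {L : List (ℕ × ℕ)} {W : ℝ} (h : ∀ p ∈ L, (p.2 : ℝ) ≤ W) :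
    2 * (cM (GG L) : ℝ) ≤ W * Lm L := by
  induction L with
  | nil => simp [Lm, GG, cM]
  | cons p L ih =>
    rw [Lm_cons, GG_cons, cM_add, cM_smul]
    have h1 : 2 * (p.2 + 1).choose 2 = p.2 * (p.2 + 1) := Pool.Agent.TH2.NU.two_choose p.2
    have h1' : 2 * (((p.2 + 1).choose 2 : ℕ) : ℝ) = p.2 * (p.2 + 1) := by exact_mod_cast h1
    have h2 := ih fun q hq => h q (List.mem_cons_of_mem _ hq)
    have h3 := h p List.mem_cons_self
    push_cast
    have h4 : (p.2 : ℝ) * ((p.1 : ℝ) * (p.2 + 1)) ≤ W * ((p.1 : ℝ) * (p.2 + 1)) :=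
      mul_le_mul_of_nonneg_right h3 (by positivity)
    have e : 2 * ((p.1 : ℝ) * (((p.2 + 1).choose 2 : ℕ) : ℝ)) =
        (p.2 : ℝ) * ((p.1 : ℝ) * (p.2 + 1)) := by
      have : 2 * ((p.1 : ℝ) * (((p.2 + 1).choose 2 : ℕ) : ℝ)) =
        p.1 * (2 * (((p.2 + 1).choose 2 : ℕ) : ℝ)) := by ring
      rw [this, h1']
      ring
    rw [mul_add, e]
    linarith

theorem amgm {σ : ℝ} (L : List (ℕ × ℕ)) :
    2 * σ * (L.map fun p => (p.2 : ℝ) * p.1).sum ≤
      σ ^ 2 * ((L.map Prod.fst).sum : ℕ) + (cM (GG (L4 L)) : ℝ) / 2 := by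
  induction L with
  | nil => simp [GG, cM, L4]
  | cons p L ih =>
    unfold L4 at ih ⊢
    rw [List.map_cons, List.map_cons, List.map_cons, List.sum_cons, List.sum_cons, GG_cons, cM_add,
      cM_smul]
    have h1 : 2 * (p.2 + 1).choose 2 = p.2 * (p.2 + 1) := Pool.Agent.TH2.NU.two_choose p.2
    have h1' : 2 * (((p.2 + 1).choose 2 : ℕ) : ℝ) = p.2 * (p.2 + 1) := by exact_mod_cast h1
    push_cast at ih ⊢
    have h2 : 0 ≤ (p.1 : ℝ) * (σ - p.2) ^ 2 := by positivity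
    have h3 : 0 ≤ (p.1 : ℝ) * p.2 := by positivity
    have e : 4 * (p.1 : ℝ) * (((p.2 + 1).choose 2 : ℕ) : ℝ) = 2 * p.1 * (p.2 * (p.2 + 1)) := by
      rw [← h1']; ring
    rw [e]
    nlinarith

end Pool.Agent.K6.H83.QH
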