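import Pool.Agent.K6.H83.QH.LeafA

/-! Several classes near the critical degree. -/

set_option autoImplicit false

namespace Pool.Agent.K6.H83.QH

open Finset Pool.Agent.TH176.Nag Pool.Agent.TH603.Sur Pool.Agent.TH641.UM Pool.Agent.TH2.NU

theorem pow_r {r : ℕ} (hr : 1 ≤ r) : 8 * (r * (r + 1) ^ 2) ≤ 2 ^ (5 * r) := by
  induction r, hr using Nat.le_induction with
  | base => norm_num
  | succ r hr ih =>
    have e : 2 ^ (5 * (r + 1)) = 32 * 2 ^ (5 * r) := by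
      rw [mul_add, pow_add]; ring
    rw [e]
    have h1 : (r + 1) * (r + 1 + 1) ^ 2 ≤ 32 * (r * (r + 1) ^ 2) := by
      obtain ⟨s, rfl⟩ : ∃ s, r = s + 1 := ⟨r - 1, by omega⟩
      ring_nf
      nlinarith [Nat.zero_le (s ^ 3), Nat.zero_le (s ^ 2), Nat.zero_le s]
    omega

theorem two_r {r : ℕ} (hr : 1 ≤ r) : 2 * r ≤ 2 ^ r := by
  induction r, hr using Nat.le_induction with
  | base => norm_num
  | succ r hr ih =>
    rw [pow_succ]
    omega

/-- the mass of the light classes with few points -/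
theorem light_num {A m1 r : ℕ} {d B σ Q X y : ℝ} (hr : 1 ≤ r) (hσ : σ * σ = B) (hσ1 : 288 ≤ σ)
    (hQ : 8 * ((r : ℝ) * (r + 1) ^ 2) ≤ Q) (hd : 0 ≤ d) (hX : X = B / (8192 * Q))
    (hy : y = B / (64 * ((r : ℝ) + 1))) (hy2 : 2 ≤ y) (hm : (m1 : ℝ) ≤ X)
    (h : (A : ℝ) * (y ^ 2 - 1) < 9 / 2 * d * σ) : 4 * (A : ℝ) * m1 ≤ d / (128 * r) := by
  have hrR : (1 : ℝ) ≤ r := by exact_mod_cast hr
  have hr0 : (0 : ℝ) < r := by linarith
  have hσ0 : 0 < σ := by linarith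
  have hA0 : (0 : ℝ) ≤ A := Nat.cast_nonneg A
  have hB0 : 0 < B := by rw [← hσ]; positivity
  have hQ0 : 0 < Q := lt_of_lt_of_le (by positivity) hQ
  have hX0 : 0 < X := by rw [hX]; positivity
  -- first bound
  have h1 : (A : ℝ) * y ^ 2 ≤ 9 * d * σ := by
    have h2 : 1 ≤ y ^ 2 / 2 := by
      have g1 : 2 * 2 ≤ y * y := mul_le_mul hy2 hy2 (by norm_num) (by linarith)
      have g2 : y ^ 2 = y * y := sq y
      linarith
    have h3 : (A : ℝ) * 1 ≤ A * (y ^ 2 / 2) := mul_le_mul_of_nonneg_left h2 hA0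
    linarith
  have h2 : y ^ 2 * (4096 * ((r : ℝ) + 1) ^ 2) = B * B := by
    rw [hy]
    field_simp
    ring
  have h3 : (A : ℝ) * (B * B) ≤ 9 * d * σ * (4096 * ((r : ℝ) + 1) ^ 2) := by
    rw [← h2, ← mul_assoc]
    exact mul_le_mul_of_nonneg_right h1 (by positivity)
  have h4 : (A : ℝ) * B * σ ≤ 36864 * ((r : ℝ) + 1) ^ 2 * d := by
    have e : (A : ℝ) * (B * B) = A * B * σ * σ := by rw [← hσ]; ring
    rw [e] at h3
    have e2 : 9 * d * σ * (4096 * ((r : ℝ) + 1) ^ 2) = 36864 * ((r : ℝ) + 1) ^ 2 * d * σ := by ring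
    rw [e2] at h3
    exact le_of_mul_le_mul_right h3 hσ0
  have h5 : (A : ℝ) * B * r ≤ 16 * Q * d := by
    have g1 : (A : ℝ) * B * r * σ ≤ 4608 * Q * d := by
      calc (A : ℝ) * B * r * σ = r * (A * B * σ) := by ring
        _ ≤ r * (36864 * ((r : ℝ) + 1) ^ 2 * d) := mul_le_mul_of_nonneg_left h4 hr0.le
        _ = 4608 * d * (8 * ((r : ℝ) * (r + 1) ^ 2)) := by ring
        _ ≤ 4608 * d * Q := mul_le_mul_of_nonneg_left hQ (by positivity)
        _ = 4608 * Q * d := by ring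
    have g2 : 4608 * Q * d ≤ 16 * Q * d * σ := by
      have : 16 * Q * d * 288 ≤ 16 * Q * d * σ := mul_le_mul_of_nonneg_left hσ1 (by positivity)
      linarith
    exact le_of_mul_le_mul_right (g1.trans g2) hσ0
  rw [le_div_iff₀ (by positivity)]
  have h6 : X * (8192 * Q) = B := by rw [hX]; field_simp
  have h7 : 4 * (A : ℝ) * m1 * (128 * r) ≤ 512 * A * r * X := by
    have : 512 * (A : ℝ) * r * m1 ≤ 512 * A * r * X :=
      mul_le_mul_of_nonneg_left hm (by positivity)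
    linarith
  refine h7.trans ?_
  have h8 : 512 * (A : ℝ) * r * X * (16 * Q) ≤ d * (16 * Q) := by
    have e : 512 * (A : ℝ) * r * X * (16 * Q) = A * r * (X * (8192 * Q)) := by ring
    rw [e, h6]
    linarith
  exact le_of_mul_le_mul_right h8 (by positivity)

/-- the numbers -/
theorem leafB {r v d B Wn : ℕ} {L1 L2 : List (ℕ × ℕ)} (hr : 1 ≤ r) (h1 : L1.length ≤ r)
    (h2 : L2.length ≤ r) (hB : v + B = d) (hm1 : ∀ p ∈ L1, 1 ≤ p.2)
    (hmB : ∀ p ∈ L1, 2 ^ (5 * r + 13) * (p.2 + 1) ≤ B)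
    (hL2 : ∀ p ∈ L2, p.1 = 1 ∧ 2 ^ (5 * r + 13) * (p.2 + 1) ≤ B)
    (hN : ∀ p ∈ L1, r * p.1 ≤ 6 * d) (hBig : 2 ^ (11 * r + 20) ≤ B)
    (hW : 2 ^ (5 * r + 13) * (Wn + 1) ≤ B)
    (near1 : 2 * cM (GG L1 + GG L2 + {v}) ≤ (d + 1) * (d + 2) + 2 * Wn)
    (near2 : (d + 1) * (d + 2) ≤ 2 * cM (GG L1 + GG L2 + {v}) + 2 * Wn) :
    XM (TF d) (GG L1 + GG L2 + {v}) := by
  classical
  have hd : (d : ℝ) = v + B := by rw [← hB]; push_cast; ring
  have v0 : (0 : ℝ) ≤ v := Nat.cast_nonneg v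
  have hrR : (1 : ℝ) ≤ r := by exact_mod_cast hr
  obtain ⟨Q, hQd⟩ : ∃ Q : ℝ, Q = 2 ^ (5 * r) := ⟨_, rfl⟩
  have hQ : 8 * ((r : ℝ) * (r + 1) ^ 2) ≤ Q := by rw [hQd]; exact_mod_cast pow_r hr
  have hQ0 : 0 < Q := by rw [hQd]; positivity
  have hQr : 8 * (r : ℝ) ≤ Q := by
    have : (r : ℝ) * 1 ≤ r * (r + 1) ^ 2 :=
      mul_le_mul_of_nonneg_left (one_le_pow₀ (by linarith)) (by linarith)
    linarith
  have hBQ : 8192 * Q * 128 ≤ B := by
    have g1 : 2 ^ (5 * r + 20) ≤ B := le_trans (Nat.pow_le_pow_right (by norm_num) (by omega)) hBig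
    have g2 : (((2 ^ (5 * r + 20) : ℕ)) : ℝ) ≤ B := by exact_mod_cast g1
    push_cast at g2
    rw [pow_add, ← hQd] at g2
    linarith
  obtain ⟨X, hX⟩ : ∃ X : ℝ, X = B / (8192 * Q) := ⟨_, rfl⟩
  have hXQ : X * (8192 * Q) = B := by rw [hX]; field_simp
  have hXle : ∀ a : ℕ, 2 ^ (5 * r + 13) * (a + 1) ≤ B → (a : ℝ) + 1 ≤ X := by
    intro a ha
    have g2 : (((2 ^ (5 * r + 13) * (a + 1) : ℕ)) : ℝ) ≤ B := by exact_mod_cast ha
    push_cast at g2
    rw [pow_add, ← hQd] at g2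
    rw [hX, le_div_iff₀ (by positivity)]
    linarith
  have hX128 : 128 ≤ X := by
    rw [hX, le_div_iff₀ (by positivity)]
    linarith
  have hB0 : (0 : ℝ) < B := lt_of_lt_of_le (by positivity) hBQ
  have hrB : (r : ℝ) * X ≤ B / 65536 := by
    have g1 : 8 * (r : ℝ) * X ≤ Q * X := mul_le_mul_of_nonneg_right hQr (by linarith)
    have g2 : Q * X = B / 8192 := by rw [← hXQ]; ring
    linarith
  have hXB : X ≤ B / 65536 := by
    have : 1 * X ≤ r * X := mul_le_mul_of_nonneg_right hrR (by linarith)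
    linarith
  have hBX : 65536 * 128 ≤ (B : ℝ) := by linarith
  obtain ⟨σ, hσd⟩ : ∃ σ : ℝ, σ = √B := ⟨_, rfl⟩
  have hσ : σ * σ = B := by rw [hσd]; exact Real.mul_self_sqrt hB0.le
  have hσ1 : 288 ≤ σ := by
    rw [hσd]
    apply Real.le_sqrt_of_sq_le
    linarith
  have hWn := hXle Wn hW
  have Wn0 : (0 : ℝ) ≤ Wn := Nat.cast_nonneg Wn
  have hXL1 : ∀ p ∈ L1, (p.2 : ℝ) + 1 ≤ X := fun p hp => hXle _ (hmB p hp)
  have hXL2 : ∀ p ∈ L2, (p.2 : ℝ) + 1 ≤ X := fun p hp => hXle _ (hL2 p hp).2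
  -- the level
  obtain ⟨a, ha⟩ : ∃ a : ℕ, a = L1.length + L2.length := ⟨_, rfl⟩
  obtain ⟨V, hV⟩ : ∃ V : ℝ, V = ((B : ℝ) + 2) / 4 / (2 ^ a * (2 ^ (r + 7) * 2)) := ⟨_, rfl⟩
  have hV0 : 0 < V := by rw [hV]; positivity
  obtain ⟨k, hk, hgood⟩ := pig (fun p : ℕ × ℕ => ((p.1 / 4 : ℕ) : ℝ) * (2 * p.2 + 1) ^ 2) hV0 L1
    (range (2 * L1.length + 1)) (by rw [card_range]; omega)
  rw [mem_range] at hk
  obtain ⟨U, hU⟩ : ∃ U : ℝ, U = V / 2 ^ k := ⟨_, rfl⟩
  rw [← hU] at hgood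
  have hUJ : (2 : ℝ) ^ a * (2 ^ (r + 7 + k) * (2 * U)) = ((B : ℝ) + 2) / 4 := by
    rw [hU, hV, pow_add 2 (r + 7) k]
    field_simp
  obtain ⟨D, hD⟩ : ∃ D : ℝ, D = 2 ^ a * (2 ^ (r + 7) * 2) * 2 ^ k := ⟨_, rfl⟩
  have hUD : U * D = ((B : ℝ) + 2) / 4 := by
    rw [hD, ← hUJ, pow_add 2 (r + 7) k]
    ring
  have hD1 : D ≤ 256 * Q := by
    have g1 : (2 : ℝ) ^ a ≤ 2 ^ (2 * r) := pow_le_pow_right₀ (by norm_num) (by omega)
    have g2 : (2 : ℝ) ^ k ≤ 2 ^ (2 * r) := pow_le_pow_right₀ (by norm_num) (by omega)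
    have g3 : (2 : ℝ) ^ a * (2 ^ (r + 7) * 2) * 2 ^ k ≤ 2 ^ (2 * r) * (2 ^ (r + 7) * 2) * 2 ^ (2 * r) :=
      mul_le_mul (mul_le_mul_of_nonneg_right g1 (by positivity)) g2 (by positivity) (by positivity)
    have e : (2 : ℝ) ^ (2 * r) * (2 ^ (r + 7) * 2) * 2 ^ (2 * r) = 256 * 2 ^ (5 * r) := by
      have e1 : 5 * r = 2 * r + r + 2 * r := by ring
      rw [e1, pow_add, pow_add, pow_add]
      ring
    rw [hD, hQd]
    linarith
  have hD0 : 0 < D := by rw [hD]; positivity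
  have hD2 : 512 * (r : ℝ) ≤ D := by
    have g1 : (1 : ℝ) ≤ 2 ^ a := one_le_pow₀ (by norm_num)
    have g2 : (1 : ℝ) ≤ 2 ^ k := one_le_pow₀ (by norm_num)
    have g3 : 2 * (r : ℝ) ≤ 2 ^ r := by exact_mod_cast two_r hr
    have g4 : (1 : ℝ) * (2 ^ (r + 7) * 2) * 1 ≤ 2 ^ a * (2 ^ (r + 7) * 2) * 2 ^ k :=
      mul_le_mul (mul_le_mul_of_nonneg_right g1 (by positivity)) g2 (by norm_num) (by positivity)
    have e : (1 : ℝ) * (2 ^ (r + 7) * 2) * 1 = 256 * 2 ^ r := by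
      rw [pow_add]; ring
    rw [e, ← hD] at g4
    linarith
  have hU0 : 0 < U := by rw [hU]; positivity
  have hU8X : 8 * X ≤ U := by
    have g1 : U * D ≤ U * (256 * Q) := mul_le_mul_of_nonneg_left hD1 hU0.le
    rw [hUD] at g1
    have g2 : 8 * X * (256 * Q) ≤ U * (256 * Q) := by
      have : 8 * X * (256 * Q) = B / 4 := by rw [← hXQ]; ring
      rw [this]
      linarith
    exact le_of_mul_le_mul_right g2 (by positivity)
  have hrU : (r : ℝ) * U ≤ (B + 2) / 2048 := by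
    have g1 : U * (512 * r) ≤ U * D := mul_le_mul_of_nonneg_left hD2 hU0.le
    rw [hUD] at g1
    linarith
  -- the parameters
  obtain ⟨y, hy⟩ : ∃ y : ℝ, y = B / (64 * ((r : ℝ) + 1)) := ⟨_, rfl⟩
  have hyr : y * (64 * ((r : ℝ) + 1)) = B := by rw [hy]; field_simp
  have hXy : 2 * X + 2 ≤ y := by
    have g1 : (2 * X + 2) * (64 * ((r : ℝ) + 1)) ≤ y * (64 * (r + 1)) := by
      rw [hyr]
      have g2 : (2 * X + 2) * (64 * ((r : ℝ) + 1)) ≤ (3 * X) * (128 * r) :=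
        mul_le_mul (by linarith) (by linarith) (by positivity) (by positivity)
      have g3 : (3 * X) * (128 * r) = 384 * (r * X) := by ring
      linarith
    exact le_of_mul_le_mul_right g1 (by positivity)
  have hy2 : 2 ≤ y := by linarith
  have hyB : y ≤ B / 128 := by
    rw [hy]
    apply div_le_div_of_nonneg_left hB0.le (by norm_num)
    linarith
  let hv : ℕ × ℕ → Prop := fun p => 2 * U ≤ ((p.1 / 4 : ℕ) : ℝ) * (2 * p.2 + 1) ∧
    9 / 2 * (d : ℝ) * σ ≤ ((p.1 / 4 : ℕ) : ℝ) * (y ^ 2 - 1)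
  obtain ⟨LA, hLA⟩ : ∃ LA, LA = LAf hv L1 := ⟨_, rfl⟩
  obtain ⟨Ls, hLs⟩ : ∃ Ls, Ls = LSf hv L1 ++ L2 := ⟨_, rfl⟩
  have hlenLs : Ls.length = a := by rw [hLs, List.length_append, length_LSf, ha]
  have hlenLA : LA.length ≤ r := by rw [hLA]; exact (length_LAf hv L1).trans h1
  -- the light groups
  have hd0 : (0 : ℝ) ≤ d := Nat.cast_nonneg d
  have hS1 : ∀ p ∈ LSf hv L1, (p.2 : ℝ) + 1 ≤ X ∧
      (p.1 : ℝ) * (p.2 + 1) ≤ 8 * U + d / (128 * r) + 3 * X := by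
    intro p hp
    unfold LSf at hp
    obtain ⟨q, hq, rfl⟩ := List.mem_map.1 hp
    have hqX := hXL1 q hq
    have hm4 : ((q.1 % 4 : ℕ) : ℝ) ≤ 3 := by
      have : q.1 % 4 ≤ 3 := by omega
      exact_mod_cast this
    have hm5 : ((q.1 % 4 : ℕ) : ℝ) * (q.2 + 1) ≤ 3 * X :=
      mul_le_mul hm4 hqX (by positivity) (by norm_num)
    have hdr : 0 ≤ (d : ℝ) / (128 * r) := by positivity
    split_ifs with hqv
    · refine ⟨hqX, ?_⟩
      simp only
      linarith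
    · refine ⟨hqX, ?_⟩
      have e1 : (q.1 : ℝ) = 4 * ((q.1 / 4 : ℕ) : ℝ) + ((q.1 % 4 : ℕ) : ℝ) := by
        exact_mod_cast (Nat.div_add_mod q.1 4).symm
      rw [e1, add_mul]
      have hA0 : (0 : ℝ) ≤ ((q.1 / 4 : ℕ) : ℝ) := Nat.cast_nonneg _
      have hq0 : (0 : ℝ) ≤ q.2 := Nat.cast_nonneg _
      rcases not_and_or.1 hqv with h3 | h3
      · push Not at h3
        have g1 : 4 * ((q.1 / 4 : ℕ) : ℝ) * (q.2 + 1) ≤
            4 * (((q.1 / 4 : ℕ) : ℝ) * (2 * q.2 + 1)) := by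
          have : 0 ≤ ((q.1 / 4 : ℕ) : ℝ) * q.2 := by positivity
          linarith
        linarith
      · push Not at h3
        have g1 := light_num (A := q.1 / 4) (m1 := q.2 + 1) (r := r) (d := d) hr hσ hσ1 hQ hd0 hX
          hy hy2 (by push_cast; exact hqX) h3
        push_cast at g1
        have e2 : 4 * (((q.1 / 4 : ℕ) : ℝ)) * ((q.2 : ℝ) + 1) ≤ (d : ℝ) / (128 * r) := by
          push_cast
          exact g1
        linarith
  have hS2 : ∀ p ∈ L2, (p.2 : ℝ) + 1 ≤ X ∧ (p.1 : ℝ) * (p.2 + 1) ≤ X := by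
    intro p hp
    have h3 := hXL2 p hp
    refine ⟨h3, ?_⟩
    rw [(hL2 p hp).1]
    push_cast
    linarith
  have hΛ : (Lm Ls : ℝ) ≤ B / 64 + v / 64 := by
    rw [hLs, Lm_append]
    push_cast
    have g1 := Lm_le fun p hp => (hS1 p hp).2
    have g2 := Lm_le fun p hp => (hS2 p hp).2
    rw [length_LSf] at g1
    have h1R : (L1.length : ℝ) ≤ r := by exact_mod_cast h1
    have h2R : (L2.length : ℝ) ≤ r := by exact_mod_cast h2
    have hdr : 0 ≤ (d : ℝ) / (128 * r) := by positivity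
    have g3 : (L1.length : ℝ) * (8 * U + d / (128 * r) + 3 * X) ≤
        r * (8 * U + d / (128 * r) + 3 * X) := mul_le_mul_of_nonneg_right h1R (by linarith)
    have g4 : (L2.length : ℝ) * X ≤ r * X := mul_le_mul_of_nonneg_right h2R (by linarith)
    have e : (r : ℝ) * (8 * U + d / (128 * r) + 3 * X) = 8 * (r * U) + d / 128 + 3 * (r * X) := by
      field_simp
    rw [e] at g3
    have e5 : (d : ℝ) / 128 = (v + B) / 128 := by rw [hd]
    rw [e5] at g3
    linarith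
  have hLsX : ∀ p ∈ Ls, (p.2 : ℝ) + 1 ≤ X := by
    intro p hp
    rw [hLs, List.mem_append] at hp
    rcases hp with hp | hp
    · exact (hS1 p hp).1
    · exact (hS2 p hp).1
  -- the sums
  have hGG : GG L1 + GG L2 = GG (L4 LA) + GG Ls := by
    rw [hLs, GG_append, hLA, split_GG hv L1]
    abel
  obtain ⟨T, hT⟩ : ∃ T, T = 2 * cM (GG L1 + GG L2) := ⟨_, rfl⟩
  have hTv : 2 * cM (GG L1 + GG L2 + {v}) = T + v * (v + 1) := by
    rw [cM_add, cM_single, mul_add, Pool.Agent.TH2.NU.two_choose v, hT]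
  have hT2 : T = 2 * cM (GG (L4 LA)) + 2 * cM (GG Ls) := by rw [hT, hGG, cM_add, mul_add]
  have e2 : (d + 1) * (d + 2) = v * (v + 1) + (B + 1) * (B + 2 * v + 2) := by
    rw [← hB]; ring
  have f1 : (T : ℝ) ≤ (B + 1) * (B + 2 * v + 2) + 2 * Wn := by
    have : T ≤ (B + 1) * (B + 2 * v + 2) + 2 * Wn := by
      rw [hTv, e2] at near1; omega
    exact_mod_cast this
  have f2 : ((B : ℝ) + 1) * (B + 2 * v + 2) ≤ T + 2 * Wn := by
    have : (B + 1) * (B + 2 * v + 2) ≤ T + 2 * Wn := by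
      rw [hTv, e2] at near2; omega
    exact_mod_cast this
  have hΛ0 : (0 : ℝ) ≤ Lm Ls := Nat.cast_nonneg _
  have hcLs : 2 * (cM (GG Ls) : ℝ) ≤ X * Lm Ls := cM_GG_W fun p hp => by
    have := hLsX p hp
    linarith
  have hT2R : (T : ℝ) = 2 * cM (GG (L4 LA)) + 2 * cM (GG Ls) := by
    rw [hT2]; push_cast; ring
  have vB : 0 ≤ (v : ℝ) * B := by positivity
  have hne : LA ≠ [] := by
    intro h0
    have h3 : (cM (GG (L4 LA)) : ℝ) = 0 := by rw [h0]; simp [L4, GG, cM]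
    rw [h3] at hT2R
    have h4 : X * Lm Ls ≤ B / 65536 * (B / 64 + v / 64) :=
      mul_le_mul hXB hΛ hΛ0 (by positivity)
    have e5 : ((B : ℝ) + 1) * (B + 2 * v + 2) = B * B + 2 * (v * B) + 3 * B + 2 * v + 2 := by ring
    have e6 : (B : ℝ) / 65536 * (B / 64 + v / 64) = (B * B + v * B) / 4194304 := by ring
    have hBB : 0 ≤ (B : ℝ) * B := by positivity
    rw [e5] at f2
    rw [e6] at h4
    linarith
  -- the number of clusters
  obtain ⟨SA, hSA⟩ : ∃ SA, SA = (LA.map Prod.fst).sum := ⟨_, rfl⟩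
  have hSAd : 4 * (SA : ℝ) ≤ 6 * d := by
    have g1 : 4 * SA ≤ (L1.map Prod.fst).sum := by rw [hSA, hLA]; exact sum_LAf hv L1
    have g2 : r * (L1.map Prod.fst).sum ≤ L1.length * (6 * d) := by
      have : ∀ L : List (ℕ × ℕ), (∀ p ∈ L, r * p.1 ≤ 6 * d) →
          r * (L.map Prod.fst).sum ≤ L.length * (6 * d) := by
        intro L
        induction L with
        | nil => simp
        | cons p L ih =>
          intro hL
          rw [List.map_cons, List.sum_cons, List.length_cons, mul_add, add_mul, one_mul]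
          have g3 := hL p List.mem_cons_self
          have g4 := ih fun q hq => hL q (List.mem_cons_of_mem _ hq)
          omega
      exact this L1 hN
    have g3 : r * (4 * SA) ≤ r * (6 * d) :=
      (Nat.mul_le_mul_left r g1).trans (g2.trans (Nat.mul_le_mul_right _ h1))
    have g4 : 4 * SA ≤ 6 * d := Nat.le_of_mul_le_mul_left g3 (by omega)
    exact_mod_cast g4
  have SA0 : (0 : ℝ) ≤ SA := Nat.cast_nonneg _
  have hLAp : ∀ q ∈ LA, 1 ≤ q.1 ∧ 1 ≤ q.2 ∧ (q.2 : ℝ) + 1 ≤ X ∧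
      2 * U ≤ (q.1 : ℝ) * (2 * q.2 + 1) ∧ 9 / 2 * (d : ℝ) * σ ≤ (q.1 : ℝ) * (y ^ 2 - 1) ∧
      (2 * U ^ 2 ≤ (q.1 : ℝ) * (2 * q.2 + 1) ^ 2 ∨ (q.1 : ℝ) * (2 * q.2 + 1) ^ 2 ≤ U ^ 2 / 4) := by
    intro q hq
    rw [hLA] at hq
    obtain ⟨p, hp, hpv, rfl⟩ := mem_LAf hv hq
    have g1 := hpv.1
    have g2 := hpv.2
    refine ⟨?_, hm1 p hp, hXL1 p hp, g1, g2, hgood p hp⟩
    by_contra hcon
    have h0 : p.1 / 4 = 0 := by simp only at hcon; omega
    rw [h0] at g1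
    push_cast at g1
    linarith
  -- independence
  have hSq1 : (Sq (L2x LA) : ℝ) = 2 * cM (GG (L4 LA)) + SA := by
    rw [Sq_two, hSA]; push_cast; ring
  have hSq2 : (Sq Ls : ℝ) = 2 * cM (GG Ls) + Lm Ls := by
    rw [Sq_eq]; push_cast; ring
  have hsur := surN (LH := L2x LA) (Ls := Ls) (v := v) (B := B) (d := d) (J := r + 7 + k)
    (W := X - 1) (U := U) hB (by
      have : (64 : ℝ) ≤ B := by linarith
      exact_mod_cast this) (by rw [hlenLs]; exact hUJ) (by linarith) (by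
      intro p hp
      unfold L2x at hp
      obtain ⟨q, hq, rfl⟩ := List.mem_map.1 hp
      obtain ⟨g1, g2, g3, g4, g5, g6⟩ := hLAp q hq
      unfold OKb
      simp only
      push_cast
      exact ⟨g6, by linarith, g4⟩) (by
      unfold L2x
      simpa using hne) (by
      unfold L2x
      rw [List.length_map]
      refine hlenLA.trans ((Nat.lt_two_pow_self (n := r)).le.trans ?_)
      exact Nat.pow_le_pow_right (by norm_num) (by omega)) (by linarith) (by linarith) (by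
      intro p hp
      refine ⟨by have := hLsX p hp; linarith, ?_⟩
      have g1 : ((p.1 * (p.2 + 1) : ℕ) : ℝ) ≤ Lm Ls := by exact_mod_cast le_Lm hp
      push_cast at g1
      rw [hd]
      linarith) (by
      rw [hSq1, hSq2, hd]
      have e3 : ((v : ℝ) + B + v + 33 / 10) * (B + 2) =
          (B + 1) * (B + 2 * v + 2) + (23 / 10 * B + 2 * v + 23 / 5) := by ring
      rw [e3]
      rw [hd] at hSAd
      linarith)
  have hsumGG : ∑ i : Fin LA.length, (LA.get i).1 • ({2 * (LA.get i).2} : Multiset ℕ) =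
      GG (L2x LA) := by
    rw [sum_get LA fun p => p.1 • ({2 * p.2} : Multiset ℕ)]
    unfold GG L2x
    rw [List.map_map]
    rfl
  have hsum4 : ∑ i : Fin LA.length, (4 * (LA.get i).1) • ({(LA.get i).2} : Multiset ℕ) =
      GG (L4 LA) := by
    rw [sum_get LA fun p => (4 * p.1) • ({p.2} : Multiset ℕ)]
    unfold GG L4
    rw [List.map_map]
    rfl
  have hιne : Nonempty (Fin LA.length) := ⟨⟨0, List.length_pos_iff.2 hne⟩⟩
  have hLl : ((GG Ls).sum : ℝ) ≤ Lm Ls := by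
    rw [sum_GG]
    exact_mod_cast Ll_le Ls
  have hX64 := hXy
  obtain ⟨W, hWd⟩ : ∃ W : ℝ, W = 2 * y := ⟨_, rfl⟩
  have hfin := dblN (ι := Fin LA.length) (A := fun i => (LA.get i).1) (m := fun i => (LA.get i).2)
    (v := v) (d := d) (LL := GG Ls) (W := W) (y := y) (t0 := 3 * d - 2 * Wn)
    (fun i => (hLAp _ (List.get_mem LA i)).1) (fun i => (hLAp _ (List.get_mem LA i)).2.1)
    (by
      intro x hx
      obtain ⟨p, hp, -, rfl⟩ := mem_GG hx
      have := hLsX p hp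
      rw [hWd]
      linarith) (by
      rw [hWd, hd]
      linarith) (by
      have g1 : ((GG Ls).toFinset.card : ℝ) ≤ 2 * r := by
        have h3 := card_GG Ls
        have h4 : (GG Ls).toFinset.card ≤ 2 * r := by omega
        exact_mod_cast h4
      have g2 : (Fintype.card (Fin LA.length) : ℝ) ≤ r := by
        rw [Fintype.card_fin]
        exact_mod_cast hlenLA
      have g3 : 16 * (2 * (Fintype.card (Fin LA.length) : ℝ) + (GG Ls).toFinset.card) + 8 ≤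
          64 * ((r : ℝ) + 1) * (16 * (r + 1)) := by
        have e5 : 64 * ((r : ℝ) + 1) * (16 * (r + 1)) = 1024 * (r * r) + 2048 * r + 1024 := by ring
        have hrr : 0 ≤ (r : ℝ) * r := by positivity
        rw [e5]
        linarith
      have g4 : (16 * (2 * (Fintype.card (Fin LA.length) : ℝ) + (GG Ls).toFinset.card) + 8) *
          W ^ 2 ≤ 64 * ((r : ℝ) + 1) * (16 * (r + 1)) * W ^ 2 :=
        mul_le_mul_of_nonneg_right g3 (sq_nonneg _)
      have g5 : 64 * ((r : ℝ) + 1) * (16 * (r + 1)) * W ^ 2 = B ^ 2 := by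
        rw [hWd, ← hyr]; ring
      have e5 : ((v : ℝ) + B) ^ 2 - v ^ 2 = B ^ 2 + 2 * (v * B) := by ring
      rw [hd, e5]
      linarith) (by
      rw [hsum4]
      have e : GG (L4 LA) + ({v} + GG Ls) = GG L1 + GG L2 + {v} := by rw [hGG]; abel
      rw [e]
      have h3 : (((d + 1) * (d + 2) : ℕ) : ℝ) ≤
          ((2 * cM (GG L1 + GG L2 + {v}) + 2 * Wn : ℕ) : ℝ) := by exact_mod_cast near2
      push_cast at h3
      have e5 : ((d : ℝ) + 1) * (d + 2) = d ^ 2 + 3 * d + 2 := by ring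
      rw [e5] at h3
      linarith) (by linarith) (by
      intro i
      obtain ⟨g1, g2, g3, g4, g5, g6⟩ := hLAp _ (List.get_mem LA i)
      rw [sum_get LA fun p => (p.2 : ℝ) * (p.1 : ℝ)]
      obtain ⟨S1, hS1d⟩ : ∃ S1 : ℝ, S1 = (LA.map fun p => (p.2 : ℝ) * (p.1 : ℝ)).sum := ⟨_, rfl⟩
      have k1 := amgm (σ := σ) LA
      rw [← hS1d, ← hSA] at k1
      rw [← hS1d]
      have hσ0 : 0 < σ := by linarith
      have k2 : σ ^ 2 = B := by rw [sq]; exact hσ
      rw [k2] at k1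
      have k3 : (cM (GG (L4 LA)) : ℝ) ≤ 21 / 20 * (B * d) := by
        have k4 : (0 : ℝ) ≤ cM (GG Ls) := Nat.cast_nonneg _
        have e5 : ((B : ℝ) + 1) * (B + 2 * v + 2) =
            B * B + 2 * (v * B) + 3 * B + 2 * v + 2 := by ring
        rw [e5] at f1
        have k10 : 65536 * 128 * (B : ℝ) ≤ B * B := mul_le_mul_of_nonneg_right hBX hB0.le
        have k11 : v * (65536 * 128) ≤ (v : ℝ) * B := mul_le_mul_of_nonneg_left hBX v0
        have e6 : (B : ℝ) * (v + B) = B * B + v * B := by ring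
        rw [hd, e6]
        linarith
      have k5 : (B : ℝ) * SA ≤ B * (3 / 2 * d) := mul_le_mul_of_nonneg_left (by linarith) hB0.le
      have k6 : 2 * σ * S1 ≤ 2 * σ * (9 / 8 * (d * σ)) := by
        have k7 : 2 * σ * (9 / 8 * (d * σ)) = 9 / 4 * (B * d) := by rw [← hσ]; ring
        rw [k7]
        have : 0 ≤ (B : ℝ) * d := by positivity
        linarith
      have k8 : S1 ≤ 9 / 8 * (d * σ) := le_of_mul_le_mul_left k6 (by positivity)
      have k9 : ((LA.get i).1 : ℝ) * (y ^ 2 - 1) = (LA.get i).1 * y ^ 2 - (LA.get i).1 := by ring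
      rw [k9] at g5
      linarith) (by
      intro i
      obtain ⟨g1, g2, g3, g4, g5, g6⟩ := hLAp _ (List.get_mem LA i)
      rw [hWd]
      linarith) (by
      intro i
      obtain ⟨g1, g2, g3, g4, g5, g6⟩ := hLAp _ (List.get_mem LA i)
      rw [hd]
      linarith) (by
      rw [hsumGG, coe_TF]
      have e : GG (L2x LA) + ({v} + GG Ls) = {v} + (GG Ls + GG (L2x LA)) := by abel
      rw [e]
      exact hsur)
  rw [hsum4] at hfin
  have e : GG (L4 LA) + ({v} + GG Ls) = GG L1 + GG L2 + {v} := by rw [hGG]; abel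
  rw [e] at hfin
  exact hfin

end Pool.Agent.K6.H83.QH
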