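import Pool.Agent.K6.H83.QH.Cell

/-! Several classes near the critical degree, with polynomial bounds. -/

set_option autoImplicit false

namespace Pool.Agent.K6.H83.QH

open Finset Pool.Agent.TH176.Nag Pool.Agent.TH603.Sur Pool.Agent.TH641.UM Pool.Agent.TH2.NU

/-- the mass of the light classes with few points -/
theorem light_numP {A m1 r : ℕ} {d σ X U y : ℝ} (hr : 1 ≤ r) (hd : 0 ≤ d) (hU : 64 ≤ U)
    (hy : y = U / 8) (hm : (m1 : ℝ) ≤ X) (hX : 64 * X ≤ U) (hσ : 0 ≤ σ)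
    (he : 4608 * (r : ℝ) ^ 2 * σ ≤ U) (h : (A : ℝ) * (y ^ 2 - 1) < 9 / 2 * d * σ) :
    4 * (A : ℝ) * m1 ≤ d / (128 * r ^ 2) := by
  have hrR : (1 : ℝ) ≤ r := by exact_mod_cast hr
  have hr0 : (0 : ℝ) < r := by linarith
  have hA0 : (0 : ℝ) ≤ A := Nat.cast_nonneg A
  have hU0 : 0 < U := by linarith
  have h1 : (A : ℝ) * y ^ 2 ≤ 9 * d * σ := by
    have h2 : 1 ≤ y ^ 2 / 2 := by
      have g0 : 8 ≤ y := by rw [hy]; linarith
      have g1 : 8 * 8 ≤ y * y := mul_le_mul g0 g0 (by norm_num) (by linarith)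
      have g2 : y ^ 2 = y * y := sq y
      linarith
    have h3 : (A : ℝ) * 1 ≤ A * (y ^ 2 / 2) := mul_le_mul_of_nonneg_left h2 hA0
    linarith
  have h2 : (A : ℝ) * U ^ 2 ≤ 576 * (d * σ) := by
    have e : (A : ℝ) * y ^ 2 = A * U ^ 2 / 64 := by rw [hy]; ring
    rw [e] at h1
    linarith
  rw [le_div_iff₀ (by positivity)]
  have h3 : 4 * (A : ℝ) * m1 * U ≤ 36 * (d * σ) := by
    have g1 : 4 * (A : ℝ) * m1 * U ≤ 4 * A * (U / 64) * U := by
      have g2 : (m1 : ℝ) ≤ U / 64 := by linarith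
      have g3 : 4 * (A : ℝ) * m1 ≤ 4 * A * (U / 64) :=
        mul_le_mul_of_nonneg_left g2 (by positivity)
      exact mul_le_mul_of_nonneg_right g3 hU0.le
    have e : 4 * (A : ℝ) * (U / 64) * U = A * U ^ 2 / 16 := by ring
    rw [e] at g1
    linarith
  have h4 : 4 * (A : ℝ) * m1 * (128 * r ^ 2) * U ≤ d * U := by
    calc 4 * (A : ℝ) * m1 * (128 * r ^ 2) * U = (4 * (A : ℝ) * m1 * U) * (128 * r ^ 2) := by ring
      _ ≤ 36 * (d * σ) * (128 * r ^ 2) := mul_le_mul_of_nonneg_right h3 (by positivity)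
      _ = d * (4608 * r ^ 2 * σ) := by ring
      _ ≤ d * U := mul_le_mul_of_nonneg_left he hd
  exact le_of_mul_le_mul_right h4 hU0

theorem GG_perm {L L' : List (ℕ × ℕ)} (h : L.Perm L') : GG L = GG L' := by
  unfold GG
  exact (h.map _).sum_eq

theorem Sq_perm {L L' : List (ℕ × ℕ)} (h : L.Perm L') : Sq L = Sq L' := by
  unfold Sq
  exact (h.map _).sum_eq

theorem Sq_le {L : List (ℕ × ℕ)} {β : ℝ} (h : ∀ p ∈ L, (p.1 : ℝ) * (2 * p.2 + 1) ^ 2 ≤ β) :
    (Sq (L2x L) : ℝ) ≤ L.length * β := by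
  induction L with
  | nil => simp [L2x, Sq]
  | cons p L ih =>
    unfold L2x at ih ⊢
    rw [List.map_cons, Sq_cons, List.length_cons]
    push_cast
    have h1 := h p List.mem_cons_self
    have h2 := ih fun q hq => h q (List.mem_cons_of_mem _ hq)
    linarith

/-- the numbers of the construction -/
structure PP (r v d B J Xn : ℕ) (U : ℝ) : Prop where
  hr : 1 ≤ r
  hB : v + B = d
  hJ : 2 ^ J * (2 * U) = ((B : ℝ) + 2) / 4
  hX1 : 1 ≤ Xn
  hX : 64 * (Xn : ℝ) ≤ U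
  hb : 4096 * ((r : ℝ) * U) ≤ d
  hc : 4096 * U ≤ B
  hd : 4096 * ((r : ℝ) * U) ^ 2 ≤ B * d
  he : 4608 * (r : ℝ) ^ 2 * √(B : ℝ) ≤ U
  hrec : 4 * (r * B) ≤ Xn * Xn

/-- the numbers -/
theorem leafP {r v d B J Xn Wn : ℕ} {U : ℝ} (P : PP r v d B J Xn U) {L1 L2 : List (ℕ × ℕ)}
    (h1 : L1.length ≤ r) (h2 : L2.length ≤ r) (hm1 : ∀ p ∈ L1, 1 ≤ p.2)
    (hmX : ∀ p ∈ L1, p.2 + 1 ≤ Xn) (hL2 : ∀ p ∈ L2, p.1 = 1 ∧ p.2 + 1 ≤ Xn)
    (hN : ∀ p ∈ L1, r * p.1 ≤ 6 * d) (hW : Wn + 1 ≤ Xn)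
    (near1 : 2 * cM (GG L1 + GG L2 + {v}) ≤ (d + 1) * (d + 2) + 2 * Wn)
    (near2 : (d + 1) * (d + 2) ≤ 2 * cM (GG L1 + GG L2 + {v}) + 2 * Wn) :
    XM (TF d) (GG L1 + GG L2 + {v}) := by
  classical
  obtain ⟨hr, hB, hJ, hX1, hXU, hb, hc, hd2, he, -⟩ := P
  have hd : (d : ℝ) = v + B := by rw [← hB]; push_cast; ring
  have v0 : (0 : ℝ) ≤ v := Nat.cast_nonneg v
  have hrR : (1 : ℝ) ≤ r := by exact_mod_cast hr
  obtain ⟨X, hX⟩ : ∃ X : ℝ, X = Xn := ⟨_, rfl⟩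
  rw [← hX] at hXU
  have hX1R : (1 : ℝ) ≤ X := by rw [hX]; exact_mod_cast hX1
  have hU64 : 64 ≤ U := by linarith
  have hU0 : 0 < U := by linarith
  have hB1 : 262144 ≤ (B : ℝ) := by linarith
  have hB0 : (0 : ℝ) < B := by linarith
  have hXle : ∀ a : ℕ, a + 1 ≤ Xn → (a : ℝ) + 1 ≤ X := by
    intro a ha
    rw [hX]
    exact_mod_cast ha
  obtain ⟨σ, hσd⟩ : ∃ σ : ℝ, σ = √(B : ℝ) := ⟨_, rfl⟩
  rw [← hσd] at he
  have hσ : σ * σ = B := by rw [hσd]; exact Real.mul_self_sqrt hB0.le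
  have hσ0 : 0 < σ := by rw [hσd]; exact Real.sqrt_pos.2 hB0
  have hWn := hXle Wn hW
  have Wn0 : (0 : ℝ) ≤ Wn := Nat.cast_nonneg Wn
  have hXL1 : ∀ p ∈ L1, (p.2 : ℝ) + 1 ≤ X := fun p hp => hXle _ (hmX p hp)
  have hXL2 : ∀ p ∈ L2, (p.2 : ℝ) + 1 ≤ X := fun p hp => hXle _ (hL2 p hp).2
  obtain ⟨Z, hZ⟩ : ∃ Z : ℝ, Z = r * U := ⟨_, rfl⟩
  rw [← hZ] at hb hd2
  have hUZ : U ≤ Z := by
    rw [hZ]
    have : 1 * U ≤ r * U := mul_le_mul_of_nonneg_right hrR hU0.le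
    linarith
  have hrX : 64 * ((r : ℝ) * X) ≤ Z := by
    rw [hZ]
    have : (r : ℝ) * (64 * X) ≤ r * U := mul_le_mul_of_nonneg_left hXU (by linarith)
    linarith
  have vB : 0 ≤ (v : ℝ) * B := by positivity
  have hBB : 0 ≤ (B : ℝ) * B := by positivity
  have hBd : (B : ℝ) * d = B * B + v * B := by rw [hd]; ring
  -- the parameters
  obtain ⟨y, hy⟩ : ∃ y : ℝ, y = U / 8 := ⟨_, rfl⟩
  have hy2 : 8 ≤ y := by rw [hy]; linarith
  let hv : ℕ × ℕ → Prop := fun p => 2 * U ≤ ((p.1 / 4 : ℕ) : ℝ) * (2 * p.2 + 1) ∧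
    9 / 2 * (d : ℝ) * σ ≤ ((p.1 / 4 : ℕ) : ℝ) * (y ^ 2 - 1)
  obtain ⟨LA, hLA⟩ : ∃ LA, LA = LAf hv L1 := ⟨_, rfl⟩
  obtain ⟨Ls, hLs⟩ : ∃ Ls, Ls = LSf hv L1 ++ L2 := ⟨_, rfl⟩
  have hlenLs : Ls.length ≤ 2 * r := by
    rw [hLs, List.length_append, length_LSf]; omega
  have hlenLA : LA.length ≤ r := by rw [hLA]; exact (length_LAf hv L1).trans h1
  -- the light groups
  have hd0 : (0 : ℝ) ≤ d := Nat.cast_nonneg d
  have hS1 : ∀ p ∈ LSf hv L1, (p.2 : ℝ) + 1 ≤ X ∧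
      (p.1 : ℝ) * (p.2 + 1) ≤ 8 * U + d / (128 * r ^ 2) + 3 * X := by
    intro p hp
    unfold LSf at hp
    obtain ⟨q, hq, rfl⟩ := List.mem_map.1 hp
    have hqX := hXL1 q hq
    have hm4 : ((q.1 % 4 : ℕ) : ℝ) ≤ 3 := by
      have : q.1 % 4 ≤ 3 := by omega
      exact_mod_cast this
    have hm5 : ((q.1 % 4 : ℕ) : ℝ) * (q.2 + 1) ≤ 3 * X :=
      mul_le_mul hm4 hqX (by positivity) (by norm_num)
    have hdr : 0 ≤ (d : ℝ) / (128 * r ^ 2) := by positivity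
    split_ifs with hqv
    · refine ⟨hqX, ?_⟩
      simp only
      linarith
    · refine ⟨hqX, ?_⟩
      have e1 : (q.1 : ℝ) = 4 * ((q.1 / 4 : ℕ) : ℝ) + ((q.1 % 4 : ℕ) : ℝ) := by
        exact_mod_cast (Nat.div_add_mod q.1 4).symm
      rw [e1, add_mul]
      have hA0 : (0 : ℝ) ≤ ((q.1 / 4 : ℕ) : ℝ) := Nat.cast_nonneg _
      have hq0 : (0 : ℝ) ≤ q.2 := Nat.cast_nonneg _
      rcases not_and_or.1 hqv with h3 | h3
      · push Not at h3
        have g1 : 4 * ((q.1 / 4 : ℕ) : ℝ) * (q.2 + 1) ≤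
            4 * (((q.1 / 4 : ℕ) : ℝ) * (2 * q.2 + 1)) := by
          have : 0 ≤ ((q.1 / 4 : ℕ) : ℝ) * q.2 := by positivity
          linarith
        linarith
      · push Not at h3
        have g1 := light_numP (A := q.1 / 4) (m1 := q.2 + 1) (r := r) (d := d) hr hd0 hU64
          hy (by push_cast; exact hqX) hXU hσ0.le he h3
        have e2 : 4 * (((q.1 / 4 : ℕ) : ℝ)) * ((q.2 : ℝ) + 1) ≤ (d : ℝ) / (128 * r ^ 2) := by
          push_cast at g1 ⊢
          exact g1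
        linarith
  have hS2 : ∀ p ∈ L2, (p.2 : ℝ) + 1 ≤ X ∧ (p.1 : ℝ) * (p.2 + 1) ≤ X := by
    intro p hp
    have h3 := hXL2 p hp
    refine ⟨h3, ?_⟩
    rw [(hL2 p hp).1]
    push_cast
    linarith
  obtain ⟨e0, he0⟩ : ∃ e0 : ℝ, e0 = d / (128 * r) := ⟨_, rfl⟩
  have hre : r * e0 = d / 128 := by rw [he0]; field_simp
  have he00 : 0 ≤ e0 := by rw [he0]; positivity
  have hele : e0 ≤ d / 128 := by
    rw [← hre]
    have : 1 * e0 ≤ r * e0 := mul_le_mul_of_nonneg_right hrR he00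
    linarith
  have hΛ1 : (Lm Ls : ℝ) ≤ 9 * Z + e0 := by
    rw [hLs, Lm_append]
    push_cast
    have g1 := Lm_le fun p hp => (hS1 p hp).2
    have g2 := Lm_le fun p hp => (hS2 p hp).2
    rw [length_LSf] at g1
    have h1R : (L1.length : ℝ) ≤ r := by exact_mod_cast h1
    have h2R : (L2.length : ℝ) ≤ r := by exact_mod_cast h2
    have hdr : 0 ≤ (d : ℝ) / (128 * r ^ 2) := by positivity
    have g3 : (L1.length : ℝ) * (8 * U + d / (128 * r ^ 2) + 3 * X) ≤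
        r * (8 * U + d / (128 * r ^ 2) + 3 * X) := mul_le_mul_of_nonneg_right h1R (by linarith)
    have g4 : (L2.length : ℝ) * X ≤ r * X := mul_le_mul_of_nonneg_right h2R (by linarith)
    have e : (r : ℝ) * (8 * U + d / (128 * r ^ 2) + 3 * X) = 8 * (r * U) + e0 + 3 * (r * X) := by
      rw [he0]
      field_simp
    rw [e, ← hZ] at g3
    linarith
  have hΛ : (Lm Ls : ℝ) ≤ d / 64 := by linarith
  have hLsX : ∀ p ∈ Ls, (p.2 : ℝ) + 1 ≤ X := by
    intro p hp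
    rw [hLs, List.mem_append] at hp
    rcases hp with hp | hp
    · exact (hS1 p hp).1
    · exact (hS2 p hp).1
  -- the sums
  have hGG : GG L1 + GG L2 = GG (L4 LA) + GG Ls := by
    rw [hLs, GG_append, hLA, split_GG hv L1]
    abel
  obtain ⟨T, hT⟩ : ∃ T, T = 2 * cM (GG L1 + GG L2) := ⟨_, rfl⟩
  have hTv : 2 * cM (GG L1 + GG L2 + {v}) = T + v * (v + 1) := by
    rw [cM_add, cM_single, mul_add, Pool.Agent.TH2.NU.two_choose v, hT]
  have hT2 : T = 2 * cM (GG (L4 LA)) + 2 * cM (GG Ls) := by rw [hT, hGG, cM_add, mul_add]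
  have e2 : (d + 1) * (d + 2) = v * (v + 1) + (B + 1) * (B + 2 * v + 2) := by
    rw [← hB]; ring
  have f1 : (T : ℝ) ≤ (B + 1) * (B + 2 * v + 2) + 2 * Wn := by
    have : T ≤ (B + 1) * (B + 2 * v + 2) + 2 * Wn := by
      rw [hTv, e2] at near1; omega
    exact_mod_cast this
  have f2 : ((B : ℝ) + 1) * (B + 2 * v + 2) ≤ T + 2 * Wn := by
    have : (B + 1) * (B + 2 * v + 2) ≤ T + 2 * Wn := by
      rw [hTv, e2] at near2; omega
    exact_mod_cast this
  have hΛ0 : (0 : ℝ) ≤ Lm Ls := Nat.cast_nonneg _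
  have hcLs : 2 * (cM (GG Ls) : ℝ) ≤ X * Lm Ls := cM_GG_W fun p hp => by
    have := hLsX p hp
    linarith
  have hT2R : (T : ℝ) = 2 * cM (GG (L4 LA)) + 2 * cM (GG Ls) := by
    rw [hT2]; push_cast; ring
  have hcLs2 : X * Lm Ls ≤ B * B / 1024 + v * B / 1024 := by
    have h4 : X * Lm Ls ≤ B / 262144 * (d / 64) :=
      mul_le_mul (by linarith) hΛ hΛ0 (by positivity)
    have e6 : (B : ℝ) / 262144 * (d / 64) = B * d / 16777216 := by ring
    rw [e6, hBd] at h4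
    linarith
  have e55 : ((B : ℝ) + 1) * (B + 2 * v + 2) = B * B + 2 * (v * B) + 3 * B + 2 * v + 2 := by ring
  have hbig : (B : ℝ) * d / 2 ≤ 2 * cM (GG (L4 LA)) := by
    rw [e55] at f2
    rw [hBd]
    linarith
  have hne : LA ≠ [] := by
    intro h0
    have h3 : (cM (GG (L4 LA)) : ℝ) = 0 := by rw [h0]; simp [L4, GG, cM]
    rw [h3, hBd] at hbig
    have : 0 < (B : ℝ) * B := by positivity
    linarith
  -- the number of clusters
  obtain ⟨SA, hSA⟩ : ∃ SA, SA = (LA.map Prod.fst).sum := ⟨_, rfl⟩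
  have hSAd : 4 * (SA : ℝ) ≤ 6 * d := by
    have g1 : 4 * SA ≤ (L1.map Prod.fst).sum := by rw [hSA, hLA]; exact sum_LAf hv L1
    have g2 : r * (L1.map Prod.fst).sum ≤ L1.length * (6 * d) := by
      have : ∀ L : List (ℕ × ℕ), (∀ p ∈ L, r * p.1 ≤ 6 * d) →
          r * (L.map Prod.fst).sum ≤ L.length * (6 * d) := by
        intro L
        induction L with
        | nil => simp
        | cons p L ih =>
          intro hL
          rw [List.map_cons, List.sum_cons, List.length_cons, mul_add, add_mul, one_mul]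
          have g3 := hL p List.mem_cons_self
          have g4 := ih fun q hq => hL q (List.mem_cons_of_mem _ hq)
          omega
      exact this L1 hN
    have g3 : r * (4 * SA) ≤ r * (6 * d) :=
      (Nat.mul_le_mul_left r g1).trans (g2.trans (Nat.mul_le_mul_right _ h1))
    have g4 : 4 * SA ≤ 6 * d := Nat.le_of_mul_le_mul_left g3 (by omega)
    exact_mod_cast g4
  have SA0 : (0 : ℝ) ≤ SA := Nat.cast_nonneg _
  have hLAp : ∀ q ∈ LA, 1 ≤ q.1 ∧ 1 ≤ q.2 ∧ (q.2 : ℝ) + 1 ≤ X ∧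
      2 * U ≤ (q.1 : ℝ) * (2 * q.2 + 1) ∧ 9 / 2 * (d : ℝ) * σ ≤ (q.1 : ℝ) * (y ^ 2 - 1) := by
    intro q hq
    rw [hLA] at hq
    obtain ⟨p, hp, hpv, rfl⟩ := mem_LAf hv hq
    have g1 := hpv.1
    have g2 := hpv.2
    refine ⟨?_, hm1 p hp, hXL1 p hp, g1, g2⟩
    by_contra hcon
    have h0 : p.1 / 4 = 0 := by simp only at hcon; omega
    rw [h0] at g1
    push_cast at g1
    linarith
  -- the class with the donors
  have hSq1 : (Sq (L2x LA) : ℝ) = 2 * cM (GG (L4 LA)) + SA := by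
    rw [Sq_two, hSA]; push_cast; ring
  have hSq2 : (Sq Ls : ℝ) = 2 * cM (GG Ls) + Lm Ls := by
    rw [Sq_eq]; push_cast; ring
  obtain ⟨q0, hq0, hmax⟩ : ∃ q0 ∈ LA, ∀ q ∈ LA,
      (q.1 : ℝ) * (2 * q.2 + 1) ^ 2 ≤ (q0.1 : ℝ) * (2 * q0.2 + 1) ^ 2 := by
    have hne' : LA.toFinset.Nonempty := by
      obtain ⟨x, hx⟩ := List.exists_mem_of_ne_nil LA hne
      exact ⟨x, List.mem_toFinset.2 hx⟩
    obtain ⟨q0, g1, g2⟩ := Finset.exists_max_image LA.toFinset
      (fun q => (q.1 : ℝ) * (2 * q.2 + 1) ^ 2) hne'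
    exact ⟨q0, List.mem_toFinset.1 g1, fun q hq => g2 q (List.mem_toFinset.2 hq)⟩
  obtain ⟨LA', hLA'⟩ : ∃ LA', LA' = LA.erase q0 := ⟨_, rfl⟩
  have hperm : LA.Perm (q0 :: LA') := by rw [hLA']; exact List.perm_cons_erase hq0
  have hperm2 : (L2x LA).Perm ((q0.1, 2 * q0.2) :: L2x LA') := by
    have := hperm.map (fun p : ℕ × ℕ => (p.1, 2 * p.2))
    rw [List.map_cons] at this
    exact this
  have hGGp : GG (L2x LA) = q0.1 • {2 * q0.2} + GG (L2x LA') := by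
    rw [GG_perm hperm2, GG_cons]
  have hSqp : (Sq (L2x LA) : ℝ) = (q0.1 : ℝ) * (((2 * q0.2 : ℕ) : ℝ) + 1) ^ 2 + Sq (L2x LA') := by
    rw [Sq_perm hperm2, Sq_cons]; push_cast; ring
  have hlen' : (L2x LA').length + 1 ≤ r := by
    have := hperm.length_eq
    rw [List.length_cons] at this
    unfold L2x
    rw [List.length_map]
    omega
  have hlen'R : ((L2x LA').length : ℝ) + 1 ≤ r := by exact_mod_cast hlen'
  have hlenLsR : (Ls.length : ℝ) ≤ 2 * r := by exact_mod_cast hlenLs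
  have hmaxr : (Sq (L2x LA) : ℝ) ≤ r * ((q0.1 : ℝ) * (2 * q0.2 + 1) ^ 2) := by
    refine (Sq_le hmax).trans ?_
    have : (LA.length : ℝ) ≤ r := by exact_mod_cast hlenLA
    exact mul_le_mul_of_nonneg_right this (by positivity)
  have hq0p := hLAp q0 hq0
  -- independence
  have hsur := surP (Lh := L2x LA') (Ll := Ls) (A0 := q0.1) (u0 := 2 * q0.2) (v := v) (B := B)
    (d := d) (J := J) (U := U) hB (by
      have : (64 : ℝ) ≤ B := by linarith
      exact_mod_cast this) hJ hU64 (by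
      obtain ⟨g1, g2, g3, g4, g5⟩ := hq0p
      push_cast
      linarith) (by
      intro p hp
      unfold L2x at hp
      obtain ⟨q, hq, rfl⟩ := List.mem_map.1 hp
      have hqLA : q ∈ LA := by
        rw [hLA'] at hq
        exact List.mem_of_mem_erase hq
      obtain ⟨g1, g2, g3, g4, g5⟩ := hLAp q hqLA
      simp only
      push_cast
      exact ⟨by linarith, g4⟩) (by
      intro p hp
      have := hLsX p hp
      linarith) (by
      have k1 : ((L2x LA').length : ℝ) * (17 * U ^ 2) ≤ (r - 1) * (17 * U ^ 2) :=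
        mul_le_mul_of_nonneg_right (by linarith) (by positivity)
      have k2 : (Ls.length : ℝ) * (17 * U ^ 2) ≤ (2 * r) * (17 * U ^ 2) :=
        mul_le_mul_of_nonneg_right hlenLsR (by positivity)
      have k3 : (Lm Ls : ℝ) * U ≤ (9 * Z + e0) * U := mul_le_mul_of_nonneg_right hΛ1 hU0.le
      have k4 : ((L2x LA').length : ℝ) * (17 * U ^ 2) + ((Ls.length : ℝ) * (17 * U ^ 2) +
          2 * Lm Ls * U) + 2 * U ^ 2 ≤ 69 * (Z * U) + 2 * (e0 * U) := by
        have e5 : (r - 1) * (17 * U ^ 2) + (2 * r) * (17 * U ^ 2) = 51 * (Z * U) - 17 * U ^ 2 := by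
          rw [hZ]; ring
        have e6 : 0 ≤ U ^ 2 := sq_nonneg U
        linarith
      refine k4.trans ?_
      have k5 : (r : ℝ) * (69 * (Z * U) + 2 * (e0 * U)) ≤ r * ((q0.1 : ℝ) * (2 * q0.2 + 1) ^ 2) := by
        have k6 : (r : ℝ) * (69 * (Z * U) + 2 * (e0 * U)) = 69 * Z ^ 2 + d * U / 64 := by
          have : (r : ℝ) * (69 * (Z * U) + 2 * (e0 * U)) = 69 * (Z * (r * U)) +
            2 * ((r * e0) * U) := by ring
          rw [this, hre, ← hZ]
          ring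
        rw [k6]
        have k7 : (d : ℝ) * U ≤ d * (B / 4096) := mul_le_mul_of_nonneg_left (by linarith) hd0
        have k8 : (d : ℝ) * (B / 4096) = B * d / 4096 := by ring
        have k9 : 0 ≤ (B : ℝ) * d := by positivity
        rw [hSq1] at hmaxr
        linarith
      have k10 := le_of_mul_le_mul_left k5 (by linarith)
      push_cast
      exact k10) (by
      have k1 : (Sq (L2x LA') : ℝ) + Sq Ls + (q0.1 : ℝ) * (((2 * q0.2 : ℕ) : ℝ) + 1) ^ 2 =
          T + SA + Lm Ls := by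
        have : (Sq (L2x LA') : ℝ) + Sq Ls + (q0.1 : ℝ) * (((2 * q0.2 : ℕ) : ℝ) + 1) ^ 2 =
          Sq (L2x LA) + Sq Ls := by rw [hSqp]; ring
        rw [this, hSq1, hSq2, hT2R]
        ring
      rw [k1, hd]
      have k2 : 2 * (((L2x LA').length : ℝ) + Ls.length) * U ≤ 6 * Z := by
        have : (((L2x LA').length : ℝ) + Ls.length) * U ≤ (3 * r) * U :=
          mul_le_mul_of_nonneg_right (by linarith) hU0.le
        rw [hZ]
        linarith
      have e3 : ((v : ℝ) + B + v + 33 / 10) * (B + 2) =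
          (B + 1) * (B + 2 * v + 2) + (23 / 10 * B + 2 * v + 23 / 5) := by ring
      rw [e3]
      rw [hd] at hSAd hΛ hb
      linarith)
  have hsumGG : ∑ i : Fin LA.length, (LA.get i).1 • ({2 * (LA.get i).2} : Multiset ℕ) =
      GG (L2x LA) := by
    rw [sum_get LA fun p => p.1 • ({2 * p.2} : Multiset ℕ)]
    unfold GG L2x
    rw [List.map_map]
    rfl
  have hsum4 : ∑ i : Fin LA.length, (4 * (LA.get i).1) • ({(LA.get i).2} : Multiset ℕ) =
      GG (L4 LA) := by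
    rw [sum_get LA fun p => (4 * p.1) • ({p.2} : Multiset ℕ)]
    unfold GG L4
    rw [List.map_map]
    rfl
  have hιne : Nonempty (Fin LA.length) := ⟨⟨0, List.length_pos_iff.2 hne⟩⟩
  have hLl : ((GG Ls).sum : ℝ) ≤ Lm Ls := by
    rw [sum_GG]
    exact_mod_cast Ll_le Ls
  obtain ⟨W, hWd⟩ : ∃ W : ℝ, W = U / 4 := ⟨_, rfl⟩
  have hfin := dblN (ι := Fin LA.length) (A := fun i => (LA.get i).1) (m := fun i => (LA.get i).2)
    (v := v) (d := d) (LL := GG Ls) (W := W) (y := y) (t0 := 3 * d - 2 * Wn)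
    (fun i => (hLAp _ (List.get_mem LA i)).1) (fun i => (hLAp _ (List.get_mem LA i)).2.1)
    (by
      intro x hx
      obtain ⟨p, hp, -, rfl⟩ := mem_GG hx
      have := hLsX p hp
      rw [hWd]
      linarith) (by
      rw [hWd, hd]
      linarith) (by
      have g1 : ((GG Ls).toFinset.card : ℝ) ≤ 2 * r := by
        have h3 := card_GG Ls
        have h4 : (GG Ls).toFinset.card ≤ 2 * r := by omega
        exact_mod_cast h4
      have g2 : (Fintype.card (Fin LA.length) : ℝ) ≤ r := by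
        rw [Fintype.card_fin]
        exact_mod_cast hlenLA
      have g3 : 16 * (2 * (Fintype.card (Fin LA.length) : ℝ) + (GG Ls).toFinset.card) + 8 ≤
          72 * r ^ 2 := by
        have hrr : (r : ℝ) * 1 ≤ r * r := mul_le_mul_of_nonneg_left hrR (by linarith)
        have e5 : (r : ℝ) ^ 2 = r * r := sq _
        rw [e5]
        linarith
      have g4 : (16 * (2 * (Fintype.card (Fin LA.length) : ℝ) + (GG Ls).toFinset.card) + 8) *
          W ^ 2 ≤ 72 * r ^ 2 * W ^ 2 :=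
        mul_le_mul_of_nonneg_right g3 (sq_nonneg _)
      have g5 : 72 * (r : ℝ) ^ 2 * W ^ 2 = 9 / 2 * Z ^ 2 := by
        rw [hWd, hZ]; ring
      have e5 : ((v : ℝ) + B) ^ 2 - v ^ 2 = B * B + 2 * (v * B) := by ring
      rw [hBd] at hd2
      rw [hd, e5]
      linarith) (by
      rw [hsum4]
      have e : GG (L4 LA) + ({v} + GG Ls) = GG L1 + GG L2 + {v} := by rw [hGG]; abel
      rw [e]
      have h3 : (((d + 1) * (d + 2) : ℕ) : ℝ) ≤
          ((2 * cM (GG L1 + GG L2 + {v}) + 2 * Wn : ℕ) : ℝ) := by exact_mod_cast near2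
      push_cast at h3
      have e5 : ((d : ℝ) + 1) * (d + 2) = d ^ 2 + 3 * d + 2 := by ring
      rw [e5] at h3
      linarith) (by linarith) (by
      intro i
      obtain ⟨g1, g2, g3, g4, g5⟩ := hLAp _ (List.get_mem LA i)
      rw [sum_get LA fun p => (p.2 : ℝ) * (p.1 : ℝ)]
      obtain ⟨S1, hS1d⟩ : ∃ S1 : ℝ, S1 = (LA.map fun p => (p.2 : ℝ) * (p.1 : ℝ)).sum := ⟨_, rfl⟩
      have k1 := amgm (σ := σ) LA
      rw [← hS1d, ← hSA] at k1
      rw [← hS1d]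
      have k2 : σ ^ 2 = B := by rw [sq]; exact hσ
      rw [k2] at k1
      have k3 : (cM (GG (L4 LA)) : ℝ) ≤ 21 / 20 * (B * d) := by
        have k4 : (0 : ℝ) ≤ cM (GG Ls) := Nat.cast_nonneg _
        rw [e55] at f1
        have k10 : 262144 * (B : ℝ) ≤ B * B := mul_le_mul_of_nonneg_right hB1 hB0.le
        have k11 : v * 262144 ≤ (v : ℝ) * B := mul_le_mul_of_nonneg_left hB1 v0
        rw [hBd]
        linarith
      have k5 : (B : ℝ) * SA ≤ B * (3 / 2 * d) := mul_le_mul_of_nonneg_left (by linarith) hB0.le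
      have k6 : 2 * σ * S1 ≤ 2 * σ * (9 / 8 * (d * σ)) := by
        have k7 : 2 * σ * (9 / 8 * (d * σ)) = 9 / 4 * (B * d) := by rw [← hσ]; ring
        rw [k7]
        have : 0 ≤ (B : ℝ) * d := by positivity
        linarith
      have k8 : S1 ≤ 9 / 8 * (d * σ) := le_of_mul_le_mul_left k6 (by positivity)
      have k9 : ((LA.get i).1 : ℝ) * (y ^ 2 - 1) = (LA.get i).1 * y ^ 2 - (LA.get i).1 := by ring
      rw [k9] at g5
      linarith) (by
      intro i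
      obtain ⟨g1, g2, g3, g4, g5⟩ := hLAp _ (List.get_mem LA i)
      rw [hWd, hy]
      linarith) (by
      intro i
      obtain ⟨g1, g2, g3, g4, g5⟩ := hLAp _ (List.get_mem LA i)
      rw [hd] at hΛ ⊢
      rw [hy]
      linarith) (by
      rw [hsumGG, coe_TF, hGGp]
      have e : q0.1 • {2 * q0.2} + GG (L2x LA') + ({v} + GG Ls) =
          {v} + (GG (L2x LA') + GG Ls + q0.1 • {2 * q0.2}) := by abel
      rw [e]
      exact hsur)
  rw [hsum4] at hfin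
  have e : GG (L4 LA) + ({v} + GG Ls) = GG L1 + GG L2 + {v} := by rw [hGG]; abel
  rw [e] at hfin
  exact hfin

end Pool.Agent.K6.H83.QH
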