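import Pool.Agent.K6.H83.QH.CrkE

/-! The corank of a leaf, with one arbitrary multiplicity. -/

set_option autoImplicit false

namespace Pool.Agent.K6.H83.QH

open Finset Pool.Agent.TH176.Nag Pool.Agent.TH603.Sur Pool.Agent.TH641.UM Pool.Agent.TH2.NU
  Pool.Agent.Y205.MD Pool.Agent.Y205.FW

/-- the height of the cells -/
theorem height {B m : ℕ} (hm : 1 ≤ m) (hB1 : 1024 * m ≤ B) :
    ∃ (J : ℕ) (U : ℝ), 2 ^ J * (2 * U) = ((B : ℝ) + 2) / 4 ∧ 128 * (m : ℝ) ≤ U ∧
      U ≤ 256 * m := by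
  have hmR : (1 : ℝ) ≤ m := by exact_mod_cast hm
  have hB1R : 1024 * (m : ℝ) ≤ B := by exact_mod_cast hB1
  have hex : ∃ J : ℕ, ((B : ℝ) + 2) / 4 / (2 ^ J * 2) ≤ 256 * m := by
    obtain ⟨n, hn⟩ := pow_unbounded_of_one_lt (((B : ℝ) + 2) / 4 / (256 * m)) (one_lt_two)
    refine ⟨n, ?_⟩
    rw [div_lt_iff₀ (by positivity)] at hn
    rw [div_le_iff₀ (by positivity)]
    have : 0 ≤ (2 : ℝ) ^ n * (256 * m) := by positivity
    linarith
  classical
  obtain ⟨J, hJ⟩ : ∃ J, J = Nat.find hex := ⟨_, rfl⟩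
  have hJ1 : ((B : ℝ) + 2) / 4 / (2 ^ J * 2) ≤ 256 * m := by rw [hJ]; exact Nat.find_spec hex
  obtain ⟨U, hU⟩ : ∃ U : ℝ, U = ((B : ℝ) + 2) / 4 / (2 ^ J * 2) := ⟨_, rfl⟩
  rw [← hU] at hJ1
  refine ⟨J, U, ?_, ?_, hJ1⟩
  · rw [hU]
    field_simp
  · rcases Nat.eq_zero_or_pos J with h0 | h0
    · rw [h0] at hU
      rw [hU]
      norm_num
      linarith
    · obtain ⟨j, hj⟩ : ∃ j, J = j + 1 := ⟨J - 1, by omega⟩
      have g1 : ¬ ((B : ℝ) + 2) / 4 / (2 ^ j * 2) ≤ 256 * m := Nat.find_min hex (by omega)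
      push Not at g1
      have e : ((B : ℝ) + 2) / 4 / (2 ^ j * 2) = 2 * U := by
        rw [hU, hj, pow_succ]
        field_simp
      rw [e] at g1
      linarith

theorem S2_GG (L : List (ℕ × ℕ)) : S2 (GG L) + Ll L + Lm L = Sq L := by
  induction L with
  | nil => simp [S2, GG, Ll, Lm, Sq]
  | cons p L ih =>
    rw [GG_cons, S2_add, Ll_cons, Lm_cons, Sq_cons, ← ih]
    have e : S2 (p.1 • {p.2}) = p.1 * p.2 ^ 2 := by
      unfold S2
      rw [Multiset.map_nsmul, Multiset.sum_nsmul]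
      simp
    rw [e]
    ring

/-- the corank of a leaf -/
theorem leafQ {L : List (ℕ × ℕ)} {v B d r m T G0 G1 X e0 e1 n : ℕ} (hr : 1 ≤ r) (hm : 1 ≤ m)
    (hB : v + B = d) (hlen : L.length ≤ 2 * r) (hL : ∀ p ∈ L, p.2 + 1 ≤ 8 * m)
    (hB1 : 1024 * m ≤ B) (hBd : 2 ^ 23 * (r * m ^ 2) ≤ B * d) (hS : B * d ≤ 2 * S2 (GG L))
    (hcd : cM (GG L + {v}) + G0 = T + G1) (hT1 : (d + 1) * (d + 2) ≤ 2 * T)
    (hT2 : 2 * T ≤ (d + 1) * (d + 2) + 2 * m) (hgain : 56 * X ≤ 2 * (G0 + G1))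
    (hLl : 17 * Ll L ≤ 136 * X + 4 * G1 + 17 * e1) (hLn : Lm L = Ll L + n) (hn : n ≤ X + e0)
    (he1 : e1 ≤ 63 * (r * m)) (he0 : e0 ≤ 63 * r) (hX : B * d ≤ m * (64 * X + e1)) :
    crkM (TF d) ({v} + GG L) ≤ G0 := by
  have hdR : (d : ℝ) = v + B := by rw [← hB]; push_cast; ring
  have hmR : (1 : ℝ) ≤ m := by exact_mod_cast hm
  have hrR : (1 : ℝ) ≤ r := by exact_mod_cast hr
  have hB1R : 1024 * (m : ℝ) ≤ B := by exact_mod_cast hB1
  have hBdR : (2 : ℝ) ^ 23 * (r * m ^ 2) ≤ B * d := by exact_mod_cast hBd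
  have hSR : (B : ℝ) * d ≤ 2 * S2 (GG L) := by exact_mod_cast hS
  have hB0 : (0 : ℝ) < B := by linarith
  have hv0 : (0 : ℝ) ≤ v := Nat.cast_nonneg v
  have hTF : 2 * (TF d).card = (d + 1) * (d + 2) := by
    rw [card_TF]
    exact Pool.Agent.TH2.NU.two_choose (d + 1)
  have hSqS := S2_GG L
  have hsum : (GG L).sum = Ll L := sum_GG L
  have h2c := two_cMS (GG L)
  rw [hsum] at h2c
  have hcv : cM (GG L + {v}) = cM (GG L) + (v + 1).choose 2 := by rw [cM_add, cM_single]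
  have htv := Pool.Agent.TH2.NU.two_choose v
  have hrm0 : 0 ≤ (r : ℝ) * m ^ 2 := by positivity
  rcases crk_empty (M := GG L) (q := 2 * r) (m := m) hB hm (by
      intro x hx
      obtain ⟨p, hp, -, rfl⟩ := mem_GG hx
      have := hL p hp
      omega) ((card_GG L).trans hlen) (by omega) hB1 (by
      refine le_trans ?_ hBd
      have ee1 : 2 ^ 13 * (2 * r * m ^ 2) = 2 ^ 14 * (r * m ^ 2) := by ring
      rw [ee1]
      exact Nat.mul_le_mul_right _ (by norm_num)) hS with h0 | h0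
  · rw [h0]; exact Nat.zero_le _
  rcases Nat.lt_or_ge (2 * G1) (Ll L) with hG | hG
  · -- independence
    obtain ⟨J, U, hJ, hU1, hU2⟩ := height hm hB1
    have hU0 : 0 < U := by linarith
    have hUU : U ^ 2 ≤ (256 * (m : ℝ)) ^ 2 := pow_le_pow_left₀ hU0.le hU2 2
    have hlenR : (L.length : ℝ) ≤ 2 * r := by exact_mod_cast hlen
    have hSqR : (S2 (GG L) : ℝ) + Ll L + Lm L = Sq L := by exact_mod_cast hSqS
    have hLl0 : (0 : ℝ) ≤ Ll L := Nat.cast_nonneg _
    have hLm0 : (0 : ℝ) ≤ Lm L := Nat.cast_nonneg _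
    have hX1 : 1024 * ((r : ℝ) * m) ≤ X := by
      have hXR : (B : ℝ) * d ≤ m * (64 * X + e1) := by exact_mod_cast hX
      have he1R : (e1 : ℝ) ≤ 63 * (r * m) := by exact_mod_cast he1
      have g1 : (m : ℝ) * (64 * X + e1) ≤ m * (64 * X + 63 * (r * m)) :=
        mul_le_mul_of_nonneg_left (by linarith) (by linarith)
      have g2 : (m : ℝ) * (2 ^ 23 * (r * m)) ≤ m * (64 * X + 63 * (r * m)) := by
        have e : (m : ℝ) * (2 ^ 23 * (r * m)) = 2 ^ 23 * (r * m ^ 2) := by ring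
        rw [e]
        linarith
      have g3 := le_of_mul_le_mul_left g2 (by linarith)
      have g4 : 0 ≤ (r : ℝ) * m := by positivity
      norm_num at g3
      linarith
    have hsur : SM ({v} + GG L) (TZ d) := by
      refine surQ hB (by omega) hJ (by linarith) ?_ ?_ ?_ ?_
      · intro p hp
        have : ((p.2 + 1 : ℕ) : ℝ) ≤ ((8 * m : ℕ) : ℝ) := by exact_mod_cast hL p hp
        push_cast at this
        linarith
      · intro h
        rw [h] at hSR
        have e : S2 (GG ([] : List (ℕ × ℕ))) = 0 := by simp [S2, GG]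
        rw [e] at hSR
        push_cast at hSR
        have : 0 < (B : ℝ) * d := by
          have : (0 : ℝ) < d := by linarith
          positivity
        linarith
      · have g1 : (L.length : ℝ) * (23 * U ^ 2) ≤ 2 * r * (23 * (256 * (m : ℝ)) ^ 2) :=
          mul_le_mul hlenR (by linarith) (by positivity) (by positivity)
        have e : 2 * (r : ℝ) * (23 * (256 * (m : ℝ)) ^ 2) = 3014656 * (r * m ^ 2) := by ring
        rw [e] at g1
        norm_num at hBdR
        linarith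
      · have k1 : 2 * (L.length : ℝ) * U ≤ 2 * (2 * r) * (256 * m) :=
          mul_le_mul (by linarith) hU2 hU0.le (by positivity)
        have ee1 : 2 * (2 * (r : ℝ)) * (256 * m) = 1024 * (r * m) := by ring
        rw [ee1] at k1
        have k2 : ((2 * cM (GG L) : ℕ) : ℝ) = ((S2 (GG L) + Ll L : ℕ) : ℝ) := by rw [h2c]
        push_cast at k2
        have k3 : ((cM (GG L + {v}) + G0 : ℕ) : ℝ) = ((T + G1 : ℕ) : ℝ) := by rw [hcd]
        rw [hcv] at k3
        push_cast at k3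
        have k4 : ((2 * (v + 1).choose 2 : ℕ) : ℝ) = ((v * (v + 1) : ℕ) : ℝ) := by rw [htv]
        push_cast at k4
        have k5 : 2 * (T : ℝ) ≤ (d + 1) * (d + 2) + 2 * m := by exact_mod_cast hT2
        have k6 : 56 * (X : ℝ) ≤ 2 * (G0 + G1) := by exact_mod_cast hgain
        have k7 : 17 * (Ll L : ℝ) ≤ 136 * X + 4 * G1 + 17 * e1 := by exact_mod_cast hLl
        have k8 : (Lm L : ℝ) = Ll L + n := by exact_mod_cast hLn
        have k9 : (n : ℝ) ≤ X + e0 := by exact_mod_cast hn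
        have k10 : (e1 : ℝ) ≤ 63 * (r * m) := by exact_mod_cast he1
        have k11 : (e0 : ℝ) ≤ 63 * r := by exact_mod_cast he0
        have k12 : 2 * (G1 : ℝ) ≤ Ll L := by
          have : 2 * G1 ≤ Ll L := hG.le
          exact_mod_cast this
        have k13 : (r : ℝ) ≤ r * m := by
          have : (r : ℝ) * 1 ≤ r * m := mul_le_mul_of_nonneg_left hmR (by linarith)
          linarith
        have k14 : (m : ℝ) ≤ r * m := by
          have : 1 * (m : ℝ) ≤ r * m := mul_le_mul_of_nonneg_right hrR (by linarith)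
          linarith
        have e3 : ((d : ℝ) + v + 33 / 10) * (B + 2) =
            (d + 1) * (d + 2) - v * (v + 1) + (23 / 10 * B + 2 * v + 23 / 5) := by
          rw [hdR]; ring
        rw [e3]
        linarith
    have h1 := crkM_of_SM hsur
    have h2 : cM ({v} + GG L) = cM (GG L + {v}) := by rw [add_comm]
    omega
  · omega

end Pool.Agent.K6.H83.QH
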