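import Pool.Agent.K6.H83.QH.RecB
import Pool.Agent.K6.H83.QH.MainL

/-! The expected dimension: one arbitrary multiplicity and few different further multiplicities. -/

set_option autoImplicit false

namespace Pool.Agent.K6.H83.QH

open Finset Pool.Agent.TH176.Nag Pool.Agent.TH603.Sur Pool.Agent.TH641.UM Pool.Agent.TH2.NU
  Pool.Agent.H932R3

/-- exactness for few different multiplicities -/
theorem few_values {G : Multiset ℕ} {r v d μ : ℕ} (hr : 1 ≤ r) (hG1 : ∀ x ∈ G, 1 ≤ x)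
    (hGμ : ∀ x ∈ G, x ≤ μ) (hk : G.toFinset.card ≤ r)
    (hd : v + 2 ^ (5 * r + 13) * (μ + 1) + 2 ^ (11 * r + 30) ≤ d) : XM (TF d) ({v} + G) := by
  classical
  obtain ⟨L, hG, hlen, hL, -⟩ := exists_groups G
  have hvd : v ≤ d := le_trans (le_trans (Nat.le_add_right _ _) (Nat.le_add_right _ _)) hd
  obtain ⟨B, hB⟩ : ∃ B, v + B = d := ⟨d - v, by omega⟩
  have hBB : 2 ^ (5 * r + 13) * (μ + 1) ≤ B ∧ 2 ^ (11 * r + 30) ≤ B := by
    generalize 2 ^ (5 * r + 13) * (μ + 1) = x1 at hd ⊢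
    generalize 2 ^ (11 * r + 30) = x2 at hd ⊢
    omega
  have hDC : DC r d B [] [] := ⟨by simp, by simp, by simp, by simp⟩
  have hmem : ∀ p ∈ L, 1 ≤ p.2 ∧ 2 ^ (5 * r + 13) * (p.2 + 1) ≤ B := by
    intro p hp
    have h1 : p.2 ∈ G := by
      rw [← hG]
      unfold GG
      have h2 : p.1 • ({p.2} : Multiset ℕ) ≤ (L.map fun p => p.1 • ({p.2} : Multiset ℕ)).sum :=
        List.single_le_sum (fun _ _ => Multiset.zero_le _) _ (List.mem_map.2 ⟨p, hp, rfl⟩)
      refine Multiset.mem_of_le h2 ?_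
      rw [Multiset.mem_nsmul]
      exact ⟨by have := hL p hp; omega, Multiset.mem_singleton_self _⟩
    refine ⟨hG1 _ h1, le_trans (Nat.mul_le_mul_left _ ?_) hBB.1⟩
    have := hGμ _ h1
    omega
  have e0 : GG [] + GG [] + {v} = ({v} : Multiset ℕ) := by simp [GG]
  cases L with
  | nil =>
    have h := recB hr hB hBB.2 [] hDC (by simp; omega) (by simp; omega) (by simp) 1 le_rfl (by
      refine le_trans ?_ hBB.2
      have e : 2 ^ (5 * r + 13) * (1 + 1) = 2 ^ (5 * r + 14) := by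
        rw [pow_succ 2 (5 * r + 13)]
      rw [e]
      exact Nat.pow_le_pow_right (by norm_num) (by omega)) 0
    rw [zero_smul, zero_add, e0] at h
    rw [← hG, add_comm]
    exact h
  | cons p R =>
    rw [List.length_cons] at hlen
    obtain ⟨hp1, hp2⟩ := hmem p List.mem_cons_self
    have h := recB hr hB hBB.2 R hDC (by simp; omega) (by simp; omega)
      (fun q hq => hmem q (List.mem_cons_of_mem _ hq)) p.2 hp1 hp2 p.1
    rw [e0, ← add_assoc, ← GG_cons, hG, add_comm] at h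
    exact h

/-- **One arbitrary multiplicity and few different further multiplicities.** -/
theorem mainB (r n M μ : ℕ) (hr : 1 ≤ r) (w : Fin n → ℕ) (hw : ∀ i, w i ≤ μ)
    (hk : ((univ.image w).filter fun x => 2 ≤ x).card ≤ r) :
    ∃ F : MvPolynomial (Fin (n + 1) × Fin 2) ℚ, F ≠ 0 ∧ ∀ P : Fin (n + 1) → Fin 2 → ℂ,
      MvPolynomial.aeval (fun ij : Fin (n + 1) × Fin 2 => P ij.1 ij.2) F ≠ 0 →
        ∀ d : ℕ, (M + 2 ^ (5 * r + 13) * (μ + 1) + 2 ^ (11 * r + 30) ≤ d ∨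
            (M + 2 ^ (5 * r + 13) * (μ + 1) + 2 ^ (11 * r + 30) + 2).choose 2 ≤
              ∑ i : Fin (n + 1), Nat.choose ((Fin.cons M w : Fin (n + 1) → ℕ) i + 1) 2) →
          Pool.Agent.H932R3.ExpDim ℂ (Fin.cons M w : Fin (n + 1) → ℕ) P d := by
  classical
  obtain ⟨G, hG⟩ : ∃ G : Multiset ℕ, G = (ms w).filter fun x => 2 ≤ x := ⟨_, rfl⟩
  obtain ⟨N, s, t, hN⟩ := split_ms (m := 1) ((ms w).filter fun x => ¬ 2 ≤ x) fun x hx => by
    have := (Multiset.mem_filter.1 hx).2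
    omega
  have hmw : ms w = G + ((N + s) • {1} + t • {0}) := by
    rw [hG, add_smul, ← hN]
    exact (Multiset.filter_add_not _ _).symm
  have hms : ms (Fin.cons M w : Fin (n + 1) → ℕ) = ({M} + G) + (N + s) • {1} + t • {0} := by
    rw [ms_cons, hmw]
    abel
  have hG2 : ∀ x ∈ G, 2 ≤ x ∧ ∃ i, w i = x := by
    intro x hx
    rw [hG] at hx
    obtain ⟨h1, h2⟩ := Multiset.mem_filter.1 hx
    exact ⟨h2, mem_ms h1⟩
  have hcard : G.toFinset.card ≤ r := by
    refine le_trans (card_le_card ?_) hk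
    intro x hx
    rw [Multiset.mem_toFinset] at hx
    obtain ⟨h1, i, hi⟩ := hG2 x hx
    rw [mem_filter]
    exact ⟨by rw [← hi]; exact mem_image_of_mem _ (mem_univ _), h1⟩
  have key : ∀ d, M + 2 ^ (5 * r + 13) * (μ + 1) + 2 ^ (11 * r + 30) ≤ d →
      ((d + 2).choose 2 ≤ cond (Fin.cons M w : Fin (n + 1) → ℕ) →
        Emp (Fin.cons M w : Fin (n + 1) → ℕ) (TZ d)) ∧
      (cond (Fin.cons M w : Fin (n + 1) → ℕ) ≤ (d + 2).choose 2 →
        Sur (Fin.cons M w : Fin (n + 1) → ℕ) (TZ d)) := by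
    intro d hd
    have h1 : XM (TF d) (({M} + G) + (N + s) • {1} + t • {0}) :=
      XM_ones (few_values hr (fun x hx => by have := (hG2 x hx).1; omega) (fun x hx => by
        obtain ⟨-, i, hi⟩ := hG2 x hx
        rw [← hi]
        exact hw i) hcard hd)
    unfold XM at h1
    rw [coe_TF, card_TF, ← hms, ← cond_eq, EM_iff rfl, SM_iff rfl] at h1
    exact h1
  obtain ⟨D, hD⟩ : ∃ D, D = M + 2 ^ (5 * r + 13) * (μ + 1) + 2 ^ (11 * r + 30) := ⟨_, rfl⟩
  rw [← hD] at key ⊢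
  obtain ⟨C, hC⟩ : ∃ C, C = cond (Fin.cons M w : Fin (n + 1) → ℕ) := ⟨_, rfl⟩
  have hC' : ∑ i : Fin (n + 1), Nat.choose ((Fin.cons M w : Fin (n + 1) → ℕ) i + 1) 2 = C := by
    rw [hC]; rfl
  rw [hC']
  rw [← hC] at key
  obtain ⟨F, hF, h⟩ := expDim_two (w := (Fin.cons M w : Fin (n + 1) → ℕ))
    (A := fun d => (D ≤ d ∧ (d + 2).choose 2 ≤ C) ∨ (d ≤ D ∧ (D + 2).choose 2 ≤ C))
    (B := fun d => D ≤ d ∧ C ≤ (d + 2).choose 2) (C + D) (fun d hd => by
      rcases hd with hd | hd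
      · have h1 : (d + 2).choose 2 = (d + 1) * (d + 2) / 2 := by
          rw [Nat.choose_two_right]
          congr 1
          rw [mul_comm]
          rfl
        have h2 : d ≤ (d + 1) * (d + 2) / 2 := by
          rw [Nat.le_div_iff_mul_le (by norm_num)]
          nlinarith
        have h3 := hd.2
        omega
      · omega)
    (fun d hd => by
      rcases hd with hd | hd
      · exact (key d hd.1).1 hd.2
      · exact Emp.mono ((key D le_rfl).1 hd.2) (Pool.Agent.TH745.MN.TZ_mono hd.1))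
    (fun d hd => (key d hd.1).2 hd.2)
  refine ⟨F, hF, fun P hP d hd => h P hP d ?_⟩
  rcases Nat.lt_or_ge d D with h5 | h5
  · rcases hd with hd | hd
    · omega
    · exact Or.inl (Or.inr ⟨h5.le, hd⟩)
  · rcases le_total ((d + 2).choose 2) C with h4 | h4
    · exact Or.inl (Or.inl ⟨h5, h4⟩)
    · exact Or.inr ⟨h5, h4⟩

end Pool.Agent.K6.H83.QH
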