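import Pool.Agent.K6.H83.QH.RecP
import Pool.Agent.K6.H83.QH.MainL

/-! The expected dimension: one arbitrary multiplicity and few different further multiplicities,
polynomial bounds. -/

set_option autoImplicit false

namespace Pool.Agent.K6.H83.QH

open Finset Pool.Agent.TH176.Nag Pool.Agent.TH603.Sur Pool.Agent.TH641.UM Pool.Agent.TH2.NU
  Pool.Agent.H932R3

theorem le_of_sq' {a b : ℝ} (hb : 0 ≤ b) (h : a * a ≤ b * b) : a ≤ b := by
  by_contra hcon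
  push Not at hcon
  have : b * b < a * a := mul_self_lt_mul_self hb hcon
  linarith

/-- the choice of the height -/
theorem params {r v d B μ : ℕ} (hr : 1 ≤ r) (hB : v + B = d)
    (h1 : 2 ^ 19 * (μ + 1) + 2 ^ 52 * r ^ 4 ≤ B) (h2 : 2 ^ 38 * (r * (μ + 1)) ^ 2 ≤ B * d)
    (h3 : 2 ^ 52 * r ^ 6 ≤ d) : ∃ J Xn U, PP r v d B J Xn U ∧ μ + 1 ≤ Xn := by
  have hrR : (1 : ℝ) ≤ r := by exact_mod_cast hr
  have hd : (d : ℝ) = v + B := by rw [← hB]; push_cast; ring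
  have v0 : (0 : ℝ) ≤ v := Nat.cast_nonneg v
  have h1R : (2 : ℝ) ^ 19 * (μ + 1) + 2 ^ 52 * r ^ 4 ≤ B := by exact_mod_cast h1
  have h2R : (2 : ℝ) ^ 38 * (r * (μ + 1)) ^ 2 ≤ B * d := by exact_mod_cast h2
  have h3R : (2 : ℝ) ^ 52 * r ^ 6 ≤ d := by exact_mod_cast h3
  have μ0 : (0 : ℝ) ≤ μ := Nat.cast_nonneg μ
  have r4 : (1 : ℝ) ≤ (r : ℝ) ^ 4 := one_le_pow₀ hrR
  have hB0 : (0 : ℝ) < B := by
    have : (0 : ℝ) < 2 ^ 19 * (μ + 1) := by positivity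
    have : (0 : ℝ) < 2 ^ 52 * r ^ 4 := by positivity
    linarith
  have hd0 : (0 : ℝ) < d := by linarith
  obtain ⟨σ, hσd⟩ : ∃ σ : ℝ, σ = √(B : ℝ) := ⟨_, rfl⟩
  obtain ⟨δ, hδd⟩ : ∃ δ : ℝ, δ = √(d : ℝ) := ⟨_, rfl⟩
  have hσ : σ * σ = B := by rw [hσd]; exact Real.mul_self_sqrt hB0.le
  have hδ : δ * δ = d := by rw [hδd]; exact Real.mul_self_sqrt hd0.le
  have hσ0 : 0 < σ := by rw [hσd]; exact Real.sqrt_pos.2 hB0
  have hδ0 : 0 < δ := by rw [hδd]; exact Real.sqrt_pos.2 hd0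
  have hσδ : σ ≤ δ := le_of_sq' hδ0.le (by rw [hσ, hδ]; linarith)
  have hσr : 2 ^ 26 * (r : ℝ) ^ 2 ≤ σ := by
    refine le_of_sq' hσ0.le ?_
    rw [hσ]
    have e : 2 ^ 26 * (r : ℝ) ^ 2 * (2 ^ 26 * r ^ 2) = 2 ^ 52 * r ^ 4 := by ring
    rw [e]
    have : (0 : ℝ) < 2 ^ 19 * (μ + 1) := by positivity
    linarith
  have hδr : 2 ^ 26 * (r : ℝ) ^ 3 ≤ δ := by
    refine le_of_sq' hδ0.le ?_
    rw [hδ]
    have e : 2 ^ 26 * (r : ℝ) ^ 3 * (2 ^ 26 * r ^ 3) = 2 ^ 52 * r ^ 6 := by ring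
    rw [e]
    exact h3R
  obtain ⟨Us, hUs⟩ : ∃ Us : ℝ, Us = min ((B : ℝ) / 4096) (min ((d : ℝ) / (4096 * r))
    (σ * δ / (64 * r))) := ⟨_, rfl⟩
  have hUs' : ∀ x : ℝ, 4096 * x ≤ B → 4096 * (r * x) ≤ d → 64 * (r * x) ≤ σ * δ → x ≤ Us := by
    intro x a1 a2 a3
    rw [hUs]
    refine le_min ?_ (le_min ?_ ?_)
    · rw [le_div_iff₀ (by norm_num)]; linarith
    · rw [le_div_iff₀ (by positivity)]; linarith
    · rw [le_div_iff₀ (by positivity)]; linarith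
  have hU1 : Us ≤ B / 4096 := by rw [hUs]; exact min_le_left _ _
  have hU2 : Us ≤ d / (4096 * r) := by
    rw [hUs]; exact (min_le_right _ _).trans (min_le_left _ _)
  have hU3 : Us ≤ σ * δ / (64 * r) := by
    rw [hUs]; exact (min_le_right _ _).trans (min_le_right _ _)
  have hUσ : 9216 * (r : ℝ) ^ 2 * σ ≤ Us := by
    apply hUs'
    · have g1 : 2 ^ 26 * (r : ℝ) ^ 2 * σ ≤ σ * σ := mul_le_mul_of_nonneg_right hσr hσ0.le
      have g2 : 0 ≤ (r : ℝ) ^ 2 * σ := by positivity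
      rw [hσ] at g1
      norm_num at g1 ⊢
      linarith
    · have g1 : 2 ^ 26 * (r : ℝ) ^ 3 * σ ≤ δ * δ := mul_le_mul hδr hσδ hσ0.le hδ0.le
      have g2 : 0 ≤ (r : ℝ) ^ 3 * σ := by positivity
      rw [hδ] at g1
      have e : 4096 * (r * (9216 * (r : ℝ) ^ 2 * σ)) = 37748736 * (r ^ 3 * σ) := by ring
      rw [e]
      norm_num at g1 ⊢
      linarith
    · have g1 : 2 ^ 26 * (r : ℝ) ^ 3 * σ ≤ δ * σ := mul_le_mul_of_nonneg_right hδr hσ0.le
      have g2 : 0 ≤ (r : ℝ) ^ 3 * σ := by positivity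
      have e : 64 * (r * (9216 * (r : ℝ) ^ 2 * σ)) = 589824 * (r ^ 3 * σ) := by ring
      rw [e]
      norm_num at g1 ⊢
      linarith
  have hUμ : 128 * ((μ : ℝ) + 1) ≤ Us := by
    apply hUs'
    · norm_num at h1R ⊢
      linarith
    · refine le_of_sq' hd0.le ?_
      have e : 4096 * (r * (128 * ((μ : ℝ) + 1))) * (4096 * (r * (128 * ((μ : ℝ) + 1)))) =
        2 ^ 38 * (r * (μ + 1)) ^ 2 := by ring
      rw [e]
      refine h2R.trans ?_
      exact mul_le_mul_of_nonneg_right (by linarith) hd0.le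
    · refine le_of_sq' (by positivity) ?_
      have e : σ * δ * (σ * δ) = B * d := by rw [← hσ, ← hδ]; ring
      rw [e]
      refine le_trans ?_ h2R
      have g2 : 0 ≤ ((r : ℝ) * (μ + 1)) ^ 2 := by positivity
      have e : 64 * (r * (128 * ((μ : ℝ) + 1))) * (64 * (r * (128 * ((μ : ℝ) + 1)))) =
        2 ^ 26 * (r * (μ + 1)) ^ 2 := by ring
      rw [e]
      norm_num
      linarith
  have hUs0 : 0 < Us := by
    have : 0 < 128 * ((μ : ℝ) + 1) := by positivity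
    linarith
  have hex : ∃ J : ℕ, ((B : ℝ) + 2) / 4 / (2 ^ J * 2) ≤ Us := by
    obtain ⟨n, hn⟩ := pow_unbounded_of_one_lt (((B : ℝ) + 2) / 4 / Us) (one_lt_two)
    refine ⟨n, ?_⟩
    rw [div_lt_iff₀ hUs0] at hn
    rw [div_le_iff₀ (by positivity)]
    have : 0 ≤ (2 : ℝ) ^ n * Us := by positivity
    linarith
  classical
  obtain ⟨J, hJ⟩ : ∃ J, J = Nat.find hex := ⟨_, rfl⟩
  have hJ1 : ((B : ℝ) + 2) / 4 / (2 ^ J * 2) ≤ Us := by rw [hJ]; exact Nat.find_spec hex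
  obtain ⟨U, hU⟩ : ∃ U : ℝ, U = ((B : ℝ) + 2) / 4 / (2 ^ J * 2) := ⟨_, rfl⟩
  rw [← hU] at hJ1
  have hJ2 : Us ≤ 2 * U := by
    rcases Nat.eq_zero_or_pos J with h0 | h0
    · rw [h0] at hU
      rw [hU]
      norm_num
      linarith
    · obtain ⟨j, hj⟩ : ∃ j, J = j + 1 := ⟨J - 1, by omega⟩
      have g1 : ¬ ((B : ℝ) + 2) / 4 / (2 ^ j * 2) ≤ Us := Nat.find_min hex (by omega)
      push Not at g1
      have e : ((B : ℝ) + 2) / 4 / (2 ^ j * 2) = 2 * U := by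
        rw [hU, hj, pow_succ]
        field_simp
      rw [← e]
      exact g1.le
  have hU0 : 0 < U := by linarith
  have hUσ' : 4608 * (r : ℝ) ^ 2 * σ ≤ U := by linarith
  have hUμ' : 64 * ((μ : ℝ) + 1) ≤ U := by linarith
  have hXle : 64 * ((⌊U / 64⌋₊ : ℕ) : ℝ) ≤ U := by
    have := Nat.floor_le (show 0 ≤ U / 64 by positivity)
    linarith
  have hXμ : μ + 1 ≤ ⌊U / 64⌋₊ := by
    apply Nat.le_floor
    push_cast
    rw [le_div_iff₀ (by norm_num)]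
    linarith
  refine ⟨J, ⌊U / 64⌋₊, U, ⟨hr, hB, ?_, by omega, hXle, ?_, by linarith, ?_, ?_, ?_⟩, hXμ⟩
  · rw [hU]
    field_simp
  · rw [le_div_iff₀ (by positivity)] at hU2
    have : U * (4096 * r) ≤ Us * (4096 * r) := mul_le_mul_of_nonneg_right hJ1 (by positivity)
    linarith
  · rw [le_div_iff₀ (by positivity)] at hU3
    have g1 : U * (64 * r) ≤ Us * (64 * r) := mul_le_mul_of_nonneg_right hJ1 (by positivity)
    have g2 : U * (64 * r) ≤ σ * δ := by linarith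
    have g3 : U * (64 * r) * (U * (64 * r)) ≤ σ * δ * (σ * δ) :=
      mul_le_mul g2 g2 (by positivity) (by positivity)
    have e : σ * δ * (σ * δ) = B * d := by rw [← hσ, ← hδ]; ring
    rw [e] at g3
    have e2 : 4096 * ((r : ℝ) * U) ^ 2 = U * (64 * r) * (U * (64 * r)) := by ring
    rw [e2]
    exact g3
  · rw [← hσd]
    exact hUσ'
  · have g1 : U / 64 - 1 < ((⌊U / 64⌋₊ : ℕ) : ℝ) := Nat.sub_one_lt_floor _
    have g2 : 36 * (r : ℝ) ^ 2 * σ ≤ ((⌊U / 64⌋₊ : ℕ) : ℝ) := by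
      have g3 : (1 : ℝ) ≤ ((⌊U / 64⌋₊ : ℕ) : ℝ) := by
        have : 1 ≤ ⌊U / 64⌋₊ := by omega
        exact_mod_cast this
      linarith
    have g3 : 36 * (r : ℝ) ^ 2 * σ * (36 * (r : ℝ) ^ 2 * σ) ≤
        ((⌊U / 64⌋₊ : ℕ) : ℝ) * ((⌊U / 64⌋₊ : ℕ) : ℝ) :=
      mul_le_mul g2 g2 (by positivity) (by positivity)
    have e : 36 * (r : ℝ) ^ 2 * σ * (36 * (r : ℝ) ^ 2 * σ) = 1296 * (r ^ 4 * B) := by
      rw [← hσ]; ring
    rw [e] at g3
    have g4 : (r : ℝ) * B ≤ r ^ 4 * B := by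
      apply mul_le_mul_of_nonneg_right _ hB0.le
      calc (r : ℝ) = r ^ 1 := (pow_one _).symm
        _ ≤ r ^ 4 := pow_le_pow_right₀ hrR (by norm_num)
    have g5 : 0 ≤ (r : ℝ) ^ 4 * B := by positivity
    have g6 : 4 * ((r : ℝ) * B) ≤ ((⌊U / 64⌋₊ : ℕ) : ℝ) * ((⌊U / 64⌋₊ : ℕ) : ℝ) := by linarith
    exact_mod_cast g6

/-- exactness for few different multiplicities -/
theorem few_valuesP {G : Multiset ℕ} {r v d μ : ℕ} (hr : 1 ≤ r) (hG1 : ∀ x ∈ G, 1 ≤ x)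
    (hGμ : ∀ x ∈ G, x ≤ μ) (hk : G.toFinset.card ≤ r)
    (h1 : v + 2 ^ 19 * (μ + 1) + 2 ^ 52 * r ^ 4 ≤ d)
    (h2 : 2 ^ 38 * (r * (μ + 1)) ^ 2 ≤ (d - v) * d) (h3 : 2 ^ 52 * r ^ 6 ≤ d) :
    XM (TF d) ({v} + G) := by
  classical
  obtain ⟨L, hG, hlen, hL, -⟩ := exists_groups G
  have hvd : v ≤ d := le_trans (le_trans (Nat.le_add_right _ _) (Nat.le_add_right _ _)) h1
  obtain ⟨B, hB⟩ : ∃ B, v + B = d := ⟨d - v, by clear h1 h2 h3; omega⟩
  have hdv : d - v = B := by clear h1 h2 h3; omega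
  rw [hdv] at h2
  have h1' : 2 ^ 19 * (μ + 1) + 2 ^ 52 * r ^ 4 ≤ B := by
    rw [← hB, add_assoc] at h1
    exact Nat.add_le_add_iff_left.1 h1
  obtain ⟨J, Xn, U, P, hμ⟩ := params (μ := μ) hr hB h1' h2 h3
  have hDC : DP r d Xn [] [] := ⟨by simp, by simp, by simp, by simp⟩
  have hmem : ∀ p ∈ L, 1 ≤ p.2 ∧ p.2 + 1 ≤ Xn := by
    intro p hp
    have h1 : p.2 ∈ G := by
      rw [← hG]
      unfold GG
      have h2 : p.1 • ({p.2} : Multiset ℕ) ≤ (L.map fun p => p.1 • ({p.2} : Multiset ℕ)).sum :=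
        List.single_le_sum (fun _ _ => Multiset.zero_le _) _ (List.mem_map.2 ⟨p, hp, rfl⟩)
      refine Multiset.mem_of_le h2 ?_
      rw [Multiset.mem_nsmul]
      exact ⟨by have := hL p hp; omega, Multiset.mem_singleton_self _⟩
    refine ⟨hG1 _ h1, ?_⟩
    have := hGμ _ h1
    omega
  have e0 : GG [] + GG [] + {v} = ({v} : Multiset ℕ) := by simp [GG]
  have hX2 : 2 ≤ Xn := by
    have g1 := P.hrec
    have g2 := P.XB
    have g3 := P.hX1
    by_contra hcon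
    have g4 : Xn = 1 := by omega
    rw [g4] at g1 g2
    have g5 : 1 * B ≤ r * B := Nat.mul_le_mul_right _ hr
    omega
  cases L with
  | nil =>
    have h := recP P [] hDC (by simp; omega) (by simp; omega) (by simp) 1 le_rfl (by omega) 0
    rw [zero_smul, zero_add, e0] at h
    rw [← hG, add_comm]
    exact h
  | cons p R =>
    rw [List.length_cons] at hlen
    obtain ⟨hp1, hp2⟩ := hmem p List.mem_cons_self
    have h := recP P R hDC (by simp; omega) (by simp; omega)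
      (fun q hq => hmem q (List.mem_cons_of_mem _ hq)) p.2 hp1 hp2 p.1
    rw [e0, ← add_assoc, ← GG_cons, hG, add_comm] at h
    exact h

/-- **One arbitrary multiplicity and few different further multiplicities.** -/
theorem mainP (r n M μ D : ℕ) (hr : 1 ≤ r) (h1 : M + 2 ^ 19 * (μ + 1) + 2 ^ 52 * r ^ 4 ≤ D)
    (h2 : 2 ^ 38 * (r * (μ + 1)) ^ 2 ≤ (D - M) * D) (h3 : 2 ^ 52 * r ^ 6 ≤ D)
    (w : Fin n → ℕ) (hw : ∀ i, w i ≤ μ)
    (hk : ((univ.image w).filter fun x => 2 ≤ x).card ≤ r) :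
    ∃ F : MvPolynomial (Fin (n + 1) × Fin 2) ℚ, F ≠ 0 ∧ ∀ P : Fin (n + 1) → Fin 2 → ℂ,
      MvPolynomial.aeval (fun ij : Fin (n + 1) × Fin 2 => P ij.1 ij.2) F ≠ 0 →
        ∀ d : ℕ, (D ≤ d ∨ (D + 2).choose 2 ≤
              ∑ i : Fin (n + 1), Nat.choose ((Fin.cons M w : Fin (n + 1) → ℕ) i + 1) 2) →
          Pool.Agent.H932R3.ExpDim ℂ (Fin.cons M w : Fin (n + 1) → ℕ) P d := by
  classical
  obtain ⟨G, hG⟩ : ∃ G : Multiset ℕ, G = (ms w).filter fun x => 2 ≤ x := ⟨_, rfl⟩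
  obtain ⟨N, s, t, hN⟩ := split_ms (m := 1) ((ms w).filter fun x => ¬ 2 ≤ x) fun x hx => by
    have := (Multiset.mem_filter.1 hx).2
    omega
  have hmw : ms w = G + ((N + s) • {1} + t • {0}) := by
    rw [hG, add_smul, ← hN]
    exact (Multiset.filter_add_not _ _).symm
  have hms : ms (Fin.cons M w : Fin (n + 1) → ℕ) = ({M} + G) + (N + s) • {1} + t • {0} := by
    rw [ms_cons, hmw]
    abel
  have hG2 : ∀ x ∈ G, 2 ≤ x ∧ ∃ i, w i = x := by
    intro x hx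
    rw [hG] at hx
    obtain ⟨h1, h2⟩ := Multiset.mem_filter.1 hx
    exact ⟨h2, mem_ms h1⟩
  have hcard : G.toFinset.card ≤ r := by
    refine le_trans (card_le_card ?_) hk
    intro x hx
    rw [Multiset.mem_toFinset] at hx
    obtain ⟨h1, i, hi⟩ := hG2 x hx
    rw [mem_filter]
    exact ⟨by rw [← hi]; exact mem_image_of_mem _ (mem_univ _), h1⟩
  have key : ∀ d, D ≤ d →
      ((d + 2).choose 2 ≤ cond (Fin.cons M w : Fin (n + 1) → ℕ) →
        Emp (Fin.cons M w : Fin (n + 1) → ℕ) (TZ d)) ∧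
      (cond (Fin.cons M w : Fin (n + 1) → ℕ) ≤ (d + 2).choose 2 →
        Sur (Fin.cons M w : Fin (n + 1) → ℕ) (TZ d)) := by
    intro d hd
    have h1 : XM (TF d) (({M} + G) + (N + s) • {1} + t • {0}) :=
      XM_ones (few_valuesP hr (fun x hx => by
        have := (hG2 x hx).1
        clear h1 h2 h3
        omega) (fun x hx => by
        obtain ⟨-, i, hi⟩ := hG2 x hx
        rw [← hi]
        exact hw i) hcard (h1.trans hd)
          (h2.trans (Nat.mul_le_mul (Nat.sub_le_sub_right hd M) hd)) (h3.trans hd))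
    unfold XM at h1
    rw [coe_TF, card_TF, ← hms, ← cond_eq, EM_iff rfl, SM_iff rfl] at h1
    exact h1
  obtain ⟨C, hC⟩ : ∃ C, C = cond (Fin.cons M w : Fin (n + 1) → ℕ) := ⟨_, rfl⟩
  have hC' : ∑ i : Fin (n + 1), Nat.choose ((Fin.cons M w : Fin (n + 1) → ℕ) i + 1) 2 = C := by
    rw [hC]; rfl
  rw [hC']
  rw [← hC] at key
  obtain ⟨F, hF, h⟩ := expDim_two (w := (Fin.cons M w : Fin (n + 1) → ℕ))
    (A := fun d => (D ≤ d ∧ (d + 2).choose 2 ≤ C) ∨ (d ≤ D ∧ (D + 2).choose 2 ≤ C))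
    (B := fun d => D ≤ d ∧ C ≤ (d + 2).choose 2) (C + D) (fun d hd => by
      rcases hd with hd | hd
      · have h1 : (d + 2).choose 2 = (d + 1) * (d + 2) / 2 := by
          rw [Nat.choose_two_right]
          congr 1
          rw [mul_comm]
          rfl
        have h2 : d ≤ (d + 1) * (d + 2) / 2 := by
          rw [Nat.le_div_iff_mul_le (by norm_num)]
          nlinarith
        have h3 := hd.2
        omega
      · omega)
    (fun d hd => by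
      rcases hd with hd | hd
      · exact (key d hd.1).1 hd.2
      · exact Emp.mono ((key D le_rfl).1 hd.2) (Pool.Agent.TH745.MN.TZ_mono hd.1))
    (fun d hd => (key d hd.1).2 hd.2)
  refine ⟨F, hF, fun P hP d hd => h P hP d ?_⟩
  rcases Nat.lt_or_ge d D with h5 | h5
  · rcases hd with hd | hd
    · omega
    · exact Or.inl (Or.inr ⟨h5.le, hd⟩)
  · rcases le_total ((d + 2).choose 2) C with h4 | h4
    · exact Or.inl (Or.inl ⟨h5, h4⟩)
    · exact Or.inr ⟨h5, h4⟩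

end Pool.Agent.K6.H83.QH
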