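import Pool.Agent.K6.H83.QH.ChainL

/-! Near the critical degree, with an exceptional part. -/

set_option autoImplicit false

namespace Pool.Agent.K6.H83.QH

open Finset Pool.Agent.TH176.Nag Pool.Agent.TH603.Sur Pool.Agent.TH641.UM Pool.Agent.TH2.NU

theorem tpos {d : ℕ} : ∀ u ∈ TF d, 0 ≤ u.1 ∧ 0 ≤ u.2 := fun u hu => by
  have h3 : u ∈ TZ d := by rw [← coe_TF]; exact hu
  exact ⟨h3.1, h3.2.1⟩

theorem two_cM (v m N l : ℕ) (L : List (ℕ × ℕ)) :
    2 * cM (N • {m} + {l} + ({v} + GG L)) =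
      v * (v + 1) + (N * (m * (m + 1)) + l * (l + 1)) + 2 * cM (GG L) := by
  have t := Pool.Agent.TH2.NU.two_choose
  rw [cM_add, cM_add, cM_add, cM_smul, cM_single, cM_single, ← t v, ← t m, ← t l]
  ring

/-- near the critical degree -/
theorem nearM {k v d m N l : ℕ} {L : List (ℕ × ℕ)} (hk : L.length = k) (hL : ∀ p ∈ L, 1 ≤ p.1)
    (hl : l ≤ m) (hd : v + 2 ^ (k + 6) * (m + Lm L + 1) ≤ d)
    (h1 : cM (N • {m} + {l} + ({v} + GG L)) ≤ (d + 2).choose 2 + m)
    (h2 : (d + 2).choose 2 ≤ cM (N • {m} + {l} + ({v} + GG L)) + m) (hN : N ≤ 6 * d) :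
    XM (TF d) (N • {m} + {l} + ({v} + GG L)) := by
  classical
  obtain ⟨B, rfl⟩ : ∃ B, d = v + B := ⟨d - v, by omega⟩
  have hB : 2 ^ (k + 6) * (m + Lm L + 1) ≤ B := by omega
  have hT : 2 * (v + B + 2).choose 2 = (v + B + 1) * (v + B + 2) :=
    Pool.Agent.TH2.NU.two_choose (v + B + 1)
  have hc := two_cM v m N l L
  have hCle := cM_GG_le L
  have hSq := Sq_eq L
  have hsq := sq_GG L
  have hLl := Ll_le L
  obtain ⟨C, hC⟩ : ∃ C, C = 2 * cM (GG L) := ⟨_, rfl⟩
  obtain ⟨Λ, hΛ⟩ : ∃ Λ, Λ = Lm L := ⟨_, rfl⟩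
  rw [← hC] at hc hCle hSq hsq
  rw [← hΛ] at hB hCle hSq hLl
  have f1 : (v : ℝ) * (v + 1) + (N * (m * (m + 1)) + l * (l + 1)) + C ≤
      (v + B + 1) * (v + B + 2) + 2 * m := by
    have : v * (v + 1) + (N * (m * (m + 1)) + l * (l + 1)) + C ≤
        (v + B + 1) * (v + B + 2) + 2 * m := by
      rw [← hc, ← hT]; omega
    exact_mod_cast this
  have f2 : ((v : ℝ) + B + 1) * (v + B + 2) ≤
      v * (v + 1) + (N * (m * (m + 1)) + l * (l + 1)) + C + 2 * m := by
    have : (v + B + 1) * (v + B + 2) ≤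
        v * (v + 1) + (N * (m * (m + 1)) + l * (l + 1)) + C + 2 * m := by
      rw [← hc, ← hT]; omega
    exact_mod_cast this
  obtain ⟨P, hP⟩ : ∃ P : ℝ, P = 2 ^ k := ⟨_, rfl⟩
  have hP1 : 1 ≤ P := by rw [hP]; exact one_le_pow₀ (by norm_num)
  have v0 : (0 : ℝ) ≤ v := Nat.cast_nonneg v
  have m0 : (0 : ℝ) ≤ m := Nat.cast_nonneg m
  have l0 : (0 : ℝ) ≤ l := Nat.cast_nonneg l
  have Λ0 : (0 : ℝ) ≤ Λ := Nat.cast_nonneg Λ
  have C0 : (0 : ℝ) ≤ C := Nat.cast_nonneg C
  have B0 : (0 : ℝ) ≤ B := Nat.cast_nonneg B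
  have lm : (l : ℝ) ≤ m := by exact_mod_cast hl
  have CΛ : (C : ℝ) ≤ Λ * Λ := by exact_mod_cast hCle
  have BP : 64 * P * (m + Λ + 1) ≤ B := by
    have h3 : ((2 ^ (k + 6) * (m + Λ + 1) : ℕ) : ℝ) ≤ (B : ℝ) := by exact_mod_cast hB
    push_cast at h3
    rw [pow_add, ← hP] at h3
    linarith
  have BR : 64 * ((m : ℝ) + Λ + 1) ≤ B := by
    have h3 : 1 * ((m : ℝ) + Λ + 1) ≤ P * (m + Λ + 1) :=
      mul_le_mul_of_nonneg_right hP1 (by positivity)
    linarith
  have ll : (l : ℝ) * (l + 1) ≤ m * (m + 1) := mul_le_mul lm (by linarith) (by linarith) m0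
  have vB : 0 ≤ (v : ℝ) * B := by positivity
  have b1 : 64 * ((m : ℝ) + 1) ≤ B := by linarith
  have b2 : (64 * ((m : ℝ) + Λ + 1)) * (64 * (m + Λ + 1)) ≤ B * B :=
    mul_le_mul BR BR (by positivity) (by linarith)
  have mΛ : 0 ≤ (m : ℝ) * Λ := by positivity
  have mm0 : 0 ≤ (m : ℝ) * m := by positivity
  have ΛΛ0 : 0 ≤ (Λ : ℝ) * Λ := by positivity
  have b3 : 4096 * ((m : ℝ) * m + Λ * Λ + 2 * m + 2 * Λ + 1) ≤ B * B := by linarith
  have hN5 : 5 ≤ N := by
    by_contra hcon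
    have h4 : N ≤ 4 := by omega
    have h4' : (N : ℝ) * (m * (m + 1)) ≤ 4 * (m * (m + 1)) :=
      mul_le_mul_of_nonneg_right (by exact_mod_cast h4) (by positivity)
    linarith
  obtain ⟨a, b, hab, hb1, hb4⟩ : ∃ a b, N = 4 * a + b ∧ 1 ≤ b ∧ b ≤ 4 :=
    ⟨(N - 1) / 4, N - 4 * ((N - 1) / 4), by omega, by omega, by omega⟩
  have ha0 : 0 < a := by omega
  have ha1 : 2 * a ≤ 3 * (v + B) := by omega
  have haR : 2 * (a : ℝ) ≤ 3 * (v + B) := by exact_mod_cast ha1
  have ha0R : (0 : ℝ) ≤ a := Nat.cast_nonneg a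
  have hb4R : (b : ℝ) ≤ 4 := by exact_mod_cast hb4
  have hb0R : (0 : ℝ) ≤ b := Nat.cast_nonneg b
  have hbm : (b : ℝ) * m ≤ 4 * m := mul_le_mul_of_nonneg_right hb4R m0
  have hbmm : (b : ℝ) * (m * (m + 1)) ≤ 4 * (m * (m + 1)) :=
    mul_le_mul_of_nonneg_right hb4R (by positivity)
  have hNR : (N : ℝ) = 4 * a + b := by rw [hab]; push_cast; ring
  rw [hNR] at f1 f2
  -- the rest
  obtain ⟨E, hE⟩ : ∃ E : Multiset ℕ, E = b • {m} + {l} + ({v} + GG L) := ⟨_, rfl⟩
  -- independence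
  have hS : SM (a • {2 * m} + E) (↑(TF (v + B)) : Set (ℤ × ℤ)) := by
    have g0 : GM (a • {2 * m}) (a * (2 * m + 1) ^ 2) 2 (2 * (2 * ((m : ℝ) + Λ) + 1) + 1 / 16)
        (2 * (a * (2 * m + 1))) := by
      have h3 : Good (fun _ : Fin a => 2 * m) (a * ((2 * m : ℕ) + 1) ^ 2) 1
          (2 * ((2 * m : ℕ) + 1) + 1 / 16) (2 * (a * ((2 * m : ℕ) + 1))) := good_block le_rfl le_rfl
      push_cast at h3
      exact (GM_of (ms_fin a (2 * m)) h3).mono le_rfl (by norm_num) (by linarith) (by positivity)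
        le_rfl
    have g1 := GM_list g0 (W := 2 * ((m : ℝ) + Λ)) (by positivity) le_rfl ((1, l) :: L) (by
      intro p hp
      rcases List.mem_cons.1 hp with rfl | hp
      · refine ⟨le_rfl, ?_⟩
        push_cast
        linarith
      · refine ⟨hL p hp, ?_⟩
        have h3 : p.1 * (p.2 + 1) ≤ Λ := by rw [hΛ]; exact le_Lm hp
        have h4 : ((p.1 * (p.2 + 1) : ℕ) : ℝ) ≤ Λ := by exact_mod_cast h3
        push_cast at h4
        linarith)
    rw [List.length_cons, hk, pow_succ (2 : ℝ) k, ← hP] at g1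
    have hPm : 0 ≤ (P - 1) * (m : ℝ) := mul_nonneg (by linarith) m0
    have hPΛ : 0 ≤ (P - 1) * (Λ : ℝ) := mul_nonneg (by linarith) Λ0
    have g2 := g1.step (k := b) (l := m) hb1 (by norm_num)
      (τ' := 4 * P * (2 * (2 * ((m : ℝ) + Λ) + 1) + 1 / 8) - 1 / 16)
      (U' := 4 * P * (2 * (a * (2 * m + 1)))) (by linarith) (by linarith) (by linarith)
      (by linarith)
    obtain ⟨H, hH⟩ : ∃ H : ℝ, H = ((B : ℝ) + 2) / 4 := ⟨_, rfl⟩
    have hH0 : 0 < H := by rw [hH]; linarith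
    obtain ⟨ρ, hρ⟩ : ∃ ρ : ℝ, ρ = (4 * ((v + B : ℕ) : ℝ) + 4 * v + 14 - √2 / 2) / H := ⟨_, rfl⟩
    have hρH : ρ * H = 4 * ((v + B : ℕ) : ℝ) + 4 * v + 14 - √2 / 2 := by rw [hρ]; field_simp
    have h20 : 0 < √(2 : ℝ) := Real.sqrt_pos.2 (by norm_num)
    have h21 : √(2 : ℝ) < 3 / 2 := by
      rw [Real.sqrt_lt' (by norm_num)]; norm_num
    have ha : (B : ℝ) + 2 ≤ 32 * (a * (2 * m + 1)) := by
      by_contra hcon
      push Not at hcon
      have h4 : 32 * ((a : ℝ) * (2 * m + 1)) * (m + 1) ≤ (B + 2) * (m + 1) :=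
        mul_le_mul_of_nonneg_right hcon.le (by linarith)
      have h5 : ((B : ℝ) + 2) * (64 * (m + 1)) ≤ (B + 2) * B :=
        mul_le_mul_of_nonneg_left b1 (by linarith)
      have h6 : 0 ≤ (a : ℝ) * m := by positivity
      have h7 : 64 * (B : ℝ) ≤ B * B := by
        have : (64 : ℝ) ≤ B := by linarith
        exact mul_le_mul_of_nonneg_right this B0
      nlinarith
    have hUle : (B : ℝ) + 2 ≤ 32 * P * (a * (2 * m + 1)) := by
      have h3 : 1 * ((a : ℝ) * (2 * m + 1)) ≤ P * (a * (2 * m + 1)) :=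
        mul_le_mul_of_nonneg_right hP1 (by positivity)
      linarith
    have g3 : SM (b • {m} + (GG ((1, l) :: L) + a • {2 * m})) (LJ ρ (ρ * H)) := by
      refine g2 H ρ ?_ ?_ ?_ ?_
      · rw [hH]; linarith
      · rw [hH]; linarith
      · rw [hρ, le_div_iff₀ hH0, hH]
        push_cast
        linarith
      · have e : ρ * H ^ 2 = (ρ * H) * H := by ring
        have hSqR : (Sq L : ℝ) = C + Λ := by exact_mod_cast hSq
        rw [e, hρH, hH, Sq_cons]
        push_cast
        rw [hSqR]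
        have h6 : ((v : ℝ) + B + v + 33 / 10) * (B + 2) ≤
            (4 * ((v : ℝ) + B) + 4 * v + 14 - √2 / 2) * (((B : ℝ) + 2) / 4) := by
          have h3 : (0 : ℝ) ≤ (14 - √2 / 2 - 66 / 5) * ((B : ℝ) + 2) :=
            mul_nonneg (by linarith) (by linarith)
          have h4 : (4 * ((v : ℝ) + B) + 4 * v + 14 - √2 / 2) * (((B : ℝ) + 2) / 4) =
            (v + B + v + 33 / 10) * ((B : ℝ) + 2) +
              (14 - √2 / 2 - 66 / 5) * ((B : ℝ) + 2) / 4 := by ring
          rw [h4]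
          linarith
        refine le_trans ?_ h6
        linarith
    have g4 := sur_tzM (v := v) (B := B) rfl (by
      have : (64 : ℝ) ≤ B := by linarith
      have : 64 ≤ B := by exact_mod_cast this
      omega) hH hρH g3
    rw [coe_TF, hE]
    have e : ({v} + (b • {m} + (GG ((1, l) :: L) + a • {2 * m})) : Multiset ℕ) =
        a • {2 * m} + (b • {m} + {l} + ({v} + GG L)) := by
      rw [GG_cons, one_smul]
      abel
    rw [← e]
    exact g4
  -- emptiness
  have hEm : EM (a • {2 * m + 1} + E) (↑(TF (v + B)) : Set (ℤ × ℤ)) := by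
    have g1 := emp_fewM (M := a • {2 * m + 1} + (b • {m} + {l} + GG L)) (W := 2 * m + 1 + Λ)
      (d := v + B) (v := v) (r := k + 3) (by
        intro x hx
        rw [Multiset.mem_add, Multiset.mem_add, Multiset.mem_add] at hx
        rcases hx with hx | (hx | hx) | hx
        · rw [Multiset.mem_singleton.1 (Multiset.mem_of_mem_nsmul hx)]
          push_cast
          linarith
        · rw [Multiset.mem_singleton.1 (Multiset.mem_of_mem_nsmul hx)]
          linarith
        · rw [Multiset.mem_singleton.1 hx]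
          linarith
        · have h3 : x ≤ Λ := by rw [hΛ]; exact mem_GG_le hx
          have h4 : (x : ℝ) ≤ Λ := by exact_mod_cast h3
          linarith) (by
        push_cast
        linarith) (by
        have c1 : ∀ (n x : ℕ), (n • ({x} : Multiset ℕ)).toFinset.card ≤ 1 := by
          intro n x
          refine (card_le_card (t := {x}) ?_).trans (by simp)
          intro y hy
          rw [Multiset.mem_toFinset] at hy
          exact Finset.mem_singleton.2 (Multiset.mem_singleton.1 (Multiset.mem_of_mem_nsmul hy))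
        have c2 := card_GG L
        rw [hk] at c2
        rw [Multiset.toFinset_add, Multiset.toFinset_add, Multiset.toFinset_add]
        have d1 := card_union_le (a • ({2 * m + 1} : Multiset ℕ)).toFinset
          ((b • ({m} : Multiset ℕ)).toFinset ∪ ({l} : Multiset ℕ).toFinset ∪ (GG L).toFinset)
        have d2 := card_union_le ((b • ({m} : Multiset ℕ)).toFinset ∪ ({l} : Multiset ℕ).toFinset)
          (GG L).toFinset
        have d3 := card_union_le (b • ({m} : Multiset ℕ)).toFinset ({l} : Multiset ℕ).toFinset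
        have d4 := c1 a (2 * m + 1)
        have d5 := c1 b m
        have d6 : ({l} : Multiset ℕ).toFinset.card = 1 := by simp
        omega) (by
        have h3 : (16 * ((k + 3 : ℕ) : ℝ) + 8) ≤ 1024 * P := by
          have h4 : ((k + 1 : ℕ) : ℝ) ≤ P := by
            rw [hP]
            exact_mod_cast Nat.lt_two_pow_self
          push_cast at h4 ⊢
          linarith
        have h4 : (2 * (m : ℝ) + 1 + Λ) ^ 2 ≤ (2 * (m + Λ + 1)) ^ 2 :=
          pow_le_pow_left₀ (by positivity) (by linarith) 2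
        have h5 : (16 * ((k + 3 : ℕ) : ℝ) + 8) * (2 * (m : ℝ) + 1 + Λ) ^ 2 ≤
            1024 * P * (2 * (m + Λ + 1)) ^ 2 :=
          mul_le_mul h3 h4 (by positivity) (by positivity)
        refine h5.trans ?_
        have h6 : (64 * P * ((m : ℝ) + Λ + 1)) * (64 * P * (m + Λ + 1)) ≤ B * B :=
          mul_le_mul BP BP (by positivity) B0
        have h7 : P * ((m : ℝ) + Λ + 1) ^ 2 ≤ P * P * (m + Λ + 1) ^ 2 := by
          have : P * 1 ≤ P * P := mul_le_mul_of_nonneg_left hP1 (by linarith)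
          exact mul_le_mul_of_nonneg_right (by linarith) (by positivity)
        push_cast
        nlinarith) (by
        obtain ⟨Z, hZ⟩ : ∃ Z : ℕ, Z = ((GG L).map fun x => x ^ 2).sum := ⟨_, rfl⟩
        rw [← hZ] at hsq
        have hsqR : (Z : ℝ) + Ll L = C := by exact_mod_cast hsq
        have hLlR : (Ll L : ℝ) ≤ Λ := by exact_mod_cast hLl
        have e : ((a • {2 * m + 1} + (b • {m} + {l} + GG L) : Multiset ℕ).map
            fun x => x ^ 2).sum = a * (2 * m + 1) ^ 2 + (b * m ^ 2 + l ^ 2 + Z) := by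
          rw [hZ]
          simp only [Multiset.map_add, Multiset.sum_add, Multiset.map_nsmul, Multiset.sum_nsmul,
            Multiset.map_singleton, Multiset.sum_singleton, smul_eq_mul]
        rw [e]
        push_cast
        nlinarith)
    rw [coe_TF, hE]
    have e : ({v} + (a • {2 * m + 1} + (b • {m} + {l} + GG L)) : Multiset ℕ) =
        a • {2 * m + 1} + (b • {m} + {l} + ({v} + GG L)) := by
      abel
    rw [← e]
    exact g1
  have hX := dblM ha0 tpos hS hEm
  have e : ((4 * a) • {m} + E : Multiset ℕ) = N • {m} + {l} + ({v} + GG L) := by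
    rw [hE, hab, add_smul]
    abel
  rw [← e]
  exact hX

end Pool.Agent.K6.H83.QH
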