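import Pool.Agent.K6.H83.QH.ChainL
import Pool.Agent.TH366.RC.Cut

/-! Blocks of different multiplicities side by side. -/

set_option autoImplicit false

namespace Pool.Agent.K6.H83.QH

open Finset Pool.Agent.TH176.Nag Pool.Agent.TH603.Sur Pool.Agent.TH745.MN Pool.Agent.Y205.FW
  Pool.Agent.TH641.UM Pool.Agent.TH2.NU Filter Topology

/-- cutting -/
theorem Sur_cutR {ι κ : Type} [Fintype ι] [Fintype κ] {w : ι → ℕ} {v : κ → ℕ}
    {S U : Set (ℤ × ℤ)} (p q : ℝ)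
    (hcut : ∀ m ∈ S, ∀ m' ∈ U, p * m.1 + q * m.2 < p * m'.1 + q * m'.2)
    (h1 : Sur w S) (h2 : Sur v U) : Sur (Sum.elim w v) (S ∪ U) := by
  classical
  obtain ⟨T1, a1, a2, a3⟩ := h1
  obtain ⟨T2, b1, b2, b3⟩ := h2
  obtain ⟨c, hc⟩ : ∃ c : ℤ, ∀ m ∈ T1 ∪ T2, 0 ≤ m.1 + c ∧ 0 ≤ m.2 + c := by
    refine ⟨∑ m ∈ T1 ∪ T2, (|m.1| + |m.2|), fun m hm => ?_⟩
    have h := single_le_sum (f := fun m : ℤ × ℤ => |m.1| + |m.2|) (fun m _ => by positivity) hm
    have h3 := neg_abs_le m.1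
    have h4 := neg_abs_le m.2
    have h5 := abs_nonneg m.1
    have h6 := abs_nonneg m.2
    constructor <;> linarith
  have hdisj : Disjoint T1 T2 := by
    rw [Finset.disjoint_left]
    intro m hm hm'
    exact lt_irrefl _ (hcut m (a1 (mem_coe.2 hm)) m (b1 (mem_coe.2 hm')))
  refine ⟨T1 ∪ T2, ?_, ?_, ?_⟩
  · rw [coe_union]
    exact Set.union_subset_union a1 b1
  · rw [card_union_of_disjoint hdisj, a2, b2]
    unfold Pool.Agent.TH603.Sur.cond
    rw [Fintype.sum_sum_type]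
    simp
  · have hE := Pool.Agent.TH366.RC.Emp_cutR (w := w) (v := v)
      (S := {m : ℤ × ℤ | (m.1 - c, m.2 - c) ∈ T1}) (U := {m : ℤ × ℤ | (m.1 - c, m.2 - c) ∈ T2})
      (by
        refine (T1.image fun m : ℤ × ℤ => (m.1 + c, m.2 + c)).finite_toSet.subset ?_
        intro m hm
        rw [coe_image]
        exact ⟨_, mem_coe.2 hm, by ext <;> simp⟩)
      (by
        refine (T2.image fun m : ℤ × ℤ => (m.1 + c, m.2 + c)).finite_toSet.subset ?_
        intro m hm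
        rw [coe_image]
        exact ⟨_, mem_coe.2 hm, by ext <;> simp⟩)
      (by
        intro m hm
        have := hc _ (mem_union_left T2 hm)
        simp only at this
        omega)
      (by
        intro m hm
        have := hc _ (mem_union_right T1 hm)
        simp only at this
        omega) p q
      (by
        intro m hm m' hm'
        have := hcut _ (a1 (mem_coe.2 hm)) _ (b1 (mem_coe.2 hm'))
        push_cast at this
        linarith)
      (a3.comap 1 0 0 1 (-c) (-c) (by norm_num) (by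
        intro m hm
        have e : ((1 * m.1 + 0 * m.2 + -c, 0 * m.1 + 1 * m.2 + -c) : ℤ × ℤ) =
            (m.1 - c, m.2 - c) := by
          ext
          · simp only; ring
          · simp only; ring
        rw [e]
        exact mem_coe.2 hm))
      (b3.comap 1 0 0 1 (-c) (-c) (by norm_num) (by
        intro m hm
        have e : ((1 * m.1 + 0 * m.2 + -c, 0 * m.1 + 1 * m.2 + -c) : ℤ × ℤ) =
            (m.1 - c, m.2 - c) := by
          ext
          · simp only; ring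
          · simp only; ring
        rw [e]
        exact mem_coe.2 hm))
    refine hE.comap 1 0 0 1 c c (by norm_num) ?_
    intro m hm
    rw [mem_coe, mem_union] at hm
    have e : ((1 * m.1 + 0 * m.2 + c - c, 0 * m.1 + 1 * m.2 + c - c) : ℤ × ℤ) = m := by
      ext
      · simp
      · simp
    rcases hm with hm | hm
    · left
      show ((1 * m.1 + 0 * m.2 + c - c, 0 * m.1 + 1 * m.2 + c - c) : ℤ × ℤ) ∈ T1
      rw [e]; exact hm
    · right
      show ((1 * m.1 + 0 * m.2 + c - c, 0 * m.1 + 1 * m.2 + c - c) : ℤ × ℤ) ∈ T2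
      rw [e]; exact hm

/-- independence on all triangles with height `h` and base `ρ h` -/
def RR {κ : Type} [Fintype κ] (w : κ → ℕ) (ρ h : ℝ) : Prop :=
  ∀ α μ ν : ℝ, μ + ν = ρ → Sur w (RegO α (α + ρ * h) μ ν)

theorem RR_of_LJ {κ : Type} [Fintype κ] {w : κ → ℕ} {ρ h : ℝ} (hw : Sur w (LJ ρ (ρ * h))) :
    RR w ρ h := fun α _ _ hμν => Sur_row α hμν hw

theorem RR.add {ι κ : Type} [Fintype ι] [Fintype κ] {w : ι → ℕ} {v : κ → ℕ} {ρ1 ρ2 h : ℝ}
    (h1 : RR w ρ1 h) (h2 : RR v ρ2 h) (hρ1 : 0 < ρ1) (hρ2 : 0 ≤ ρ2) :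
    RR (Sum.elim w v) (ρ1 + ρ2) h := by
  intro α μ ν hμν
  have g1 := h1 α μ (ρ1 - μ) (by ring)
  have g2 := h2 (α + ρ1 * h) (-(ρ1 - μ)) ν (by linarith)
  refine (Sur_cutR 1 (ρ1 - μ) ?_ g1 g2).mono ?_
  · rintro ⟨a, b⟩ ⟨-, -, a3⟩ ⟨a', b'⟩ ⟨-, b2, -⟩
    simp only at a3 b2 ⊢
    linarith
  · rintro ⟨a, b⟩ (⟨a1, a2, a3⟩ | ⟨a1, a2, a3⟩)
    · simp only at a1 a2 a3
      have g3 : 0 < ρ1 * (h - b) := by linarith
      have g4 : 0 < h - b := by
        by_contra hcon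
        push Not at hcon
        have := mul_nonpos_of_nonneg_of_nonpos hρ1.le hcon
        linarith
      have g5 : 0 ≤ ρ2 * (h - b) := mul_nonneg hρ2 g4.le
      refine ⟨a1, a2, ?_⟩
      simp only
      have e : ν = ρ1 + ρ2 - μ := by linarith
      rw [e]
      linarith
    · simp only at a1 a2 a3
      have e : ν = ρ1 + ρ2 - μ := by linarith
      rw [e] at a3
      have g3 : 0 < ρ2 * (h - b) := by linarith
      have g4 : 0 < h - b := by
        by_contra hcon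
        push Not at hcon
        have := mul_nonpos_of_nonneg_of_nonpos hρ2 hcon
        linarith
      have g5 : 0 < ρ1 * (h - b) := mul_pos hρ1 g4
      refine ⟨a1, ?_, ?_⟩
      · simp only
        linarith
      · simp only
        rw [e]
        linarith

theorem RR.nok {κ : Type} [Fintype κ] {w : κ → ℕ} {ρ h σ : ℝ} (hw : RR w ρ h) (hρ : 0 < ρ)
    (hσ : ρ ≤ σ) : NOK h w σ := by
  have c4 : ∀ᶠ ε in 𝓝[>] (0 : ℝ), 0 < ε := eventually_mem_nhdsWithin
  unfold NOK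
  filter_upwards [c4] with ε hε
  refine ⟨ρ / 2, ρ / 2 + ε, ρ / 2, ρ / 2 + ε, by linarith, by linarith, by linarith, by linarith,
    by linarith, ?_⟩
  intro X Y h1 h2 h3 h4
  have hd := hw (-(ρ / 2 * h)) (ρ / 2) (ρ / 2) (by ring)
  have hnode : Sur w {p : ℤ × ℤ | 0 ≤ p.2 ∧ -(ρ / 2 * (h - 1 - p.2)) < (p.1 : ℝ) ∧
        (p.1 : ℝ) < ρ / 2 * (h - 1 - p.2)} := by
    refine hd.shift 0 1 ?_
    rintro ⟨p, q⟩ ⟨h1, h2, h3⟩
    simp only at h1 h2 h3
    refine ⟨by simp only; omega, ?_, ?_⟩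
    · simp only; push_cast; linarith
    · simp only; push_cast; linarith
  refine hnode.mono ?_
  rintro ⟨p, q⟩ ⟨g1, g2, g3⟩
  simp only at g1 g2 g3
  obtain ⟨t, ht⟩ : ∃ t : ℝ, t = h - 1 - q := ⟨_, rfl⟩
  rw [← ht] at g2 g3
  have ht0 : 0 < t := by
    by_contra hcon
    push Not at hcon
    have g4 : ρ / 2 * t ≤ 0 := mul_nonpos_of_nonneg_of_nonpos (by linarith) hcon
    linarith
  have e2 : Y / (4 * ((1 : ℕ) : ℝ)) * (4 * h - 4 - 4 * ((1 : ℕ) : ℝ) * (q : ℝ)) = Y * t := by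
    rw [ht]; push_cast; ring
  have e3 : X / (4 * ((1 : ℕ) : ℝ)) * (4 * h - 4 - 4 * ((1 : ℕ) : ℝ) * (q : ℝ)) = X * t := by
    rw [ht]; push_cast; ring
  have g4 : ρ / 2 * t ≤ Y * t := mul_le_mul_of_nonneg_right h3.le ht0.le
  have g5 : ρ / 2 * t ≤ X * t := mul_le_mul_of_nonneg_right h1.le ht0.le
  refine ⟨g1, ?_, ?_⟩
  · simp only
    rw [e2]
    linarith
  · simp only
    rw [e3]
    linarith

/-- one block in a triangle with slope at least two -/
theorem blk {N u : ℕ} {H ρ : ℝ} (hρ : 2 ≤ ρ) (hu : 2 * ((u : ℝ) + 1) + 1 / 2 ≤ H)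
    (hN : H ≤ 2 * (N * (u + 1))) (hc : (N : ℝ) * (u + 1) ^ 2 + H ≤ ρ * H ^ 2) :
    Sur (fun _ : Fin N => u) (LJ ρ (ρ * H)) := by
  have hu0 : (0 : ℝ) ≤ u := Nat.cast_nonneg u
  have hρ0 : 0 < ρ := by linarith
  have e2 : 0 < 1 / (4 * ρ) := by positivity
  have e3 : 1 / (4 * ρ) ≤ 1 / 8 := by
    rw [div_le_div_iff₀ (by positivity) (by norm_num)]
    linarith
  obtain ⟨h, hh⟩ : ∃ h : ℝ, h = (2 * (ρ * H) - 1) / (4 * ρ) := ⟨_, rfl⟩
  have e1 : h = H / 2 - 1 / (4 * ρ) := by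
    rw [hh]
    field_simp
    ring
  have hh0 : 0 < h := by linarith
  have e4 : 4 * ρ * h ^ 2 = ρ * H ^ 2 - H + 1 / (4 * ρ) := by
    rw [hh]; field_simp; ring
  have hlt : (N : ℝ) * (u + 1) ^ 2 / h ^ 2 < 4 * ρ := by
    rw [div_lt_iff₀ (by positivity), e4]
    linarith
  obtain ⟨σ, g1, g2⟩ := exists_between hlt
  have hblk : NOK h (fun _ : Fin N => u) σ :=
    NOK_block (by linarith) (by linarith) (by linarith) g1
  rw [hh] at hblk
  exact Sur_LJ hSeq hρ g2 hblk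

/-- one block in a thin triangle -/
theorem blkT {N u : ℕ} {H ρ : ℝ} (hρ0 : 0 < ρ) (hρ : ρ ≤ 1 / 2)
    (hu : 2 * ((u : ℝ) + 1) + 1 / 2 ≤ ρ * H) (hN : ρ * H ≤ 2 * (N * (u + 1)))
    (hc : (N : ℝ) * (u + 1) ^ 2 + ρ * H ≤ ρ * H ^ 2) :
    Sur (fun _ : Fin N => u) (LJ ρ (ρ * H)) := by
  have e : 1 / ρ * (ρ * H) = H := by field_simp
  have h1 : Sur (fun _ : Fin N => u) (LJ (1 / ρ) (1 / ρ * (ρ * H))) := by
    refine blk ?_ hu hN ?_
    · rw [le_div_iff₀ hρ0]; linarith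
    · have e2 : 1 / ρ * (ρ * H) ^ 2 = ρ * H ^ 2 := by field_simp
      rw [e2]
      exact hc
  rw [e] at h1
  refine h1.comap 0 1 1 0 0 0 (by norm_num) ?_
  rintro ⟨a, b⟩ ⟨a1, a2, a3⟩
  simp only at a1 a2 a3
  refine ⟨(b, a), ⟨a2, a1, ?_⟩, ?_⟩
  · simp only
    have h2 : ρ * ((a : ℝ) + 1 + 1 / ρ * (b + 1)) < ρ * H := mul_lt_mul_of_pos_left a3 hρ0
    have e3 : ρ * ((a : ℝ) + 1 + 1 / ρ * (b + 1)) = ρ * (a + 1) + (b + 1) := by
      field_simp
    rw [e3] at h2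
    linarith
  · ext <;> simp

/-- the condition for a block -/
def OKb (U : ℝ) (p : ℕ × ℕ) : Prop :=
  (2 * U ^ 2 ≤ (p.1 : ℝ) * (p.2 + 1) ^ 2 ∨ (p.1 : ℝ) * (p.2 + 1) ^ 2 ≤ U ^ 2 / 4) ∧
    2 * ((p.2 : ℝ) + 1) + 1 ≤ U ∧ 2 * U ≤ (p.1 : ℝ) * (p.2 + 1)

theorem blkA {p : ℕ × ℕ} {U h : ℝ} (hU : 8 ≤ U) (hp : OKb U p) (h1 : U - 1 / 16 ≤ h)
    (h2 : h ≤ U) : RR (fun _ : Fin p.1 => p.2) (((p.1 : ℝ) * (p.2 + 1) ^ 2 + h) / h ^ 2) h := by
  obtain ⟨N, u⟩ := p
  obtain ⟨p1, p2, p3⟩ := hp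
  simp only at p1 p2 p3 ⊢
  have hh0 : 0 < h := by linarith
  have hu0 : (0 : ℝ) ≤ u := Nat.cast_nonneg u
  have hN0 : (0 : ℝ) ≤ N := Nat.cast_nonneg N
  obtain ⟨c, hc⟩ : ∃ c : ℝ, c = (N : ℝ) * (u + 1) ^ 2 := ⟨_, rfl⟩
  have hc0 : 0 ≤ c := by rw [hc]; positivity
  rw [← hc] at p1 ⊢
  obtain ⟨ρ, hρ⟩ : ∃ ρ : ℝ, ρ = (c + h) / h ^ 2 := ⟨_, rfl⟩
  have hρh : ρ * h ^ 2 = c + h := by rw [hρ]; field_simp
  have hρ0 : 0 < ρ := by rw [hρ]; positivity
  rw [← hρ]
  apply RR_of_LJ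
  have hhU : h ^ 2 ≤ U ^ 2 := pow_le_pow_left₀ hh0.le h2 2
  rcases p1 with p1 | p1
  · refine blk ?_ (by linarith) (by linarith) (by rw [← hc, hρh])
    rw [hρ, le_div_iff₀ (by positivity)]
    linarith
  · have hh : ρ * h = c / h + 1 := by
      rw [hρ]; field_simp
    have g1 : (u + 1 : ℝ) * 2 ≤ c / h := by
      rw [le_div_iff₀ hh0]
      have g2 : (u + 1 : ℝ) * (2 * h) ≤ (u + 1) * (N * (u + 1)) :=
        mul_le_mul_of_nonneg_left (by linarith) (by positivity)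
      rw [hc]
      linarith
    have g3 : c / h ≤ N * (u + 1) := by
      rw [div_le_iff₀ hh0, hc]
      have g2 : (N : ℝ) * (u + 1) * (u + 1) ≤ N * (u + 1) * h :=
        mul_le_mul_of_nonneg_left (by linarith) (by positivity)
      linarith
    refine blkT hρ0 ?_ (by rw [hh]; linarith) (by rw [hh]; linarith) ?_
    · rw [hρ, div_le_iff₀ (by positivity)]
      nlinarith
    · rw [← hc, hρh, hh]
      have g4 : c / h ≤ h / 2 := by
        rw [div_le_iff₀ hh0]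
        nlinarith
      linarith

/-- multisets in triangles -/
def RM (M : Multiset ℕ) (ρ h : ℝ) : Prop := RR (fam M) ρ h

theorem RM_of {κ : Type} [Fintype κ] {w : κ → ℕ} {M : Multiset ℕ} (h : ms w = M) {ρ H : ℝ}
    (hw : RR w ρ H) : RM M ρ H := fun α μ ν hμν =>
  Sur_of_ms (by rw [ms_fam, h]) (hw α μ ν hμν)

theorem RM_list {U h : ℝ} (hU : 8 ≤ U) (h1 : U - 1 / 16 ≤ h) (h2 : h ≤ U)
    (L : List (ℕ × ℕ)) : (∀ p ∈ L, OKb U p) →
    RM (GG L) (((Sq L : ℝ) + L.length * h) / h ^ 2) h := by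
  have hh0 : 0 < h := by linarith
  induction L with
  | nil =>
    intro _ α μ ν _
    have : IsEmpty (Fin (GG []).toList.length) := by
      simp only [GG, List.map_nil, List.sum_nil, Multiset.toList_zero, List.length_nil]
      infer_instance
    exact Sur_of_isEmpty _ _
  | cons p L ih =>
    intro hL
    have g1 := ih fun q hq => hL q (List.mem_cons_of_mem _ hq)
    have g2 := blkA hU (hL p List.mem_cons_self) h1 h2
    have g3 := RR.add g2 g1 (by positivity) (by positivity)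
    have e : ((p.1 : ℝ) * (p.2 + 1) ^ 2 + h) / h ^ 2 + ((Sq L : ℝ) + L.length * h) / h ^ 2 =
        ((Sq (p :: L) : ℝ) + (p :: L).length * h) / h ^ 2 := by
      rw [Sq_cons, List.length_cons]
      push_cast
      ring
    rw [e] at g3
    refine RM_of ?_ g3
    rw [ms_sum, ms_fin, ms_fam, GG_cons]

/-- one level above -/
theorem GM.ofRM {M : Multiset ℕ} {c g τ U : ℝ} (hτ1 : 1 ≤ τ) (hc : 0 ≤ c) (hg : 0 < g)
    (hR : ∀ h, τ ≤ h → h ≤ U → RM M ((c + g * h) / h ^ 2) h) :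
    GM M c (g / 2 + 1) (2 * τ + 1 / 32) (2 * U) := by
  intro H ρ h1 h2 h3 h4
  have hρ0 : 0 < ρ := by linarith
  obtain ⟨e2, e3⟩ := half_bd h3
  obtain ⟨h, hh⟩ : ∃ h : ℝ, h = (2 * (ρ * H) - 1) / (4 * ρ) := ⟨_, rfl⟩
  have e1 : h = H / 2 - 1 / (4 * ρ) := by rw [hh]; exact half_eq h3
  have hh1 : 1 ≤ h := by linarith
  have hh0 : 0 < h := by linarith
  have e4 : 4 * ρ * h ^ 2 = ρ * H ^ 2 - H + 1 / (4 * ρ) := by
    rw [hh]; field_simp; ring
  have hlt : (c + g * h) / h ^ 2 < 4 * ρ := by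
    rw [div_lt_iff₀ (by positivity), e4]
    have g1 : g * h ≤ g * (H / 2) := mul_le_mul_of_nonneg_left (by linarith) hg.le
    have g3 : (g / 2 + 1) * H = g * (H / 2) + H := by ring
    rw [g3] at h4
    linarith
  have hin := hR h (by linarith) (by linarith)
  have hr : NOK h (fam M) ((c + g * h) / h ^ 2) := RR.nok hin (by positivity) le_rfl
  rw [hh] at hr
  refine Sur_LJ hSeq (by linarith) ?_ hr
  rw [← hh]
  exact hlt

/-- a level without a group -/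
theorem GM.lift {M : Multiset ℕ} {c g τ U : ℝ} (h : GM M c g τ U) (hτ1 : 1 ≤ τ) (hg : 0 ≤ g) :
    GM M c (g / 2 + 1) (2 * τ + 1 / 32) (2 * U) := by
  intro H ρ h1 h2 h3 h4
  have hρ0 : 0 < ρ := by linarith
  obtain ⟨e2, e3⟩ := half_bd h3
  obtain ⟨h', hh⟩ : ∃ h' : ℝ, h' = (2 * (ρ * H) - 1) / (4 * ρ) := ⟨_, rfl⟩
  have e1 : h' = H / 2 - 1 / (4 * ρ) := by rw [hh]; exact half_eq h3
  have hh1 : 1 ≤ h' := by linarith
  have hh0 : 0 < h' := by linarith
  have e4 : 4 * ρ * h' ^ 2 = ρ * H ^ 2 - H + 1 / (4 * ρ) := by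
    rw [hh]; field_simp; ring
  obtain ⟨δ, hδ⟩ : ∃ δ : ℝ, δ = 1 / (4 * ρ) / h' ^ 2 := ⟨_, rfl⟩
  have hδ0 : 0 < δ := by rw [hδ]; positivity
  have hδh : δ * h' ^ 2 = 1 / (4 * ρ) := by
    rw [hδ]; field_simp
  have hδ1 : δ ≤ 1 := by
    rw [hδ, div_le_one (by positivity)]
    have : 1 ≤ h' ^ 2 := one_le_pow₀ hh1
    linarith
  have hin := h h' (4 * ρ - δ) (by linarith) (by linarith) (by linarith) (by
    have : (4 * ρ - δ) * h' ^ 2 = 4 * ρ * h' ^ 2 - δ * h' ^ 2 := by ring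
    rw [this, e4, hδh]
    have g2 : g * h' ≤ g * (H / 2) := mul_le_mul_of_nonneg_left (by linarith) hg
    have g3 : (g / 2 + 1) * H = g * (H / 2) + H := by ring
    rw [g3] at h4
    linarith)
  have hr := (RR_of_LJ hin).nok (σ := 4 * ρ - δ) (by linarith) le_rfl
  rw [hh] at hr
  exact Sur_LJ hSeq (by linarith) (by linarith) hr

/-- several levels without groups -/
theorem GM.lifts {M : Multiset ℕ} {c g τ U : ℝ} (h : GM M c (g + 2) τ U) (hτ1 : 1 ≤ τ)
    (hg : 0 ≤ g) (j : ℕ) :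
    GM M c (g / 2 ^ j + 2) (2 ^ j * (τ + 1 / 16) - 1 / 16) (2 ^ j * U) := by
  induction j with
  | zero => simpa using h
  | succ j ih =>
    have hp : (1 : ℝ) ≤ 2 ^ j := one_le_pow₀ (by norm_num)
    have h0 : 1 * (τ + 1 / 16) ≤ 2 ^ j * (τ + 1 / 16) :=
      mul_le_mul_of_nonneg_right hp (by linarith)
    have h1 := ih.lift (by linarith) (by positivity)
    have e : (g / 2 ^ j + 2) / 2 + 1 = g / 2 ^ (j + 1) + 2 := by
      rw [pow_succ]
      field_simp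
      ring
    rw [e] at h1
    refine h1.mono le_rfl le_rfl ?_ ?_ ?_
    · rw [pow_succ]; linarith
    · rw [pow_succ]; linarith
    · rw [pow_succ]; linarith

/-- several groups, one after the other; empty groups are allowed -/
theorem GM_list' {M : Multiset ℕ} {c g τ U W : ℝ} (h : GM M c g τ U) (hg : 2 ≤ g) (hW : 0 ≤ W)
    (hτ : 2 * (W + 1) + 1 / 16 ≤ τ) (L : List (ℕ × ℕ)) :
    (∀ p ∈ L, (p.2 : ℝ) ≤ W ∧ (p.1 : ℝ) * (p.2 + 1) ≤ W + 1) →
    GM (GG L + M) (c + Sq L) g (2 ^ L.length * (τ + 1 / 16) - 1 / 16) (2 ^ L.length * U) := by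
  induction L with
  | nil =>
    intro _
    simpa [GG, Sq] using h
  | cons p L ih =>
    intro hL
    have h1 := ih fun q hq => hL q (List.mem_cons_of_mem _ hq)
    obtain ⟨hp1, hp2⟩ := hL p List.mem_cons_self
    have hpow : (1 : ℝ) ≤ 2 ^ L.length := one_le_pow₀ (by norm_num)
    have h3 : 1 * (τ + 1 / 16) ≤ 2 ^ L.length * (τ + 1 / 16) :=
      mul_le_mul_of_nonneg_right hpow (by linarith)
    have ht : 2 * (W + 1) + 1 / 16 ≤ 2 ^ (p :: L).length * (τ + 1 / 16) - 1 / 16 := by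
      rw [List.length_cons, pow_succ]
      linarith
    rcases Nat.eq_zero_or_pos p.1 with h0 | h0
    · have h2 := h1.lift (by linarith) (by linarith)
      rw [GG_cons, Sq_cons, h0, zero_smul, zero_add, zero_mul, zero_add]
      refine h2.mono le_rfl (by linarith) ?_ (by linarith) ?_
      · rw [List.length_cons, pow_succ]; linarith
      · rw [List.length_cons, pow_succ]; linarith
    · have h2 := h1.step (k := p.1) (l := p.2) h0 (by linarith)
        (τ' := 2 ^ (p :: L).length * (τ + 1 / 16) - 1 / 16)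
        (U' := 2 ^ (p :: L).length * U) (by
          rw [List.length_cons, pow_succ]; linarith) (by linarith) (by linarith) (by
          rw [List.length_cons, pow_succ]; linarith)
      rw [GG_cons, Sq_cons, add_assoc]
      refine h2.mono ?_ (by linarith) le_rfl (by linarith) le_rfl
      push_cast
      linarith

end Pool.Agent.K6.H83.QH
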