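import Pool.Agent.K6.H83.QH.Par

/-! Chains of groups, with a lower bound for the base of the triangle. -/

set_option autoImplicit false

namespace Pool.Agent.K6.H83.QH

open Finset Pool.Agent.TH176.Nag Pool.Agent.TH603.Sur Pool.Agent.TH745.MN Pool.Agent.Y205.FW
  Pool.Agent.TH641.UM Pool.Agent.TH2.NU Filter Topology

/-- a group in the corner of the triangle at a node -/
theorem NOK_rareD {κ : Type} [Fintype κ] {w : κ → ℕ} {k l : ℕ} {H ρ : ℝ} (hk : 1 ≤ k)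
    (hl : (l : ℝ) + 1 < H) (hρ : 0 < ρ) (hkl : (k : ℝ) * (l + 1) ≤ ρ * H)
    (h : Sur w (LJ ρ (ρ * H))) {τ : ℝ} (hτ : ρ + k * (l + 1) ^ 2 / H ^ 2 < τ) :
    NOK H (Sum.elim (fun _ : Fin k => l) w) τ := by
  have hl0 : (0 : ℝ) ≤ l := Nat.cast_nonneg l
  have hH0 : 0 < H := by linarith
  have hk0 : (0 : ℝ) < k := by exact_mod_cast (by omega : 0 < k)
  obtain ⟨V, hV⟩ : ∃ V : ℝ, V = l + 1 := ⟨_, rfl⟩
  have hV0 : 0 < V := by rw [hV]; positivity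
  obtain ⟨Z, hZ⟩ : ∃ Z : ℝ, Z = k * V * (H - V) / H ^ 2 := ⟨_, rfl⟩
  obtain ⟨Y0, hY0⟩ : ∃ Y0 : ℝ, Y0 = k * V / H := ⟨_, rfl⟩
  rw [← hV] at hl hkl hτ
  have hY0p : 0 < Y0 := by rw [hY0]; positivity
  have hY01 : Y0 ≤ ρ := by rw [hY0, div_le_iff₀ hH0]; exact hkl
  have hZY : Z = Y0 - k * V ^ 2 / H ^ 2 := by
    rw [hZ, hY0]; field_simp
  have hVV : 0 < k * V ^ 2 / H ^ 2 := by positivity
  have hX0 : 0 < ρ - Z := by linarith
  have hd : Sur w (RegO (-(Z * H)) (-(Z * H) + ρ * H) Z (ρ - Z)) :=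
    Sur_row (-(Z * H)) (by ring) h
  have e1 : -(Z * H) + ρ * H = (ρ - Z) * H := by ring
  rw [e1] at hd
  have hc := hCor (w := w) (k := k) (l := l) (H := H) (X := ρ - Z) hk
    (by rw [← hV]; exact hl) hX0 (by rw [← hV, ← hZ]; exact hd)
  rw [← hV, ← hY0] at hc
  have hnode : Sur (Sum.elim (fun _ : Fin k => l) w)
      {p : ℤ × ℤ | 0 ≤ p.2 ∧ -(Y0 * (H - 1 - p.2)) < (p.1 : ℝ) ∧
        (p.1 : ℝ) < (ρ - Z) * (H - 1 - p.2)} := by
    refine hc.shift 0 1 ?_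
    rintro ⟨p, q⟩ ⟨h1, h2, h3⟩
    simp only at h1 h2 h3
    refine ⟨by simp only; omega, ?_, ?_⟩
    · simp only; push_cast; linarith
    · simp only; push_cast; linarith
  have c4 : ∀ᶠ ε in 𝓝[>] (0 : ℝ), 0 < ε := eventually_mem_nhdsWithin
  unfold NOK
  filter_upwards [c4] with ε hε
  refine ⟨ρ - Z, ρ - Z + ε, Y0, Y0 + ε, hX0, by linarith, hY0p, by linarith, by linarith, ?_⟩
  intro X Y h1 h2 h3 h4
  refine hnode.mono ?_
  rintro ⟨p, q⟩ ⟨g1, g2, g3⟩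
  simp only at g1 g2 g3
  obtain ⟨t, ht⟩ : ∃ t : ℝ, t = H - 1 - q := ⟨_, rfl⟩
  rw [← ht] at g2 g3
  have ht0 : 0 < t := by
    by_contra hcon
    push Not at hcon
    have g4 : (ρ - Z) * t ≤ 0 := mul_nonpos_of_nonneg_of_nonpos hX0.le hcon
    have g5 : Y0 * t ≤ 0 := mul_nonpos_of_nonneg_of_nonpos hY0p.le hcon
    linarith
  have e2 : Y / (4 * ((1 : ℕ) : ℝ)) * (4 * H - 4 - 4 * ((1 : ℕ) : ℝ) * (q : ℝ)) = Y * t := by
    rw [ht]; push_cast; ring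
  have e3 : X / (4 * ((1 : ℕ) : ℝ)) * (4 * H - 4 - 4 * ((1 : ℕ) : ℝ) * (q : ℝ)) = X * t := by
    rw [ht]; push_cast; ring
  have g4 : Y0 * t ≤ Y * t := mul_le_mul_of_nonneg_right h3.le ht0.le
  have g5 : (ρ - Z) * t ≤ X * t := mul_le_mul_of_nonneg_right h1.le ht0.le
  refine ⟨g1, ?_, ?_⟩
  · simp only
    rw [e2]
    linarith
  · simp only
    rw [e3]
    linarith

/-- independence on all right triangles with height in `[τ, U]`, slope at least `16`, base at least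
`D` and twice the area at least `c + g H` -/
def GD (M : Multiset ℕ) (D c g τ U : ℝ) : Prop :=
  ∀ H ρ : ℝ, τ ≤ H → H ≤ U → 16 ≤ ρ → D ≤ ρ * H → c + g * H ≤ ρ * H ^ 2 →
    Sur (fam M) (LJ ρ (ρ * H))

theorem GM.toGD {M : Multiset ℕ} {c g τ U : ℝ} (h : GM M c g τ U) (D : ℝ) : GD M D c g τ U :=
  fun H ρ h1 h2 h3 _ h5 => h H ρ h1 h2 h3 h5

theorem GD.mono {M : Multiset ℕ} {D c g τ U c' g' τ' U' : ℝ} (h : GD M D c g τ U) (hc : c ≤ c')
    (hg : g ≤ g') (hτ : τ ≤ τ') (hτ0 : 0 ≤ τ') (hU : U' ≤ U) : GD M D c' g' τ' U' := by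
  intro H ρ h1 h2 h3 h4 h5
  refine h H ρ (hτ.trans h1) (h2.trans hU) h3 h4 ?_
  have : g * H ≤ g' * H := mul_le_mul_of_nonneg_right hg (hτ0.trans h1)
  linarith

/-- a level with a group, or without -/
theorem GD.step {M : Multiset ℕ} {D c g τ U : ℝ} (hw : GD M D c g τ U) {k l : ℕ}
    (hg : 0 ≤ g) {τ' U' : ℝ} (hτ : 2 * τ + 1 / 32 ≤ τ') (hl : 4 * ((l : ℝ) + 1) + 1 ≤ τ')
    (hD : 8 ≤ D) (hkl : 2 * ((k : ℝ) * (l + 1)) ≤ D) (hU : U' ≤ 2 * U) :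
    GD (k • {l} + M) D (c + k * (l + 1) ^ 2) (g / 2 + 1) τ' U' := by
  intro H ρ h1 h2 h3 hDH h4
  have hl0 : (0 : ℝ) ≤ l := Nat.cast_nonneg l
  have hk00 : (0 : ℝ) ≤ k := Nat.cast_nonneg k
  have hρ0 : 0 < ρ := by linarith
  obtain ⟨e2, e3⟩ := half_bd h3
  obtain ⟨h, hh⟩ : ∃ h : ℝ, h = (2 * (ρ * H) - 1) / (4 * ρ) := ⟨_, rfl⟩
  have e1 : h = H / 2 - 1 / (4 * ρ) := by rw [hh]; exact half_eq h3
  have e0 : 4 * ρ * h = 2 * (ρ * H) - 1 := by rw [hh]; field_simp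
  have hhl : 2 * ((l : ℝ) + 1) ≤ h := by linarith
  have hh1 : 1 ≤ h := by linarith
  have hh0 : 0 < h := by linarith
  have e4 : 4 * ρ * h ^ 2 = ρ * H ^ 2 - H + 1 / (4 * ρ) := by
    rw [hh]; field_simp; ring
  obtain ⟨x, hx⟩ : ∃ x : ℝ, x = k * (l + 1) ^ 2 / h ^ 2 := ⟨_, rfl⟩
  have hxh : x * h ^ 2 = k * (l + 1) ^ 2 := by
    rw [hx]; field_simp
  have hx0 : 0 ≤ x := by rw [hx]; positivity
  have hxh1 : x * h ≤ ρ * H / 4 := by
    have g1 : (k : ℝ) * (l + 1) * (l + 1) ≤ ρ * H / 2 * (h / 2) :=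
      mul_le_mul (by linarith) (by linarith) (by positivity) (by linarith)
    have g2 : x * h * h ≤ ρ * H / 4 * h := by
      have e : x * h * h = k * (l + 1) * (l + 1) := by
        have : x * h * h = x * h ^ 2 := by ring
        rw [this, hxh]; ring
      rw [e]
      linarith
    exact le_of_mul_le_mul_right g2 hh0
  have hxρ : x ≤ ρ := by
    have g1 : x * h ≤ ρ * h := by
      have g2 : ρ * H ≤ ρ * (4 * h) := mul_le_mul_of_nonneg_left (by linarith) hρ0.le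
      linarith
    exact le_of_mul_le_mul_right g1 hh0
  obtain ⟨δ, hδ⟩ : ∃ δ : ℝ, δ = 1 / (4 * ρ) / h ^ 2 := ⟨_, rfl⟩
  have hδ0 : 0 < δ := by rw [hδ]; positivity
  have hδh : δ * h ^ 2 = 1 / (4 * ρ) := by
    rw [hδ]; field_simp
  have hδh1 : δ * h ≤ 1 := by
    have g1 : δ * h * 1 ≤ δ * h * h := mul_le_mul_of_nonneg_left hh1 (by positivity)
    have g2 : δ * h * h = δ * h ^ 2 := by ring
    linarith
  have hδ1 : δ ≤ 1 := by
    have g1 : δ * 1 ≤ δ * h := mul_le_mul_of_nonneg_left hh1 hδ0.le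
    linarith
  obtain ⟨ρ', hρ'⟩ : ∃ ρ' : ℝ, ρ' = 4 * ρ - x - δ := ⟨_, rfl⟩
  have hρ16 : 16 ≤ ρ' := by linarith
  have hρD : ρ * H ≤ ρ' * h := by
    have e : ρ' * h = 4 * ρ * h - x * h - δ * h := by rw [hρ']; ring
    rw [e, e0]
    linarith
  have hcost : c + g * h ≤ ρ' * h ^ 2 := by
    have g1 : ρ' * h ^ 2 = ρ * H ^ 2 - H - k * (l + 1) ^ 2 := by
      rw [hρ']
      have : (4 * ρ - x - δ) * h ^ 2 = 4 * ρ * h ^ 2 - x * h ^ 2 - δ * h ^ 2 := by ring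
      rw [this, e4, hxh, hδh]
      ring
    have g2 : g * h ≤ g * (H / 2) := mul_le_mul_of_nonneg_left (by linarith) hg
    rw [g1]
    have g3 : (g / 2 + 1) * H = g * (H / 2) + H := by ring
    rw [g3] at h4
    linarith
  have hin := hw h ρ' (by linarith) (by linarith) hρ16 (by linarith) hcost
  have hlt : ρ' + x < 4 * ρ := by linarith
  obtain ⟨σ, g1, g2⟩ := exists_between hlt
  rcases Nat.eq_zero_or_pos k with hk | hk
  · have hr := (RR_of_LJ hin).nok (σ := σ) (by linarith) (by linarith)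
    rw [hh] at hr
    rw [hk, zero_smul, zero_add]
    exact Sur_LJ hSeq (by linarith) g2 hr
  · rw [hx] at g1
    have hr : NOK h (Sum.elim (fun _ : Fin k => l) (fam M)) σ :=
      NOK_rareD hk (by linarith) (by linarith) (by linarith) hin g1
    rw [hh] at hr
    have hS := Sur_LJ hSeq (by linarith) g2 hr
    exact Sur_of_ms (by rw [ms_fam, ms_sum, ms_fin, ms_fam]) hS

/-- several groups, one after the other; empty groups are allowed -/
theorem GD_list {M : Multiset ℕ} {D c g τ U W : ℝ} (h : GD M D c g τ U) (hg : 2 ≤ g)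
    (hD : 8 ≤ D) (hW : 0 ≤ W) (hτ : 4 * (W + 1) + 1 ≤ τ) (L : List (ℕ × ℕ)) :
    (∀ p ∈ L, (p.2 : ℝ) ≤ W ∧ 2 * ((p.1 : ℝ) * (p.2 + 1)) ≤ D) →
    GD (GG L + M) D (c + Sq L) g (2 ^ L.length * (τ + 1 / 16) - 1 / 16) (2 ^ L.length * U) := by
  induction L with
  | nil =>
    intro _
    simpa [GG, Sq] using h
  | cons p L ih =>
    intro hL
    have h1 := ih fun q hq => hL q (List.mem_cons_of_mem _ hq)
    obtain ⟨hp1, hp2⟩ := hL p List.mem_cons_self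
    have hpow : (1 : ℝ) ≤ 2 ^ L.length := one_le_pow₀ (by norm_num)
    have h3 : 1 * (τ + 1 / 16) ≤ 2 ^ L.length * (τ + 1 / 16) :=
      mul_le_mul_of_nonneg_right hpow (by linarith)
    have h2 := h1.step (k := p.1) (l := p.2) (by linarith)
      (τ' := 2 ^ (p :: L).length * (τ + 1 / 16) - 1 / 16)
      (U' := 2 ^ (p :: L).length * U) (by
        rw [List.length_cons, pow_succ]; linarith) (by
        rw [List.length_cons, pow_succ]; linarith) hD hp2 (by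
        rw [List.length_cons, pow_succ]; linarith)
    rw [GG_cons, Sq_cons, add_assoc]
    refine h2.mono ?_ (by linarith) le_rfl (by
      rw [List.length_cons, pow_succ]; linarith) le_rfl
    push_cast
    linarith

/-- **Independence**: blocks side by side, the other groups in the corners. -/
theorem surN {LH Ls : List (ℕ × ℕ)} {v B d J : ℕ} {W U : ℝ} (hB : v + B = d) (hB3 : 64 ≤ B)
    (hU : 2 ^ Ls.length * (2 ^ J * (2 * U)) = ((B : ℝ) + 2) / 4) (hU8 : 8 ≤ U)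
    (hLH : ∀ p ∈ LH, OKb U p) (hne : LH ≠ []) (hs : LH.length ≤ 2 ^ J) (hW : 0 ≤ W)
    (hWU : 4 * (W + 1) + 1 ≤ U)
    (hLs : ∀ p ∈ Ls, (p.2 : ℝ) ≤ W ∧ (p.1 : ℝ) * (p.2 + 1) ≤ d)
    (hcost : (Sq LH : ℝ) + Sq Ls + 5 / 8 * (B + 2) ≤ (d + v + 33 / 10) * (B + 2)) :
    SM ({v} + (GG Ls + GG LH)) (TZ d) := by
  have hlen : 0 < LH.length := List.length_pos_iff.2 hne
  have hlenR : (0 : ℝ) < LH.length := by exact_mod_cast hlen
  have hd : (d : ℝ) = v + B := by rw [← hB]; push_cast; ring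
  have hv0 : (0 : ℝ) ≤ v := Nat.cast_nonneg v
  have hBR : (64 : ℝ) ≤ B := by exact_mod_cast hB3
  have p1 : (1 : ℝ) ≤ 2 ^ J := one_le_pow₀ (by norm_num)
  have p2 : (1 : ℝ) ≤ 2 ^ Ls.length := one_le_pow₀ (by norm_num)
  have g0 : GM (GG LH) (Sq LH) ((LH.length : ℝ) / 2 + 1) (2 * (U - 1 / 16) + 1 / 32) (2 * U) :=
    GM.ofRM (by linarith) (Nat.cast_nonneg _) hlenR fun h h1 h2 => RM_list hU8 h1 h2 LH hLH
  have g1 := g0.mono (g' := (LH.length : ℝ) / 2 + 2) (τ' := 2 * U - 1 / 16) le_rfl (by linarith)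
    (by linarith) (by linarith) le_rfl
  have g2 := g1.lifts (by linarith) (by positivity) J
  have g3 := (g2.mono (g' := 5 / 2) le_rfl (by
    have h1 : ((LH.length : ℝ)) ≤ 2 ^ J := by exact_mod_cast hs
    have h2 : (LH.length : ℝ) / 2 / 2 ^ J ≤ 1 / 2 := by
      rw [div_le_iff₀ (by positivity)]
      linarith
    linarith) (le_refl (2 ^ J * (2 * U - 1 / 16 + 1 / 16) - 1 / 16)) (by
    have h1 : 1 * (2 * U) ≤ 2 ^ J * (2 * U) := mul_le_mul_of_nonneg_right p1 (by linarith)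
    have e : (2 : ℝ) ^ J * (2 * U - 1 / 16 + 1 / 16) = 2 ^ J * (2 * U) := by ring
    rw [e]
    linarith) le_rfl).toGD (4 * ((d : ℝ) + v))
  have e : (2 : ℝ) ^ J * (2 * U - 1 / 16 + 1 / 16) = 2 ^ J * (2 * U) := by ring
  rw [e] at g3
  have hJU : 1 * (2 * U) ≤ 2 ^ J * (2 * U) := mul_le_mul_of_nonneg_right p1 (by linarith)
  have g4 := GD_list g3 (by norm_num) (by rw [hd]; linarith) hW (by linarith) Ls (by
    intro p hp
    obtain ⟨a1, a2⟩ := hLs p hp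
    refine ⟨a1, ?_⟩
    linarith)
  have e' : (2 : ℝ) ^ Ls.length * (2 ^ J * (2 * U) - 1 / 16 + 1 / 16) - 1 / 16 =
      ((B : ℝ) + 2) / 4 - 1 / 16 := by
    rw [← hU]; ring
  rw [e', hU] at g4
  obtain ⟨H, hH⟩ : ∃ H : ℝ, H = ((B : ℝ) + 2) / 4 := ⟨_, rfl⟩
  have hH0 : 0 < H := by rw [hH]; linarith
  obtain ⟨ρ, hρ⟩ : ∃ ρ : ℝ, ρ = (4 * (d : ℝ) + 4 * v + 14 - √2 / 2) / H := ⟨_, rfl⟩
  have hρH : ρ * H = 4 * (d : ℝ) + 4 * v + 14 - √2 / 2 := by rw [hρ]; field_simp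
  have h20 : 0 < √(2 : ℝ) := Real.sqrt_pos.2 (by norm_num)
  have h21 : √(2 : ℝ) < 3 / 2 := by
    rw [Real.sqrt_lt' (by norm_num)]; norm_num
  have g5 : SM (GG Ls + GG LH) (LJ ρ (ρ * H)) := by
    refine g4 H ρ (by rw [hH]; linarith) (by rw [hH]) ?_ ?_ ?_
    · rw [hρ, le_div_iff₀ hH0, hH, hd]
      linarith
    · rw [hρH]
      linarith
    · have e : ρ * H ^ 2 = (ρ * H) * H := by ring
      rw [e, hρH, hH]
      have h6 : ((d : ℝ) + v + 33 / 10) * (B + 2) ≤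
          (4 * (d : ℝ) + 4 * v + 14 - √2 / 2) * (((B : ℝ) + 2) / 4) := by
        have h3 : (0 : ℝ) ≤ (14 - √2 / 2 - 66 / 5) * ((B : ℝ) + 2) :=
          mul_nonneg (by linarith) (by linarith)
        have h4 : (4 * (d : ℝ) + 4 * v + 14 - √2 / 2) * (((B : ℝ) + 2) / 4) =
          (d + v + 33 / 10) * ((B : ℝ) + 2) +
            (14 - √2 / 2 - 66 / 5) * ((B : ℝ) + 2) / 4 := by ring
        rw [h4]
        linarith
      refine le_trans ?_ h6
      linarith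
  exact sur_tzM hB (by omega) hH hρH g5

end Pool.Agent.K6.H83.QH
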