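import Pool.Agent.K6.H83.QH.LeafP

/-! Cells with donors from a pool of classes. -/

set_option autoImplicit false

namespace Pool.Agent.K6.H83.QH

open Finset Pool.Agent.TH176.Nag Pool.Agent.TH603.Sur Pool.Agent.TH745.MN Pool.Agent.Y205.FW
  Pool.Agent.TH641.UM Pool.Agent.TH2.NU Filter Topology

/-- independence from cells of the same height -/
theorem sur_cell {M : Multiset ℕ} {v B d J n : ℕ} {U c : ℝ} (hB : v + B = d) (hB3 : 64 ≤ B)
    (hJ : 2 ^ J * (2 * U) = ((B : ℝ) + 2) / 4) (hU : 64 ≤ U) (hc0 : 0 ≤ c)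
    (hall : CellN M c (1 + n) U)
    (hcost : c + 2 * (n : ℝ) * U + (B + 2) / 2 ≤ (d + v + 33 / 10) * (B + 2)) :
    SM ({v} + M) (TZ d) := by
  have hd : (d : ℝ) = v + B := by rw [← hB]; push_cast; ring
  have hv0 : (0 : ℝ) ≤ v := Nat.cast_nonneg v
  have hBR : (64 : ℝ) ≤ B := by exact_mod_cast hB3
  have p1 : (1 : ℝ) ≤ 2 ^ J := one_le_pow₀ (by norm_num)
  have g0 : GM M c (2 * ((1 + n : ℕ) : ℝ) / 2 + 1) (2 * (U - 1 / 16) + 1 / 32) (2 * U) :=
    GM.ofRM (by linarith) hc0 (by positivity) fun h h1 h2 => hall h h1 h2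
  have g1 := g0.mono (g' := (n : ℝ) + 2) (τ' := 2 * U - 1 / 16) le_rfl (by
    push_cast
    linarith) (by linarith) (by linarith) le_rfl
  have g2 := g1.lifts (by linarith) (by positivity) J
  have e' : (2 : ℝ) ^ J * (2 * U - 1 / 16 + 1 / 16) - 1 / 16 = ((B : ℝ) + 2) / 4 - 1 / 16 := by
    rw [← hJ]; ring
  rw [e', hJ] at g2
  obtain ⟨H, hH⟩ : ∃ H : ℝ, H = ((B : ℝ) + 2) / 4 := ⟨_, rfl⟩
  have hH0 : 0 < H := by rw [hH]; linarith
  obtain ⟨ρ, hρ⟩ : ∃ ρ : ℝ, ρ = (4 * (d : ℝ) + 4 * v + 14 - √2 / 2) / H := ⟨_, rfl⟩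
  have hρH : ρ * H = 4 * (d : ℝ) + 4 * v + 14 - √2 / 2 := by rw [hρ]; field_simp
  have h20 : 0 < √(2 : ℝ) := Real.sqrt_pos.2 (by norm_num)
  have h21 : √(2 : ℝ) < 3 / 2 := by
    rw [Real.sqrt_lt' (by norm_num)]; norm_num
  have g5 : SM M (LJ ρ (ρ * H)) := by
    refine g2 H ρ (by rw [hH]; linarith) (by rw [hH]) ?_ ?_
    · rw [hρ, le_div_iff₀ hH0, hH, hd]
      linarith
    · have e : ρ * H ^ 2 = (ρ * H) * H := by ring
      have e3 : ((n : ℝ) / 2 ^ J + 2) * H = 2 * n * U + 2 * H := by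
        have : H = 2 ^ J * (2 * U) := by rw [hH, hJ]
        rw [add_mul]
        congr 1
        rw [this]
        field_simp
      rw [e, hρH, e3, hH]
      have h6 : ((d : ℝ) + v + 33 / 10) * (B + 2) ≤
          (4 * (d : ℝ) + 4 * v + 14 - √2 / 2) * (((B : ℝ) + 2) / 4) := by
        have h3 : (0 : ℝ) ≤ (14 - √2 / 2 - 66 / 5) * ((B : ℝ) + 2) :=
          mul_nonneg (by linarith) (by linarith)
        have h4 : (4 * (d : ℝ) + 4 * v + 14 - √2 / 2) * (((B : ℝ) + 2) / 4) =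
          (d + v + 33 / 10) * ((B : ℝ) + 2) +
            (14 - √2 / 2 - 66 / 5) * ((B : ℝ) + 2) / 4 := by ring
        rw [h4]
        linarith
      refine le_trans ?_ h6
      linarith
  exact sur_tzM hB (by omega) hH hρH g5

/-- every class with donors is a cell -/
theorem needy {q : ℕ × ℕ} {u0 : ℕ} {U : ℝ} (hU : 64 ≤ U) (hq : 16 * ((q.2 : ℝ) + 1) ≤ U)
    (hu : 16 * ((u0 : ℝ) + 1) ≤ U) :
    ∃ n0 : ℕ, (n0 : ℝ) * (u0 + 1) ^ 2 ≤ 21 * U ^ 2 ∧
      CellN (q.1 • {q.2} + n0 • {u0})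
        ((q.1 : ℝ) * (q.2 + 1) ^ 2 + (n0 : ℝ) * (u0 + 1) ^ 2) 1 U := by
  have hu00 : (0 : ℝ) ≤ u0 := Nat.cast_nonneg u0
  have hp0 : (0 : ℝ) ≤ q.2 := Nat.cast_nonneg _
  have hU2 : 0 ≤ U ^ 2 := sq_nonneg U
  rcases le_or_gt (2 * U) ((q.1 : ℝ) * (q.2 + 1)) with hh | hh
  · by_cases hOK : OKb U q
    · refine ⟨0, by push_cast; linarith, ?_⟩
      have h3 := CellN.block (by linarith) hOK
      simpa using h3
    · obtain ⟨n2, h3, h4⟩ := donors (U := U) (U0 := (u0 : ℝ) + 1) (x := 0) (by positivity)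
        (by linarith) le_rfl
      rw [add_zero] at h3 h4
      refine ⟨n2, by linarith, CellN.medium hU hq hu hh ?_ h3⟩
      unfold OKb at hOK
      by_contra hcon
      push Not at hcon
      exact hOK ⟨Or.inr hcon.le, by linarith, hh⟩
  · obtain ⟨n2, h3, h4⟩ := donors (U := U) (U0 := (u0 : ℝ) + 1)
      (x := 2 * ((q.1 : ℝ) * (q.2 + 1)) * U) (by positivity) (by linarith) (by positivity)
    have h5 := CellN.light (k := q.1) (l := q.2) (n0 := n2) (u0 := u0) hU (by linarith)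
      (by linarith) h3
    refine ⟨n2, ?_, ?_⟩
    · have : (q.1 : ℝ) * (q.2 + 1) * U ≤ 2 * U * U :=
        mul_le_mul_of_nonneg_right hh.le (by linarith)
      have e : 2 * U * U = 2 * U ^ 2 := by ring
      linarith
    · have e1 : n2 • ({u0} : Multiset ℕ) + q.1 • {q.2} = q.1 • {q.2} + n2 • {u0} := add_comm _ _
      first
        | (rw [add_comm ((n2 : ℝ) * (u0 + 1) ^ 2)] at h5; exact h5)

theorem Sq_le' {L : List (ℕ × ℕ)} {β : ℝ} (h : ∀ p ∈ L, (p.1 : ℝ) * (p.2 + 1) ^ 2 ≤ β) :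
    (Sq L : ℝ) ≤ L.length * β := by
  induction L with
  | nil => simp [Sq]
  | cons p L ih =>
    rw [Sq_cons, List.length_cons]
    push_cast
    have h1 := h p List.mem_cons_self
    have h2 := ih fun q hq => h q (List.mem_cons_of_mem _ hq)
    linarith

/-- rich classes are cells -/
theorem cells_rich {U : ℝ} (hU : 64 ≤ U) (P : List (ℕ × ℕ)) :
    P ≠ [] → (∀ p ∈ P, 16 * ((p.2 : ℝ) + 1) ≤ U ∧ 2 * U ^ 2 ≤ (p.1 : ℝ) * (p.2 + 1) ^ 2) →
    CellN (GG P) (Sq P) P.length U := by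
  induction P with
  | nil => intro h _; exact absurd rfl h
  | cons p P ih =>
    intro _ hP
    obtain ⟨h1, h2⟩ := hP p List.mem_cons_self
    have hp0 : (0 : ℝ) ≤ p.2 := Nat.cast_nonneg _
    have hm : 2 * U ≤ (p.1 : ℝ) * (p.2 + 1) := by
      have g1 : 2 * U * U ≤ p.1 * ((p.2 : ℝ) + 1) * U := by
        have g2 : (p.1 : ℝ) * (p.2 + 1) * (p.2 + 1) ≤ p.1 * (p.2 + 1) * U :=
          mul_le_mul_of_nonneg_left (by linarith) (by positivity)
        have e : 2 * U * U = 2 * U ^ 2 := by ring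
        have e2 : (p.1 : ℝ) * (p.2 + 1) * (p.2 + 1) = p.1 * (p.2 + 1) ^ 2 := by ring
        linarith
      exact le_of_mul_le_mul_right g1 (by linarith)
    have c1 : CellN (p.1 • {p.2}) ((p.1 : ℝ) * (p.2 + 1) ^ 2) 1 U :=
      CellN.block (p := p) (by linarith) ⟨Or.inl h2, by linarith, hm⟩
    rcases Nat.eq_zero_or_pos P.length with h0 | h0
    · have hP0 : P = [] := List.eq_nil_of_length_eq_zero h0
      subst hP0
      simpa [GG, Sq] using c1
    · have h3 := ih (List.length_pos_iff.1 h0) fun q hq => hP q (List.mem_cons_of_mem _ hq)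
      have h4 := CellN.add (by linarith) c1 h3 le_rfl (by positivity) (by positivity)
      have e2 : (p.1 : ℝ) * (p.2 + 1) ^ 2 + (Sq P : ℝ) = (Sq (p :: P) : ℝ) := by
        rw [Sq_cons]; push_cast; ring
      rw [e2, ← GG_cons, add_comm 1, ← List.length_cons (a := p)] at h4
      exact h4

/-- poor classes take their donors from the largest class of the pool -/
theorem cells_pool {U : ℝ} (hU : 64 ≤ U) (Q : List (ℕ × ℕ)) :
    (∀ q ∈ Q, 16 * ((q.2 : ℝ) + 1) ≤ U) → ∀ P : List (ℕ × ℕ), P ≠ [] →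
    (∀ p ∈ P, 16 * ((p.2 : ℝ) + 1) ≤ U ∧ 2 * U ^ 2 ≤ (p.1 : ℝ) * (p.2 + 1) ^ 2) →
    (P.length : ℝ) * (23 * U ^ 2) + Q.length * (21 * U ^ 2) ≤ Sq P →
    CellN (GG P + GG Q) (Sq P + Sq Q) (P.length + Q.length) U := by
  induction Q with
  | nil =>
    intro _ P hne hP _
    have := cells_rich hU P hne hP
    simpa [GG, Sq] using this
  | cons q Q ih =>
    intro hQ P hne hP hbig
    have hU2 : 0 ≤ U ^ 2 := sq_nonneg U
    obtain ⟨p0, hp0, hmax⟩ : ∃ p0 ∈ P, ∀ p ∈ P,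
        (p.1 : ℝ) * (p.2 + 1) ^ 2 ≤ (p0.1 : ℝ) * (p0.2 + 1) ^ 2 := by
      have hne' : P.toFinset.Nonempty := by
        obtain ⟨x, hx⟩ := List.exists_mem_of_ne_nil P hne
        exact ⟨x, List.mem_toFinset.2 hx⟩
      obtain ⟨p0, g1, g2⟩ := Finset.exists_max_image P.toFinset
        (fun q => (q.1 : ℝ) * (q.2 + 1) ^ 2) hne'
      exact ⟨p0, List.mem_toFinset.1 g1, fun q hq => g2 q (List.mem_toFinset.2 hq)⟩
    obtain ⟨P', hP'⟩ : ∃ P', P' = P.erase p0 := ⟨_, rfl⟩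
    have hperm : P.Perm (p0 :: P') := by rw [hP']; exact List.perm_cons_erase hp0
    have hlen : P.length = P'.length + 1 := by
      have := hperm.length_eq
      rwa [List.length_cons] at this
    obtain ⟨a1, a2⟩ := hP p0 hp0
    obtain ⟨n0, b1, b2⟩ := needy hU (hQ q List.mem_cons_self) a1
    have hlen0 : (0 : ℝ) < P.length := by
      have := List.length_pos_iff.2 hne
      exact_mod_cast this
    rw [List.length_cons] at hbig
    push_cast at hbig
    have hQ0 : (0 : ℝ) ≤ Q.length * (21 * U ^ 2) := by positivity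
    have hp0big : 23 * U ^ 2 ≤ (p0.1 : ℝ) * (p0.2 + 1) ^ 2 := by
      have g1 : (P.length : ℝ) * (23 * U ^ 2) ≤ P.length * ((p0.1 : ℝ) * (p0.2 + 1) ^ 2) := by
        have := Sq_le' hmax
        linarith
      exact le_of_mul_le_mul_left g1 hlen0
    have hle : n0 ≤ p0.1 := by
      have h1 : (n0 : ℝ) * (p0.2 + 1) ^ 2 ≤ (p0.1 : ℝ) * (p0.2 + 1) ^ 2 := by linarith
      have h2 := le_of_mul_le_mul_right h1 (by positivity)
      exact_mod_cast h2
    obtain ⟨N1, hN1⟩ : ∃ N1, p0.1 = N1 + n0 := ⟨p0.1 - n0, by omega⟩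
    have hN1R : (p0.1 : ℝ) = N1 + n0 := by rw [hN1]; push_cast; ring
    have hSqP : (Sq P : ℝ) = (p0.1 : ℝ) * (p0.2 + 1) ^ 2 + Sq P' := by
      rw [Sq_perm hperm, Sq_cons]; push_cast; ring
    have hSqN : (Sq ((N1, p0.2) :: P') : ℝ) = (N1 : ℝ) * (p0.2 + 1) ^ 2 + Sq P' := by
      rw [Sq_cons]; push_cast; ring
    have hrec := ih (fun q' hq' => hQ q' (List.mem_cons_of_mem _ hq')) ((N1, p0.2) :: P')
      (by simp) (by
        intro p hp
        rcases List.mem_cons.1 hp with rfl | hp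
        · refine ⟨a1, ?_⟩
          simp only
          rw [hN1R, add_mul] at hp0big
          linarith
        · refine hP p ?_
          rw [hP'] at hp
          exact List.mem_of_mem_erase hp) (by
        rw [List.length_cons, hSqN, ← hlen]
        rw [hSqP, hN1R, add_mul] at hbig
        linarith)
    have h4 := CellN.add (by linarith) b2 hrec le_rfl (by positivity) (by positivity)
    have e1 : q.1 • ({q.2} : Multiset ℕ) + n0 • {p0.2} + (GG ((N1, p0.2) :: P') + GG Q) =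
        GG P + GG (q :: Q) := by
      rw [GG_perm hperm, GG_cons, GG_cons, GG_cons, hN1, add_smul]
      abel
    have e2 : (q.1 : ℝ) * (q.2 + 1) ^ 2 + (n0 : ℝ) * (p0.2 + 1) ^ 2 +
        ((Sq ((N1, p0.2) :: P') : ℝ) + Sq Q) = Sq P + Sq (q :: Q) := by
      rw [hSqN, hSqP, hN1R, Sq_cons]; push_cast; ring
    have e3 : 1 + (((N1, p0.2) :: P').length + Q.length) = P.length + (q :: Q).length := by
      rw [List.length_cons, List.length_cons, hlen]; ring
    rw [e1, e2, e3] at h4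
    exact h4

/-- **Independence**: any classes with enough area. -/
theorem surQ {L : List (ℕ × ℕ)} {v B d J : ℕ} {U : ℝ} (hB : v + B = d) (hB3 : 64 ≤ B)
    (hJ : 2 ^ J * (2 * U) = ((B : ℝ) + 2) / 4) (hU : 64 ≤ U)
    (hL : ∀ p ∈ L, 16 * ((p.2 : ℝ) + 1) ≤ U) (hne : L ≠ [])
    (hbig : (L.length : ℝ) * (23 * U ^ 2) ≤ Sq L)
    (hcost : (Sq L : ℝ) + 2 * (L.length : ℝ) * U + (B + 2) / 2 ≤ (d + v + 33 / 10) * (B + 2)) :
    SM ({v} + GG L) (TZ d) := by
  classical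
  have hU2 : 0 < U ^ 2 := by
    have : 0 < U := by linarith
    positivity
  obtain ⟨P, hP⟩ : ∃ P, P = L.filter fun p => decide (2 * U ^ 2 ≤ (p.1 : ℝ) * (p.2 + 1) ^ 2) :=
    ⟨_, rfl⟩
  obtain ⟨Q, hQ⟩ : ∃ Q, Q = L.filter fun p => !decide (2 * U ^ 2 ≤ (p.1 : ℝ) * (p.2 + 1) ^ 2) :=
    ⟨_, rfl⟩
  have hperm : (P ++ Q).Perm L := by
    rw [hP, hQ]
    exact List.filter_append_perm _ _
  have hGG : GG L = GG P + GG Q := by rw [← GG_perm hperm, GG_append]
  have hSq : (Sq L : ℝ) = Sq P + Sq Q := by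
    rw [← Sq_perm hperm]
    unfold Sq
    rw [List.map_append, List.sum_append]
    push_cast
    ring
  have hlen : (L.length : ℝ) = P.length + Q.length := by
    rw [← hperm.length_eq, List.length_append]
    push_cast
    ring
  have hPm : ∀ p ∈ P, 16 * ((p.2 : ℝ) + 1) ≤ U ∧ 2 * U ^ 2 ≤ (p.1 : ℝ) * (p.2 + 1) ^ 2 := by
    intro p hp
    rw [hP, List.mem_filter] at hp
    exact ⟨hL p hp.1, by simpa using hp.2⟩
  have hQm : ∀ q ∈ Q, 16 * ((q.2 : ℝ) + 1) ≤ U ∧ (q.1 : ℝ) * (q.2 + 1) ^ 2 ≤ 2 * U ^ 2 := by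
    intro q hq
    rw [hQ, List.mem_filter] at hq
    refine ⟨hL q hq.1, ?_⟩
    have h1 := hq.2
    simp only [Bool.not_eq_eq_eq_not, Bool.not_true, decide_eq_false_iff_not, not_le] at h1
    exact h1.le
  have hSqQ := Sq_le' fun q hq => (hQm q hq).2
  have hPbig : (P.length : ℝ) * (23 * U ^ 2) + Q.length * (21 * U ^ 2) ≤ Sq P := by
    rw [hSq, hlen, add_mul] at hbig
    linarith
  have hPne : P ≠ [] := by
    intro h0
    rw [h0] at hSq hPbig hlen
    have hQpos : (0 : ℝ) < Q.length := by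
      have := List.length_pos_iff.2 hne
      have h2 : (0 : ℝ) < L.length := by exact_mod_cast this
      rw [hlen] at h2
      simpa using h2
    have h3 : (0 : ℝ) < Q.length * (21 * U ^ 2) := by positivity
    simp only [List.length_nil, Nat.cast_zero, zero_mul, zero_add, Sq, List.map_nil,
      List.sum_nil] at hPbig
    linarith
  have hcell := cells_pool hU Q (fun q hq => (hQm q hq).1) P hPne hPm hPbig
  obtain ⟨n, hn⟩ : ∃ n, P.length + Q.length = 1 + n := by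
    have := List.length_pos_iff.2 hPne
    exact ⟨P.length + Q.length - 1, by omega⟩
  rw [hn] at hcell
  rw [hGG]
  refine sur_cell hB hB3 hJ hU (by positivity) hcell ?_
  rw [← hSq]
  have hnR : (n : ℝ) ≤ L.length := by
    rw [hlen]
    have : ((P.length + Q.length : ℕ) : ℝ) = ((1 + n : ℕ) : ℝ) := by rw [hn]
    push_cast at this
    linarith
  have : 2 * (n : ℝ) * U ≤ 2 * L.length * U :=
    mul_le_mul_of_nonneg_right (by linarith) (by linarith)
  linarith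

end Pool.Agent.K6.H83.QH
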