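import Pool.Agent.K6.H83.QH.LeafB

/-! Several classes: all numbers of points. -/

set_option autoImplicit false

namespace Pool.Agent.K6.H83.QH

open Finset Pool.Agent.TH176.Nag Pool.Agent.TH603.Sur Pool.Agent.TH641.UM Pool.Agent.TH2.NU

/-- emptiness, from the neighbourhood of the critical number -/
theorem sgnE {d m n : ℕ} (hm : 1 ≤ m) {E : Multiset ℕ} (h0 : cM E < (d + 2).choose 2)
    (hnear : ∀ N l : ℕ, N ≤ n → l ≤ m → cM (N • {m} + {l} + E) ≤ (d + 2).choose 2 + m →
      (d + 2).choose 2 ≤ cM (N • {m} + {l} + E) →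
      EM (N • {m} + {l} + E) (↑(TF d) : Set (ℤ × ℤ)))
    (h : (d + 2).choose 2 ≤ cM (n • {m} + E)) :
    EM (n • {m} + E) (↑(TF d) : Set (ℤ × ℤ)) := by
  classical
  obtain ⟨T, hT⟩ : ∃ T, T = (d + 2).choose 2 := ⟨_, rfl⟩
  rw [← hT] at h0 hnear h
  obtain ⟨F, hF⟩ : ∃ F : ℕ → ℕ, ∀ k, F k = cM ((k / m) • {m} + {k % m} + E) := ⟨_, fun _ => rfl⟩
  have hstep : ∀ k, F (k + 1) ≤ F k + m := fun k => by
    rw [hF, hF]; exact F_succM hm E k
  have hmod : ∀ k, k % m ≤ m := fun k => (Nat.mod_lt k hm).le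
  have hFn : F (m * n) = cM (n • {m} + E) := by
    rw [hF, Nat.mul_div_cancel_left _ (by omega), Nat.mul_mod_right, cM_add, cM_add, cM_add,
      cM_single]
    simp
  rw [← hFn] at h
  have hex : ∃ k, T ≤ F k := ⟨_, h⟩
  obtain ⟨k, hk⟩ : ∃ k, k = Nat.find hex := ⟨_, rfl⟩
  have hk1 : T ≤ F k := by rw [hk]; exact Nat.find_spec hex
  have hk2 : k ≤ m * n := by rw [hk]; exact Nat.find_min' hex h
  have hk0 : k ≠ 0 := by
    rintro rfl
    rw [hF, Nat.zero_div, Nat.zero_mod, zero_smul, zero_add, cM_add, cM_single] at hk1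
    simp at hk1
    omega
  obtain ⟨j, rfl⟩ : ∃ j, k = j + 1 := ⟨k - 1, by omega⟩
  have hj : ¬ T ≤ F j := Nat.find_min hex (by omega)
  have hs := hstep j
  have hle : (j + 1) / m ≤ n := Nat.div_le_of_le_mul hk2
  have hE := hnear ((j + 1) / m) ((j + 1) % m) hle (hmod _) (by rw [← hF]; omega)
    (by rw [← hF]; omega)
  rcases hle.eq_or_lt with he | hlt
  · have h0' : (j + 1) % m = 0 := by
      have h3 := Nat.div_add_mod (j + 1) m
      rw [he] at h3
      omega
    rw [he, h0'] at hE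
    refine EM.zero (t := 1) ?_
    have e : n • {m} + E + 1 • {0} = (n • {m} + {0} + E : Multiset ℕ) := by
      rw [one_smul]; abel
    rw [e]
    exact hE
  · have h3 : EM ({m} + (((j + 1) / m) • {m} + E)) (↑(TF d) : Set (ℤ × ℤ)) := by
      refine EM.raise (hmod (j + 1)) ?_
      have e : ({(j + 1) % m} + (((j + 1) / m) • {m} + E) : Multiset ℕ) =
          ((j + 1) / m) • {m} + {(j + 1) % m} + E := by abel
      rw [e]
      exact hE
    refine h3.mono ?_
    obtain ⟨q, hq⟩ : ∃ q, n = (j + 1) / m + 1 + q := ⟨n - ((j + 1) / m + 1), by omega⟩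
    have e : (n • {m} + E : Multiset ℕ) = {m} + (((j + 1) / m) • {m} + E) + q • {m} := by
      conv_lhs => rw [hq, add_smul, add_smul, one_smul]
      abel
    rw [e]
    exact Multiset.le_add_right _ _

/-- the conditions on the classes which are not doubled any more -/
structure DC (r d B : ℕ) (D1 D2 : List (ℕ × ℕ)) : Prop where
  m1 : ∀ p ∈ D1, 1 ≤ p.2
  mB : ∀ p ∈ D1, 2 ^ (5 * r + 13) * (p.2 + 1) ≤ B
  n6 : ∀ p ∈ D1, r * p.1 ≤ 6 * d
  l2 : ∀ p ∈ D2, p.1 = 1 ∧ 2 ^ (5 * r + 13) * (p.2 + 1) ≤ B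

theorem DC.tail {r d B : ℕ} {p : ℕ × ℕ} {D1 D2 : List (ℕ × ℕ)} (h : DC r d B (p :: D1) D2) :
    DC r d B D1 D2 :=
  ⟨fun q hq => h.m1 q (List.mem_cons_of_mem _ hq), fun q hq => h.mB q (List.mem_cons_of_mem _ hq),
    fun q hq => h.n6 q (List.mem_cons_of_mem _ hq), h.l2⟩

theorem DC.add {r d B N m l : ℕ} {D1 D2 : List (ℕ × ℕ)} (h : DC r d B D1 D2) (hm : 1 ≤ m)
    (hmB : 2 ^ (5 * r + 13) * (m + 1) ≤ B) (hN : r * N ≤ 6 * d) (hl : l ≤ m) :
    DC r d B ((N, m) :: D1) ((1, l) :: D2) := by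
  refine ⟨?_, ?_, ?_, ?_⟩
  · intro p hp
    rcases List.mem_cons.1 hp with rfl | hp
    · exact hm
    · exact h.m1 p hp
  · intro p hp
    rcases List.mem_cons.1 hp with rfl | hp
    · exact hmB
    · exact h.mB p hp
  · intro p hp
    rcases List.mem_cons.1 hp with rfl | hp
    · exact hN
    · exact h.n6 p hp
  · intro p hp
    rcases List.mem_cons.1 hp with rfl | hp
    · exact ⟨rfl, le_trans (Nat.mul_le_mul_left _ (by simp only; omega)) hmB⟩
    · exact h.l2 p hp

theorem GG_add {N m l : ℕ} (D1 D2 : List (ℕ × ℕ)) (v : ℕ) :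
    GG ((N, m) :: D1) + GG ((1, l) :: D2) + {v} =
      N • {m} + {l} + (GG D1 + GG D2 + {v}) := by
  rw [GG_cons, GG_cons, one_smul]
  abel

section
variable {r v d B : ℕ}

theorem leafC (hr : 1 ≤ r) (hB : v + B = d) (hBig : 2 ^ (11 * r + 30) ≤ B)
    {D1 D2 : List (ℕ × ℕ)} (h : DC r d B D1 D2) (h1 : D1.length ≤ r) (h2 : D2.length ≤ r) {W : ℕ}
    (hW : 2 ^ (5 * r + 13) * (W + 1) ≤ B)
    (n1 : cM (GG D1 + GG D2 + {v}) ≤ (d + 2).choose 2 + W)
    (n2 : (d + 2).choose 2 ≤ cM (GG D1 + GG D2 + {v}) + W) :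
    XM (TF d) (GG D1 + GG D2 + {v}) := by
  have hT : 2 * (d + 2).choose 2 = (d + 1) * (d + 2) := Pool.Agent.TH2.NU.two_choose (d + 1)
  exact leafB hr h1 h2 hB h.m1 h.mB h.l2 h.n6
    (le_trans (Nat.pow_le_pow_right (by norm_num) (by omega)) hBig) hW (by omega) (by omega)

/-- the number of conditions of few small multiplicities -/
theorem cM_small (hr : 1 ≤ r) (hB : v + B = d) (hBig : 2 ^ (11 * r + 30) ≤ B)
    {D2 : List (ℕ × ℕ)} (h : ∀ p ∈ D2, p.1 = 1 ∧ 2 ^ (5 * r + 13) * (p.2 + 1) ≤ B)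
    (h2 : D2.length ≤ r) : cM (GG D2 + {v}) < (d + 2).choose 2 := by
  have hT : 2 * (d + 2).choose 2 = (d + 1) * (d + 2) := Pool.Agent.TH2.NU.two_choose (d + 1)
  have hv := Pool.Agent.TH2.NU.two_choose v
  have e2 : (d + 1) * (d + 2) = v * (v + 1) + (B + 1) * (B + 2 * v + 2) := by
    rw [← hB]; ring
  have h3 : Lm D2 ≤ D2.length * B ∧ 2 ^ (5 * r + 13) * Lm D2 ≤ D2.length * B := by
    clear h2
    induction D2 with
    | nil => simp [Lm]
    | cons p L ih =>
      obtain ⟨i1, i2⟩ := ih fun q hq => h q (List.mem_cons_of_mem _ hq)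
      obtain ⟨a1, a2⟩ := h p List.mem_cons_self
      rw [Lm_cons, List.length_cons, a1, one_mul, mul_add, add_mul, one_mul]
      have a3 : p.2 + 1 ≤ 2 ^ (5 * r + 13) * (p.2 + 1) := Nat.le_mul_of_pos_left _ (by positivity)
      constructor <;> omega
  have h4 : r ≤ 2 ^ (5 * r + 13) := by
    have g1 : r ≤ 5 * r + 13 := by omega
    exact g1.trans (Nat.lt_two_pow_self).le
  have h5 : Lm D2 ≤ B := by
    have g1 : D2.length * B ≤ 2 ^ (5 * r + 13) * B :=
      Nat.mul_le_mul_right _ (h2.trans h4)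
    exact Nat.le_of_mul_le_mul_left (h3.2.trans g1) (by positivity)
  have h6 := cM_GG_le D2
  have h7 : Lm D2 * Lm D2 ≤ B * B := Nat.mul_le_mul h5 h5
  rw [cM_add, cM_single]
  have e3 : (B + 1) * (B + 2 * v + 2) = B * B + 2 * (v * B) + 3 * B + 2 * v + 2 := by ring
  have := Nat.zero_le (v * B)
  omega

/-- emptiness above the critical number -/
theorem overE (hr : 1 ≤ r) (hB : v + B = d) (hBig : 2 ^ (11 * r + 30) ≤ B) (D1 : List (ℕ × ℕ)) :
    ∀ {D2 : List (ℕ × ℕ)}, DC r d B D1 D2 → D1.length ≤ r → D2.length + 1 ≤ r →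
      (d + 2).choose 2 ≤ cM (GG D1 + GG D2 + {v}) →
      EM (GG D1 + GG D2 + {v}) (↑(TF d) : Set (ℤ × ℤ)) := by
  induction D1 with
  | nil =>
    intro D2 h _ h2 hc
    have h3 := cM_small hr hB hBig h.l2 (by omega)
    have e : GG [] + GG D2 + {v} = GG D2 + {v} := by simp [GG]
    rw [e] at hc
    omega
  | cons p D1 ih =>
    intro D2 h h1 h2 hc
    rw [List.length_cons] at h1
    have e : GG (p :: D1) + GG D2 + {v} = p.1 • {p.2} + (GG D1 + GG D2 + {v}) := by
      rw [GG_cons]; abel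
    rw [e] at hc ⊢
    rcases Nat.lt_or_ge (cM (GG D1 + GG D2 + {v})) ((d + 2).choose 2) with h0 | h0
    · refine sgnE (h.m1 p List.mem_cons_self) h0 (fun N l hN hl n1 n2 => ?_) hc
      have h6 : r * N ≤ 6 * d := (Nat.mul_le_mul_left r hN).trans (h.n6 p List.mem_cons_self)
      have hD := h.tail.add (h.m1 p List.mem_cons_self) (h.mB p List.mem_cons_self) h6 hl
      have hX := leafC hr hB hBig hD (by rw [List.length_cons]; omega)
        (by rw [List.length_cons]; omega) (h.mB p List.mem_cons_self)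
        (by rw [GG_add]; exact n1) (by rw [GG_add]; omega)
      rw [GG_add] at hX
      exact hX.1 (by rw [card_TF]; exact n2)
    · have h3 := ih h.tail (by omega) h2 h0
      rw [add_comm]
      exact h3.add _

/-- one class after the other -/
theorem class_step (hr : 1 ≤ r) (hB : v + B = d) (hBig : 2 ^ (11 * r + 30) ≤ B) {E : Multiset ℕ}
    (hE : (d + 2).choose 2 ≤ cM E → XM (TF d) E) (hEv : v * (v + 1) ≤ 2 * cM E)
    (hlow : ∀ m N l : ℕ, 1 ≤ m → 2 ^ (5 * r + 13) * (m + 1) ≤ B → r * N ≤ 6 * d → l ≤ m →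
      cM (N • {m} + {l} + E) ≤ (d + 2).choose 2 + m →
      (d + 2).choose 2 ≤ cM (N • {m} + {l} + E) + m → XM (TF d) (N • {m} + {l} + E)) (j : ℕ) :
    ∀ m : ℕ, 1 ≤ m → B ≤ m + j → 2 ^ (5 * r + 13) * (m + 1) ≤ B → ∀ n : ℕ,
        XM (TF d) (n • {m} + E) := by
  have t := Pool.Agent.TH2.NU.two_choose
  have hT : 2 * (d + 2).choose 2 = (d + 1) * (d + 2) := t (d + 1)
  obtain ⟨P, hP⟩ : ∃ P, P = 2 ^ (5 * r) := ⟨_, rfl⟩
  have hP1 : 1 ≤ P := by rw [hP]; exact Nat.one_le_two_pow
  have eP : 2 ^ (5 * r + 13) = 8192 * P := by rw [pow_add, ← hP]; ring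
  have hrP : 8 * r ≤ P := by
    have h1 := pow_r hr
    rw [← hP] at h1
    have h2 : r * 1 ≤ r * (r + 1) ^ 2 := Nat.mul_le_mul_left _ (Nat.one_le_pow _ _ (by omega))
    omega
  have hr2 : r ≤ 2 ^ r := (Nat.lt_two_pow_self).le
  have hBP : 1073741824 * (r * (P * P)) ≤ B := by
    refine le_trans ?_ hBig
    have e : 2 ^ (11 * r + 30) = 1073741824 * (2 ^ r * (P * P)) := by
      have e1 : 11 * r + 30 = r + 5 * r + 5 * r + 30 := by ring
      rw [e1, pow_add, pow_add, pow_add, ← hP]
      ring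
    rw [e]
    exact Nat.mul_le_mul_left _ (Nat.mul_le_mul_right _ hr2)
  have hPP1 : 1 ≤ r * (P * P) := by
    have h1 : 1 * 1 ≤ P * P := Nat.mul_le_mul hP1 hP1
    have h2 : 1 * 1 ≤ r * (P * P) := Nat.mul_le_mul hr (by omega)
    omega
  rw [eP]
  rw [eP] at hlow
  induction j with
  | zero =>
    intro m hm h1 h2
    exfalso
    have h3 : m + 1 ≤ 8192 * P * (m + 1) := Nat.le_mul_of_pos_left _ (by omega)
    omega
  | succ j ih =>
    intro m hm h1 h2 n
    rcases Nat.lt_or_ge (cM E) ((d + 2).choose 2) with h0 | h0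
    · refine sgnM hm h0 (fun N l hl g1 g2 => ?_) n
      rcases Nat.lt_or_ge (6 * d) (r * N) with hN | hN
      · -- the next level
        have hrm : 65536 * (r * (m + 1)) ≤ B := by
          have k1 : 8 * r * (m + 1) ≤ P * (m + 1) := Nat.mul_le_mul_right _ hrP
          have k2 : 65536 * (r * (m + 1)) = 8192 * (8 * r * (m + 1)) := by ring
          have k3 : 8192 * P * (m + 1) = 8192 * (P * (m + 1)) := by ring
          omega
        have hN32 : 32 * m + 24 ≤ N := by
          by_contra hcon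
          push Not at hcon
          have k1 : r * N ≤ r * (32 * (m + 1)) := Nat.mul_le_mul_left _ (by omega)
          have k2 : r * (32 * (m + 1)) = 32 * (r * (m + 1)) := by ring
          omega
        have key : 8192 * P * (2 * m + 1 + 1) ≤ B := by
          by_contra hcon
          push Not at hcon
          have e1 : 2 * cM (N • {m} + {l} + E) = N * (m * (m + 1)) + l * (l + 1) + 2 * cM E := by
            rw [cM_add, cM_add, cM_smul, cM_single, ← t m, ← t l]
            ring
          have e2 : (d + 1) * (d + 2) = v * (v + 1) + (B + 1) * (B + 2 * v + 2) := by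
            rw [← hB]; ring
          obtain ⟨X, hX⟩ : ∃ X, X = m * (m + 1) := ⟨_, rfl⟩
          rw [← hX] at e1
          have g4 : N * X ≤ (B + 1) * (B + 2 * v + 2) + 2 * m := by omega
          have g5 : (B + 1) * (B + 2 * v + 2) ≤ (B + 1) * (2 * (d + 1)) :=
            Nat.mul_le_mul_left _ (by omega)
          have hBd : B ≤ d := by omega
          have hB8 : 8 ≤ B := by omega
          have g6 : (B + 1) * (2 * (d + 1)) + 2 * m ≤ 3 * (B * d) := by
            have k1 : 8 * d ≤ B * d := Nat.mul_le_mul_right _ hB8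
            have k2 : (B + 1) * (2 * (d + 1)) = 2 * (B * d) + 2 * B + 2 * d + 2 := by ring
            have k3 : m ≤ B := by
              have : m + 1 ≤ r * (m + 1) := Nat.le_mul_of_pos_left _ hr
              omega
            omega
          have g7 : (6 * d) * X ≤ r * (3 * (B * d)) := by
            calc (6 * d) * X ≤ (r * N) * X := Nat.mul_le_mul_right _ hN.le
              _ = r * (N * X) := by ring
              _ ≤ r * (3 * (B * d)) := Nat.mul_le_mul_left _ (by omega)
          have g8 : d * (2 * X) ≤ d * (r * B) := by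
            have k1 : (6 * d) * X = 3 * (d * (2 * X)) := by ring
            have k2 : r * (3 * (B * d)) = 3 * (d * (r * B)) := by ring
            omega
          have g9 : 2 * X ≤ r * B := Nat.le_of_mul_le_mul_left g8 (by omega)
          have g10 : (m + 1) * (m + 1) ≤ r * B := by
            have : (m + 1) * (m + 1) ≤ 2 * X := by
              rw [hX]
              have : (m + 1) * (m + 1) ≤ (2 * m) * (m + 1) := Nat.mul_le_mul_right _ (by omega)
              have k1 : (2 * m) * (m + 1) = 2 * (m * (m + 1)) := by ring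
              omega
            omega
          have hcon' : B < 16384 * P * (m + 1) := by
            have : 8192 * P * (2 * m + 1 + 1) = 16384 * P * (m + 1) := by ring
            omega
          have g11 : B * B ≤ 268435456 * (r * (P * P)) * B := by
            calc B * B ≤ (16384 * P * (m + 1)) * (16384 * P * (m + 1)) :=
                  Nat.mul_le_mul hcon'.le hcon'.le
              _ = 268435456 * (P * P) * ((m + 1) * (m + 1)) := by ring
              _ ≤ 268435456 * (P * P) * (r * B) := Nat.mul_le_mul_left _ g10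
              _ = 268435456 * (r * (P * P)) * B := by ring
          have g12 : B ≤ 268435456 * (r * (P * P)) := Nat.le_of_mul_le_mul_right g11 (by omega)
          omega
        refine recM (ih (2 * m) (by omega) (by omega) ?_) (ih (2 * m + 1) (by omega) (by omega) key)
          hl g1 g2 hN32
        exact le_trans (Nat.mul_le_mul_left _ (by omega)) key
      · exact hlow m N l hm h2 hN hl g1 g2
    · have hX := hE h0
      refine ⟨fun _ => ?_, fun hc => ?_⟩
      · rw [add_comm]
        exact (hX.1 (by rw [card_TF]; exact h0)).add _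
      · have hn : n = 0 := by
          by_contra hn
          rw [card_TF, cM_add, cM_smul] at hc
          have k1 : 1 ≤ (m + 1).choose 2 := Nat.choose_pos (by omega)
          have k2 : 1 * 1 ≤ n * (m + 1).choose 2 := Nat.mul_le_mul (by omega) k1
          omega
        subst hn
        rw [zero_smul, zero_add] at hc ⊢
        exact hX.2 hc

/-- **All numbers of points.** -/
theorem recB (hr : 1 ≤ r) (hB : v + B = d) (hBig : 2 ^ (11 * r + 30) ≤ B) (R : List (ℕ × ℕ)) :
    ∀ {D1 D2 : List (ℕ × ℕ)}, DC r d B D1 D2 → D1.length + R.length + 1 ≤ r →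
      D2.length + R.length + 1 ≤ r →
      (∀ p ∈ R, 1 ≤ p.2 ∧ 2 ^ (5 * r + 13) * (p.2 + 1) ≤ B) → ∀ m : ℕ, 1 ≤ m →
      2 ^ (5 * r + 13) * (m + 1) ≤ B → ∀ n : ℕ,
        XM (TF d) (n • {m} + (GG R + (GG D1 + GG D2 + {v}))) := by
  have hv := Pool.Agent.TH2.NU.two_choose v
  induction R with
  | nil =>
    intro D1 D2 h h1 h2 _ m hm hmB n
    have e0 : GG [] + (GG D1 + GG D2 + {v}) = GG D1 + GG D2 + {v} := by simp [GG]
    rw [e0]
    simp only [List.length_nil, add_zero] at h1 h2
    refine class_step hr hB hBig (fun hc => ?_) ?_ (fun m' N l hm' hmB' hN hl n1 n2 => ?_) B m hm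
      (by omega) hmB n
    · refine ⟨fun _ => overE hr hB hBig D1 h (by omega) h2 hc, fun hc' => ?_⟩
      rw [card_TF] at hc'
      exact (leafC hr hB hBig h (by omega) (by omega) hmB (by omega) (by omega)).2
        (by rw [card_TF]; exact hc')
    · rw [cM_add, cM_single]
      omega
    · have hX := leafC hr hB hBig (h.add hm' hmB' hN hl) (by rw [List.length_cons]; exact h1)
        (by rw [List.length_cons]; exact h2) hmB' (by rw [GG_add]; exact n1)
        (by rw [GG_add]; exact n2)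
      rw [GG_add] at hX
      exact hX
  | cons p R ihR =>
    intro D1 D2 h h1 h2 hR m hm hmB n
    rw [List.length_cons] at h1 h2
    obtain ⟨hp1, hp2⟩ := hR p List.mem_cons_self
    have hR' : ∀ q ∈ R, 1 ≤ q.2 ∧ 2 ^ (5 * r + 13) * (q.2 + 1) ≤ B :=
      fun q hq => hR q (List.mem_cons_of_mem _ hq)
    have e0 : ∀ M : Multiset ℕ, GG (p :: R) + M = p.1 • {p.2} + (GG R + M) := by
      intro M
      rw [GG_cons]; abel
    refine class_step hr hB hBig (fun _ => ?_) ?_ (fun m' N l hm' hmB' hN hl _ _ => ?_) B m hm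
      (by omega) hmB n
    · rw [e0]
      exact ihR h (by omega) (by omega) hR' p.2 hp1 hp2 p.1
    · rw [cM_add, cM_add _ {v}, cM_single]
      omega
    · have hX := ihR (h.add hm' hmB' hN hl) (by rw [List.length_cons]; omega)
        (by rw [List.length_cons]; omega) hR' p.2 hp1 hp2 p.1
      rw [GG_add] at hX
      have e : N • {m'} + {l} + (GG (p :: R) + (GG D1 + GG D2 + {v})) =
          p.1 • {p.2} + (GG R + (N • {m'} + {l} + (GG D1 + GG D2 + {v}))) := by
        rw [e0]; abel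
      rw [e]
      exact hX

end

end Pool.Agent.K6.H83.QH
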