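import Pool.Agent.K6.H83.QH.LeafP
import Pool.Agent.K6.H83.QH.RecB

/-! The recursion over the classes, with polynomial bounds. -/

set_option autoImplicit false

namespace Pool.Agent.K6.H83.QH

open Finset Pool.Agent.TH176.Nag Pool.Agent.TH603.Sur Pool.Agent.TH641.UM Pool.Agent.TH2.NU

section
variable {r v d B J Xn : ℕ} {U : ℝ}

theorem PP.Upos (P : PP r v d B J Xn U) : 64 ≤ U := by
  have h1 : (1 : ℝ) ≤ Xn := by exact_mod_cast P.hX1
  linarith [P.hX]

theorem PP.XB (P : PP r v d B J Xn U) : 262144 * Xn ≤ B := by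
  have h1 := P.hX
  have h2 := P.hc
  have h3 : (262144 : ℝ) * Xn ≤ B := by linarith
  exact_mod_cast h3

theorem PP.rX (P : PP r v d B J Xn U) : 32 * (r * Xn) ≤ 6 * d := by
  have h1 := P.hX
  have h2 := P.hb
  have h4 : (0 : ℝ) ≤ r := Nat.cast_nonneg r
  have h5 : (r : ℝ) * (64 * Xn) ≤ r * U := mul_le_mul_of_nonneg_left h1 h4
  have h6 : (0 : ℝ) ≤ (r : ℝ) * Xn := by positivity
  have h7 : (32 : ℝ) * (r * Xn) ≤ 6 * d := by
    have e : (r : ℝ) * (64 * Xn) = 64 * (r * Xn) := by ring
    rw [e] at h5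
    linarith
  exact_mod_cast h7

theorem PP.rXX (P : PP r v d B J Xn U) : r * (Xn * Xn) ≤ B * d := by
  have h1 := P.hX
  have h2 := P.hd
  have h3 := P.Upos
  have hr : (1 : ℝ) ≤ r := by exact_mod_cast P.hr
  have hX0 : (0 : ℝ) ≤ Xn := Nat.cast_nonneg _
  have h4 : (Xn : ℝ) ≤ U := by linarith
  have h5 : (Xn : ℝ) * Xn ≤ U * U := mul_le_mul h4 h4 hX0 (by linarith)
  have h6 : (r : ℝ) * (Xn * Xn) ≤ B * d := by
    have g1 : (r : ℝ) * (Xn * Xn) ≤ r * (U * U) := mul_le_mul_of_nonneg_left h5 (by linarith)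
    have g2 : (r : ℝ) * (U * U) * 1 ≤ r * (U * U) * r :=
      mul_le_mul_of_nonneg_left hr (by positivity)
    have e : ((r : ℝ) * U) ^ 2 = r * (U * U) * r := by ring
    rw [e] at h2
    have g3 : 0 ≤ (r : ℝ) * (U * U) * r := by positivity
    linarith
  exact_mod_cast h6

end

/-- the conditions on the classes which are not doubled any more -/
structure DP (r d Xn : ℕ) (D1 D2 : List (ℕ × ℕ)) : Prop where
  m1 : ∀ p ∈ D1, 1 ≤ p.2
  mX : ∀ p ∈ D1, p.2 + 1 ≤ Xn
  n6 : ∀ p ∈ D1, r * p.1 ≤ 6 * d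
  l2 : ∀ p ∈ D2, p.1 = 1 ∧ p.2 + 1 ≤ Xn

theorem DP.tail {r d Xn : ℕ} {p : ℕ × ℕ} {D1 D2 : List (ℕ × ℕ)} (h : DP r d Xn (p :: D1) D2) :
    DP r d Xn D1 D2 :=
  ⟨fun q hq => h.m1 q (List.mem_cons_of_mem _ hq), fun q hq => h.mX q (List.mem_cons_of_mem _ hq),
    fun q hq => h.n6 q (List.mem_cons_of_mem _ hq), h.l2⟩

theorem DP.add {r d Xn N m l : ℕ} {D1 D2 : List (ℕ × ℕ)} (h : DP r d Xn D1 D2) (hm : 1 ≤ m)
    (hmX : m + 1 ≤ Xn) (hN : r * N ≤ 6 * d) (hl : l ≤ m) :
    DP r d Xn ((N, m) :: D1) ((1, l) :: D2) := by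
  refine ⟨?_, ?_, ?_, ?_⟩
  · intro p hp
    rcases List.mem_cons.1 hp with rfl | hp
    · exact hm
    · exact h.m1 p hp
  · intro p hp
    rcases List.mem_cons.1 hp with rfl | hp
    · exact hmX
    · exact h.mX p hp
  · intro p hp
    rcases List.mem_cons.1 hp with rfl | hp
    · exact hN
    · exact h.n6 p hp
  · intro p hp
    rcases List.mem_cons.1 hp with rfl | hp
    · exact ⟨rfl, by simp only; omega⟩
    · exact h.l2 p hp

section
variable {r v d B J Xn : ℕ} {U : ℝ}

theorem leafCP (P : PP r v d B J Xn U)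
    {D1 D2 : List (ℕ × ℕ)} (h : DP r d Xn D1 D2) (h1 : D1.length ≤ r) (h2 : D2.length ≤ r) {W : ℕ}
    (hW : W + 1 ≤ Xn)
    (n1 : cM (GG D1 + GG D2 + {v}) ≤ (d + 2).choose 2 + W)
    (n2 : (d + 2).choose 2 ≤ cM (GG D1 + GG D2 + {v}) + W) :
    XM (TF d) (GG D1 + GG D2 + {v}) := by
  have hT : 2 * (d + 2).choose 2 = (d + 1) * (d + 2) := Pool.Agent.TH2.NU.two_choose (d + 1)
  exact leafP P h1 h2 h.m1 h.mX h.l2 h.n6 hW (by omega) (by omega)

/-- the number of conditions of few small multiplicities -/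
theorem cM_smallP (P : PP r v d B J Xn U)
    {D2 : List (ℕ × ℕ)} (h : ∀ p ∈ D2, p.1 = 1 ∧ p.2 + 1 ≤ Xn)
    (h2 : D2.length ≤ r) : cM (GG D2 + {v}) < (d + 2).choose 2 := by
  have hT : 2 * (d + 2).choose 2 = (d + 1) * (d + 2) := Pool.Agent.TH2.NU.two_choose (d + 1)
  have hv := Pool.Agent.TH2.NU.two_choose v
  have hB := P.hB
  have e2 : (d + 1) * (d + 2) = v * (v + 1) + (B + 1) * (B + 2 * v + 2) := by
    rw [← hB]; ring
  have h3 : 2 * cM (GG D2) ≤ D2.length * (Xn * Xn) := by
    clear h2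
    induction D2 with
    | nil => simp [cM, GG]
    | cons p L ih =>
      have i1 := ih fun q hq => h q (List.mem_cons_of_mem _ hq)
      obtain ⟨a1, a2⟩ := h p List.mem_cons_self
      have a3 := Pool.Agent.TH2.NU.two_choose p.2
      rw [GG_cons, a1, one_smul, cM_add, cM_single, mul_add, a3, List.length_cons, add_mul,
        one_mul]
      have a4 : p.2 * (p.2 + 1) ≤ Xn * Xn := Nat.mul_le_mul (by omega) a2
      omega
  have h4 : D2.length * (Xn * Xn) ≤ r * (Xn * Xn) := Nat.mul_le_mul_right _ h2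
  have h5 := P.rXX
  have h6 : B * d = B * B + v * B := by rw [← hB]; ring
  rw [cM_add, cM_single]
  have e3 : (B + 1) * (B + 2 * v + 2) = B * B + 2 * (v * B) + 3 * B + 2 * v + 2 := by ring
  have := Nat.zero_le (v * B)
  omega

/-- emptiness above the critical number -/
theorem overEP (P : PP r v d B J Xn U) (D1 : List (ℕ × ℕ)) :
    ∀ {D2 : List (ℕ × ℕ)}, DP r d Xn D1 D2 → D1.length ≤ r → D2.length + 1 ≤ r →
      (d + 2).choose 2 ≤ cM (GG D1 + GG D2 + {v}) →
      EM (GG D1 + GG D2 + {v}) (↑(TF d) : Set (ℤ × ℤ)) := by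
  induction D1 with
  | nil =>
    intro D2 h _ h2 hc
    have h3 := cM_smallP P h.l2 (by omega)
    have e : GG [] + GG D2 + {v} = GG D2 + {v} := by simp [GG]
    rw [e] at hc
    omega
  | cons p D1 ih =>
    intro D2 h h1 h2 hc
    rw [List.length_cons] at h1
    have e : GG (p :: D1) + GG D2 + {v} = p.1 • {p.2} + (GG D1 + GG D2 + {v}) := by
      rw [GG_cons]; abel
    rw [e] at hc ⊢
    rcases Nat.lt_or_ge (cM (GG D1 + GG D2 + {v})) ((d + 2).choose 2) with h0 | h0
    · refine sgnE (h.m1 p List.mem_cons_self) h0 (fun N l hN hl n1 n2 => ?_) hc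
      have h6 : r * N ≤ 6 * d := (Nat.mul_le_mul_left r hN).trans (h.n6 p List.mem_cons_self)
      have hD := h.tail.add (h.m1 p List.mem_cons_self) (h.mX p List.mem_cons_self) h6 hl
      have hX := leafCP P hD (by rw [List.length_cons]; omega)
        (by rw [List.length_cons]; omega) (h.mX p List.mem_cons_self)
        (by rw [GG_add]; exact n1) (by rw [GG_add]; omega)
      rw [GG_add] at hX
      exact hX.1 (by rw [card_TF]; exact n2)
    · have h3 := ih h.tail (by omega) h2 h0
      rw [add_comm]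
      exact h3.add _

/-- one class after the other -/
theorem class_stepP (P : PP r v d B J Xn U) {E : Multiset ℕ}
    (hE : (d + 2).choose 2 ≤ cM E → XM (TF d) E) (hEv : v * (v + 1) ≤ 2 * cM E)
    (hlow : ∀ m N l : ℕ, 1 ≤ m → m + 1 ≤ Xn → r * N ≤ 6 * d → l ≤ m →
      cM (N • {m} + {l} + E) ≤ (d + 2).choose 2 + m →
      (d + 2).choose 2 ≤ cM (N • {m} + {l} + E) + m → XM (TF d) (N • {m} + {l} + E)) (j : ℕ) :
    ∀ m : ℕ, 1 ≤ m → Xn ≤ m + j → m + 1 ≤ Xn → ∀ n : ℕ,
        XM (TF d) (n • {m} + E) := by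
  have t := Pool.Agent.TH2.NU.two_choose
  have hT : 2 * (d + 2).choose 2 = (d + 1) * (d + 2) := t (d + 1)
  have hr := P.hr
  have hB := P.hB
  have hXB := P.XB
  have hrX := P.rX
  have hrec := P.hrec
  have hX1 := P.hX1
  induction j with
  | zero =>
    intro m hm h1 h2
    exfalso
    omega
  | succ j ih =>
    intro m hm h1 h2 n
    rcases Nat.lt_or_ge (cM E) ((d + 2).choose 2) with h0 | h0
    · refine sgnM hm h0 (fun N l hl g1 g2 => ?_) n
      rcases Nat.lt_or_ge (6 * d) (r * N) with hN | hN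
      · -- the next level
        have hN32 : 32 * m + 24 ≤ N := by
          by_contra hcon
          push Not at hcon
          have k1 : r * N ≤ r * (32 * Xn) := Nat.mul_le_mul_left _ (by omega)
          have k2 : r * (32 * Xn) = 32 * (r * Xn) := by ring
          omega
        have key : 2 * m + 1 + 1 ≤ Xn := by
          by_contra hcon
          push Not at hcon
          have e1 : 2 * cM (N • {m} + {l} + E) = N * (m * (m + 1)) + l * (l + 1) + 2 * cM E := by
            rw [cM_add, cM_add, cM_smul, cM_single, ← t m, ← t l]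
            ring
          have e2 : (d + 1) * (d + 2) = v * (v + 1) + (B + 1) * (B + 2 * v + 2) := by
            rw [← hB]; ring
          obtain ⟨X, hX⟩ : ∃ X, X = m * (m + 1) := ⟨_, rfl⟩
          rw [← hX] at e1
          have g4 : N * X ≤ (B + 1) * (B + 2 * v + 2) + 2 * m := by omega
          have g5 : (B + 1) * (B + 2 * v + 2) ≤ (B + 1) * (2 * (d + 1)) :=
            Nat.mul_le_mul_left _ (by omega)
          have hBd : B ≤ d := by omega
          have hB8 : 8 ≤ B := by omega
          have g6 : (B + 1) * (2 * (d + 1)) + 2 * m ≤ 3 * (B * d) := by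
            have k1 : 8 * d ≤ B * d := Nat.mul_le_mul_right _ hB8
            have k2 : (B + 1) * (2 * (d + 1)) = 2 * (B * d) + 2 * B + 2 * d + 2 := by ring
            omega
          have g7 : (6 * d) * X ≤ r * (3 * (B * d)) := by
            calc (6 * d) * X ≤ (r * N) * X := Nat.mul_le_mul_right _ hN.le
              _ = r * (N * X) := by ring
              _ ≤ r * (3 * (B * d)) := Nat.mul_le_mul_left _ (by omega)
          have g8 : d * (2 * X) ≤ d * (r * B) := by
            have k1 : (6 * d) * X = 3 * (d * (2 * X)) := by ring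
            have k2 : r * (3 * (B * d)) = 3 * (d * (r * B)) := by ring
            omega
          have g9 : 2 * X ≤ r * B := Nat.le_of_mul_le_mul_left g8 (by omega)
          have g10 : (m + 1) * (m + 1) ≤ r * B := by
            have : (m + 1) * (m + 1) ≤ 2 * X := by
              rw [hX]
              have : (m + 1) * (m + 1) ≤ (2 * m) * (m + 1) := Nat.mul_le_mul_right _ (by omega)
              have k1 : (2 * m) * (m + 1) = 2 * (m * (m + 1)) := by ring
              omega
            omega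
          have g11 : (Xn + 1) * (Xn + 1) ≤ 4 * ((m + 1) * (m + 1)) := by
            calc (Xn + 1) * (Xn + 1) ≤ (2 * (m + 1)) * (2 * (m + 1)) :=
                  Nat.mul_le_mul (by omega) (by omega)
              _ = 4 * ((m + 1) * (m + 1)) := by ring
          have g12 : (Xn + 1) * (Xn + 1) = Xn * Xn + 2 * Xn + 1 := by ring
          omega
        exact recM (ih (2 * m) (by omega) (by omega) (by omega))
          (ih (2 * m + 1) (by omega) (by omega) key) hl g1 g2 hN32
      · exact hlow m N l hm h2 hN hl g1 g2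
    · have hX := hE h0
      refine ⟨fun _ => ?_, fun hc => ?_⟩
      · rw [add_comm]
        exact (hX.1 (by rw [card_TF]; exact h0)).add _
      · have hn : n = 0 := by
          by_contra hn
          rw [card_TF, cM_add, cM_smul] at hc
          have k1 : 1 ≤ (m + 1).choose 2 := Nat.choose_pos (by omega)
          have k2 : 1 * 1 ≤ n * (m + 1).choose 2 := Nat.mul_le_mul (by omega) k1
          omega
        subst hn
        rw [zero_smul, zero_add] at hc ⊢
        exact hX.2 hc

/-- **All numbers of points.** -/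
theorem recP (P : PP r v d B J Xn U) (R : List (ℕ × ℕ)) :
    ∀ {D1 D2 : List (ℕ × ℕ)}, DP r d Xn D1 D2 → D1.length + R.length + 1 ≤ r →
      D2.length + R.length + 1 ≤ r →
      (∀ p ∈ R, 1 ≤ p.2 ∧ p.2 + 1 ≤ Xn) → ∀ m : ℕ, 1 ≤ m →
      m + 1 ≤ Xn → ∀ n : ℕ,
        XM (TF d) (n • {m} + (GG R + (GG D1 + GG D2 + {v}))) := by
  have hv := Pool.Agent.TH2.NU.two_choose v
  induction R with
  | nil =>
    intro D1 D2 h h1 h2 _ m hm hmX n
    have e0 : GG [] + (GG D1 + GG D2 + {v}) = GG D1 + GG D2 + {v} := by simp [GG]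
    rw [e0]
    simp only [List.length_nil, add_zero] at h1 h2
    refine class_stepP P (fun hc => ?_) ?_ (fun m' N l hm' hmX' hN hl n1 n2 => ?_) Xn m hm
      (by omega) hmX n
    · refine ⟨fun _ => overEP P D1 h (by omega) h2 hc, fun hc' => ?_⟩
      rw [card_TF] at hc'
      exact (leafCP P h (by omega) (by omega) hmX (by omega) (by omega)).2
        (by rw [card_TF]; exact hc')
    · rw [cM_add, cM_single]
      omega
    · have hX := leafCP P (h.add hm' hmX' hN hl) (by rw [List.length_cons]; exact h1)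
        (by rw [List.length_cons]; exact h2) hmX' (by rw [GG_add]; exact n1)
        (by rw [GG_add]; exact n2)
      rw [GG_add] at hX
      exact hX
  | cons p R ihR =>
    intro D1 D2 h h1 h2 hR m hm hmX n
    rw [List.length_cons] at h1 h2
    obtain ⟨hp1, hp2⟩ := hR p List.mem_cons_self
    have hR' : ∀ q ∈ R, 1 ≤ q.2 ∧ q.2 + 1 ≤ Xn :=
      fun q hq => hR q (List.mem_cons_of_mem _ hq)
    have e0 : ∀ M : Multiset ℕ, GG (p :: R) + M = p.1 • {p.2} + (GG R + M) := by
      intro M
      rw [GG_cons]; abel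
    refine class_stepP P (fun _ => ?_) ?_ (fun m' N l hm' hmX' hN hl _ _ => ?_) Xn m hm
      (by omega) hmX n
    · rw [e0]
      exact ihR h (by omega) (by omega) hR' p.2 hp1 hp2 p.1
    · rw [cM_add, cM_add _ {v}, cM_single]
      omega
    · have hX := ihR (h.add hm' hmX' hN hl) (by rw [List.length_cons]; omega)
        (by rw [List.length_cons]; omega) hR' p.2 hp1 hp2 p.1
      rw [GG_add] at hX
      have e : N • {m'} + {l} + (GG (p :: R) + (GG D1 + GG D2 + {v})) =
          p.1 • {p.2} + (GG R + (N • {m'} + {l} + (GG D1 + GG D2 + {v}))) := by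
        rw [e0]; abel
      rw [e]
      exact hX

end

end Pool.Agent.K6.H83.QH
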