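import Pool.Agent.K6.H83.QH.LeafQ
import Pool.Agent.Y205.AV.Greedy

/-! Independence: one arbitrary multiplicity and arbitrary bounded multiplicities. -/

set_option autoImplicit false

namespace Pool.Agent.K6.H83.QH

open Finset Pool.Agent.TH176.Nag Pool.Agent.TH603.Sur Pool.Agent.TH745.MN Pool.Agent.Y205.FW
  Pool.Agent.TH641.UM Pool.Agent.TH2.NU Filter Topology

/-- the region left by the arbitrary multiplicity -/
noncomputable def Rg (v B d : ℕ) : Set (ℤ × ℤ) :=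
  LJ ((4 * (d : ℝ) + 4 * v + 14 - √2 / 2) / (((B : ℝ) + 2) / 4))
    ((4 * (d : ℝ) + 4 * v + 14 - √2 / 2) / (((B : ℝ) + 2) / 4) * (((B : ℝ) + 2) / 4))

theorem SM_of_Rg {M : Multiset ℕ} {v B d : ℕ} (hB : v + B = d) (hB3 : 3 ≤ B)
    (h : SM M (Rg v B d)) : SM ({v} + M) (TZ d) := by
  have hH0 : (0 : ℝ) < ((B : ℝ) + 2) / 4 := by positivity
  exact sur_tzM (ρ := (4 * (d : ℝ) + 4 * v + 14 - √2 / 2) / (((B : ℝ) + 2) / 4))
    (H := ((B : ℝ) + 2) / 4) hB hB3 rfl (by field_simp) h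

/-- independence from cells of the same height -/
theorem sur_region {M : Multiset ℕ} {v B d J n : ℕ} {U c : ℝ} (hB : v + B = d) (hB3 : 64 ≤ B)
    (hJ : 2 ^ J * (2 * U) = ((B : ℝ) + 2) / 4) (hU : 64 ≤ U) (hc0 : 0 ≤ c)
    (hall : CellN M c (1 + n) U)
    (hcost : c + 2 * (n : ℝ) * U + (B + 2) / 2 ≤ (d + v + 33 / 10) * (B + 2)) :
    SM M (Rg v B d) := by
  have hd : (d : ℝ) = v + B := by rw [← hB]; push_cast; ring
  have hv0 : (0 : ℝ) ≤ v := Nat.cast_nonneg v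
  have hBR : (64 : ℝ) ≤ B := by exact_mod_cast hB3
  have p1 : (1 : ℝ) ≤ 2 ^ J := one_le_pow₀ (by norm_num)
  have g0 : GM M c (2 * ((1 + n : ℕ) : ℝ) / 2 + 1) (2 * (U - 1 / 16) + 1 / 32) (2 * U) :=
    GM.ofRM (by linarith) hc0 (by positivity) fun h h1 h2 => hall h h1 h2
  have g1 := g0.mono (g' := (n : ℝ) + 2) (τ' := 2 * U - 1 / 16) le_rfl (by
    push_cast
    linarith) (by linarith) (by linarith) le_rfl
  have g2 := g1.lifts (by linarith) (by positivity) J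
  have e' : (2 : ℝ) ^ J * (2 * U - 1 / 16 + 1 / 16) - 1 / 16 = ((B : ℝ) + 2) / 4 - 1 / 16 := by
    rw [← hJ]; ring
  rw [e', hJ] at g2
  unfold Rg
  obtain ⟨H, hH⟩ : ∃ H : ℝ, H = ((B : ℝ) + 2) / 4 := ⟨_, rfl⟩
  rw [← hH]
  have hH0 : 0 < H := by rw [hH]; linarith
  obtain ⟨ρ, hρ⟩ : ∃ ρ : ℝ, ρ = (4 * (d : ℝ) + 4 * v + 14 - √2 / 2) / H := ⟨_, rfl⟩
  rw [← hρ]
  have hρH : ρ * H = 4 * (d : ℝ) + 4 * v + 14 - √2 / 2 := by rw [hρ]; field_simp
  have h20 : 0 < √(2 : ℝ) := Real.sqrt_pos.2 (by norm_num)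
  have h21 : √(2 : ℝ) < 3 / 2 := by
    rw [Real.sqrt_lt' (by norm_num)]; norm_num
  refine g2 H ρ (by rw [hH]; linarith) (by rw [hH]) ?_ ?_
  · rw [hρ, le_div_iff₀ hH0, hH, hd]
    linarith
  · have e : ρ * H ^ 2 = (ρ * H) * H := by ring
    have e3 : ((n : ℝ) / 2 ^ J + 2) * H = 2 * n * U + 2 * H := by
      have : H = 2 ^ J * (2 * U) := by rw [hH, hJ]
      rw [add_mul]
      congr 1
      rw [this]
      field_simp
    rw [e, hρH, e3, hH]
    have h6 : ((d : ℝ) + v + 33 / 10) * (B + 2) ≤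
        (4 * (d : ℝ) + 4 * v + 14 - √2 / 2) * (((B : ℝ) + 2) / 4) := by
      have h3 : (0 : ℝ) ≤ (14 - √2 / 2 - 66 / 5) * ((B : ℝ) + 2) :=
        mul_nonneg (by linarith) (by linarith)
      have h4 : (4 * (d : ℝ) + 4 * v + 14 - √2 / 2) * (((B : ℝ) + 2) / 4) =
        (d + v + 33 / 10) * ((B : ℝ) + 2) +
          (14 - √2 / 2 - 66 / 5) * ((B : ℝ) + 2) / 4 := by ring
      rw [h4]
      linarith
    refine le_trans ?_ h6
    linarith

theorem SM_empty {S : Set (ℤ × ℤ)} : SM 0 S := by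
  have : IsEmpty (Fin (0 : Multiset ℕ).toList.length) := by
    simp only [Multiset.toList_zero, List.length_nil]
    infer_instance
  exact Sur_of_isEmpty _ _

theorem bind_eq (g : ℕ) (xs : Multiset ℕ) :
    (xs.bind fun x => Multiset.replicate g x) = GG (xs.toList.map fun x => (g, x)) := by
  unfold GG
  rw [List.map_map]
  have h1 : (xs.bind fun x => Multiset.replicate g x) =
      (xs.map fun x => Multiset.replicate g x).sum := rfl
  rw [h1]
  conv_lhs => rw [← Multiset.coe_toList xs, Multiset.map_coe, Multiset.sum_coe]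
  congr 1
  refine List.map_congr_left fun x _ => ?_
  simp only [Function.comp]
  exact (Multiset.nsmul_singleton _ _).symm

theorem Sq_bind (g : ℕ) (xs : Multiset ℕ) :
    Sq (xs.toList.map fun x => (g, x)) = g * Pool.Agent.Y205.AV.sq1 xs := by
  unfold Sq Pool.Agent.Y205.AV.sq1
  rw [List.map_map]
  conv_rhs => rw [← Multiset.coe_toList xs, Multiset.map_coe, Multiset.sum_coe,
    ← List.sum_map_mul_left]
  rfl

/-- **Independence**: one arbitrary multiplicity and arbitrary bounded multiplicities. -/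
theorem SM_arb {M : Multiset ℕ} {v B d m Δ : ℕ} (hB : v + B = d) (hm : 1 ≤ m)
    (hM : ∀ x ∈ M, x + 1 ≤ 8 * m) (hB1 : 1024 * m ≤ B) (hΔ : Δ = (B + 1) * (B + 2 * v + 2))
    (h : Pool.Agent.Y205.AV.sq1 M + 524672 * m ^ 2 + Δ / (256 * m) + 1 ≤ Δ) :
    SM ({v} + M) (TZ d) := by
  have hmR : (1 : ℝ) ≤ m := by exact_mod_cast hm
  have hdR : (d : ℝ) = v + B := by rw [← hB]; push_cast; ring
  have hv0 : (0 : ℝ) ≤ v := Nat.cast_nonneg v
  apply SM_of_Rg hB (by omega)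
  refine Pool.Agent.Y205.AV.greedy (S := Rg v B d) (B := 8 * m)
    (A := 8192 * (8 * m) ^ 2 + Δ / (256 * m) + 1) (Δ := Δ) ?_ M.card M 0 le_rfl
    (Nat.zero_le _) (fun x hx => ⟨Nat.zero_le _, hM x hx⟩) (by
      have e : 6 * (8 * m) ^ 2 + 8192 * (8 * m) ^ 2 = 524672 * m ^ 2 := by ring
      omega)
  clear h hM M
  intro M hM h
  obtain ⟨xs, a1, a2, a3⟩ := Pool.Agent.Y205.AV.group_up (g := 8192) (lo := 4 * m) (by norm_num)
    M.card M (8 * m) le_rfl (fun x hx => ⟨by have := (hM x hx).2; omega, (hM x hx).1⟩)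
  have h3 := a3 (Rg v B d) 0
  rw [add_zero, add_zero] at h3
  apply h3
  obtain ⟨P, hP⟩ : ∃ P : List (ℕ × ℕ), P = xs.toList.map fun x => (8192, x) := ⟨_, rfl⟩
  rw [bind_eq, ← hP]
  have hSqP : Sq P = 8192 * Pool.Agent.Y205.AV.sq1 xs := by rw [hP]; exact Sq_bind _ _
  rcases List.eq_nil_or_concat P with h0 | ⟨_, _, h0⟩
  · rw [h0]
    have e : GG ([] : List (ℕ × ℕ)) = 0 := by simp [GG]
    rw [e]
    exact SM_empty
  have hPne : P ≠ [] := by rw [h0]; simp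
  obtain ⟨J, U, hJ, hU1, hU2⟩ := height hm hB1
  have hU0 : 0 < U := by linarith
  have hPm : ∀ p ∈ P, p.1 = 8192 ∧ 4 * m ≤ p.2 ∧ p.2 + 1 ≤ 8 * m := by
    intro p hp
    rw [hP] at hp
    obtain ⟨x, hx, rfl⟩ := List.mem_map.1 hp
    have := a1 x (Multiset.mem_toList.1 hx)
    exact ⟨rfl, this.1, this.2⟩
  have hPa : ∀ p ∈ P, 131072 * (m : ℝ) ^ 2 ≤ (p.1 : ℝ) * (p.2 + 1) ^ 2 := by
    intro p hp
    obtain ⟨g1, g2, g3⟩ := hPm p hp
    have g4 : 4 * (m : ℝ) ≤ (p.2 : ℝ) + 1 := by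
      have : ((4 * m : ℕ) : ℝ) ≤ ((p.2 : ℕ) : ℝ) := by exact_mod_cast g2
      push_cast at this
      linarith
    have g5 : (4 * (m : ℝ)) ^ 2 ≤ ((p.2 : ℝ) + 1) ^ 2 := pow_le_pow_left₀ (by positivity) g4 2
    rw [g1]
    have e : 131072 * (m : ℝ) ^ 2 = 8192 * (4 * m) ^ 2 := by ring
    rw [e]
    push_cast
    linarith
  have hUU : 2 * U ^ 2 ≤ 131072 * (m : ℝ) ^ 2 := by
    have : U ^ 2 ≤ (256 * (m : ℝ)) ^ 2 := pow_le_pow_left₀ hU0.le hU2 2
    have e : (256 * (m : ℝ)) ^ 2 = 65536 * m ^ 2 := by ring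
    linarith
  have hcell := cells_rich (by linarith : 64 ≤ U) P hPne fun p hp => by
    obtain ⟨g1, g2, g3⟩ := hPm p hp
    refine ⟨?_, hUU.trans (hPa p hp)⟩
    have : ((p.2 + 1 : ℕ) : ℝ) ≤ ((8 * m : ℕ) : ℝ) := by exact_mod_cast g3
    push_cast at this
    linarith
  obtain ⟨n, hn⟩ : ∃ n, P.length = 1 + n := by
    have := List.length_pos_iff.2 hPne
    exact ⟨P.length - 1, by omega⟩
  rw [hn] at hcell
  refine sur_region hB (by omega) hJ (by linarith) (by positivity) hcell ?_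
  -- the cost
  have hlen : (P.length : ℝ) * (131072 * (m : ℝ) ^ 2) ≤ Sq P := by
    have : ∀ L : List (ℕ × ℕ), (∀ p ∈ L, 131072 * (m : ℝ) ^ 2 ≤ (p.1 : ℝ) * (p.2 + 1) ^ 2) →
        (L.length : ℝ) * (131072 * (m : ℝ) ^ 2) ≤ Sq L := by
      intro L
      induction L with
      | nil => intro _; simp [Sq]
      | cons p L ih =>
        intro hL
        rw [Sq_cons, List.length_cons]
        push_cast
        have g1 := hL p List.mem_cons_self
        have g2 := ih fun q hq => hL q (List.mem_cons_of_mem _ hq)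
        linarith
    exact this P hPa
  have hnP : (n : ℝ) ≤ P.length := by
    rw [hn]; push_cast; linarith
  have hover : 2 * (n : ℝ) * U * (256 * m) ≤ Sq P := by
    have g1 : 2 * (n : ℝ) * U ≤ 2 * P.length * (256 * m) :=
      mul_le_mul (by linarith) hU2 hU0.le (by positivity)
    have g2 : 2 * (n : ℝ) * U * (256 * m) ≤ 2 * P.length * (256 * m) * (256 * m) :=
      mul_le_mul_of_nonneg_right g1 (by positivity)
    have e : 2 * (P.length : ℝ) * (256 * m) * (256 * m) = P.length * (131072 * (m : ℝ) ^ 2) := by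
      ring
    linarith
  have hdiv : (Δ : ℝ) ≤ ((Δ / (256 * m) : ℕ) + 1) * (256 * m) := by
    have h1 := Nat.lt_div_mul_add (a := Δ) (b := 256 * m) (by omega)
    have h2 : Δ ≤ (Δ / (256 * m) + 1) * (256 * m) := by
      rw [add_mul, one_mul]
      omega
    have h3 : ((Δ : ℕ) : ℝ) ≤ (((Δ / (256 * m) + 1) * (256 * m) : ℕ) : ℝ) := by exact_mod_cast h2
    rw [Nat.cast_mul, Nat.cast_add, Nat.cast_mul] at h3
    push_cast at h3
    exact h3
  obtain ⟨q, hq⟩ : ∃ q, q = Δ / (256 * m) := ⟨_, rfl⟩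
  rw [← hq] at hdiv h
  have hSqR : (Sq P : ℝ) + q + 1 ≤ Δ := by
    have h1 : Sq P + q + 1 ≤ Δ := by
      rw [hSqP]
      omega
    exact_mod_cast h1
  have hSqΔ : (Sq P : ℝ) ≤ Δ := by
    have : (0 : ℝ) ≤ q := Nat.cast_nonneg q
    linarith
  have hq1 : 2 * (n : ℝ) * U ≤ q + 1 := by
    have g1 : 2 * (n : ℝ) * U * (256 * m) ≤ (q + 1) * (256 * m) := by linarith
    exact le_of_mul_le_mul_right g1 (by positivity)
  have hΔR : (Δ : ℝ) = (B + 1) * (B + 2 * v + 2) := by rw [hΔ]; push_cast; ring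
  have e3 : ((d : ℝ) + v + 33 / 10) * (B + 2) =
      (B + 1) * (B + 2 * v + 2) + (23 / 10 * B + 2 * v + 23 / 5) := by
    rw [hdR]; ring
  rw [e3, ← hΔR]
  have hB0 : (0 : ℝ) ≤ B := Nat.cast_nonneg B
  linarith

end Pool.Agent.K6.H83.QH
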