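import Pool.Agent.K6.H83.QH.Chain
import Pool.Agent.TH151.N13.Abs

/-! Independence for the plane with a point of arbitrary multiplicity from independence on one right
triangle with a real slope. -/

set_option autoImplicit false

namespace Pool.Agent.K6.H83.QH

open Finset Pool.Agent.TH176.Nag Pool.Agent.TH603.Sur Pool.Agent.Y205.FW

/-- exponents of the polynomials of degree `d` with a point of multiplicity `v` at the origin -/
def RA (d v : ℕ) : Set (ℤ × ℤ) :=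
  {p : ℤ × ℤ | 0 ≤ p.1 ∧ 0 ≤ p.2 ∧ (v : ℤ) ≤ p.1 + p.2 ∧ p.1 + p.2 ≤ d}

theorem Sur_point {ι : Type} [Fintype ι] {w : ι → ℕ} {d v : ℕ} (hv : v ≤ d + 1)
    (h : Sur w (RA d v)) : Sur (fun o : Option ι => o.elim v w) (TZ d) := by
  have h1 := Pool.Agent.TH151.N13.Sur_abs1 (w := w) v (fun _ => -1) (fun y => (d : ℤ) - y)
    (fun y h0 h1 => by omega) (h.mono (by
      rintro ⟨a, b⟩ ⟨g1, g2, g3, g4⟩
      simp only at g1 g2 g3 g4
      refine ⟨g2, ?_, ?_⟩
      · simp only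
        rcases le_total ((v : ℤ) - b) 0 with h4 | h4
        · rw [max_eq_right h4]; omega
        · rw [max_eq_left h4]; omega
      · simp only; omega))
  refine h1.mono ?_
  rintro ⟨a, b⟩ ⟨g1, g2, g3⟩
  simp only at g1 g2 g3
  exact ⟨by simp only; omega, g1, by simp only; omega⟩

/-- the flattening to the rows of the surface `F_4` -/
theorem Sur_stepB {ι : Type} [Fintype ι] {w : ι → ℕ} {d v B L : ℕ} (hB : v + B = d)
    (hL : 4 * L ≤ B + 1) (h : Sur w (WMS (fun j => 2 * d - 8 * j - 2) L)) : Sur w (RA d v) := by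
  have h1 : Sur w {q : ℤ × ℤ | (q.1 - 2 * q.2, q.2) ∈ WMS (fun j => 2 * d - 8 * j - 2) L} := by
    refine h.comap 1 (-2) 0 1 0 0 (by norm_num) ?_
    rintro ⟨p, k⟩ hp
    refine ⟨(p + 2 * k, k), ?_, ?_⟩
    · have e : ((p + 2 * k, k) : ℤ × ℤ).1 - 2 * ((p + 2 * k, k) : ℤ × ℤ).2 = p := by
        simp
      show (((p + 2 * k, k) : ℤ × ℤ).1 - 2 * ((p + 2 * k, k) : ℤ × ℤ).2, k) ∈
        WMS (fun j => 2 * d - 8 * j - 2) L
      rw [e]
      exact hp
    · ext <;> simp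
  have h2 : Sur w {q : ℤ × ℤ | 0 ≤ q.1 ∧ 0 ≤ q.2 ∧ q.2 ≤ B ∧ q.1 + q.2 ≤ d} := by
    refine Sur_flat 2 1 0 1 (by norm_num) ?_ h1
    rintro ⟨c, k⟩ ⟨a1, a2, a3, a4⟩
    simp only at a1 a2 a3 a4
    obtain ⟨k, rfl⟩ := Int.eq_ofNat_of_zero_le a2
    have e1 : ((k : ℤ) / 2).toNat = k / 2 := by omega
    rw [e1] at a4
    refine ⟨by simp only; omega, -(c / 2), fun s hs1 hs2 => ?_⟩
    simp only at hs2
    refine ⟨?_, ?_, ?_, ?_⟩
    · simp only; omega
    · simp only; omega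
    · simp only; omega
    · simp only; omega
  refine h2.comap 1 0 (-1) (-1) 0 d (by norm_num) ?_
  rintro ⟨i, j⟩ ⟨a1, a2, a3, a4⟩
  simp only at a1 a2 a3 a4
  refine ⟨(i, d - i - j), ⟨a1, ?_, ?_, ?_⟩, ?_⟩
  · simp only; omega
  · simp only; omega
  · simp only; omega
  · ext
    · simp
    · simp only; ring

/-- the flattening of a trapezoid along its diagonal -/
theorem flat_trap {ι : Type} [Fintype ι] {w : ι → ℕ} {W0 W1 hT μ x y : ℝ} {z : ℤ} {L : ℕ}
    (hW : W1 = W0 - 16 * hT) (hμ : μ * hT = W1) (hμ0 : 0 < μ)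
    (hxy : x + y = 1) (hz : (z : ℝ) = μ + 16 * y) (hL1 : (L : ℝ) < hT)
    (hL2 : hT ≤ L + 1)
    (h : Sur w (RegO (-(y * W0) - W1) (x * W0) μ (z + 16 * x))) :
    Sur w {p : ℤ × ℤ | 0 ≤ p.2 ∧ p.2 < L ∧ -(y * (W0 - 16 * (p.2 + 1))) < (p.1 : ℝ) ∧
      (p.1 : ℝ) < x * (W0 - 16 * (p.2 + 1))} := by
  have h1 : Sur w {p : ℤ × ℤ | (p.1 - z, p.2 + 1) ∈
      RegO (-(y * W0) - W1) (x * W0) μ (z + 16 * x)} := by
    refine h.shift (-z) 1 ?_
    rintro ⟨p, q⟩ hp
    show (((p, q) : ℤ × ℤ).1 - -z - z, ((p, q) : ℤ × ℤ).2 - 1 + 1) ∈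
      RegO (-(y * W0) - W1) (x * W0) μ (z + 16 * x)
    have e1 : ((p, q) : ℤ × ℤ).1 - -z - z = p := by simp
    have e2 : ((p, q) : ℤ × ℤ).2 - 1 + 1 = q := by simp
    rw [e1, e2]
    exact hp
  refine Sur_flat 1 (-z) 1 0 (by ring) ?_ h1
  rintro ⟨p1, p2⟩ ⟨a1, a2, a3⟩
  simp only at a1 a2 a3
  push_cast at a2 a3
  obtain ⟨q, hq⟩ : ∃ q : ℝ, q = (p1 : ℝ) - z := ⟨_, rfl⟩
  rw [← hq] at a2 a3
  have hp2 : 0 ≤ p2 := by omega
  have hp2' : (0 : ℝ) ≤ p2 := by exact_mod_cast hp2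
  have hν : (z + 16 * x) * hT = W0 := by
    have : (z : ℝ) + 16 * x = μ + 16 := by rw [hz]; linarith
    rw [this]
    linarith
  have hν0 : 0 < (z : ℝ) + 16 * x := by
    have : (z : ℝ) + 16 * x = μ + 16 := by rw [hz]; linarith
    linarith
  rcases le_or_gt (-(y * W0)) q with hc | hc
  · refine ⟨hp2, 0, fun s hs1 hs2 => ?_⟩
    simp only at hs2
    have c1 : (0 : ℝ) ≤ s := by exact_mod_cast hs1
    have c2 : (s : ℝ) ≤ p2 := by
      have : s ≤ p2 := by omega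
      exact_mod_cast this
    have c3 : (z + 16 * x) * ((p2 : ℝ) + 1) < W0 := by
      have : x * W0 + y * W0 = W0 := by rw [← add_mul, hxy, one_mul]
      linarith
    have c4 : (p2 : ℝ) + 1 < hT := by
      rw [← hν] at c3
      exact lt_of_mul_lt_mul_left c3 hν0.le
    refine ⟨?_, ?_, ?_, ?_⟩
    · simp only; omega
    · simp only
      have : (p2 : ℝ) < L := by linarith
      have h5 : p2 < (L : ℤ) := by exact_mod_cast this
      omega
    · simp only
      push_cast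
      have e : (1 * (p1 : ℝ) - -(z : ℝ) * s) = q + z * (s + 1) := by rw [hq]; ring
      have e' : (0 * (p1 : ℝ) + 1 * s) = (s : ℝ) := by ring
      rw [e, e', hz]
      have : 0 < μ * ((s : ℝ) + 1) := by positivity
      nlinarith
    · simp only
      push_cast
      have e : (1 * (p1 : ℝ) - -(z : ℝ) * s) = q + z * (s + 1) := by rw [hq]; ring
      have e' : (0 * (p1 : ℝ) + 1 * s) = (s : ℝ) := by ring
      rw [e, e']
      have : (z + 16 * x) * ((s : ℝ) + 1) ≤ (z + 16 * x) * ((p2 : ℝ) + 1) :=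
        mul_le_mul_of_nonneg_left (by linarith) hν0.le
      nlinarith
  · have c4 : (p2 : ℝ) + 1 < hT := by
      have : μ * ((p2 : ℝ) + 1) < μ * hT := by rw [hμ]; linarith
      exact lt_of_mul_lt_mul_left this hμ0.le
    have c5 : p2 < (L : ℤ) := by
      have : (p2 : ℝ) < L := by linarith
      exact_mod_cast this
    refine ⟨hp2, L - 1 - p2, fun s hs1 hs2 => ?_⟩
    simp only at hs2
    have hs1' : (((L : ℤ) - 1 - p2 : ℤ) : ℝ) ≤ s := by exact_mod_cast hs1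
    push_cast at hs1'
    have hsL : s < L := by omega
    have hsL' : (s : ℝ) + 1 ≤ L := by exact_mod_cast (by omega : s + 1 ≤ (L : ℤ))
    refine ⟨?_, ?_, ?_, ?_⟩
    · simp only; omega
    · simp only; omega
    · simp only
      push_cast
      have e : (1 * (p1 : ℝ) - -(z : ℝ) * s) = q + z * (s + 1) := by rw [hq]; ring
      have e' : (0 * (p1 : ℝ) + 1 * s) = (s : ℝ) := by ring
      rw [e, e', hz]
      have g1 : μ * (hT - (p2 + 1)) ≤ μ * ((s : ℝ) + 1) :=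
        mul_le_mul_of_nonneg_left (by linarith) hμ0.le
      have g2 : μ * (hT - (p2 + 1)) = W1 - μ * (p2 + 1) := by rw [mul_sub, hμ]
      nlinarith
    · simp only
      push_cast
      have e : (1 * (p1 : ℝ) - -(z : ℝ) * s) = q + z * (s + 1) := by rw [hq]; ring
      have e' : (0 * (p1 : ℝ) + 1 * s) = (s : ℝ) := by ring
      rw [e, e']
      have g1 : (z + 16 * x) * ((s : ℝ) + 1) < (z + 16 * x) * hT :=
        mul_lt_mul_of_pos_left (by linarith) hν0
      rw [hν] at g1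
      have : x * W0 + y * W0 = W0 := by rw [← add_mul, hxy, one_mul]
      nlinarith

/-- independence for the plane with a point of multiplicity `v` -/
theorem sur_tz {ι : Type} [Fintype ι] {w : ι → ℕ} {d v B : ℕ} (hB : v + B = d) (hB3 : 3 ≤ B)
    {ρ H : ℝ} (hH : H = ((B : ℝ) + 2) / 4) (hρ : ρ * H = 4 * d + 4 * v + 14 - √2 / 2)
    (h : Sur w (LJ ρ (ρ * H))) : Sur w (RA d v) := by
  have h2 : √2 * √2 = (2 : ℝ) := Real.mul_self_sqrt (by norm_num)
  have h20 : 0 < √(2 : ℝ) := Real.sqrt_pos.2 (by norm_num)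
  have h21 : √(2 : ℝ) < 3 / 2 := by
    rw [Real.sqrt_lt' (by norm_num)]; norm_num
  have hdR : (d : ℝ) = v + B := by rw [← hB]; push_cast; ring
  have hv0 : (0 : ℝ) ≤ v := Nat.cast_nonneg v
  have hBR : (3 : ℝ) ≤ B := by exact_mod_cast hB3
  have hH0 : 0 < H := by rw [hH]; linarith
  obtain ⟨W0, hW0⟩ : ∃ W0 : ℝ, W0 = 4 * d + 11 - √2 / 4 := ⟨_, rfl⟩
  obtain ⟨W1, hW1⟩ : ∃ W1 : ℝ, W1 = 4 * v + 3 - √2 / 4 := ⟨_, rfl⟩
  have hW : W1 = W0 - 16 * H := by rw [hW0, hW1, hH, hdR]; ring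
  have hW10 : 0 < W1 := by rw [hW1]; linarith
  obtain ⟨μ, hμ⟩ : ∃ μ : ℝ, μ = W1 / H := ⟨_, rfl⟩
  have hμH : μ * H = W1 := by rw [hμ]; field_simp
  have hμ0 : 0 < μ := by rw [hμ]; positivity
  obtain ⟨z, hz⟩ : ∃ z : ℤ, z = ⌊μ⌋ + 8 := ⟨_, rfl⟩
  have hz1 := Int.floor_le μ
  have hz2 := Int.lt_floor_add_one μ
  have hzR : (z : ℝ) = (⌊μ⌋ : ℝ) + 8 := by rw [hz]; push_cast; ring
  obtain ⟨y, hy⟩ : ∃ y : ℝ, y = (z - μ) / 16 := ⟨_, rfl⟩
  have hy0 : 0 < y := by rw [hy, hzR]; linarith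
  have hy1 : y < 1 := by rw [hy, hzR]; linarith
  have hzy : (z : ℝ) = μ + 16 * y := by rw [hy]; ring
  obtain ⟨x, hx⟩ : ∃ x : ℝ, x = 1 - y := ⟨_, rfl⟩
  have hx0 : 0 < x := by linarith
  have hxy : x + y = 1 := by linarith
  obtain ⟨L, hL⟩ : ∃ L : ℕ, L = (B + 1) / 4 := ⟨_, rfl⟩
  have hL1 : (L : ℝ) < H := by
    have : 4 * L ≤ B + 1 := by omega
    have h3 : ((4 * L : ℕ) : ℝ) ≤ ((B + 1 : ℕ) : ℝ) := by exact_mod_cast this
    push_cast at h3
    rw [hH]
    linarith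
  have hL2 : H ≤ L + 1 := by
    have : B + 2 ≤ 4 * L + 4 := by omega
    have h3 : ((B + 2 : ℕ) : ℝ) ≤ ((4 * L + 4 : ℕ) : ℝ) := by exact_mod_cast this
    push_cast at h3
    rw [hH]
    linarith
  -- the slope
  have hρ' : μ + (z + 16 * x) = ρ := by
    have g1 : (μ + (z + 16 * x)) * H = ρ * H := by
      have : (z : ℝ) + 16 * x = μ + 16 := by rw [hzy]; linarith
      rw [this, hρ]
      have e : (μ + (μ + 16)) * H = 2 * (μ * H) + 16 * H := by ring
      rw [e, hμH, hW1, hH, hdR]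
      ring
    exact mul_right_cancel₀ hH0.ne' g1
  have hreg : Sur w (RegO (-(y * W0) - W1) (x * W0) μ (z + 16 * x)) := by
    have g1 := Sur_row (w := w) (-(y * W0) - W1) hρ' h
    have e : -(y * W0) - W1 + ρ * H = x * W0 := by
      rw [hρ]
      have e1 : x * W0 + y * W0 = W0 := by rw [← add_mul, hxy, one_mul]
      have e2 : W0 + W1 = 4 * d + 4 * v + 14 - √2 / 2 := by rw [hW0, hW1]; ring
      linarith
    rwa [e] at g1
  have htrap := flat_trap hW hμH hμ0 hxy hzy hL1 hL2 hreg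
  -- irrationality
  have hirr : Irrational (x / y) := by
    rintro ⟨r, hr⟩
    have hr1 : (0 : ℝ) < 1 + r := by
      have : 0 < x / y := div_pos hx0 hy0
      rw [← hr] at this
      linarith
    have hyr : y * (1 + r) = 1 := by
      rw [hr]
      field_simp
      linarith
    have hyr' : y = 1 / (1 + r) := by
      field_simp
      linarith
    have e1 : μ * (B + 2) = 4 * (4 * v + 3) - √2 := by
      have g1 : μ * (((B : ℝ) + 2) / 4) = W1 := by rw [← hH]; exact hμH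
      rw [hW1] at g1
      linarith
    have e2 : √2 = 4 * (4 * v + 3) - (z - 16 * y) * (B + 2) := by
      have : μ = z - 16 * y := by rw [hzy]; ring
      rw [← this, e1]
      ring
    apply irrational_sqrt_two
    refine ⟨4 * (4 * v + 3) - (z - 16 * (1 / (1 + r))) * (B + 2), ?_⟩
    rw [e2, hyr']
    push_cast
    ring
  have hlast : Sur w (WMS (fun j => 2 * d - 8 * j - 2) L) := by
    refine hSeq (w := w) (m := fun j => 2 * d - 8 * j - 2) (L := L) ?_ ?_ hx0 hy0 (by linarith)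
      hirr ?_
    · intro j hj
      omega
    · intro j hj
      omega
    · refine htrap.mono ?_
      rintro ⟨p1, p2⟩ ⟨a1, a2, a3, a4⟩
      simp only at a1 a2 a3 a4
      obtain ⟨l, rfl⟩ := Int.eq_ofNat_of_zero_le a1
      have hlL : l < L := by exact_mod_cast a2
      have hm : ((2 * d - 8 * l - 2 : ℕ) : ℝ) = 2 * d - 8 * l - 2 := by
        have : 8 * l + 2 ≤ 2 * d := by omega
        rw [Nat.sub_sub, Nat.cast_sub this]
        push_cast
        ring
      refine ⟨by simp, by simp only; exact_mod_cast hlL, ?_, ?_⟩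
      · simp only [Int.toNat_natCast]
        rw [hm]
        rw [Int.cast_natCast] at a3
        have : y * (W0 - 16 * ((l : ℝ) + 1)) ≤ y * (2 * (2 * d - 8 * l - 2) - 1) :=
          mul_le_mul_of_nonneg_left (by rw [hW0]; linarith) hy0.le
        linarith
      · simp only [Int.toNat_natCast]
        rw [hm]
        rw [Int.cast_natCast] at a4
        have : x * (W0 - 16 * ((l : ℝ) + 1)) ≤ x * (2 * (2 * d - 8 * l - 2) - 1) :=
          mul_le_mul_of_nonneg_left (by rw [hW0]; linarith) hx0.le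
        linarith
  exact Sur_stepB hB (by omega) hlast

/-- **Independence** for a point of multiplicity `v`, `a` points of multiplicity `2 m`, one of
multiplicity `m'` and `b` points of multiplicity `m`. -/
theorem sur_end {a b m m' d v B : ℕ} (hB : v + B = d) (hBm : 64 * m + 32 ≤ B) (hb1 : 1 ≤ b)
    (hb4 : b ≤ 4) (hm : m' ≤ m) (ha : B + 2 ≤ 32 * (a * (2 * m + 1)))
    (hc : (a : ℝ) * (2 * m + 1) ^ 2 + (m' + 1) ^ 2 + b * (m + 1) ^ 2 + 7 / 16 * (B + 2) ≤
      (d + v + 33 / 10) * (B + 2)) :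
    Sur (fun o : Option (Fin b ⊕ (Fin 1 ⊕ Fin a)) => o.elim v
      (Sum.elim (fun _ : Fin b => m) (Sum.elim (fun _ : Fin 1 => m') (fun _ : Fin a => 2 * m))))
      (TZ d) := by
  have h20 : 0 < √(2 : ℝ) := Real.sqrt_pos.2 (by norm_num)
  have h21 : √(2 : ℝ) < 3 / 2 := by
    rw [Real.sqrt_lt' (by norm_num)]; norm_num
  have hdR : (d : ℝ) = v + B := by rw [← hB]; push_cast; ring
  have hv0 : (0 : ℝ) ≤ v := Nat.cast_nonneg v
  have hm0 : (0 : ℝ) ≤ m := Nat.cast_nonneg m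
  have hBR : 64 * (m : ℝ) + 32 ≤ B := by exact_mod_cast hBm
  obtain ⟨H, hH⟩ : ∃ H : ℝ, H = ((B : ℝ) + 2) / 4 := ⟨_, rfl⟩
  have hH0 : 0 < H := by rw [hH]; linarith
  obtain ⟨ρ, hρ⟩ : ∃ ρ : ℝ, ρ = (4 * d + 4 * v + 14 - √2 / 2) / H := ⟨_, rfl⟩
  have hρH : ρ * H = 4 * d + 4 * v + 14 - √2 / 2 := by rw [hρ]; field_simp
  refine Sur_point (by omega) (sur_tz hB (by omega) hH hρH ?_)
  refine sur_chain hb1 hb4 hm (by rw [hH]; linarith) ?_ ?_ ?_
  · have h1 : ((B + 2 : ℕ) : ℝ) ≤ ((32 * (a * (2 * m + 1)) : ℕ) : ℝ) := by exact_mod_cast ha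
    push_cast at h1
    rw [hH]
    linarith
  · rw [hρ, le_div_iff₀ hH0, hH, hdR]
    linarith
  · have e : ρ * H ^ 2 = (ρ * H) * H := by ring
    rw [e, hρH, hH]
    have h1 : (d + v + 33 / 10) * ((B : ℝ) + 2) ≤
        (4 * d + 4 * v + 14 - √2 / 2) * (((B : ℝ) + 2) / 4) := by
      have h3 : (0 : ℝ) ≤ (14 - √2 / 2 - 66 / 5) * ((B : ℝ) + 2) :=
        mul_nonneg (by linarith) (by linarith)
      have h4 : (4 * d + 4 * v + 14 - √2 / 2) * (((B : ℝ) + 2) / 4) =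
        (d + v + 33 / 10) * ((B : ℝ) + 2) + (14 - √2 / 2 - 66 / 5) * ((B : ℝ) + 2) / 4 := by ring
      rw [h4]
      linarith
    linarith

end Pool.Agent.K6.H83.QH
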